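import Pool.Agent.Work.MP_3d425c_gt.Gl.Mk
import Pool.Agent.Work.MP_3d425c_gt.Ta.Defs
import Pool.Agent.Work.MP_3d425c_gt.To.Bl
import Pool.Agent.Work.MP_3d425c_gt.Md.Flow
import Pool.Agent.Work.MP_3d425c_gt.Ta.Ball
import Pool.Agent.Work.MP_3d425c_gt.To.SfQf
import Pool.Agent.Work.MP_3d425c_gt.To.AxC
import Pool.Agent.Work.MP_3d425c_gt.Sm.T1
import Mathlib
import Pool.Agent.Work.MP_3d425c_gt.Sm.K0
import Pool.Agent.Work.MP_3d425c_gt.Nh.Tree
import Pool.Agent.Work.MP_3d425c_gt.Bg.End1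
import Pool.Agent.Work.MP_3d425c_gt.Ta.Fw
import Pool.Agent.Work.MP_3d425c_gt.To.Axis

-- merged part: Pool.Agent.Work.MP_3d425c_gt.To.Grp
section
/-! Groups whose centralisers are malnormal of rank at most two: class functions, cones, orders. -/

namespace Pool.Agent.Work.MP_3d425c_gt.Gr
open Set Pool.Agent.Work.MP_3d425c_gt.Cy

variable {G : Type*} [Group G]

/-- centralisers embed in the rank two lattice and are malnormal -/
structure Csa (G : Type*) [Group G] : Prop where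
  emb : ∀ a : G, a ≠ 1 → ∃ f : G → ℤ × ℤ,
    (∀ x y, x * a = a * x → y * a = a * y → f (x * y) = f x + f y) ∧
      ∀ x y, x * a = a * x → y * a = a * y → f x = f y → x = y
  mn : ∀ g a : G, a ≠ 1 → g * a * g⁻¹ * a = a * (g * a * g⁻¹) → g * a = a * g

/-- commensurable elements -/
def Dep (a b : G) : Prop := ∃ m n : ℤ, (m ≠ 0 ∨ n ≠ 0) ∧ a ^ m = b ^ n

/-- class functions that are additive on commuting pairs -/
structure CF (s : G → ℝ) : Prop where
  conj : ∀ g a, s (g * a * g⁻¹) = s a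
  add : ∀ a b, a * b = b * a → s (a * b) = s a + s b

/-- additive on a subgroup -/
def Ad {Λ : Type*} [AddCommGroup Λ] (E : Subgroup G) (χ : G → Λ) : Prop :=
  ∀ a ∈ E, ∀ b ∈ E, χ (a * b) = χ a + χ b

section
variable {Λ : Type*} [AddCommGroup Λ] {E : Subgroup G} {χ : G → Λ}

theorem Ad.one (h : Ad E χ) : χ 1 = 0 := by
  simpa using h 1 E.one_mem 1 E.one_mem

theorem Ad.inv (h : Ad E χ) {a : G} (ha : a ∈ E) : χ a⁻¹ = - χ a := by
  have := h a ha _ (E.inv_mem ha)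
  rw [mul_inv_cancel, h.one] at this
  exact eq_neg_of_add_eq_zero_right this.symm

theorem Ad.zpow (h : Ad E χ) {a : G} (ha : a ∈ E) (n : ℤ) : χ (a ^ n) = n • χ a := by
  induction n using Int.induction_on with
  | zero => simp [h.one]
  | succ n ih => rw [zpow_add_one, h _ (E.zpow_mem ha _) a ha, ih, add_smul, one_smul]
  | pred n ih =>
    rw [zpow_sub_one, h _ (E.zpow_mem ha _) _ (E.inv_mem ha), ih, h.inv ha, sub_smul, one_smul,
      sub_eq_add_neg]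

theorem Ad.conj (h : Ad E χ) {g a : G} (hg : g ∈ E) (ha : a ∈ E) : χ (g * a * g⁻¹) = χ a := by
  rw [h _ (E.mul_mem hg ha) _ (E.inv_mem hg), h g hg a ha, h.inv hg]
  abel

theorem Ad.mono (h : Ad E χ) {K : Subgroup G} (k : K ≤ E) : Ad K χ :=
  fun a ha b hb => h a (k ha) b (k hb)

theorem Ad.gen {φ : G → ℤ} (h : Ad E φ) : ∃ α ∈ E, ∀ x ∈ E, ∃ n : ℤ, φ x = n * φ α := by
  let S : AddSubgroup ℤ := ⟨⟨⟨φ '' E, by
    rintro _ _ ⟨a, ha, rfl⟩ ⟨b, hb, rfl⟩
    exact ⟨_, E.mul_mem ha hb, h a ha b hb⟩⟩, 1, E.one_mem, h.one⟩, by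
    rintro _ ⟨a, ha, rfl⟩
    exact ⟨_, E.inv_mem ha, h.inv ha⟩⟩
  obtain ⟨a, ha⟩ := Int.subgroup_cyclic S
  obtain ⟨α, hα, rfl⟩ : a ∈ S := ha ▸ AddSubgroup.subset_closure rfl
  refine ⟨α, hα, fun x hx => ?_⟩
  have m : φ x ∈ S := ⟨x, hx, rfl⟩
  rw [ha] at m
  obtain ⟨n, hn⟩ := AddSubgroup.mem_closure_singleton.1 m
  exact ⟨n, hn.symm⟩

end

/-- the centraliser of an element -/
abbrev Zc (a : G) : Subgroup G := Subgroup.centralizer {a}

theorem mem_Zc {a x : G} : x ∈ Zc a ↔ x * a = a * x := Subgroup.mem_centralizer_singleton_iff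

theorem Csa.emb' (h : Csa G) {a : G} (ha : a ≠ 1) : ∃ f : G → ℤ × ℤ, Ad (Zc a) f ∧ InjOn f (Zc a) :=
  (h.emb a ha).imp fun _ k => ⟨fun x hx y hy => k.1 x y (mem_Zc.1 hx) (mem_Zc.1 hy),
    fun x hx y hy => k.2 x y (mem_Zc.1 hx) (mem_Zc.1 hy)⟩

theorem Csa.ct (h : Csa G) {a b c : G} (hb : b ≠ 1) (h1 : a * b = b * a) (h2 : c * b = b * c) :
    a * c = c * a := by
  obtain ⟨f, k, k'⟩ := h.emb' hb
  have ha := mem_Zc.2 h1
  have hc := mem_Zc.2 h2
  exact k' (mul_mem ha hc) (mul_mem hc ha) (by rw [k a ha c hc, k c hc a ha, add_comm])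

theorem Csa.zpow_eq_one (h : Csa G) {a : G} {n : ℤ} (hn : n ≠ 0) (e : a ^ n = 1) : a = 1 := by
  by_contra ha
  obtain ⟨f, k, k'⟩ := h.emb' ha
  have m : a ∈ Zc a := mem_Zc.2 rfl
  have := k.zpow m n
  rw [e, k.one, eq_comm, smul_eq_zero_iff_right hn] at this
  exact ha (k' m (one_mem _) (by rw [this, k.one]))

theorem Csa.tf (h : Csa G) (a : G) (ha : a ≠ 1) : ¬ IsOfFinOrder a := fun k => by
  obtain ⟨n, hn, e⟩ := isOfFinOrder_iff_zpow_eq_one.1 k
  exact ha (h.zpow_eq_one hn e)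

theorem Csa.zpow_inj (h : Csa G) {g : G} (hg : g ≠ 1) {i j : ℤ} (e : g ^ i = g ^ j) : i = j :=
  injective_zpow_iff_not_isOfFinOrder.mpr (h.tf g hg) e

theorem Csa.root (h : Csa G) {a b : G} {n : ℤ} (hn : n ≠ 0) (e : a ^ n * b = b * a ^ n) :
    a * b = b * a := by
  by_cases ha : a = 1
  · simp [ha]
  · exact h.ct (fun k => ha (h.zpow_eq_one hn k)) (Commute.self_zpow a n).eq e.symm

theorem Csa.conj_eq (h : Csa G) {g a : G} (e : g * a * g⁻¹ * a = a * (g * a * g⁻¹)) :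
    g * a * g⁻¹ = a := by
  by_cases ha : a = 1
  · simp [ha]
  · rw [h.mn g a ha e, mul_inv_cancel_right]

theorem Csa.sub (h : Csa G) (A : Subgroup G) : Csa A :=
  ⟨fun a ha => by
    obtain ⟨f, k, k'⟩ := h.emb a fun e => ha (Subtype.ext e)
    exact ⟨fun x => f x, fun x y hx hy => k x y (congrArg Subtype.val hx) (congrArg Subtype.val hy),
      fun x y hx hy e => Subtype.ext (k' x y (congrArg Subtype.val hx) (congrArg Subtype.val hy) e)⟩,
    fun g a ha e => Subtype.ext (h.mn g a (fun e => ha (Subtype.ext e)) (congrArg Subtype.val e))⟩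

/-- the hypothesis in its usual form -/
theorem csa_of (tf : ∀ a : G, a ≠ 1 → ¬ IsOfFinOrder a)
    (cent : ∀ a : G, a ≠ 1 → IsCyclic (Subgroup.centralizer ({a} : Set G)) ∨
      Nonempty (Subgroup.centralizer ({a} : Set G) ≃* Multiplicative (ℤ × ℤ)))
    (mn : ∀ g a : G, a ≠ 1 → g * a * g⁻¹ * a = a * (g * a * g⁻¹) → g * a = a * g) : Csa G := by
  classical
  refine ⟨fun a ha => ?_, mn⟩
  obtain ⟨f, hf⟩ : ∃ f : Zc a →* Multiplicative (ℤ × ℤ), Function.Injective f := by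
    rcases cent a ha with k | ⟨⟨e⟩⟩
    · have : Infinite (Zc a) := Infinite.of_injective
        (fun n : ℤ => (⟨a ^ n, (Zc a).zpow_mem (mem_Zc.2 rfl) n⟩ : Zc a)) fun i j e =>
        injective_zpow_iff_not_isOfFinOrder.mpr (tf a ha) (congrArg Subtype.val e)
      exact ⟨(AddMonoidHom.toMultiplicative (AddMonoidHom.inl ℤ ℤ)).comp
        (intCyclicMulEquiv (G := Zc a)).symm.toMonoidHom, fun x y e =>
        (intCyclicMulEquiv (G := Zc a)).symm.injective (congrArg (fun v => v.toAdd.1) e)⟩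
    · exact ⟨e.toMonoidHom, e.injective⟩
  refine ⟨fun x => if k : x ∈ Zc a then (f ⟨x, k⟩).toAdd else 0, fun x y hx hy => ?_,
    fun x y hx hy e => ?_⟩
  · beta_reduce
    rw [dif_pos (mem_Zc.2 hx), dif_pos (mem_Zc.2 hy), dif_pos (mul_mem (mem_Zc.2 hx) (mem_Zc.2 hy)),
      ← toAdd_mul, ← map_mul]
    rfl
  · beta_reduce at e
    rw [dif_pos (mem_Zc.2 hx), dif_pos (mem_Zc.2 hy)] at e
    exact congrArg Subtype.val (hf e)

theorem Dep.symm {a b : G} (h : Dep a b) : Dep b a :=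
  let ⟨m, n, k, e⟩ := h; ⟨n, m, k.symm, e.symm⟩

theorem dep_one (a : G) : Dep a 1 := ⟨0, 1, .inr one_ne_zero, by simp⟩

theorem Dep.conj {a b : G} (h : Dep a b) (g : G) : Dep (g * a * g⁻¹) (g * b * g⁻¹) :=
  let ⟨m, n, k, e⟩ := h; ⟨m, n, k, by rw [conj_zpow, conj_zpow, e]⟩

theorem dep_conj {a b g : G} : Dep (g * a * g⁻¹) (g * b * g⁻¹) ↔ Dep a b :=
  ⟨fun h => by simpa [mul_assoc] using h.conj g⁻¹, fun h => h.conj g⟩

theorem dep_zpow (a : G) (i j : ℤ) : Dep (a ^ i) (a ^ j) := by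
  by_cases h : i = 0
  · subst h
    simpa using (dep_one _).symm
  · exact ⟨j, i, .inr h, by rw [← zpow_mul, ← zpow_mul, mul_comm]⟩

theorem Dep.ne (h : Csa G) {a b : G} (k : Dep a b) (ha : a ≠ 1) (hb : b ≠ 1) :
    ∃ m n : ℤ, m ≠ 0 ∧ n ≠ 0 ∧ a ^ m = b ^ n := by
  obtain ⟨m, n, k, e⟩ := k
  refine ⟨m, n, ?_, ?_, e⟩
  · rintro rfl
    exact hb (h.zpow_eq_one (k.resolve_left (by simp)) (by simpa using e.symm))
  · rintro rfl
    exact ha (h.zpow_eq_one (k.resolve_right (by simp)) (by simpa using e))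

theorem Dep.comm (h : Csa G) {a b : G} (k : Dep a b) : a * b = b * a := by
  by_cases ha : a = 1
  · simp [ha]
  by_cases hb : b = 1
  · simp [hb]
  obtain ⟨m, n, hm, -, e⟩ := k.ne h ha hb
  exact h.root hm (by rw [e]; exact (Commute.zpow_self b n).eq)

theorem Dep.trans (h : Csa G) {a b c : G} (k : Dep a b) (k' : Dep b c) (hb : b ≠ 1) : Dep a c := by
  by_cases ha : a = 1
  · exact ha ▸ (dep_one c).symm
  by_cases hc : c = 1
  · exact hc ▸ dep_one a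
  obtain ⟨m, n, hm, -, e⟩ := k.ne h ha hb
  obtain ⟨i, j, hi, -, e'⟩ := k'.ne h hb hc
  exact ⟨m * i, j * n, .inl (mul_ne_zero hm hi), by
    rw [zpow_mul, e, zpow_mul, ← e', ← zpow_mul, ← zpow_mul, mul_comm]⟩

/-- rank at most two -/
theorem Csa.rel3 (h : Csa G) {u v x : G} (n : ¬ Dep u v) (hv : v * u = u * v) (hx : x * u = u * x) :
    ∃ l i j : ℤ, l ≠ 0 ∧ x ^ l = u ^ i * v ^ j := by
  have hu : u ≠ 1 := fun e => n (e ▸ (dep_one v).symm)
  obtain ⟨f, k, k'⟩ := h.emb' hu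
  have mu : u ∈ Zc u := mem_Zc.2 rfl
  have mv := mem_Zc.2 hv
  have mx := mem_Zc.2 hx
  have rel : ∀ i j : ℤ, i • f u = j • f v → u ^ i = v ^ j := fun i j e =>
    k' (zpow_mem mu i) (zpow_mem mv j) (by rw [k.zpow mu, k.zpow mv, e])
  refine ⟨(f u).1 * (f v).2 - (f u).2 * (f v).1, (f x).1 * (f v).2 - (f x).2 * (f v).1,
    (f u).1 * (f x).2 - (f u).2 * (f x).1, fun e => n ?_,
    k' (zpow_mem mx _) (mul_mem (zpow_mem mu _) (zpow_mem mv _)) ?_⟩
  · by_cases a : (f u).1 = 0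
    · refine ⟨(f v).2, (f u).2, .inr fun b => hu (k' mu (one_mem _) ?_), rel _ _ ?_⟩
      · rw [k.one]
        exact Prod.ext a b
      · ext <;> simp only [Prod.smul_fst, Prod.smul_snd, smul_eq_mul] <;> linarith
    · refine ⟨(f v).1, (f u).1, .inr a, rel _ _ ?_⟩
      ext <;> simp only [Prod.smul_fst, Prod.smul_snd, smul_eq_mul] <;> linarith
  · rw [k _ (zpow_mem mu _) _ (zpow_mem mv _), k.zpow mx, k.zpow mu, k.zpow mv]
    ext <;> simp only [Prod.smul_fst, Prod.smul_snd, smul_eq_mul, Prod.fst_add, Prod.snd_add] <;> ring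

/-- abelian subgroups have two generators -/
theorem Csa.two_gen (h : Csa G) {K : Subgroup G} (hab : ∀ a ∈ K, ∀ b ∈ K, a * b = b * a) :
    ∃ α ∈ K, ∃ β ∈ K, ∀ x ∈ K, ∃ m n : ℤ, x = α ^ m * β ^ n := by
  by_cases e : ∀ x ∈ K, x = 1
  · exact ⟨1, one_mem _, 1, one_mem _, fun x hx => ⟨0, 0, by simp [e x hx]⟩⟩
  push Not at e
  obtain ⟨κ, hκ, n⟩ := e
  obtain ⟨f, k, k'⟩ := h.emb' n
  have le : K ≤ Zc κ := fun x hx => mem_Zc.2 (hab x hx κ hκ)
  have k1 := k.mono le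
  obtain ⟨β, hβ, b⟩ := Ad.gen (E := K) (φ := fun x => (f x).1) fun x hx y hy => by
    simp [k1 x hx y hy]
  let K₀ : Subgroup G := ⟨⟨⟨{x | x ∈ K ∧ (f x).1 = 0}, fun {x y} hx hy => ⟨mul_mem hx.1 hy.1, by
    simp [k1 x hx.1 y hy.1, hx.2, hy.2]⟩⟩, one_mem _, by simp [k.one]⟩,
    fun {x} hx => ⟨inv_mem hx.1, by simp [k1.inv hx.1, hx.2]⟩⟩
  obtain ⟨α, hα, a⟩ := Ad.gen (E := K₀) (φ := fun x => (f x).2) fun x hx y hy => by
    simp [k1 x hx.1 y hy.1]
  refine ⟨α, hα.1, β, hβ, fun x hx => ?_⟩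
  obtain ⟨j, hj⟩ := b x hx
  have m := mul_mem hx (zpow_mem hβ (-j))
  have m0 : (f (x * β ^ (-j))).1 = 0 := by
    rw [k1 x hx _ (zpow_mem hβ _), k1.zpow hβ]
    simp [hj]
  obtain ⟨i, hi⟩ := a _ ⟨m, m0⟩
  refine ⟨i, j, ?_⟩
  rw [← k' (le m) (le (zpow_mem hα.1 i)) (by
    rw [k1.zpow hα.1]
    exact Prod.ext (by rw [m0]; simp [hα.2]) (by rw [hi]; simp))]
  simp

theorem Csa.fg (h : Csa G) {K : Subgroup G} (hab : ∀ a ∈ K, ∀ b ∈ K, a * b = b * a) : K.FG := by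
  classical
  obtain ⟨α, hα, β, hβ, k⟩ := h.two_gen hab
  refine ⟨{α, β}, le_antisymm ((Subgroup.closure_le _).2 ?_) fun x hx => ?_⟩
  · simp [insert_subset_iff, hα, hβ]
  · obtain ⟨m, n, rfl⟩ := k x hx
    exact mul_mem (zpow_mem (Subgroup.subset_closure (by simp)) _)
      (zpow_mem (Subgroup.subset_closure (by simp)) _)

/-- subgroups of rank one are cyclic -/
theorem Csa.cyc (h : Csa G) {K : Subgroup G} (d : ∀ a ∈ K, ∀ b ∈ K, Dep a b) :
    ∃ α ∈ K, ∀ x ∈ K, ∃ n : ℤ, x = α ^ n := by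
  by_cases e : ∀ x ∈ K, x = 1
  · exact ⟨1, one_mem _, fun x hx => ⟨0, by simp [e x hx]⟩⟩
  push Not at e
  obtain ⟨κ, hκ, n⟩ := e
  obtain ⟨f, k, k'⟩ := h.emb' n
  have le : K ≤ Zc κ := fun x hx => mem_Zc.2 ((d x hx κ hκ).comm h)
  have k1 := k.mono le
  obtain ⟨φ, hφ, n'⟩ : ∃ φ : G → ℤ, Ad K φ ∧ φ κ ≠ 0 := by
    by_cases a : (f κ).1 = 0
    · exact ⟨fun x => (f x).2, fun x hx y hy => by simp [k1 x hx y hy], fun b =>
        n (k' (le hκ) (one_mem _) (by rw [k.one]; exact Prod.ext a b))⟩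
    · exact ⟨fun x => (f x).1, fun x hx y hy => by simp [k1 x hx y hy], a⟩
  obtain ⟨α, hα, a⟩ := hφ.gen
  refine ⟨α, hα, fun x hx => ?_⟩
  obtain ⟨i, hi⟩ := a x hx
  refine ⟨i, ?_⟩
  by_contra ne
  have m := mul_mem hx (zpow_mem hα (-i))
  obtain ⟨p, q, -, hq, e⟩ := (d _ m κ hκ).ne h (fun e => ne (by
    rwa [zpow_neg, mul_inv_eq_one] at e)) n
  have := congrArg φ e
  rw [hφ.zpow m, hφ.zpow hκ, hφ x hx _ (zpow_mem hα _), hφ.zpow hα, hi] at this
  simp [hq, n'] at this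

variable {s S : G → ℝ}

theorem CF.ad (h : CF s) {K : Subgroup G} (hab : ∀ a ∈ K, ∀ b ∈ K, a * b = b * a) : Ad K s :=
  fun a ha b hb => h.add a b (hab a ha b hb)

theorem CF.one (h : CF s) : s 1 = 0 := by simpa using h.add 1 1 rfl

theorem CF.zpow (h : CF s) (a : G) (n : ℤ) : s (a ^ n) = n * s a := by
  have := (h.ad (K := Subgroup.zpowers a) (by
    rintro _ ⟨i, rfl⟩ _ ⟨j, rfl⟩
    exact (Commute.zpow_zpow_self a i j).eq)).zpow (Subgroup.mem_zpowers a) n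
  simpa using this

theorem CF.inv (h : CF s) (a : G) : s a⁻¹ = - s a := by simpa using h.zpow a (-1)

theorem CF.pow (h : CF s) (a : G) (n : ℕ) : s (a ^ n) = n * s a := by simpa using h.zpow a n

theorem CF.sub (h : CF s) (A : Subgroup G) : CF fun a : A => s a :=
  ⟨fun g a => h.conj g a, fun a b e => h.add a b (congrArg Subtype.val e)⟩

/-- characters chosen on representatives of the classes of centralisers -/
theorem exists_cf (h : Csa G) (Φ : G → (G → ℝ) → Prop)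
    (ex : ∀ a, a ≠ 1 → ∃ σ, Ad (Zc a) σ ∧ Φ a σ)
    (tr : ∀ a g b σ τ, a ≠ 1 → b ≠ 1 → g * b * g⁻¹ ∈ Zc a → (∀ x ∈ Zc b, τ x = σ (g * x * g⁻¹)) →
      Φ a σ → Φ b τ) : ∃ s, CF s ∧ ∀ a, a ≠ 1 → Φ a s := by
  classical
  let R : Setoid {a : G // a ≠ 1} := ⟨fun a b => ∃ g, g * a.1 * g⁻¹ ∈ Zc b.1,
    fun a => ⟨1, mem_Zc.2 (by simp)⟩, fun {a b} ⟨g, k⟩ => ⟨g⁻¹, mem_Zc.2 (by
      have := congrArg (fun x => g⁻¹ * x * g) (mem_Zc.1 k)
      simpa [mul_assoc] using this.symm)⟩, fun {a b c} ⟨g, k⟩ ⟨g', k'⟩ => ⟨g' * g, mem_Zc.2 (by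
      refine h.ct (b := g' * b.1 * g'⁻¹) (by simpa using b.2) ?_ (mem_Zc.1 k').symm
      have := congrArg (fun x => g' * x * g'⁻¹) (mem_Zc.1 k)
      simpa [mul_assoc] using this)⟩⟩
  let ρ : {a : G // a ≠ 1} → {a : G // a ≠ 1} := fun a => (Quotient.mk R a).out
  have hρ : ∀ a, ∃ g, g * a.1 * g⁻¹ ∈ Zc (ρ a).1 := fun a => R.symm (Quotient.mk_out (s := R) a)
  have eρ : ∀ a b, R a b → ρ a = ρ b := fun a b k => congrArg Quotient.out (Quotient.sound k)
  choose γ hγ using hρ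
  choose σ hσ hΦ using ex
  let s : G → ℝ := fun a => if k : a = 1 then 0 else σ _ (ρ ⟨a, k⟩).2 (γ ⟨a, k⟩ * a * (γ ⟨a, k⟩)⁻¹)
  have key : ∀ (b : {a : G // a ≠ 1}) (x g : G), g * x * g⁻¹ ∈ Zc (ρ b).1 →
      s x = σ _ (ρ b).2 (g * x * g⁻¹) := by
    intro b x g k
    by_cases e : x = 1
    · simp [s, e, (hσ _ (ρ b).2).one]
    have e1 : ρ ⟨x, e⟩ = ρ b := eρ _ _ (R.trans ⟨g, k⟩ (Quotient.mk_out (s := R) b))
    have k' := hγ ⟨x, e⟩
    simp only [s, dif_neg e]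
    rw [e1] at k' ⊢
    congr 1
    have := h.conj_eq (g := γ ⟨x, e⟩ * g⁻¹) (a := g * x * g⁻¹) (by
      simpa [mul_assoc] using h.ct (ρ b).2 (mem_Zc.1 k') (mem_Zc.1 k))
    simpa [mul_assoc] using this
  have zc : ∀ (b : {a : G // a ≠ 1}), ∀ x ∈ Zc b.1, γ b * x * (γ b)⁻¹ ∈ Zc (ρ b).1 := by
    intro b x hx
    refine mem_Zc.2 (h.ct (b := γ b * b.1 * (γ b)⁻¹) (by simpa using b.2) ?_ (mem_Zc.1 (hγ b)).symm)
    have := congrArg (fun y => γ b * y * (γ b)⁻¹) (mem_Zc.1 hx)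
    simpa [mul_assoc] using this
  refine ⟨s, ⟨fun g a => ?_, fun a b e => ?_⟩, fun a ha =>
    tr _ (γ ⟨a, ha⟩) a _ s (ρ ⟨a, ha⟩).2 ha (hγ ⟨a, ha⟩)
      (fun x hx => key ⟨a, ha⟩ x _ (zc ⟨a, ha⟩ x hx)) (hΦ _ _)⟩
  · by_cases e : a = 1
    · simp [e]
    rw [key ⟨a, e⟩ a _ (hγ ⟨a, e⟩), key ⟨a, e⟩ _ (γ ⟨a, e⟩ * g⁻¹) (by
      simpa [mul_assoc] using hγ ⟨a, e⟩)]
    simp [mul_assoc]
  · by_cases ha : a = 1
    · simp [s, ha]
    have ma : a ∈ Zc a := mem_Zc.2 rfl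
    have mb : b ∈ Zc a := mem_Zc.2 e.symm
    rw [key ⟨a, ha⟩ _ _ (zc ⟨a, ha⟩ _ (mul_mem ma mb)), key ⟨a, ha⟩ _ _ (zc ⟨a, ha⟩ _ ma),
      key ⟨a, ha⟩ _ _ (zc ⟨a, ha⟩ _ mb), ← hσ _ _ _ (zc ⟨a, ha⟩ _ ma) _ (zc ⟨a, ha⟩ _ mb)]
    simp [mul_assoc]

/-- injective class functions that are positive on a finite set where `s` is positive -/
theorem exists_S (h : Csa G) (hs : CF s) (D : Finset G) :
    ∃ S, CF S ∧ (∀ a, a ≠ 1 → S a ≠ 0) ∧ ∀ a ∈ D, 0 < s a → 0 < S a := by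
  obtain ⟨S, hS, k⟩ := exists_cf h (fun a σ => ∀ x ∈ Zc a, (x ≠ 1 → σ x ≠ 0) ∧
      ((∃ g, g * x * g⁻¹ ∈ D) → 0 < s x → 0 < σ x)) (fun a ha => by
    obtain ⟨f, k, k'⟩ := h.emb' ha
    let τ : G → ℝ := fun x => (f x).1 + (f x).2 * √2
    have hτ : ∀ x ∈ Zc a, x ≠ 1 → τ x ≠ 0 := fun x hx n e => by
      by_cases b : (f x).2 = 0
      · refine n (k' hx (one_mem _) ?_)
        rw [k.one]
        exact Prod.ext (by simpa [τ, b] using e) b
      · refine irrational_sqrt_two ⟨-(f x).1 / (f x).2, ?_⟩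
        have b' : ((f x).2 : ℝ) ≠ 0 := by exact_mod_cast b
        push_cast
        field_simp
        simp only [τ] at e
        linarith
    have cnt : ((fun x => - s x / τ x) '' (Zc a : Set G)).Countable :=
      (countable_of_injective_of_countable_image k' (to_countable _)).image _
    have fin : {x | x ∈ Zc a ∧ ∃ g, g * x * g⁻¹ ∈ D}.Finite := by
      refine (D.finite_toSet.biUnion (t := fun d => {x | x ∈ Zc a ∧ ∃ g, g * x * g⁻¹ = d})
        fun d _ => Set.Subsingleton.finite ?_).subset fun x ⟨hx, g, m⟩ => mem_biUnion m ⟨hx, g, rfl⟩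
      rintro x ⟨hx, g, rfl⟩ y ⟨hy, g', e⟩
      have e' : g⁻¹ * g' * y * (g⁻¹ * g')⁻¹ = x := by
        rw [mul_inv_rev, inv_inv, mul_assoc g⁻¹, ← mul_assoc _ g'⁻¹, mul_assoc g⁻¹, e]
        simp [mul_assoc]
      rw [← e']
      exact h.conj_eq (by rw [e']; exact h.ct ha (mem_Zc.1 hx) (mem_Zc.1 hy))
    have ev : ∀ᶠ ε : ℝ in nhds 0, ∀ x ∈ {x | x ∈ Zc a ∧ ∃ g, g * x * g⁻¹ ∈ D},
        0 < s x → 0 < s x + ε * τ x := (Filter.eventually_all_finite fin).2 fun x _ => by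
      by_cases p : 0 < s x
      · have : Continuous fun ε : ℝ => s x + ε * τ x := by fun_prop
        exact ((this.tendsto 0).eventually (lt_mem_nhds (by simpa using p))).mono fun _ k _ => k
      · exact .of_forall fun _ k => absurd k p
    obtain ⟨ε, e1, e2⟩ := (cnt.dense_compl ℝ).inter_nhds_nonempty ev
    refine ⟨fun x => s x + ε * τ x, fun x hx y hy => ?_, fun x hx => ⟨fun n e => e1 ⟨x, hx, ?_⟩,
      fun m => e2 x ⟨hx, m⟩⟩⟩
    · simp only [τ, k x hx y hy, hs.add x y (h.ct ha (mem_Zc.1 hx) (mem_Zc.1 hy)), Prod.fst_add,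
        Prod.snd_add]
      push_cast
      ring
    · have := hτ x hx n
      field_simp
      simp only at e
      linarith) fun a g b σ τ _ hb m e k x hx => by
    have m' : g * x * g⁻¹ ∈ Zc a := mem_Zc.2 (h.ct (b := g * b * g⁻¹) (by simpa using hb) (by
      simpa [mul_assoc] using congrArg (· * g⁻¹) (mem_Zc.1 hx)) (mem_Zc.1 m).symm)
    rw [e x hx]
    exact ⟨fun n => (k _ m').1 (by simpa using n), fun ⟨c, hc⟩ p => (k _ m').2
      ⟨c * g⁻¹, by simpa [mul_assoc] using hc⟩ (by rwa [hs.conj])⟩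
  exact ⟨S, hS, fun a ha => (k a ha a (mem_Zc.2 rfl)).1 ha, fun a ha p => by
    have n : a ≠ 1 := fun e => by simp [e, hs.one] at p
    exact (k a n a (mem_Zc.2 rfl)).2 ⟨1, by simpa using ha⟩ p⟩

end Pool.Agent.Work.MP_3d425c_gt.Gr
end

-- merged part: Pool.Agent.Work.MP_3d425c_gt.To.Cone
section
/-! Cones that respect slopes, the final order of a piece, compactness, assembly along the tree. -/

namespace Pool.Agent.Work.MP_3d425c_gt.Gr
open Set MulAction Pool.Agent.Work.MP_3d425c_gt.Cy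

variable {G : Type*} [Group G] {s S : G → ℝ}

/-- finitely generated subgroups are abelian, of finite index, or map onto a lattice whose rank
exceeds the number of classes of rank two subgroups by two -/
def BigS (G : Type*) [Group G] : Prop :=
  ∀ E : Subgroup G, E.FG → (∀ a ∈ E, ∀ b ∈ E, a * b = b * a) ∨ E.FiniteIndex ∨
    ∃ (r : ℕ) (Q : Fin r → Subgroup G), (∀ i, Q i ≤ E ∧ ∀ a ∈ Q i, ∀ b ∈ Q i, a * b = b * a) ∧
      (∀ a ∈ E, ∀ b ∈ E, a * b = b * a → ¬ Dep a b →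
        ∃ i, ∃ g ∈ E, g * a * g⁻¹ ∈ Q i ∧ g * b * g⁻¹ ∈ Q i) ∧
      ∃ f : E →* Multiplicative (Fin (r + 2) → ℤ), Function.Surjective f

/-- the form in which `BigS` is used -/
def Room (S : G → ℝ) : Prop :=
  ∀ E : Subgroup G, E.FG → (∀ a ∈ E, ∀ b ∈ E, a * b = b * a) ∨ E.FiniteIndex ∨
    ∀ κ ∈ E, ∃ χ : G → ℝ, Ad E χ ∧ (∃ x ∈ E, χ x ≠ 0) ∧ χ κ = 0 ∧
      ∀ a ∈ E, ∀ b ∈ E, a * b = b * a → ¬ Dep a b → χ a * S b = χ b * S a

theorem BigS.room (h : Csa G) (hB : BigS G) (hS : CF S) : Room S := by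
  classical
  intro E hE
  refine (hB E hE).imp_right (Or.imp_right ?_)
  rintro ⟨r, Q, hQ, hq, f, hf⟩ κ hκ
  have : ∀ i, ∃ u ∈ Q i, ∃ v ∈ Q i, ∀ a ∈ Q i, ∀ b ∈ Q i, ¬ Dep a b → ¬ Dep u v := fun i => by
    by_cases k : ∃ u ∈ Q i, ∃ v ∈ Q i, ¬ Dep u v
    · obtain ⟨u, hu, v, hv, k⟩ := k
      exact ⟨u, hu, v, hv, fun _ _ _ _ _ => k⟩
    · exact ⟨1, one_mem _, 1, one_mem _, fun a ha b hb n => absurd ⟨a, ha, b, hb, n⟩ k⟩
  choose u hu v hv uv using this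
  let φ : G → Fin (r + 2) → ℝ := fun x j => if k : x ∈ E then ((f ⟨x, k⟩).toAdd j : ℝ) else 0
  have hφ : Ad E φ := fun a ha b hb => by
    ext j
    simp only [φ, dif_pos ha, dif_pos hb, dif_pos (mul_mem ha hb), Pi.add_apply]
    rw [← Int.cast_add, ← Pi.add_apply, ← toAdd_mul, ← map_mul]
    rfl
  let w : Option (Fin r) → Fin (r + 2) → ℝ := fun o =>
    o.elim (φ κ) fun i => S (v i) • φ (u i) - S (u i) • φ (v i)
  obtain ⟨c, hc, c0⟩ := (Submodule.ne_bot_iff _).1 (LinearMap.ker_ne_bot_of_finrank_lt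
    (f := (Matrix.of w).mulVecLin) (by simp))
  have hw : ∀ o, w o ⬝ᵥ c = 0 := fun o => congrFun hc o
  obtain ⟨χ, hχ⟩ : ∃ χ : G → ℝ, ∀ x, χ x = φ x ⬝ᵥ c := ⟨_, fun _ => rfl⟩
  have A : Ad E χ := fun a ha b hb => by
    simp only [hχ, hφ a ha b hb, add_dotProduct]
  refine ⟨χ, A, ?_, (hχ κ).trans (hw none), fun a ha b hb e n => ?_⟩
  · obtain ⟨j, hj⟩ := Function.ne_iff.1 c0
    obtain ⟨x, hx⟩ := hf (Multiplicative.ofAdd (Pi.single j 1))
    refine ⟨x, x.2, ?_⟩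
    have : φ x = Pi.single j 1 := by
      ext i
      simp [φ, hx, Pi.single_apply]
    simpa [hχ, this] using hj
  obtain ⟨i, g, hg, ma, mb⟩ := hq a ha b hb e n
  have nd := uv i _ ma _ mb fun k => n (dep_conj.1 k)
  have e0 := hw (some i)
  simp only [w, Option.elim, sub_dotProduct, smul_dotProduct, smul_eq_mul, ← hχ] at e0
  have SQ := hS.ad (hQ i).2
  have AQ := A.mono (hQ i).1
  obtain ⟨l, p, q, hl, ea⟩ := h.rel3 nd ((hQ i).2 _ (hv i) _ (hu i)) ((hQ i).2 _ ma _ (hu i))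
  obtain ⟨l', p', q', hl', eb⟩ := h.rel3 nd ((hQ i).2 _ (hv i) _ (hu i)) ((hQ i).2 _ mb _ (hu i))
  have a1 := congrArg S ea
  have a2 := congrArg χ ea
  have b1 := congrArg S eb
  have b2 := congrArg χ eb
  rw [SQ _ (zpow_mem (hu i) _) _ (zpow_mem (hv i) _), hS.zpow, hS.zpow, hS.zpow, hS.conj] at a1 b1
  rw [AQ _ (zpow_mem (hu i) _) _ (zpow_mem (hv i) _), AQ.zpow (hu i), AQ.zpow (hv i)] at a2 b2
  rw [AQ.zpow ma, A.conj hg ha] at a2
  rw [AQ.zpow mb, A.conj hg hb] at b2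
  simp only [zsmul_eq_mul] at a2 b2
  have : (l : ℝ) * l' ≠ 0 := by exact_mod_cast mul_ne_zero hl hl'
  refine mul_left_cancel₀ this ?_
  linear_combination (l' * S b) * a2 + (p * χ (u i) + q * χ (v i)) * b1 -
    (l * S a) * b2 - (p' * χ (u i) + q' * χ (v i)) * a1 + (p * q' - q * p') * e0

/-- relative Burns-Hale with real characters and paired signs -/
theorem relBH2 (H K : Subgroup G) (R : G → G → Prop)
    (h : ∀ F : Finset G, (∀ x ∈ F, x ∈ H ∧ x ∉ K) → F.Nonempty →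
      ∃ χ : G → ℝ, Ad (K ⊔ Subgroup.closure F) χ ∧ (∀ k ∈ K, χ k = 0) ∧ (∃ x ∈ F, χ x ≠ 0) ∧
        ∀ a ∈ F, ∀ b ∈ F, R a b → (0 < χ a ∧ 0 < χ b) ∨ (χ a = 0 ∧ χ b = 0) ∨ χ a < 0) :
    ∃ P, Cone H K P ∧ ∀ a ∈ H, ∀ b ∈ H, b ∉ K → R a b → a ∈ P → b ∈ P := by
  classical
  have fin : ∀ n, ∀ F : Finset G, F.card ≤ n → (∀ x ∈ F, x ∈ H ∧ x ∉ K) → ∃ P, Cone ⊥ K P ∧
      (∀ x ∈ F, x ∈ P ∨ x⁻¹ ∈ P) ∧ ∀ a ∈ F, ∀ b ∈ F, R a b → a ∈ P → b ∈ P := by
    have e : Cone ⊥ K (∅ : Set G) := ⟨by simp, by simp, by simp, by simp, by simp⟩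
    intro n
    induction n with
    | zero =>
      intro F hF _
      obtain rfl := Finset.card_eq_zero.1 (Nat.le_zero.1 hF)
      exact ⟨∅, e, by simp, by simp⟩
    | succ n ih =>
      intro F hF m
      rcases F.eq_empty_or_nonempty with rfl | ne
      · exact ⟨∅, e, by simp, by simp⟩
      obtain ⟨χ, A, k0, ⟨x₀, h₀, n₀⟩, pr⟩ := h F m ne
      obtain ⟨P, c, t, q⟩ := ih (F.filter fun x => χ x = 0) (by
        have := Finset.card_lt_card (Finset.filter_ssubset (p := fun x => χ x = 0).2 ⟨x₀, h₀, n₀⟩)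
        omega) fun x hx => m x (Finset.mem_filter.1 hx).1
      have KE : ∀ k ∈ K, k ∈ K ⊔ Subgroup.closure (F : Set G) := fun k hk =>
        Subgroup.mem_sup_left hk
      have FE : ∀ x ∈ F, x ∈ K ⊔ Subgroup.closure (F : Set G) := fun x hx =>
        Subgroup.mem_sup_right (Subgroup.subset_closure hx)
      refine ⟨{y | y ∈ K ⊔ Subgroup.closure (F : Set G) ∧ (0 < χ y ∨ (χ y = 0 ∧ y ∈ P))},
        ⟨?_, ?_, ?_, ?_, by simp⟩, fun x hx => ?_, ?_⟩
      · rintro a ⟨-, k | k⟩ ha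
        exacts [(k0 a ha).not_gt k, c.notK a k.2 ha]
      · rintro a ⟨ha, k⟩ b ⟨hb, k'⟩
        refine ⟨mul_mem ha hb, ?_⟩
        rw [A a ha b hb]
        rcases k with k | k <;> rcases k' with k' | k'
        · exact .inl (add_pos k k')
        · exact .inl (by linarith [k'.1])
        · exact .inl (by linarith [k.1])
        · exact .inr ⟨by linarith [k.1, k'.1], c.mul a k.2 b k'.2⟩
      · rintro k hk a ⟨ha, m⟩
        refine ⟨mul_mem (KE k hk) ha, ?_⟩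
        rw [A k (KE k hk) a ha, k0 k hk, zero_add]
        exact m.imp_right fun m => ⟨m.1, c.left k hk a m.2⟩
      · rintro k hk a ⟨ha, m⟩
        refine ⟨mul_mem ha (KE k hk), ?_⟩
        rw [A a ha k (KE k hk), k0 k hk, add_zero]
        exact m.imp_right fun m => ⟨m.1, c.right k hk a m.2⟩
      · have i := A.inv (FE x hx)
        rcases lt_trichotomy 0 (χ x) with k | k | k
        · exact .inl ⟨FE x hx, .inl k⟩
        · exact (t x (Finset.mem_filter.2 ⟨hx, k.symm⟩)).imp (fun a => ⟨FE x hx, .inr ⟨k.symm, a⟩⟩)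
            fun a => ⟨inv_mem (FE x hx), .inr ⟨by linarith, a⟩⟩
        · exact .inr ⟨inv_mem (FE x hx), .inl (by linarith)⟩
      · rintro a ha b hb r ⟨-, k⟩
        refine ⟨FE b hb, ?_⟩
        rcases pr a ha b hb r with k' | k' | k'
        · exact .inl k'.2
        · exact .inr ⟨k'.2, q a (Finset.mem_filter.2 ⟨ha, k'.1⟩) b (Finset.mem_filter.2 ⟨hb, k'.2⟩) r
            (k.resolve_left k'.1.not_gt).2⟩
        · exact absurd k' (k.elim (fun k => k.not_gt) fun k => k.1.not_lt)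
  choose P c t q using fun F : Finset G =>
    fin _ (F.filter fun x => x ∈ H ∧ x ∉ K) le_rfl fun x hx => (Finset.mem_filter.1 hx).2
  let U := Ultrafilter.of (Filter.atTop (α := Finset G))
  have hU : ∀ x ∈ H, x ∉ K → ∀ᶠ F in U.toFilter, x ∈ F.filter fun x => x ∈ H ∧ x ∉ K := by
    intro x hx n
    apply Ultrafilter.of_le
    filter_upwards [Filter.eventually_ge_atTop {x}] with F hF
    exact Finset.mem_filter.2 ⟨hF (Finset.mem_singleton_self x), hx, n⟩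
  have nK : ∀ a, (∀ᶠ F in U.toFilter, a ∈ P F) → a ∉ K := fun a ha =>
    ha.exists.elim fun F k => (c F).notK a k
  refine ⟨{y | ∀ᶠ F in U.toFilter, y ∈ P F}, ⟨nK, fun a ha b hb => ?_, fun k hk a ha => ?_,
    fun k hk a ha => ?_, fun x hx n => Ultrafilter.eventually_or.1 ?_⟩,
    fun a ha b hb n r k => ?_⟩
  · filter_upwards [ha, hb] with F h1 h2 using (c F).mul a h1 b h2
  · filter_upwards [ha] with F using (c F).left k hk a
  · filter_upwards [ha] with F using (c F).right k hk a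
  · filter_upwards [hU x hx n] with F using t F x
  · filter_upwards [hU a ha (nK a k), hU b hb n, k] with F h1 h2 using q F a h1 b h2 r

/-- CLASS ORDERS: a trivial or maximal abelian subgroup `K` of `H` is relatively convex, for an
order in which commuting elements with positive `S` have the same sign -/
theorem exists_cone2 (h : Csa G) (hS : CF S) (S0 : ∀ a, a ≠ 1 → S a ≠ 0) (hR : Room S)
    (H K : Subgroup G) (hKH : K ≤ H) (hab : ∀ a ∈ K, ∀ b ∈ K, a * b = b * a)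
    (hinf : ∀ E : Subgroup G, E ≤ H → E.FG → ¬ E.FiniteIndex)
    (hmax : ∀ κ ∈ K, κ ≠ 1 → ∀ x ∈ H, x * κ = κ * x → x ∈ K) :
    ∃ P, Cone H K P ∧
      ∀ a ∈ H, ∀ b ∈ H, a * b = b * a → 0 < S a → 0 < S b → a ∈ P → b ∈ P := by
  obtain ⟨P, c, q⟩ := relBH2 H K (fun a b => a * b = b * a ∧ 0 < S a ∧ 0 < S b) fun F m ⟨x, hx⟩ => by
    set E := K ⊔ Subgroup.closure (F : Set G)
    have KE : ∀ k ∈ K, k ∈ E := fun k hk => Subgroup.mem_sup_left hk
    have FE : ∀ x ∈ F, x ∈ E := fun x hx => Subgroup.mem_sup_right (Subgroup.subset_closure hx)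
    have fg : E.FG := (h.fg hab).sup ⟨F, rfl⟩
    rcases hR E fg with k | k | k
    · refine ⟨S, hS.ad k, fun κ hκ => ?_, ⟨x, hx, S0 x fun e => (m x hx).2 (e ▸ one_mem _)⟩,
        fun a _ b _ r => .inl r.2⟩
      by_contra n
      exact (m x hx).2 (hmax κ hκ (fun e => n (e ▸ hS.one)) x (m x hx).1
        (k x (FE x hx) κ (KE κ hκ)))
    · exact absurd k (hinf E (sup_le hKH ((Subgroup.closure_le _).2 fun y hy => (m y hy).1)) fg)
    obtain ⟨κ, hκ, k1⟩ : ∃ κ ∈ K, ∀ y ∈ K, y ≠ 1 → κ ≠ 1 := by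
      by_cases e : ∃ κ ∈ K, κ ≠ 1
      · exact e.imp fun κ e => ⟨e.1, fun _ _ _ => e.2⟩
      · exact ⟨1, one_mem _, fun y hy n => absurd ⟨y, hy, n⟩ e⟩
    obtain ⟨χ, A, ⟨y, hy, ny⟩, k0, pr⟩ := k κ (KE κ hκ)
    have pr' : ∀ a ∈ E, ∀ b ∈ E, a * b = b * a → a ≠ 1 → b ≠ 1 → χ a * S b = χ b * S a := by
      intro a ha b hb e na nb
      by_cases d : Dep a b
      · obtain ⟨i, j, hi, -, e⟩ := d.ne h na nb
        have e1 := congrArg χ e
        have e2 := congrArg S e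
        rw [A.zpow ha, A.zpow hb, zsmul_eq_mul, zsmul_eq_mul] at e1
        rw [hS.zpow, hS.zpow] at e2
        refine mul_left_cancel₀ (Int.cast_ne_zero.2 hi : (i : ℝ) ≠ 0) ?_
        linear_combination S b * e1 - χ b * e2
      · exact pr a ha b hb e d
    have K0 : ∀ y ∈ K, χ y = 0 := fun y hy => by
      by_cases e : y = 1
      · rw [e, A.one]
      · have := pr' y (KE y hy) κ (KE κ hκ) (hab y hy κ hκ) e (k1 y hy e)
        rw [k0, zero_mul] at this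
        exact (mul_eq_zero.1 this).resolve_right (S0 κ (k1 y hy e))
    refine ⟨χ, A, K0, ?_, fun a ha b hb r => ?_⟩
    · by_contra n
      push Not at n
      let Z : Subgroup G := ⟨⟨⟨{x | x ∈ E ∧ χ x = 0}, fun {a b} ha hb => ⟨mul_mem ha.1 hb.1, by
        rw [A a ha.1 b hb.1, ha.2, hb.2, add_zero]⟩⟩, one_mem _, A.one⟩,
        fun {a} ha => ⟨inv_mem ha.1, by rw [A.inv ha.1, ha.2, neg_zero]⟩⟩
      exact ny ((sup_le (c := Z) (fun y hy => ⟨KE y hy, K0 y hy⟩)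
        ((Subgroup.closure_le _).2 fun y hy => ⟨FE y hy, n y hy⟩) hy).2)
    · have := pr' a (FE a ha) b (FE b hb) r.1 (fun e => (m a ha).2 (e ▸ one_mem _))
        fun e => (m b hb).2 (e ▸ one_mem _)
      rcases lt_trichotomy 0 (χ a) with k | k | k
      · exact .inl ⟨k, (mul_pos_iff_of_pos_right r.2.1).1 (this ▸ mul_pos k r.2.2)⟩
      · rw [← k, zero_mul] at this
        exact .inr (.inl ⟨k.symm, (mul_eq_zero.1 this.symm).resolve_right r.2.1.ne'⟩)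
      · exact .inr (.inr k)
  refine ⟨P, c, fun a ha b hb e sa sb k => q a ha b hb (fun m => c.notK a k ?_) ⟨e, sa, sb⟩ k⟩
  exact hmax b m (fun e => by simp [e, hS.one] at sb) a ha e

/-- a left order -/
def LOrd (r : G → G → Prop) : Prop := IsStrictTotalOrder G r ∧ ∀ a b c, r a b ↔ r (c * a) (c * b)

/-- commuting elements of `Pos` move every point to the same side -/
def Same (Pos : G → Prop) (r : G → G → Prop) : Prop :=
  ∀ x p q, p * q = q * p → Pos p → Pos q → r x (p * x) → r x (q * x)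

theorem lord_of (r : G → G → Prop) (l : Gl.Lin (⊤ : Subgroup G) r) (i : Gl.Inv ⊤ (⊤ : Subgroup G) r) :
    LOrd r :=
  ⟨{ trichotomous := fun a b h1 h2 => by
      by_contra n
      exact (l.tot a trivial b trivial n).elim h1 h2
     irrefl := fun a => l.irr a trivial
     trans := fun a b c => l.trans a trivial b trivial c trivial },
    fun _ _ _ => (i.iff (Gl.Cl.self _) trivial trivial trivial).symm⟩

/-- the final order: an action on an ordered set, ties are broken by `S` -/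
theorem same_of_action (hS : CF S) (S0 : ∀ a, a ≠ 1 → S a ≠ 0) {Pos : G → Prop}
    (hP : ∀ a, Pos a → 0 < S a) {X : Type*} [MulAction G X] (lt : X → X → Prop)
    (hlt : IsStrictTotalOrder X lt) (hinv : ∀ (g : G) x y, lt x y → lt (g • x) (g • y)) (y : X)
    (hab : ∀ a b : G, a • y = y → b • y = y → a * b = b * a)
    (sg : ∀ (z : X) p q, p * q = q * p → Pos p → Pos q → ¬ lt (p • z) z → ¬ lt (q • z) z) :
    ∃ r, LOrd r ∧ Same Pos r := by
  have e : ∀ a b : G, a • y = b • y → (a⁻¹ * b) • y = y := fun a b k => by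
    rw [mul_smul, ← k, inv_smul_smul]
  refine ⟨fun a b => lt (a • y) (b • y) ∨ (a • y = b • y ∧ 0 < S (a⁻¹ * b)), lord_of _
    ⟨fun a _ k => k.elim (hlt.irrefl _) fun k => by simpa [hS.one] using k.2, ?_,
      fun a _ b _ n => ?_⟩ fun g _ a _ b _ k => k.imp (fun k => ?_) fun k => ?_,
    fun x p q c hp hq k => ?_⟩
  · rintro a - b - c - (h1 | h1) (h2 | h2)
    · exact .inl (hlt.trans _ _ _ h1 h2)
    · exact .inl (h2.1 ▸ h1)
    · exact .inl (h1.1 ▸ h2)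
    · refine .inr ⟨h1.1.trans h2.1, ?_⟩
      rw [show a⁻¹ * c = a⁻¹ * b * (b⁻¹ * c) by group,
        hS.add _ _ (hab _ _ (e _ _ h1.1) (e _ _ h2.1))]
      exact add_pos h1.2 h2.2
  · by_cases k : a • y = b • y
    · rcases lt_or_gt_of_ne (S0 _ fun e => n (inv_mul_eq_one.1 e)) with m | m
      · refine .inr (.inr ⟨k.symm, ?_⟩)
        rw [show b⁻¹ * a = (a⁻¹ * b)⁻¹ by group, hS.inv]
        linarith
      · exact .inl (.inr ⟨k, m⟩)
    · by_contra m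
      exact k (hlt.trichotomous _ _ (fun a => m (.inl (.inl a))) fun a => m (.inr (.inl a)))
  · rw [mul_smul, mul_smul]
    exact hinv g _ _ k
  · exact ⟨by rw [mul_smul, mul_smul, k.1], by simpa [mul_assoc] using k.2⟩
  · beta_reduce at k ⊢
    rw [mul_smul] at k ⊢
    have n := sg (x • y) p q c hp hq fun a => k.elim
      (fun b => hlt.irrefl _ (hlt.trans _ _ _ a b)) fun b => hlt.irrefl (x • y) (by rwa [← b.1] at a)
    by_cases m : lt (x • y) (q • x • y)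
    · exact .inl m
    · refine .inr ⟨hlt.trichotomous _ _ m n, ?_⟩
      have := hS.conj x⁻¹ q
      rw [inv_inv, mul_assoc] at this
      exact this ▸ hP q hq

/-- compactness -/
theorem same_of_all (h : Csa G) (hs : CF s)
    (k : ∀ S, CF S → (∀ a, a ≠ 1 → S a ≠ 0) → ∃ r : G → G → Prop, LOrd r ∧
      Same (fun a => 0 < s a ∧ 0 < S a) r) : ∃ r : G → G → Prop, LOrd r ∧ Same (0 < s ·) r := by
  classical
  obtain ⟨r, l, i, d⟩ := Gl.ord_of_fin (A := (⊤ : Subgroup G))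
    (F := {f | f.2 = s ∧ ∀ a ∈ f.1, ∀ b ∈ f.1, a * b = b * a}) fun D => by
    obtain ⟨S, hS, S0, p⟩ := exists_S h hs (D.image (·.2.1) ∪ D.image (·.2.2))
    obtain ⟨r, l, d⟩ := k S hS S0
    refine ⟨r, Gl.lin_of_lo l.1 _, fun g _ a _ b _ => (l.2 a b g).1,
      fun f hf a ha b hb m sa sb x _ => ?_⟩
    rw [hf.1] at sa sb
    exact d x a b (hf.2 a ha b hb)
      ⟨sa, p a (Finset.mem_union_left _ (Finset.mem_image_of_mem _ m)) sa⟩
      ⟨sb, p b (Finset.mem_union_right _ (Finset.mem_image_of_mem _ m)) sb⟩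
  refine ⟨r, lord_of r l i, fun x p q c sp sq => ?_⟩
  have n : p ≠ 1 := fun e => by simp [e, hs.one] at sp
  exact d (Zc p, s) ⟨rfl, fun a ha b hb => h.ct n (mem_Zc.1 ha) (mem_Zc.1 hb)⟩ x trivial p
    (mem_Zc.2 rfl) q (mem_Zc.2 c.symm) sp sq

/-- ASSEMBLY along the tree -/
theorem lo_of_pieces (h : Csa G) (hs : CF s)
    (s0 : ∀ a b, a * b = b * a → ¬ Dep a b → s a ≠ 0 ∨ s b ≠ 0) {V : Type*} [MulAction G V]
    {T : SimpleGraph V} (hT : T.IsTree) (act : ∀ (g : G) p q, T.Adj p q → T.Adj (g • p) (g • q))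
    (ninv : ∀ (g : G) p q, T.Adj p q → g • p = q → g • q ≠ p)
    (ab : ∀ v w, T.Adj v w → ∀ a b : G, a • v = v → a • w = w → b • v = v → b • w = w →
      a * b = b * a)
    (ord : ∀ v : V, ∃ r : stabilizer G v → stabilizer G v → Prop, LOrd r ∧
      Same (fun a : stabilizer G v => 0 < s a) r) : ∃ r : G → G → Prop, LOrd r := by
  refine Gl.Act.lo (T := T) (F := fun v => {f | f.2 = s ∧ f.1 ≤ stabilizer G v ∧ Gl.Sl f.1 f.2})
    ⟨hT, act, ninv, fun v f hf => hf.2, fun v w a => ?_, fun v => ?_⟩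
  · have c : ∀ p ∈ stabilizer G v ⊓ stabilizer G w, ∀ q ∈ stabilizer G v ⊓ stabilizer G w,
        p * q = q * p := fun p hp q hq => ab v w a p q hp.1 hp.2 hq.1 hq.2
    have A := hs.ad c
    let Z : Subgroup G := ⟨⟨⟨{x | x ∈ stabilizer G v ⊓ stabilizer G w ∧ s x = 0},
      fun {a b} ha hb => ⟨mul_mem ha.1 hb.1, by rw [A a ha.1 b hb.1, ha.2, hb.2, add_zero]⟩⟩,
      one_mem _, hs.one⟩, fun {a} ha => ⟨inv_mem ha.1, by rw [hs.inv, ha.2, neg_zero]⟩⟩
    obtain ⟨α, hα, k⟩ := h.cyc (K := Z) fun p hp q hq => by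
      by_contra n
      exact (s0 p q (c p hp.1 q hq.1) n).elim (· hp.2) (· hq.2)
    exact ⟨s, α, ⟨⟨rfl, inf_le_left, c, A⟩, rfl, inf_le_right, c, A⟩, hα.1, hα.2,
      fun x hx e => k x ⟨hx, e⟩⟩
  · obtain ⟨r, l, d⟩ := ord v
    refine ⟨fun x y => ∃ hx hy, r ⟨x, hx⟩ ⟨y, hy⟩, ⟨fun _ _ ⟨_, _, k⟩ => l.1.irrefl _ k,
      fun _ _ _ _ _ _ ⟨a, _, k⟩ ⟨_, b, k'⟩ => ⟨a, b, l.1.trans _ _ _ k k'⟩, fun x hx y hy n =>
      ((Gl.lin_of_lo l.1 univ).tot ⟨x, hx⟩ trivial ⟨y, hy⟩ trivial fun e =>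
        n (congrArg Subtype.val e)).imp (fun k => ⟨hx, hy, k⟩) fun k => ⟨hy, hx, k⟩⟩,
      fun g hg _ _ _ _ ⟨a, b, k⟩ => ⟨mul_mem hg a, mul_mem hg b, (l.2 _ _ ⟨g, hg⟩).1 k⟩, ?_⟩
    rintro ⟨P, _⟩ ⟨rfl, le, S⟩ x hx p hp q hq sp sq ⟨_, _, k⟩
    exact ⟨hx, mul_mem (le hq) hx, d ⟨x, hx⟩ ⟨p, le hp⟩ ⟨q, le hq⟩
      (Subtype.ext (S.comm p hp q hq)) sp sq k⟩

end Pool.Agent.Work.MP_3d425c_gt.Gr
end

-- merged part: Pool.Agent.Work.MP_3d425c_gt.Md.ObjB
section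
/-! The leaf space as an object, given the side relation. -/

namespace Pool.Agent.Work.MP_3d425c_gt.Md
open Set Relation Filter Topology Pool.Agent.Work.MP_3d425c_gt.Gn Pool.Agent.Work.MP_3d425c_gt.Cy

variable {G X0 X1 X2 X3 : Type} [Group G] [MulAction G X0] [MulAction G X1] [MulAction G X2]
  [MulAction G X3] {T : Tri G X0 X1 X2 X3} {φ : X2 → ℝ ≃o ℝ}

theorem objB_sig : ∃ σ : ℝ → ℝ, StrictMono σ ∧ Continuous σ ∧ (∀ u, σ u ∈ Ioo (0 : ℝ) 1) ∧
    ∀ s ∈ Ioo (0 : ℝ) 1, ∃ u, σ u = s := by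
  refine ⟨fun u => ((orderIsoIooNegOneOne ℝ u : ℝ) + 1) / 2, fun a b h => ?_, ?_, fun u => ?_,
    fun s hs => ?_⟩
  · have : (orderIsoIooNegOneOne ℝ a : ℝ) < orderIsoIooNegOneOne ℝ b :=
      (orderIsoIooNegOneOne ℝ).strictMono h
    dsimp only
    linarith
  · exact ((continuous_subtype_val.comp (orderIsoIooNegOneOne ℝ).continuous).add
      continuous_const).div_const 2
  · have := (orderIsoIooNegOneOne ℝ u).2
    exact ⟨by linarith [this.1], by linarith [this.2]⟩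
  · refine ⟨(orderIsoIooNegOneOne ℝ).symm ⟨2 * s - 1, by linarith [hs.1], by linarith [hs.2]⟩, ?_⟩
    dsimp only
    rw [OrderIso.apply_symm_apply]
    ring

theorem objB_count (T : Tri G X0 X1 X2 X3) : Countable X3 := by
  obtain ⟨x0⟩ := T.ne
  have hN : ∀ x, {y | ∃ k l, T.d3 x k = T.d3 y l}.Countable := fun x => by
    have : (⋃ k, {y | ∃ l, T.d3 x k = T.d3 y l}).Countable := countable_iUnion fun k => by
      obtain ⟨p, q, -, h⟩ := T.two (T.d3 x k)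
      refine (Set.toFinite {p.1, q.1}).countable.mono ?_
      rintro y ⟨l, e⟩
      rcases (h (y, l)).1 e.symm with e | e
      · exact Or.inl (congrArg Prod.fst e)
      · exact Or.inr (congrArg Prod.fst e)
    exact this.mono fun y ⟨k, h⟩ => mem_iUnion.2 ⟨k, h⟩
  let A : ℕ → Set X3 := fun n =>
    Nat.rec {x0} (fun _ S => ⋃ x ∈ S, {y | ∃ k l, T.d3 x k = T.d3 y l}) n
  have hA : ∀ n, (A n).Countable := fun n => by
    induction n with
    | zero => exact countable_singleton x0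
    | succ n ih => exact ih.biUnion fun x _ => hN x
  have st : ∀ x y, (∃ k l, T.d3 x k = T.d3 y l) → x ∈ ⋃ n, A n → y ∈ ⋃ n, A n := by
    intro x y h hx
    obtain ⟨n, hn⟩ := mem_iUnion.1 hx
    exact mem_iUnion.2 ⟨n + 1, mem_biUnion hn h⟩
  have key : ∀ x y, EqvGen (fun x y => ∃ k l, T.d3 x k = T.d3 y l) x y →
      (x ∈ ⋃ n, A n ↔ y ∈ ⋃ n, A n) := by
    intro x y h
    induction h with
    | rel x y h => exact ⟨st x y h, st y x (let ⟨k, l, e⟩ := h; ⟨l, k, e.symm⟩)⟩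
    | refl x => exact Iff.rfl
    | symm x y _ ih => exact ih.symm
    | trans x y z _ _ i j => exact i.trans j
  exact countable_univ_iff.1 ((countable_iUnion hA).mono fun y _ =>
    (key x0 y (T.conn x0 y)).1 (mem_iUnion.2 ⟨0, rfl⟩))

theorem objB_countG (T : Tri G X0 X1 X2 X3) : Countable G := by
  obtain ⟨x0⟩ := T.ne
  have := objB_count T
  refine Function.Injective.countable (f := fun g : G => g • x0) fun a b h => ?_
  have e : (b⁻¹ * a) • x0 = x0 := by rw [mul_smul, inv_smul_eq_iff]; exact h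
  exact (inv_mul_eq_one.1 (T.free3 _ _ e)).symm

theorem objB_hol {p q : X3 × ℝ} (h : T.Lf φ p q) :
    ∃ ψ : ℝ ≃o ℝ, ψ p.2 = q.2 ∧ ∀ᶠ s in 𝓝 p.2, T.Lf φ (p.1, s) (q.1, ψ s) := by
  induction h with
  | rel p q h =>
    obtain ⟨k, l, t, ht, e, a, b⟩ := h
    have c : (T.jm φ p.1 k).symm p.2 = t := by rw [OrderIso.symm_apply_eq, jm_apply, a]
    refine ⟨(T.jm φ p.1 k).symm.trans (T.jm φ q.1 l), by
      rw [OrderIso.trans_apply, c, jm_apply, b], ?_⟩
    have : ∀ᶠ s in 𝓝 p.2, (T.jm φ p.1 k).symm s ∈ Ioo (0 : ℝ) 1 :=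
      (T.jm φ p.1 k).symm.continuous.continuousAt.eventually (isOpen_Ioo.mem_nhds (c ▸ ht))
    refine this.mono fun s hs => ?_
    have := Tri.Lf.arc (φ := φ) e hs
    rwa [← jm_apply, ← jm_apply, OrderIso.apply_symm_apply] at this
  | refl p => exact ⟨OrderIso.refl ℝ, rfl, Eventually.of_forall fun s => Tri.Lf.refl _⟩
  | symm p q _ ih =>
    obtain ⟨ψ, e, h⟩ := ih
    have c : ψ.symm q.2 = p.2 := ψ.symm_apply_eq.2 e.symm
    refine ⟨ψ.symm, c, ?_⟩
    rw [← c] at h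
    refine (ψ.symm.continuous.continuousAt.eventually h).mono fun s hs => ?_
    rw [OrderIso.apply_symm_apply] at hs
    exact hs.symm
  | trans p q r _ _ i j =>
    obtain ⟨ψ, e, h⟩ := i
    obtain ⟨χ, e', h'⟩ := j
    refine ⟨ψ.trans χ, by rw [OrderIso.trans_apply, e, e'], ?_⟩
    rw [← e] at h'
    exact (h.and (ψ.continuous.continuousAt.eventually h')).mono fun s hs => hs.1.trans hs.2

theorem objB_two (hf : T.Fol φ) (hi : T.Inf φ) (x : X3) {s : ℝ} (hs : s ∈ Ioo (0 : ℝ) 1) :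
    ∃ (y : X3) (g : G) (a b : ℝ), a < b ∧ T.Lf φ (x, s) (y, a) ∧ T.Lf φ (g • x, s) (y, b) := by
  have := T.fin
  obtain ⟨c, hc, d, hd, hne, e⟩ := (hi x s hs).exists_ne_map_eq_of_mapsTo
    (f := Prod.fst) (t := univ) (fun _ _ => mem_univ _) finite_univ
  have main : ∀ c d : Ob G X3 × ℝ, (∃ y, ob G y = c.1 ∧ EqvGen (T.StepZ φ ∅) (x, s) (y, c.2)) →
      (∃ y, ob G y = d.1 ∧ EqvGen (T.StepZ φ ∅) (x, s) (y, d.2)) → c.1 = d.1 → c.2 < d.2 →
      ∃ (y : X3) (g : G) (a b : ℝ), a < b ∧ T.Lf φ (x, s) (y, a) ∧ T.Lf φ (g • x, s) (y, b) := by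
    rintro c d ⟨y, e1, h1⟩ ⟨z, e2, h2⟩ e lt
    rw [stepZ_empty] at h1 h2
    obtain ⟨g, rfl⟩ := ob_eq_iff.1 (e1.trans (e.trans e2.symm))
    exact ⟨g • z, g, c.2, d.2, lt, h1, hf.lf_smul g h2⟩
  rcases lt_trichotomy c.2 d.2 with h | h | h
  · exact main c d hc hd e h
  · exact absurd (Prod.ext e h) hne
  · exact main d c hd hc e.symm h

/-- leaves, with levels read through `σ` -/
def objB_st (T : Tri G X0 X1 X2 X3) (φ : X2 → ℝ ≃o ℝ) (σ : ℝ → ℝ) : Setoid (X3 × ℝ) :=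
  ⟨fun p q => T.Lf φ (p.1, σ p.2) (q.1, σ q.2), fun _ => Tri.Lf.refl _, Tri.Lf.symm, Tri.Lf.trans⟩

/-- the action on leaves -/
@[reducible] def objB_act (hf : T.Fol φ) (σ : ℝ → ℝ) : MulAction G (Quotient (objB_st T φ σ)) where
  smul g := Quotient.map (fun p => (g • p.1, p.2)) fun _ _ h => hf.lf_smul g h
  one_smul := by
    rintro ⟨x, u⟩
    exact congrArg (fun y => Quotient.mk (objB_st T φ σ) (y, u)) (one_smul G x)
  mul_smul g h := by
    rintro ⟨x, u⟩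
    exact congrArg (fun y => Quotient.mk (objB_st T φ σ) (y, u)) (mul_smul g h x)

theorem objB (hG : Hyp G) (hB : Big G) (hf : T.Fol φ) (hn : T.NC φ) (hi : T.Inf φ)
    (ha : T.Ab φ) (hu : ∃ up : X3 × ℝ → X3 × ℝ → Prop,
      (∀ p p' q, T.Lf φ p p' → up p q → up p' q) ∧ (∀ p q q', T.Lf φ q q' → up p q → up p q') ∧
      (∀ x, ∀ s ∈ Ioo (0 : ℝ) 1, ∀ t ∈ Ioo (0 : ℝ) 1, up (x, s) (x, t) ↔ s < t) ∧
      (∀ p x, (∀ t ∈ Ioo (0 : ℝ) 1, ¬ T.Lf φ p (x, t)) → ∀ s ∈ Ioo (0 : ℝ) 1,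
        ∀ t ∈ Ioo (0 : ℝ) 1, up p (x, s) → up p (x, t)) ∧
      ∀ (g : G) p q, up p q → up (g • p.1, p.2) (g • q.1, q.2)) : Nontrivial G ∧ LO G := by
  obtain ⟨up, u1, u2, u3, u4, u5⟩ := hu
  obtain ⟨σ, s1, s2, s3, s4⟩ := objB_sig
  have := objB_count T
  have := objB_countG T
  obtain ⟨x0⟩ := T.ne
  refine ⟨?_, ?_⟩
  · obtain ⟨y, g, a, b, lt, h1, h2⟩ := objB_two hf hi x0 (s3 0)
    refine ⟨g, 1, fun e => lt.ne (hn y a b ?_)⟩
    rw [e, one_smul] at h2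
    exact h1.symm.trans h2
  let _ := objB_act hf σ
  let m : X3 → ℝ → Quotient (objB_st T φ σ) := fun x u => Quotient.mk _ (x, u)
  have meq : ∀ x u y v, m x u = m y v ↔ T.Lf φ (x, σ u) (y, σ v) := fun x u y v => Quotient.eq
  have msm : ∀ (g : G) x u, g • m x u = m (g • x) u := fun _ _ _ => rfl
  have msj : ∀ l, ∃ x u, m x u = l := by
    rintro ⟨x, u⟩
    exact ⟨x, u, rfl⟩
  let U : Quotient (objB_st T φ σ) → Quotient (objB_st T φ σ) → Prop := fun a b =>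
    ∃ x u y v, m x u = a ∧ m y v = b ∧ up (x, σ u) (y, σ v)
  have hU : ∀ x u y v, U (m x u) (m y v) ↔ up (x, σ u) (y, σ v) := fun x u y v =>
    ⟨fun ⟨x', u', y', v', a, b, c⟩ => u1 _ _ _ ((meq _ _ _ _).1 a) (u2 _ _ _ ((meq _ _ _ _).1 b) c),
      fun h => ⟨x, u, y, v, rfl, rfl, h⟩⟩
  have hP : Pre G (range m) := by
    refine ⟨fun l => ?_, ?_, fun P hPc => ?_, fun l => ?_⟩
    · obtain ⟨x, u, e⟩ := msj l
      exact ⟨m x, ⟨x, rfl⟩, u, e⟩
    · rintro g _ ⟨x, rfl⟩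
      exact ⟨g • x, rfl⟩
    · have key : ∀ x y, EqvGen (fun x y => ∃ k l, T.d3 x k = T.d3 y l) x y →
          (P (m x 0) ↔ P (m y 0)) := by
        intro x y h
        induction h with
        | rel x y h =>
          obtain ⟨k, l, e⟩ := h
          obtain ⟨u, hu⟩ := s4 _ (hf.1.pos_mem x k (s3 0))
          obtain ⟨v, hv⟩ := s4 _ (hf.1.pos_mem y l (s3 0))
          have e' : m x u = m y v := (meq _ _ _ _).2 (hu ▸ hv ▸ Tri.Lf.arc e (s3 0))
          exact ⟨fun h => hPc _ ⟨y, rfl⟩ v 0 (e' ▸ hPc _ ⟨x, rfl⟩ 0 u h),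
            fun h => hPc _ ⟨x, rfl⟩ u 0 (e'.symm ▸ hPc _ ⟨y, rfl⟩ 0 v h)⟩
        | refl x => exact Iff.rfl
        | symm x y _ ih => exact ih.symm
        | trans x y z _ _ i j => exact i.trans j
      intro a b h
      obtain ⟨x, u, rfl⟩ := msj a
      obtain ⟨y, v, rfl⟩ := msj b
      exact hPc _ ⟨y, rfl⟩ 0 v ((key x y (T.conn x y)).1 (hPc _ ⟨x, rfl⟩ u 0 h))
    · obtain ⟨x, u, rfl⟩ := msj l
      obtain ⟨y, g, a, b, lt, h1, h2⟩ := objB_two hf hi x (s3 u)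
      obtain ⟨a, rfl⟩ := s4 a ((hf.1.lf_mem h1).1 (s3 u))
      obtain ⟨b, rfl⟩ := s4 b ((hf.1.lf_mem h2).1 (s3 u))
      exact ⟨g, TransGen.single ⟨m y, ⟨y, rfl⟩, a, b, s1.lt_iff_lt.1 lt,
        (meq _ _ _ _).2 h1.symm, (meq _ _ _ _).2 h2.symm⟩⟩
  obtain ⟨Y, _, y0, C', up', hP', hg'⟩ := blow_up hG (up := U) hP
    (by
      rintro _ ⟨x, rfl⟩ _ ⟨y, rfl⟩
      refine isOpen_iff_mem_nhds.2 ?_
      rintro u ⟨v, e⟩
      obtain ⟨ψ, -, h⟩ := objB_hol ((meq _ _ _ _).1 e)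
      refine (s2.continuousAt.eventually h).mono fun w hw => ?_
      obtain ⟨v', hv'⟩ := s4 _ ((hf.1.lf_mem hw).1 (s3 w))
      exact ⟨v', (meq _ _ _ _).2 (hv' ▸ hw)⟩)
    (by
      rintro _ ⟨x, rfl⟩ s t
      rw [hU, u3 x _ (s3 s) _ (s3 t), s1.lt_iff_lt])
    (by
      rintro _ ⟨y, rfl⟩ l hl s t h
      obtain ⟨x, u, rfl⟩ := msj l
      rw [hU] at h ⊢
      refine u4 _ y (fun r hr q => ?_) _ (s3 s) _ (s3 t) h
      obtain ⟨r, rfl⟩ := s4 r hr
      exact hl r ((meq _ _ _ _).2 q))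
    (by
      rintro g _ _ ⟨x, u, y, v, rfl, rfl, h⟩
      exact ⟨g • x, u, g • y, v, rfl, rfl, u5 g _ _ h⟩)
    (by
      intro l a b h1 h2
      obtain ⟨x, u, rfl⟩ := msj l
      exact ha x _ (s3 u) a b ((meq _ _ _ _).1 h1.symm) ((meq _ _ _ _).1 h2.symm))
    (D := range fun p : X3 × ℚ => m p.1 p.2) (countable_range _)
    (by
      rintro g _ ⟨p, rfl⟩
      exact ⟨(g • p.1, p.2), rfl⟩)
    (by
      rintro _ ⟨x, rfl⟩ u v h
      obtain ⟨q, hq⟩ := exists_rat_btwn h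
      exact ⟨q, hq, (x, q), rfl⟩)
    (m x0 0)
  exact lo_of_good hG hB hP' hg' y0

end Pool.Agent.Work.MP_3d425c_gt.Md
end

-- merged part: Pool.Agent.Work.MP_3d425c_gt.Md.Obj
section
/-! The leaf space as an object. -/

namespace Pool.Agent.Work.MP_3d425c_gt.Md
open Set Relation Pool.Agent.Work.MP_3d425c_gt.Gn Pool.Agent.Work.MP_3d425c_gt.Cy

variable {G X0 X1 X2 X3 : Type} [Group G] [MulAction G X0] [MulAction G X1] [MulAction G X2]
  [MulAction G X3] {T : Tri G X0 X1 X2 X3} {φ : X2 → ℝ ≃o ℝ}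

theorem Tri.obj (hG : Hyp G) (hB : Big G) (hf : T.Fol φ) (hn : T.NC φ) (hi : T.Inf φ)
    (ha : T.Ab φ) : Nontrivial G ∧ LO G := by
  exact objB hG hB hf hn hi ha (Tri.exists_up hf hn)

end Pool.Agent.Work.MP_3d425c_gt.Md
end

-- merged part: Pool.Agent.Work.MP_3d425c_gt.Ta.Main
section
/-! Assembly for taut foliations. -/

namespace Pool.Agent.Work.MP_3d425c_gt.Md
open Set Relation Pool.Agent.Work.MP_3d425c_gt.Gn Pool.Agent.Work.MP_3d425c_gt.Cy

variable {G X0 X1 X2 X3 : Type} [Group G] [MulAction G X0] [MulAction G X1] [MulAction G X2]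
  [MulAction G X3]

theorem Tri.main_taut (T : Tri G X0 X1 X2 X3) (hG : Hyp G) (hB : Big G) (hD : Nv.Disc T)
    (mid : ∀ v, ∃ f, T.d1 (T.d2 f 2) 0 = v) (φ : X2 → ℝ ≃o ℝ) (hf : T.Fol φ) (ht : T.Taut φ) :
    Nontrivial G ∧ LO G := by
  by_cases h0 : NoHom G
  · obtain ⟨ρ, hρ, hb⟩ := Tri.ball h0 hf ht mid
    obtain ⟨ψ, hψ, hc, ha⟩ := Tri.generic_near hf hρ fun ψ hψ hc x s hs' g h hg hh hne => by
      obtain ⟨y, hy⟩ := hb ψ hψ hc
      obtain ⟨Z, hZ, k⟩ := Tri.collapse hψ (hy.inf hψ) hs' hg hh hne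
      exact ⟨Z, hy.shear Ht.shear hψ hZ, k⟩
    obtain ⟨y, hy⟩ := hb ψ hψ hc
    exact Tri.obj hG hB hψ (Nv.fw_nov hD hy hψ.1) (hy.inf hψ) ha
  · obtain ⟨χ, hχ⟩ := not_forall.1 h0
    refine ⟨?_, lo_of_hom hG hB χ hχ⟩
    by_contra hn
    have := not_nontrivial_iff_subsingleton.1 hn
    exact hχ (MonoidHom.ext fun g => by rw [Subsingleton.elim g 1, map_one, map_one])

end Pool.Agent.Work.MP_3d425c_gt.Md
end

-- merged part: Pool.Agent.Work.MP_3d425c_gt.To.ModB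
section
/-! The leaf space of a generic foliation has cyclic stabilisers; no condition on centralisers. -/

namespace Pool.Agent.Work.MP_3d425c_gt.Cy
open Set Filter Topology

universe u
variable {G : Type*} {X : Type u} [Group G] [MulAction G X]

/-- a countable invariant set that is dense in every chart -/
def Den (G : Type*) {X : Type u} [Group G] [MulAction G X] (C : Set (ℝ → X)) (D : Set X) : Prop :=
  D.Countable ∧ (∀ (g : G) x, x ∈ D → g • x ∈ D) ∧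
    ∀ c ∈ C, ∀ u v : ℝ, u < v → ∃ t ∈ Ioo u v, c t ∈ D

theorem Den.sat {C : Set (ℝ → X)} {D : Set X} (h : Den G C D) : Den G {a | LocChart C a} D := by
  refine ⟨h.1, h.2.1, fun a ha u v huv => ?_⟩
  obtain ⟨d, hd, f, ε, hε, f1, f2, f3⟩ := ha u
  obtain ⟨w, w1, w2⟩ := exists_between (lt_min huv (lt_add_of_pos_right u hε))
  have sub : Icc u w ⊆ Ioo (u - ε) (u + ε) := fun z hz =>
    ⟨by linarith [hz.1], hz.2.trans_lt (w2.trans_le (min_le_right _ _))⟩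
  obtain ⟨t, ht, k⟩ := h.2.2 d hd _ _ (f1 (sub ⟨le_rfl, w1.le⟩) (sub ⟨w1.le, le_rfl⟩) w1)
  obtain ⟨z, hz, rfl⟩ := intermediate_value_Ioo w1.le (f2.mono sub) ht
  exact ⟨z, ⟨hz.1, hz.2.trans (w2.trans_le (min_le_left _ _))⟩,
    (f3 z (sub (Ioo_subset_Icc_self hz))).symm ▸ k⟩

theorem mo_nu (tf : ∀ a : G, a ≠ 1 → ¬ IsOfFinOrder a)
    (cy : ∀ x : X, ∃ k : G, ∀ a : G, a • x = x → a ∈ Subgroup.zpowers k) (x : X) :
    ∃ ν : G → ℤ, (∀ a b, a • x = x → b • x = x → ν (a * b) = ν a + ν b) ∧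
      ∀ a, a • x = x → ν a = 0 → a = 1 := by
  obtain ⟨z, hz⟩ := cy x
  by_cases hz1 : z = 1
  · refine ⟨fun _ => 0, fun _ _ _ _ => rfl, fun a ha _ => ?_⟩
    obtain ⟨n, rfl⟩ := hz a ha
    simp only [hz1, one_zpow]
  · have hex : ∀ a : G, ∃ n : ℤ, a • x = x → a = z ^ n := fun a => by
      by_cases ha : a • x = x
      · obtain ⟨n, hn⟩ := hz a ha
        exact ⟨n, fun _ => hn.symm⟩
      · exact ⟨0, fun e => absurd e ha⟩
    choose ν hν using hex
    refine ⟨ν, fun a c ha hc => injective_zpow_iff_not_isOfFinOrder.2 (tf z hz1) ?_,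
      fun a ha h0 => ?_⟩
    · show z ^ _ = z ^ _
      rw [zpow_add, ← hν a ha, ← hν c hc, ← hν (a * c) (by rw [mul_smul, hc, ha])]
    · rw [hν a ha, h0, zpow_zero]

theorem mo_cocycle (tf : ∀ a : G, a ≠ 1 → ¬ IsOfFinOrder a)
    (cy : ∀ x : X, ∃ k : G, ∀ a : G, a • x = x → a ∈ Subgroup.zpowers k) :
    ∃ N : G → X → ℤ, (∀ γ δ x, N (γ * δ) x = N γ (δ • x) + N δ x) ∧
      ∀ γ x, γ • x = x → N γ x = 0 → γ = 1 := by
  choose ν hν1 hν2 using mo_nu tf cy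
  obtain ⟨p, hp1, hp2⟩ : ∃ p : X → X, (∀ (g : G) x, p (g • x) = p x) ∧
      ∀ x, ∃ s : G, s • p x = x := by
    refine ⟨fun x => (Quotient.mk (MulAction.orbitRel G X) x).out, fun g x => ?_, fun x => ?_⟩
    · have e : Quotient.mk (MulAction.orbitRel G X) (g • x) = Quotient.mk _ x :=
        Quotient.sound ⟨g, rfl⟩
      simp only [e]
    · obtain ⟨g, hg⟩ := Quotient.mk_out (s := MulAction.orbitRel G X) x
      exact ⟨g⁻¹, inv_smul_eq_iff.2 hg.symm⟩
  choose σ hσ using hp2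
  have fx : ∀ (γ : G) x, ((σ (γ • x))⁻¹ * γ * σ x) • p x = p x := fun γ x => by
    rw [mul_smul, mul_smul, hσ, inv_smul_eq_iff, ← hp1 γ x, hσ]
  refine ⟨fun γ x => ν (p x) ((σ (γ • x))⁻¹ * γ * σ x), fun γ δ x => ?_, fun γ x hx h0 => ?_⟩
  · have h1 := fx γ (δ • x)
    rw [hp1] at h1
    simp only [hp1, mul_smul]
    rw [← hν1 _ _ _ h1 (fx δ x)]
    congr 1
    group
  · have h1 := hν2 _ _ (fx γ x) h0
    rw [hx] at h1
    calc γ = σ x * ((σ x)⁻¹ * γ * σ x) * (σ x)⁻¹ := by group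
      _ = 1 := by rw [h1]; group

theorem mo_blow [Countable G] (tf : ∀ a : G, a ≠ 1 → ¬ IsOfFinOrder a) {C : Set (ℝ → X)} {up : X → X → Prop} (hP : Pre G C)
    (opn : ∀ c ∈ C, ∀ d ∈ C, IsOpen {u | ∃ v, c u = d v})
    (upc : ∀ c ∈ C, ∀ s t, up (c s) (c t) ↔ s < t)
    (upk : ∀ c ∈ C, ∀ x, (∀ t, x ≠ c t) → ∀ s t, up x (c s) → up x (c t))
    (ups : ∀ (g : G) x y, up x y → up (g • x) (g • y))
    (cy : ∀ x : X, ∃ k : G, ∀ a : G, a • x = x → a ∈ Subgroup.zpowers k)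
    {D : Set X} (hD : D.Countable) (hinv : ∀ (g : G) x, x ∈ D → g • x ∈ D)
    (hden : ∀ c ∈ C, ∀ u v : ℝ, u < v → ∃ t ∈ Ioo u v, c t ∈ D) (x₀ : X) :
    ∃ (Y : Type u) (_ : MulAction G Y) (_ : Y) (C' : Set (ℝ → Y)) (up' : Y → Y → Prop),
      Pre G C' ∧ Good G C' Eq up' ∧
        (∀ y : Y, ∃ k : G, ∀ a : G, a • y = y → a ∈ Subgroup.zpowers k) ∧
        ∃ D', Den G C' D' := by
  have ab : ∀ (x : X) (a b : G), a • x = x → b • x = x → a * b = b * a := fun x a b ha hb => by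
    obtain ⟨k, hk⟩ := cy x
    obtain ⟨i, rfl⟩ := hk a ha
    obtain ⟨j, rfl⟩ := hk b hb
    exact zpow_mul_comm k i j
  obtain ⟨N, hN, hN'⟩ := mo_cocycle tf cy
  obtain ⟨f, hf⟩ := exists_free_iso
  have inj : ∀ c ∈ C, Function.Injective c := fun c hc s t e => by
    rcases lt_trichotomy s t with k | k | k
    · exact absurd ((upc c hc t t).1 (e ▸ (upc c hc s t).2 k)) (lt_irrefl _)
    · exact k
    · exact absurd ((upc c hc s s).1 (e ▸ (upc c hc t s).2 k)) (lt_irrefl _)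
  let _ := blAct D hinv f N hN
  have sm1 : ∀ (γ : G) (p : Bl D), (γ • p).1.1 = γ • p.1.1 := fun _ _ => rfl
  have sm2 : ∀ (γ : G) (p : Bl D), (γ • p).1.2 = (f ^ N γ p.1.1) p.1.2 := fun _ _ => rfl
  have lift : ∀ c ∈ C, ∃ τ a, Lifts D c τ a := fun c hc => exists_lifts hD (inj c hc)
  refine ⟨Bl D, inferInstance, ⟨(x₀, 0), fun _ => rfl⟩, {a | ∃ c ∈ C, ∃ τ, Lifts D c τ a},
    fun p p' => up p.1.1 p'.1.1 ∨ (p.1.1 = p'.1.1 ∧ p.1.2 < p'.1.2), ⟨?_, ?_, ?_, ?_⟩,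
    ⟨eq_equivalence, fun g x y e => by rw [e], ?_, fun x x' y e a => e ▸ a,
      fun x y y' e a => e ▸ a, ?_, ?_, ?_, ?_, ?_⟩,
    fun p => (cy p.1.1).imp fun k hk a ha => hk a (by rw [← sm1, ha]),
    ⋃ γ : G, (γ • ·) '' {p : Bl D | p.1.1 ∈ D ∧ (p.1.2 : ℝ) ∈ range ((↑) : ℚ → ℝ)}, ?_, ?_, ?_⟩
  · intro p
    obtain ⟨c, hc, t, e⟩ := hP.cover p.1.1
    obtain ⟨τ, a, h⟩ := lift c hc
    obtain ⟨u, -, e'⟩ := h.hit e.symm
    exact ⟨a, ⟨c, hc, τ, h⟩, u, e'⟩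
  · rintro γ a ⟨c, hc, τ, h⟩
    refine ⟨_, hP.smul γ c hc, τ, fun u => by rw [sm1, h.base], fun u u' e => ?_,
      fun t s k => ?_⟩
    · rcases h.lex u u' e with k | k
      · exact Or.inl k
      · refine Or.inr ⟨k.1, ?_⟩
        rw [sm2, sm2, h.base, h.base, k.1]
        exact (f ^ _).strictMono k.2
    · obtain ⟨u, e1, e2⟩ := h.onto t ((f ^ N γ (c t)).symm s) fun k' => by
        rw [k fun k'' => k' (by simpa using hinv γ⁻¹ _ k'')]
        exact (f ^ N γ (c t)).symm.map_bot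
      exact ⟨u, e1, by rw [sm2, h.base, e1, e2]; simp⟩
  · intro P hP' p p' hp
    have fib : ∀ p p' : Bl D, p.1.1 = p'.1.1 → P p → P p' := fun p p' e hp => by
      obtain ⟨c, hc, t, e'⟩ := hP.cover p.1.1
      obtain ⟨τ, a, h⟩ := lift c hc
      obtain ⟨u, -, e1⟩ := h.hit e'.symm
      obtain ⟨u', -, e2⟩ := h.hit (p := p') (e.symm.trans e'.symm)
      exact e2 ▸ hP' a ⟨c, hc, τ, h⟩ u u' (e1 ▸ hp)
    refine fib ⟨(p'.1.1, 0), fun _ => rfl⟩ p' rfl ?_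
    refine hP.conn (fun x => P ⟨(x, 0), fun _ => rfl⟩) (fun c hc s t k => ?_) p.1.1 p'.1.1
      (fib p _ rfl hp)
    obtain ⟨τ, a, h⟩ := lift c hc
    obtain ⟨u, -, e1⟩ := h.hit (p := ⟨(c s, 0), fun _ => rfl⟩) rfl
    obtain ⟨u', -, e2⟩ := h.hit (p := ⟨(c t, 0), fun _ => rfl⟩) rfl
    exact e2 ▸ hP' a ⟨c, hc, τ, h⟩ u u' (e1 ▸ k)
  · intro p
    obtain ⟨γ, hγ⟩ := hP.taut p.1.1
    have one : ∀ p p' : Bl D, Asc C p.1.1 p'.1.1 →
        Asc {a | ∃ c ∈ C, ∃ τ, Lifts D c τ a} p p' := by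
      rintro p p' ⟨c, hc, s, t, hst, e1, e2⟩
      obtain ⟨τ, a, h⟩ := lift c hc
      obtain ⟨u, k1, k2⟩ := h.hit e1.symm
      obtain ⟨u', k3, k4⟩ := h.hit e2.symm
      exact ⟨a, ⟨c, hc, τ, h⟩, u, u', (h.lex_iff u u').1 (Or.inl (k1 ▸ k3 ▸ hst)), k2, k4⟩
    have all : ∀ y, Relation.TransGen (Asc C) p.1.1 y → ∀ p' : Bl D, p'.1.1 = y →
        Relation.TransGen (Asc {a | ∃ c ∈ C, ∃ τ, Lifts D c τ a}) p p' := by
      intro y hy
      induction hy with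
      | single k => exact fun p' e => .single (one p p' (e ▸ k))
      | @tail b _ _ k ih =>
        exact fun p' e => .tail (ih ⟨(b, 0), fun _ => rfl⟩ rfl) (one _ p' (e ▸ k))
    exact ⟨γ, all _ hγ _ rfl⟩
  · rintro a ⟨c, hc, τ, h⟩ a' ⟨c', hc', τ', h'⟩
    have e : {u | ∃ v, a u = a' v} = τ ⁻¹' {t | ∃ v, c t = c' v} := by
      ext u
      refine ⟨fun ⟨v, k⟩ => ⟨τ' v, by rw [← h.base, k, h'.base]⟩, fun ⟨v, k⟩ => ?_⟩
      obtain ⟨w, -, k'⟩ := h'.hit (p := a u) ((h.base u).trans k)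
      exact ⟨w, k'.symm⟩
    rw [e]
    exact (opn c hc c' hc').preimage (h.mono.continuous_of_surjective h.surj)
  · rintro a ⟨c, hc, τ, h⟩ s t
    rw [h.base, h.base, upc c hc, (inj c hc).eq_iff]
    exact h.lex_iff s t
  · rintro a ⟨c, hc, τ, h⟩ p hp s t k
    have hx : ∀ t, p.1.1 ≠ c t := fun t e => by
      obtain ⟨u, -, e'⟩ := h.hit e
      exact hp u e'.symm
    rw [h.base] at k ⊢
    exact Or.inl (upk c hc _ hx _ _ (k.resolve_right fun k' => hx _ k'.1))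
  · rintro γ p p' (k | k)
    · exact Or.inl (ups γ _ _ k)
    · refine Or.inr ⟨by rw [sm1, sm1, k.1], ?_⟩
      rw [sm2, sm2, k.1]
      exact (f ^ _).strictMono k.2
  · intro p a b ha hb
    exact ab p.1.1 a b (by rw [← sm1, ha]) (by rw [← sm1, hb])
  · rintro γ hγ a ⟨c, hc, τ, h⟩ u v huv
    have key : ∀ w, 0 < (a w).1.2 → (a w).1.2 < 1 → ¬ γ • a w = a w := fun w h0 h1 e => by
      have e1 : γ • (a w).1.1 = (a w).1.1 := by rw [← sm1, e]
      have e2 : (f ^ N γ (a w).1.1) (a w).1.2 = (a w).1.2 := by rw [← sm2, e]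
      exact hf _ h0 h1 (zpow_fix (fun k => hγ (hN' γ _ e1 k)) e2)
    rcases h.lex u v huv with k | k
    · obtain ⟨t, ht, htD⟩ := hden c hc _ _ k
      obtain ⟨s, hs0, hs1⟩ := exists_between (zero_lt_one' II)
      obtain ⟨w, e1, e2⟩ := h.onto t s fun k' => absurd htD k'
      exact ⟨w, ⟨((h.lex_iff u w).1 (Or.inl (e1 ▸ ht.1))).le,
        ((h.lex_iff w v).1 (Or.inl (e1 ▸ ht.2))).le⟩, key w (e2 ▸ hs0) (e2 ▸ hs1)⟩
    · obtain ⟨s, hs0, hs1⟩ := exists_between k.2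
      have hD' : c (τ v) ∈ D := by
        by_contra k'
        have := (a v).2 (by rwa [h.base])
        rw [this] at hs1
        exact not_lt_bot hs1
      obtain ⟨w, e1, e2⟩ := h.onto (τ v) s fun k' => absurd hD' k'
      exact ⟨w, ⟨((h.lex_iff u w).1 (Or.inr ⟨k.1.trans e1.symm, e2 ▸ hs0⟩)).le,
        ((h.lex_iff w v).1 (Or.inr ⟨e1, e2 ▸ hs1⟩)).le⟩,
        key w (e2 ▸ bot_le.trans_lt hs0) (e2 ▸ hs1.trans_le le_top)⟩
  · refine countable_iUnion fun γ => Set.Countable.image ?_ _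
    exact (hD.prod (countable_range ((↑) : ℚ → ℝ))).preimage_of_injOn
      (f := fun p : Bl D => (p.1.1, (p.1.2 : ℝ))) fun p _ q _ e =>
        Subtype.ext (Prod.ext (Prod.mk.inj e).1 (Subtype.ext (Prod.mk.inj e).2))
  · intro γ p hp
    obtain ⟨δ, q, hq, rfl⟩ := mem_iUnion.1 hp
    exact mem_iUnion.2 ⟨γ * δ, q, hq, mul_smul γ δ q⟩
  · rintro a ⟨c, hc, τ, h⟩ u v huv
    rcases h.lex u v huv with k | k
    · obtain ⟨t, ht, htD⟩ := hden c hc _ _ k
      obtain ⟨w, e1, e2⟩ := h.onto t 0 fun _ => rfl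
      exact ⟨w, ⟨(h.lex_iff u w).1 (Or.inl (e1 ▸ ht.1)), (h.lex_iff w v).1 (Or.inl (e1 ▸ ht.2))⟩,
        mem_iUnion.2 ⟨1, a w, ⟨by rwa [h.base, e1], 0, by rw [e2]; simp⟩, one_smul G _⟩⟩
    · obtain ⟨q, q0, q1⟩ := exists_rat_btwn (show ((a u).1.2 : ℝ) < (a v).1.2 from k.2)
      have hD' : c (τ v) ∈ D := by
        by_contra k'
        have := (a v).2 (by rwa [h.base])
        exact not_lt_bot (this ▸ k.2)
      obtain ⟨w, e1, e2⟩ := h.onto (τ v) ⟨q, (a u).1.2.2.1.trans q0.le, q1.le.trans (a v).1.2.2.2⟩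
        fun k' => absurd hD' k'
      exact ⟨w, ⟨(h.lex_iff u w).1 (Or.inr ⟨k.1.trans e1.symm, e2 ▸ q0⟩),
        (h.lex_iff w v).1 (Or.inr ⟨e1, e2 ▸ q1⟩)⟩,
        mem_iUnion.2 ⟨1, a w, ⟨by rwa [h.base, e1], q, by rw [e2]⟩, one_smul G _⟩⟩

end Pool.Agent.Work.MP_3d425c_gt.Cy

namespace Pool.Agent.Work.MP_3d425c_gt.Md
open Set Relation Filter Topology Pool.Agent.Work.MP_3d425c_gt.Gn Pool.Agent.Work.MP_3d425c_gt.Cy

variable {G X0 X1 X2 X3 : Type} [Group G] [MulAction G X0] [MulAction G X1] [MulAction G X2]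
  [MulAction G X3] {T : Tri G X0 X1 X2 X3} {φ : X2 → ℝ ≃o ℝ}

/-- stabilisers of leaves are cyclic -/
def Tri.Cy (T : Tri G X0 X1 X2 X3) (φ : X2 → ℝ ≃o ℝ) : Prop := ∀ x, ∀ s ∈ Ioo (0 : ℝ) 1,
  ∃ k : G, ∀ h : G, T.Lf φ (x, s) (h • x, s) → h ∈ Subgroup.zpowers k

theorem Tri.collapse_rel (hf : T.Fol φ) (hi : T.Inf φ) {x : X3} {s : ℝ}
    (hs : s ∈ Ioo (0 : ℝ) 1) {g : G} (hg : T.Lf φ (x, s) (g • x, s)) :
    ∃ (p : Nd X0 X1) (Y : Set (Ob G X2 × ℝ)), Conn T.src (T.tgt φ) (ovr G Y) p (g • p) ∧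
      ∀ h : G, T.Lf φ (x, s) (h • x, s) → ∃ Z, Y ⊆ Z ∧ T.Clear φ (x, s) Z ∧
        Conn T.src (T.tgt φ) (ovr G Z) p (h • p) := by
  have h1 := col_primal hf (ob G x, s) hg ReflTransGen.refl
  dsimp only at h1
  rw [T.e3, T.e2, ← smul_pt] at h1
  obtain ⟨Y, y1, y2⟩ := Co.Cx.mo_collapse (X := col_cx hf) (col_bd hf)
    (Co.Cx.her_rch (ob G x, s)) h1
  refine ⟨_, Y, col_conn hf y1, fun h hh => ?_⟩
  have h2 := col_primal hf (ob G x, s) hh ReflTransGen.refl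
  dsimp only at h2
  rw [T.e3, T.e2, ← smul_pt] at h2
  obtain ⟨Z, z0, z1, z2, z3⟩ := y2 _ h2
  refine ⟨Z, z0, ⟨hs, Z.finite_toSet, fun z hz => ?_, fun q hq => ?_⟩, col_conn hf z3⟩
  · obtain ⟨on, a, rfl⟩ := z1 z hz
    refine ⟨a.ht, ?_⟩
    obtain ⟨y1, k1, e1, i1⟩ := col_inc_of (T := T) a.f false
    have c : (col_cx hf).cell ((col_cx hf).pr a) false = (ob G y1, T.pos φ y1 k1 a.t) := by
      show (col_cx hf).cell (ob G a.f, a.t) false = _
      rw [← e1, col_cell hf i1]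
    rw [c] at on
    obtain ⟨y, hy, hp⟩ := col_up hf (p := (x, s)) on
    obtain ⟨k, rfl⟩ := col_ob_eq hy.symm
    refine ⟨k • y1, k1, ?_, ?_⟩
    · rw [T.e3, col_ob_smul, e1]
      rfl
    · rw [col_pos_smul hf]
      exact col_lf.2 hp
  · exact (col_infZ hf _ q).2 (z2 _ ((col_infZ hf ∅ q).1 (hi q.1 q.2 ((col_lev hf hq).1 hs))))

/-- A generic foliation has cyclic stabilisers. -/
theorem Tri.generic_cyc {φ₀ : X2 → ℝ ≃o ℝ} (h₀ : T.Fol φ₀) {ρ : ℝ} (hρ : 0 < ρ)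
    (inf : ∀ φ, T.Fol φ → (∀ f t, |φ f t - φ₀ f t| ≤ ρ) → T.Inf φ)
    (she : ∀ φ, T.Fol φ → (∀ f t, |φ f t - φ₀ f t| ≤ ρ) → ∀ p Z, T.Clear φ p Z → T.Shear φ Z) :
    ∃ φ, T.Fol φ ∧ (∀ f t, |φ f t - φ₀ f t| ≤ ρ) ∧ T.Cy φ := by
  classical
  have := T.gen_fin
  have := Fintype.ofFinite (Ob G X2)
  have := T.gen_closed.completeSpace_coe
  obtain ⟨ψ₀, e₀⟩ := Tri.gen_mk h₀
  let M : T.genSp → Ob G X2 × Bool → ℝ ≃o ℝ := fun ψ l => (ψ.1 l.1).1.trans (genA l.2)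
  have ca : ∀ o, Continuous fun p : T.genSp × ℝ => p.1.1 o := fun o =>
    (continuous_apply o).comp (continuous_subtype_val.comp continuous_fst)
  obtain ⟨ψ, hb, hψ⟩ := exists_generic (M := M)
    (fun l => (genA l.2).continuous.comp (Sup.cont_eval.comp ((ca l.1).prodMk continuous_snd)))
    (fun l => Sup.cont_symm.comp ((ca l.1).prodMk
      ((genA l.2).symm.continuous.comp continuous_snd))) Metric.isOpen_ball
    ⟨ψ₀, Metric.mem_ball_self hρ⟩
  obtain ⟨φ, eφ⟩ : ∃ φ : X2 → ℝ ≃o ℝ, φ = fun f => (ψ.1 (ob G f)).1 := ⟨_, rfl⟩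
  have hf : T.Fol φ := eφ ▸ ⟨ψ.2, fun g f => by simp only [gen_ob]⟩
  have eφ' : ∀ f, (ψ.1 (ob G f)).1 = φ f := fun f => by rw [eφ]
  have hc : ∀ f t, |φ f t - φ₀ f t| ≤ ρ := fun f t => by
    rw [← eφ', ← e₀]
    exact ((Sup.dist_le_iff hρ.le).1 ((dist_le_pi_dist ψ.1 ψ₀.1 (ob G f)).trans
      (le_of_lt hb))).1 t
  have e1 : ∀ (g : G) (e : Ar X2), T.src (g • e) = g • (T.src e : Nd X0 X1) := fun g e => by
    rw [Tri.src, Tri.src, smul_pt, smul_f, T.e2, smul_t]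
  have e2 : ∀ (Z : Set (Ob G X2 × ℝ)) (g : G) (e : Ar X2), e ∈ ovr G Z → g • e ∈ ovr G Z :=
    fun Z g e he => by
      change (ob G (g • e.f), e.t) ∈ Z
      rwa [gen_ob]
  refine ⟨φ, hf, hc, fun x s hs => ?_⟩
  by_cases hx : ∃ g : G, T.Lf φ (x, s) (g • x, s) ∧ g ≠ 1
  swap
  · exact ⟨1, fun h hh => by
      rw [show h = 1 from by_contra fun q => hx ⟨h, hh, q⟩]
      exact one_mem _⟩
  obtain ⟨g, hg, g1⟩ := hx
  obtain ⟨p, Y, y1, y2⟩ := Tri.collapse_rel hf (inf φ hf hc) hs hg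
  obtain ⟨k, hk⟩ := mo_key e1 (col_tgt_smul hf) T.gen_free (e2 Y) y1 g1
  refine ⟨k, fun h hh => ?_⟩
  obtain ⟨Z, z0, z1, z2⟩ := y2 h hh
  obtain ⟨η, hη, sh⟩ := she φ hf hc _ Z z1
  refine (hk _ (e2 Z) (fun _ q => z0 q) h z2).resolve_right (hψ.not_two (lev := Nd.lev)
    (lab := fun e => (ob G e.f, decide (2 * φ e.f e.t ≤ 1))) e1 (fun g p => by cases p <;> rfl)
    (fun e _ => ?_) ⟨η, hη, fun ε hε => ?_⟩)
  · change genA _ ((ψ.1 (ob G e.f)).1 e.t) = _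
    rw [genA_apply, eφ', Tri.tgt]
    rcases lt_trichotomy (2 * φ e.f e.t) 1 with c | c | c
    · simp [c, c.le, Nd.lev]
    · simp [c, Nd.lev]
    · simp [c.not_ge, c.not_gt, c.ne', Nd.lev, sub_eq_add_neg]
  · choose d d0 hd using fun o => Sup.near (ψ.1 o) hε
    obtain ⟨x⟩ := T.ne
    have : Nonempty (Ob G X2) := ⟨ob G (T.d3 x 0)⟩
    obtain ⟨o₀, ho⟩ := Finite.exists_min d
    obtain ⟨δ, hδ, sh⟩ := sh _ (d0 o₀)
    refine ⟨δ, hδ, fun k k1 k2 k3 => ?_⟩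
    obtain ⟨φ', f1, f2, f3⟩ := sh (fun z => if hz : z.2 ∈ Ioo (0 : ℝ) 1 then k ⟨z.1.out, z.2, hz⟩
      else OrderIso.refl ℝ) fun z _ => by
        split_ifs with c
        · exact ⟨k2 ⟨_, _, c⟩, k3 _⟩
        · exact ⟨fun _ _ => rfl, fun t => by simpa using hδ.le⟩
    obtain ⟨ψ', e'⟩ := Tri.gen_mk f1
    refine ⟨ψ', (dist_pi_le_iff hε.le).2 fun o => hd o _ fun t => ?_, fun e he t ht => ?_⟩
    · obtain ⟨f, rfl⟩ := Quotient.exists_rep o
      change |(ψ'.1 (ob G f)).1 t - (ψ.1 (ob G f)).1 t| ≤ _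
      rw [e', eφ']
      exact (f2 f t).trans (ho _)
    · change genA _ ((ψ'.1 (ob G e.f)).1 t) = genA _ ((ψ.1 (ob G e.f)).1 (k e t))
      obtain ⟨g, eg⟩ := gen_out (G := G) e.f
      rw [e', eφ', f3 e.f e.t he t ht, dif_pos e.ht, ← k1 g e]
      exact congrArg (fun c => genA _ (φ e.f (k c t))) (Ar.ext eg rfl)

/-- The leaf space, blown up, as an object with cyclic stabilisers. -/
theorem Tri.obj_cyc (tf : ∀ a : G, a ≠ 1 → ¬ IsOfFinOrder a) (hf : T.Fol φ) (hn : T.NC φ)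
    (hi : T.Inf φ) (ha : T.Cy φ) : ∃ (Y : Type) (_ : MulAction G Y) (_ : Y) (C : Set (ℝ → Y))
      (up : Y → Y → Prop), OM G C up ∧ (∀ y : Y, IsCyclic (MulAction.stabilizer G y)) ∧
        ∃ D, Den G C D := by
  obtain ⟨up, u1, u2, u3, u4, u5⟩ := Tri.exists_up hf hn
  obtain ⟨σ, s1, s2, s3, s4⟩ := objB_sig
  have := objB_count T
  have := objB_countG T
  obtain ⟨x0⟩ := T.ne
  let _ := objB_act hf σ
  let m : X3 → ℝ → Quotient (objB_st T φ σ) := fun x u => Quotient.mk _ (x, u)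
  have meq : ∀ x u y v, m x u = m y v ↔ T.Lf φ (x, σ u) (y, σ v) := fun x u y v => Quotient.eq
  have msm : ∀ (g : G) x u, g • m x u = m (g • x) u := fun _ _ _ => rfl
  have msj : ∀ l, ∃ x u, m x u = l := by
    rintro ⟨x, u⟩
    exact ⟨x, u, rfl⟩
  let U : Quotient (objB_st T φ σ) → Quotient (objB_st T φ σ) → Prop := fun a b =>
    ∃ x u y v, m x u = a ∧ m y v = b ∧ up (x, σ u) (y, σ v)
  have hU : ∀ x u y v, U (m x u) (m y v) ↔ up (x, σ u) (y, σ v) := fun x u y v =>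
    ⟨fun ⟨x', u', y', v', a, b, c⟩ => u1 _ _ _ ((meq _ _ _ _).1 a) (u2 _ _ _ ((meq _ _ _ _).1 b) c),
      fun h => ⟨x, u, y, v, rfl, rfl, h⟩⟩
  have hP : Pre G (range m) := by
    refine ⟨fun l => ?_, ?_, fun P hPc => ?_, fun l => ?_⟩
    · obtain ⟨x, u, e⟩ := msj l
      exact ⟨m x, ⟨x, rfl⟩, u, e⟩
    · rintro g _ ⟨x, rfl⟩
      exact ⟨g • x, rfl⟩
    · have key : ∀ x y, EqvGen (fun x y => ∃ k l, T.d3 x k = T.d3 y l) x y →
          (P (m x 0) ↔ P (m y 0)) := by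
        intro x y h
        induction h with
        | rel x y h =>
          obtain ⟨k, l, e⟩ := h
          obtain ⟨u, hu⟩ := s4 _ (hf.1.pos_mem x k (s3 0))
          obtain ⟨v, hv⟩ := s4 _ (hf.1.pos_mem y l (s3 0))
          have e' : m x u = m y v := (meq _ _ _ _).2 (hu ▸ hv ▸ Tri.Lf.arc e (s3 0))
          exact ⟨fun h => hPc _ ⟨y, rfl⟩ v 0 (e' ▸ hPc _ ⟨x, rfl⟩ 0 u h),
            fun h => hPc _ ⟨x, rfl⟩ u 0 (e'.symm ▸ hPc _ ⟨y, rfl⟩ 0 v h)⟩
        | refl x => exact Iff.rfl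
        | symm x y _ ih => exact ih.symm
        | trans x y z _ _ i j => exact i.trans j
      intro a b h
      obtain ⟨x, u, rfl⟩ := msj a
      obtain ⟨y, v, rfl⟩ := msj b
      exact hPc _ ⟨y, rfl⟩ 0 v ((key x y (T.conn x y)).1 (hPc _ ⟨x, rfl⟩ u 0 h))
    · obtain ⟨x, u, rfl⟩ := msj l
      obtain ⟨y, g, a, b, lt, h1, h2⟩ := objB_two hf hi x (s3 u)
      obtain ⟨a, rfl⟩ := s4 a ((hf.1.lf_mem h1).1 (s3 u))
      obtain ⟨b, rfl⟩ := s4 b ((hf.1.lf_mem h2).1 (s3 u))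
      exact ⟨g, TransGen.single ⟨m y, ⟨y, rfl⟩, a, b, s1.lt_iff_lt.1 lt,
        (meq _ _ _ _).2 h1.symm, (meq _ _ _ _).2 h2.symm⟩⟩
  obtain ⟨Y, _, y0, C', up', hP', hg', hc', D', hD'⟩ := mo_blow tf (up := U) hP
    (by
      rintro _ ⟨x, rfl⟩ _ ⟨y, rfl⟩
      refine isOpen_iff_mem_nhds.2 ?_
      rintro u ⟨v, e⟩
      obtain ⟨ψ, -, h⟩ := objB_hol ((meq _ _ _ _).1 e)
      refine (s2.continuousAt.eventually h).mono fun w hw => ?_
      obtain ⟨v', hv'⟩ := s4 _ ((hf.1.lf_mem hw).1 (s3 w))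
      exact ⟨v', (meq _ _ _ _).2 (hv' ▸ hw)⟩)
    (by
      rintro _ ⟨x, rfl⟩ s t
      rw [hU, u3 x _ (s3 s) _ (s3 t), s1.lt_iff_lt])
    (by
      rintro _ ⟨y, rfl⟩ l hl s t h
      obtain ⟨x, u, rfl⟩ := msj l
      rw [hU] at h ⊢
      refine u4 _ y (fun r hr q => ?_) _ (s3 s) _ (s3 t) h
      obtain ⟨r, rfl⟩ := s4 r hr
      exact hl r ((meq _ _ _ _).2 q))
    (by
      rintro g _ _ ⟨x, u, y, v, rfl, rfl, h⟩
      exact ⟨g • x, u, g • y, v, rfl, rfl, u5 g _ _ h⟩)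
    (by
      intro l
      obtain ⟨x, u, rfl⟩ := msj l
      exact (ha x _ (s3 u)).imp fun k hk a h1 => hk a ((meq _ _ _ _).1 h1.symm))
    (D := range fun p : X3 × ℚ => m p.1 p.2) (countable_range _)
    (by
      rintro g _ ⟨p, rfl⟩
      exact ⟨(g • p.1, p.2), rfl⟩)
    (by
      rintro _ ⟨x, rfl⟩ u v h
      obtain ⟨q, hq⟩ := exists_rat_btwn h
      exact ⟨q, hq, (x, q), rfl⟩)
    (m x0 0)
  refine ⟨Y, _, y0, _, up', (saturate hP' hg').1, fun y => ?_, D', hD'.sat⟩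
  obtain ⟨k, hk⟩ := hc' y
  exact Subgroup.isCyclic_of_le (H' := Subgroup.zpowers k) hk

/-- MODEL STEP for a taut foliation. -/
theorem Tri.model_taut (T : Tri G X0 X1 X2 X3) (tf : ∀ a : G, a ≠ 1 → ¬ IsOfFinOrder a)
    (h0 : NoHom G) (hD : Nv.Disc T) (mid : ∀ v, ∃ f, T.d1 (T.d2 f 2) 0 = v) (φ : X2 → ℝ ≃o ℝ)
    (hf : T.Fol φ) (ht : T.Taut φ) : ∃ (Y : Type) (_ : MulAction G Y) (_ : Y) (C : Set (ℝ → Y))
      (up : Y → Y → Prop), OM G C up ∧ (∀ y : Y, IsCyclic (MulAction.stabilizer G y)) ∧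
        ∃ D, Den G C D := by
  obtain ⟨ρ, hρ, hb⟩ := Tri.ball h0 hf ht mid
  obtain ⟨ψ, hψ, hc, ha⟩ := Tri.generic_cyc hf hρ
    (fun ψ hψ hc => (hb ψ hψ hc).elim fun _ hy => hy.inf hψ)
    fun ψ hψ hc _ _ hZ => (hb ψ hψ hc).elim fun _ hy => hy.shear Ht.shear hψ hZ
  obtain ⟨y, hy⟩ := hb ψ hψ hc
  exact Tri.obj_cyc tf hψ (Nv.fw_nov hD hy hψ.1) (hy.inf hψ) ha

/-- MODEL STEP for a triangulation whose edges lie on oriented cycles. -/
theorem Tri.model_cyc (T : Tri G X0 X1 X2 X3) (tf : ∀ a : G, a ≠ 1 → ¬ IsOfFinOrder a)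
    (h0 : NoHom G) (hD : Nv.Disc T) (hcy : T.Cyc) (ex : ∃ φ, T.Fol φ) :
    ∃ (Y : Type) (_ : MulAction G Y) (_ : Y) (C : Set (ℝ → Y))
      (up : Y → Y → Prop), OM G C up ∧ (∀ y : Y, IsCyclic (MulAction.stabilizer G y)) ∧
        ∃ D, Den G C D := by
  obtain ⟨y, hy⟩ := T.flow hcy h0
  obtain ⟨φ, hf⟩ := ex
  obtain ⟨ψ, hψ, -, ha⟩ := Tri.generic_cyc hf one_pos (fun ψ hψ _ => Tri.inf hy hψ)
    fun ψ hψ _ _ _ hZ => Tri.shear Ht.shear hy hψ hZ
  exact Tri.obj_cyc tf hψ (Nv.nov hD hy hψ.1) (Tri.inf hy hψ) ha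

end Pool.Agent.Work.MP_3d425c_gt.Md
end

-- merged part: Pool.Agent.Work.MP_3d425c_gt.To.SfCl
section
/-! Groups with a normal cyclic subgroup: the closed Seifert case. -/

namespace Pool.Agent.Work.MP_3d425c_gt.To.Cs
open Set Filter Topology MulAction Pool.Agent.Work.MP_3d425c_gt.Cy
open Pool.Agent.Work.MP_3d425c_gt.To.Ax

variable {G X : Type*} [Group G] [MulAction G X] {C : Set (ℝ → X)} {up : X → X → Prop}

variable {a : G}

/-- A generator of a normal cyclic subgroup acts freely. -/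
theorem free_of_taut (h : Om G C up) (taut : ∀ x : X, ∃ g : G, Relation.TransGen (Asc C) x (g • x))
    (cyc : ∀ y : X, IsCyclic (stabilizer G y)) (h1 : a ≠ 1)
    (hn : ∀ g : G, g * a * g⁻¹ = a ∨ g * a * g⁻¹ = a⁻¹) {S : Set G} (hS : S.Finite)
    (hc : Subgroup.closure S = ⊤)
    (h0 : ∀ χ : G → ℝ, (∀ a b, χ (a * b) = χ a + χ b) → ∀ g, χ g = 0) (w : X) : a • w ≠ w := by
  intro hw
  have dep : ∀ (x : X) (g : G), a • x = x → g • x = x →
      ∃ n > 0, g ^ n ∈ Subgroup.zpowers a := by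
    intro x g hx hg
    obtain ⟨κ, hκ⟩ := (cyc x).exists_generator
    obtain ⟨i, hi⟩ := hκ ⟨a, hx⟩
    obtain ⟨j, hj⟩ := hκ ⟨g, hg⟩
    have hi' : (κ : G) ^ i = a := congrArg Subtype.val hi
    have hj' : (κ : G) ^ j = g := congrArg Subtype.val hj
    have i0 : i ≠ 0 := fun e => h1 (by rw [← hi', e, zpow_zero])
    refine ⟨i.natAbs, Int.natAbs_pos.2 i0, ?_⟩
    have m : g ^ i ∈ Subgroup.zpowers a := by
      rw [← hj', ← zpow_mul, mul_comm, zpow_mul, hi']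
      exact Subgroup.zpow_mem _ (Subgroup.mem_zpowers a) j
    rw [← zpow_natCast]
    rcases Int.natAbs_eq i with e | e
    · rw [← e]
      exact m
    · rw [← neg_eq_iff_eq_neg.2 e, zpow_neg]
      exact inv_mem m
  obtain ⟨x, -, -, -, k⟩ := h.qm_fix hn dep hS hc (finite_singleton w)
    (by rintro _ rfl; rw [hw]; exact cmp_refl _) (fun χ k _ => h0 χ k)
    ⟨w, hw, 1, 1, w, rfl, w, rfl, .inr (one_smul _ _), by rw [one_smul]; exact h.irr _⟩
  exact (taut x).elim k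

omit [MulAction G X] in
theorem inv_of_normal (tf : ∀ a : G, a ≠ 1 → ¬ IsOfFinOrder a) (h1 : a ≠ 1)
    (hN : (Subgroup.zpowers a).Normal) (g : G) : g * a * g⁻¹ = a ∨ g * a * g⁻¹ = a⁻¹ := by
  obtain ⟨i, hi⟩ := hN.conj_mem a (Subgroup.mem_zpowers a) g
  obtain ⟨j, hj⟩ := hN.conj_mem a (Subgroup.mem_zpowers a) g⁻¹
  dsimp only at hi hj
  have e : a ^ (i * j) = a ^ (1 : ℤ) := by
    rw [zpow_mul, hi, conj_zpow, hj, zpow_one]
    group
  rcases Int.eq_one_or_neg_one_of_mul_eq_one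
    (injective_zpow_iff_not_isOfFinOrder.2 (tf a h1) e) with k | k
  · exact .inl (by rw [← hi, k, zpow_one])
  · exact .inr (by rw [← hi, k, zpow_neg_one])

/-- A group with a normal infinite cyclic subgroup and a taut action with cyclic stabilisers is
left orderable. -/
theorem lo_inv (h : Om G C up) (x₀ : X)
    (taut : ∀ x : X, ∃ g : G, Relation.TransGen (Asc C) x (g • x))
    (cyc : ∀ y : X, IsCyclic (stabilizer G y)) (tf : ∀ a : G, a ≠ 1 → ¬ IsOfFinOrder a)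
    (h1 : a ≠ 1) (hn : ∀ g : G, g * a * g⁻¹ = a ∨ g * a * g⁻¹ = a⁻¹)
    {S : Set G} (hS : S.Finite)
    (hc : Subgroup.closure S = ⊤)
    (h0 : ∀ χ : G → ℝ, (∀ a b, χ (a * b) = χ a + χ b) → ∀ g, χ g = 0) :
    ∃ r : G → G → Prop, IsStrictTotalOrder G r ∧ ∀ a b c, r a b ↔ r (c * a) (c * b) := by
  have fr := free_of_taut h taut cyc h1 hn hS hc h0
  have e : ∀ {u v : X}, Relation.TransGen (Asc C) u v → Asc C u v := fun e => by
    induction e with
    | single e => exact e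
    | tail _ e ih => exact asc_trans h ih e
  rcases cmp_or_skew h a x₀ with ⟨y, hy⟩ | ⟨m, n, k⟩
  · have z : ∀ g : G, Cmp C (g • y) (a • g • y) := fun g => h.qf_cmp (hn g⁻¹) hy
    obtain ⟨κ, hκ⟩ := (cyc y).exists_generator
    obtain ⟨t, t1, t2⟩ := Gl.lin_of_cyclic (A := ⊤ ⊓ stabilizer G y) (α := (κ : G))
      ((em _).imp_right (tf _)) fun g hg =>
        let ⟨n, hn⟩ := hκ ⟨g, hg.2⟩
        ⟨n, (congrArg Subtype.val hn).symm⟩
    have c : ∀ p q : G, Cmp C (p • y) (q • y) := fun p q => by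
      by_contra nc
      obtain ⟨m, k, -⟩ := sep_fix h nc
      exact fr m (k a (z p) (z q))
    obtain ⟨r, r1, r2, -⟩ := Gl.ord_of_action (A := ⊤) (F := ∅) (Asc C) y (by simp)
      (fun _ _ => asc_irr h _) (fun _ _ _ _ _ _ => asc_trans h)
      (fun p _ q _ ne => (c p q).imp (fun k => k.resolve_left ne) fun k => k.resolve_left ne.symm)
      (fun g _ _ _ _ _ => asc_smul h g) t1 t2 (by simp)
    refine ⟨r, { trichotomous := fun p q k1 k2 => ?_
                 irrefl := fun p => r1.irr p trivial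
                 trans := fun p q s => r1.trans p trivial q trivial s trivial },
      fun p q g => ⟨r2 g trivial p trivial q trivial, fun k => ?_⟩⟩
    · by_contra ne
      exact (r1.tot p trivial q trivial ne).elim k1 k2
    · simpa using r2 g⁻¹ trivial _ trivial _ trivial k
  · exfalso
    obtain ⟨g, hg⟩ := taut n
    have g2 : Asc C n ((g * g) • n) := by
      rw [mul_smul]
      exact asc_trans h (e hg) (asc_smul h g (e hg))
    have c : a * (g * g) = g * g * a := by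
      have : g * (g * a * g⁻¹) * g⁻¹ = a := by
        rcases hn g with k | k
        · rw [k, k]
        · rw [k, ← conj_inv, k, inv_inv]
      calc a * (g * g) = g * (g * a * g⁻¹) * g⁻¹ * (g * g) := by rw [this]
        _ = g * g * a := by group
    rcases k.tri h c with k | k | k
    · rw [k.2] at g2
      exact asc_irr h _ g2
    · exact k.not_cmp h n (.inl (.inr g2))
    · exact k.not_cmp h ((g * g) • n) (by rw [inv_smul_smul]; exact .inr (.inr g2))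

/-- The same with a normal subgroup. -/
theorem lo_normal (h : Om G C up) (x₀ : X)
    (taut : ∀ x : X, ∃ g : G, Relation.TransGen (Asc C) x (g • x))
    (cyc : ∀ y : X, IsCyclic (stabilizer G y)) (tf : ∀ a : G, a ≠ 1 → ¬ IsOfFinOrder a)
    (h1 : a ≠ 1) (hN : (Subgroup.zpowers a).Normal) {S : Set G} (hS : S.Finite)
    (hc : Subgroup.closure S = ⊤)
    (h0 : ∀ χ : G → ℝ, (∀ a b, χ (a * b) = χ a + χ b) → ∀ g, χ g = 0) :
    ∃ r : G → G → Prop, IsStrictTotalOrder G r ∧ ∀ a b c, r a b ↔ r (c * a) (c * b) :=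
  lo_inv h x₀ taut cyc tf h1 (inv_of_normal tf h1 hN) hS hc h0

end Pool.Agent.Work.MP_3d425c_gt.To.Cs

namespace Pool.Agent.Work.MP_3d425c_gt.Md
open Pool.Agent.Work.MP_3d425c_gt.Cy Pool.Agent.Work.MP_3d425c_gt.To

variable {G X0 X1 X2 X3 : Type} [Group G] [MulAction G X0] [MulAction G X1] [MulAction G X2]
  [MulAction G X3]

/-- The group of a triangulation is finitely generated. -/
theorem Tri.fin_gen (T : Tri G X0 X1 X2 X3) :
    ∃ S : Set G, S.Finite ∧ Subgroup.closure S = ⊤ := by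
  have := T.fin
  have fr : ∀ (g : G) (x : X3), g • x = x → g = 1 := fun g x e =>
    T.free g (T.d1 (T.d2 (T.d3 x 0) 0) 0) (by rw [← T.e1, ← T.e2, ← T.e3, e])
  let ρ : MulAction.orbitRel.Quotient G X3 → X3 := Quotient.out
  have ex : ∀ x : X3, ∃ g : G, g • ρ (Quotient.mk _ x) = x := fun x =>
    MulAction.mem_orbit_iff.1 (MulAction.orbitRel_apply.1
      ((MulAction.orbitRel G X3).symm (Quotient.mk_out (s := MulAction.orbitRel G X3) x)))
  choose γ hγ using ex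
  have sm : ∀ (g : G) (x : X3), γ (g • x) = g * γ x := fun g x => by
    have q : Quotient.mk (MulAction.orbitRel G X3) (g • x) = Quotient.mk _ x :=
      Quotient.sound (MulAction.orbitRel_apply.2 (MulAction.mem_orbit x g))
    have e := hγ (g • x)
    rw [q] at e
    refine (inv_mul_eq_one.1 (fr _ (ρ (Quotient.mk _ x)) ?_)).symm
    rw [mul_smul, e, inv_smul_eq_iff, mul_smul, hγ x]
  have fin : {y : X3 | ∃ q k l, T.d3 (ρ q) k = T.d3 y l}.Finite := by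
    have : ∀ f : X2, {y : X3 | ∃ l, f = T.d3 y l}.Finite := fun f => by
      obtain ⟨p, q, -, k⟩ := T.two f
      refine (Set.toFinite {p.1, q.1}).subset ?_
      rintro y ⟨l, e⟩
      rcases (k (y, l)).1 e.symm with rfl | rfl
      · exact .inl rfl
      · exact .inr rfl
    refine (Set.finite_iUnion fun q => Set.finite_iUnion fun k => this (T.d3 (ρ q) k)).subset ?_
    rintro y ⟨q, k, l⟩
    exact Set.mem_iUnion₂.2 ⟨q, k, l⟩
  refine ⟨γ '' _, fin.image γ, ?_⟩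
  have step : ∀ x y : X3, (∃ k l, T.d3 x k = T.d3 y l) →
      (γ x)⁻¹ * γ y ∈ Subgroup.closure (γ '' {y : X3 | ∃ q k l, T.d3 (ρ q) k = T.d3 y l}) := by
    rintro x y ⟨k, l, e⟩
    refine Subgroup.subset_closure ⟨(γ x)⁻¹ • y, ⟨Quotient.mk _ x, k, l, ?_⟩, sm _ _⟩
    rw [T.e3, ← e, ← T.e3, eq_comm, inv_smul_eq_iff.2 (hγ x).symm]
  have all : ∀ x y : X3,
      (γ x)⁻¹ * γ y ∈ Subgroup.closure (γ '' {y : X3 | ∃ q k l, T.d3 (ρ q) k = T.d3 y l}) := by
    intro x y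
    induction T.conn x y with
    | rel x y e => exact step x y e
    | refl x => simp
    | symm x y _ ih => simpa using inv_mem ih
    | trans x y z _ _ i1 i2 => simpa [mul_assoc] using mul_mem i1 i2
  obtain ⟨x⟩ := T.ne
  refine eq_top_iff.2 fun g _ => ?_
  simpa [sm] using all x ((γ x * g * (γ x)⁻¹) • x)

/-- THE CLOSED SEIFERT CASE. -/
theorem Tri.lo_inv (T : Tri G X0 X1 X2 X3) (tf : ∀ a : G, a ≠ 1 → ¬ IsOfFinOrder a)
    (h0 : NoHom G) (hD : Nv.Disc T) (mid : ∀ v, ∃ f, T.d1 (T.d2 f 2) 0 = v) (φ : X2 → ℝ ≃o ℝ)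
    (hf : T.Fol φ) (ht : T.Taut φ) {a : G} (h1 : a ≠ 1) 
    (hn : ∀ g : G, g * a * g⁻¹ = a ∨ g * a * g⁻¹ = a⁻¹) :
    ∃ r : G → G → Prop, IsStrictTotalOrder G r ∧ ∀ a b c, r a b ↔ r (c * a) (c * b) := by
  obtain ⟨Y, _, y, C, up, h, cyc, -⟩ := T.model_taut tf h0 hD mid φ hf ht
  obtain ⟨S, hS, hc⟩ := T.fin_gen
  refine Cs.lo_inv (om_of_OM h) y h.pre.taut cyc tf h1 hn hS hc fun χ k g => ?_
  have := h0 (MonoidHom.mk' (fun g => Multiplicative.ofAdd (χ g)) fun a b => by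
    rw [k, ofAdd_add])
  exact ofAdd_eq_one.1 (DFunLike.congr_fun this g)

/-- The same with a normal subgroup. -/
theorem Tri.lo_seifert (T : Tri G X0 X1 X2 X3) (tf : ∀ a : G, a ≠ 1 → ¬ IsOfFinOrder a)
    (h0 : NoHom G) (hD : Nv.Disc T) (mid : ∀ v, ∃ f, T.d1 (T.d2 f 2) 0 = v) (φ : X2 → ℝ ≃o ℝ)
    (hf : T.Fol φ) (ht : T.Taut φ) {a : G} (h1 : a ≠ 1) (hN : (Subgroup.zpowers a).Normal) :
    ∃ r : G → G → Prop, IsStrictTotalOrder G r ∧ ∀ a b c, r a b ↔ r (c * a) (c * b) :=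
  T.lo_inv tf h0 hD mid φ hf ht h1 (Cs.inv_of_normal tf h1 hN)

end Pool.Agent.Work.MP_3d425c_gt.Md
end

-- merged part: Pool.Agent.Work.MP_3d425c_gt.Sm.T2
section
/-! Block T2: rising. `rise`: all levels lie between those of χ a (∓ 15 • l a) (between), so are levels
of some t, |t| ≤ 15 (lev). Call c generic if no vertex of the finite set S a has height c. CLAIM, by
induction on the number n of vertices with height in (c1, c2): plaques q1, q2 at generic levels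
c1 ≤ c2 of tetrahedra with centres of norm < 27 are joined by ReflTransGen (Rise or same leaf).
n = 0: the top vertex of q1 is above c2, `level` gives the plaque of that tetrahedron at level c2,
then `same`. n + 1: v the lowest such vertex (heights are distinct, Good.hne), c3 ≤ c2 generic just
above it; of z = 0 and z = 5 e (e ⊥ l a unit vector) one is at distance ≥ 2.5 from the projection
of P v, so exists_tet at level c1 gives p, q ≠ v, H p < c1, H q > c3; `level` twice, `same`, one Rise.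
For the theorem go up a little from (x, s) and down a little from (y, s') to generic levels (γ_mono,
γ_cont); Rise absorbs leaf moves on both sides. `near`: pick a generic level in the interval within
the levels of χ a (∓ 0.6 • l a) (between, lev), exists_tet with z = 0, `level`; p is within 5.6 + η of
a, the ends of the long edge within 4.01 of p (diam), pt within 2.02 of one end (γ_near2). -/

namespace Pool.Agent.Work.MP_3d425c_gt.Sm
open Set Relation Metric Topology Filter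
open scoped RealInnerProductSpace

variable {Y : Type} [TopologicalSpace Y] {η : ℝ} {L : LM Y 300 η} {G : Type} [Group G]
  [MulAction G Y] {V : SubMulAction G Y} {w : Y → ℝ} (h : L.Good V w)
  (k : SC G (L.lt V) (L.T V w)) {φ : k.T2 → ℝ ≃o ℝ}

theorem t2_absL {φ : k.T2 → ℝ ≃o ℝ} {p q r : k.T3 × ℝ} (e : EqvGen (k.tri.Step φ) p q)
    (t : k.tri.Rise φ q r) : k.tri.Rise φ p r :=
  let ⟨y, s, s', a, b, c⟩ := t; ⟨y, s, s', a, .trans _ _ _ e b, c⟩

theorem t2_absR {φ : k.T2 → ℝ ≃o ℝ} {p q r : k.T3 × ℝ} (t : k.tri.Rise φ p q)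
    (e : EqvGen (k.tri.Step φ) q r) : k.tri.Rise φ p r :=
  let ⟨y, s, s', a, b, c⟩ := t; ⟨y, s, s', a, b, .trans _ _ _ c e⟩

theorem t2_up {φ : k.T2 → ℝ ≃o ℝ} (x : k.T3) {s s' : ℝ} (e : s < s') :
    k.tri.Rise φ (x, s) (x, s') :=
  ⟨x, s, s', e, .refl _, .refl _⟩

include h in
theorem LM.Good.t2_gen (a : Y) {c c' : ℝ} (hc : c < c') :
    ∃ b, c < b ∧ b < c' ∧ ∀ p ∈ L.S V a, L.H a p.1 ≠ b := by
  obtain ⟨b, h1, h2⟩ := (Ioo_infinite hc).exists_notMem_finite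
    ((h.eu a).fin.image fun p : V => L.H a p.1)
  exact ⟨b, h1.1, h1.2, fun p hp e => h2 ⟨p, hp, e⟩⟩

include h in
theorem LM.Good.t2_d (a : Y) {p : V} (hp : p ∈ L.S V a) : L.d a p.1 ≤ ‖L.P V a p‖ + 1 / 1000 := by
  have h1 : L.d a p.1 < 60 := hp
  have h2 := (abs_le.1 (L.norm_ψ a (y := p.1) (by linarith))).2
  have h3 := h.small
  unfold LM.P
  linarith

include h in
theorem LM.Good.t2_lt (x : k.T3) : L.d (x.1 0).1 (x.1 3).1 < 4.01 :=
  h.diam x.2.1 ⟨0, rfl⟩ ⟨3, rfl⟩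

include h in
theorem LM.Good.t2_mono (a : Y) (x : k.T3) (hx : L.d a (x.1 0).1 < 50) :
    StrictMonoOn (fun s => L.H a (k.pt x s)) (Icc 0 1) :=
  h.γ_mono (by linarith) (x.2.2 0 3 (by decide))

include h in
theorem LM.Good.t2_tet (a : Y) {t : ℝ} (ht : |t| ≤ 15)
    (gen : ∀ p ∈ L.S V a, L.H a p.1 ≠ L.H a (L.χ a (t • L.l a))) {z : E3} (hz : ⟪L.l a, z⟫ = 0)
    (h5 : ‖z‖ ≤ 5) : ∃ (x : k.T3) (u : E3) (t' : ℝ), ‖u‖ < 27 ∧ L.d a (x.1 0).1 < 50 ∧
      |t' - t| ≤ 3 ∧ range x.1 = L.N V w a u ∧ ∃ p ∈ range x.1, ∃ q ∈ range x.1,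
        p ∈ L.S V a ∧ q ∈ L.S V a ∧
        ‖z + t' • L.l a - L.P V a p‖ < 2 ∧ ‖z + t' • L.l a - L.P V a q‖ < 2 ∧
        L.H a p.1 < L.H a (L.χ a (t • L.l a)) ∧ L.H a (L.χ a (t • L.l a)) < L.H a q.1 := by
  obtain ⟨x, u, t', a1, a2, a3, p, hp, q, hq, a4, a5, a6, a7⟩ := h.exists_tet k a ht hz h5
  have hS : ∀ r ∈ range x.1, r ∈ L.S V a := fun r hr => (a3 ▸ hr : r ∈ L.N V w a u).1
  have b1 : ‖t' • L.l a‖ ≤ 18 := by
    rw [norm_smul, L.unit, mul_one, Real.norm_eq_abs]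
    have := abs_le.1 a2
    have := abs_le.1 ht
    exact abs_le.2 ⟨by linarith, by linarith⟩
  have b2 : ‖u‖ < 27 := by
    have e1 := norm_add_le (u - (z + t' • L.l a)) (z + t' • L.l a)
    have e2 := norm_add_le z (t' • L.l a)
    rw [sub_add_cancel] at e1
    linarith
  have b3 : x.1 0 ∈ L.N V w a u := a3 ▸ mem_range_self 0
  have b4 := (h.eu a).near (u := u) (by linarith) b3
  have b5 := h.t2_d a b3.1
  have b6 := norm_sub_le u (u - L.P V a (x.1 0))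
  rw [sub_sub_cancel] at b6
  exact ⟨x, u, t', b2, by linarith, a2, a3, p, hp, q, hq, hS p hp, hS q hq, a4, a5,
    lt_of_le_of_ne a6 (gen p (hS p hp)), a7⟩

theorem t2_far {l : E3} (v : E3) :
    ∃ z : E3, ⟪l, z⟫ = 0 ∧ ‖z‖ ≤ 5 ∧ ∀ t : ℝ, 2 ≤ ‖z + t • l - v‖ := by
  obtain ⟨n, n0, hn⟩ := p1_ker (fun _ : Unit => l) (s := univ) finite_univ (by simp)
  have n1 : 0 < ‖n‖ := norm_pos_iff.2 n0
  obtain ⟨e, e1, e2⟩ : ∃ e : E3, ‖e‖ = 1 ∧ ⟪l, e⟫ = 0 :=
    ⟨‖n‖⁻¹ • n, by rw [norm_smul, norm_inv, norm_norm, inv_mul_cancel₀ n1.ne'],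
      by rw [real_inner_smul_right, hn () (mem_univ _), mul_zero]⟩
  have e3 : ⟪e, l⟫ = 0 := by rw [real_inner_comm, e2]
  have key : ∀ r t : ℝ, |r - ⟪e, v⟫| ≤ ‖r • e + t • l - v‖ := fun r t => by
    have := abs_real_inner_le_norm e (r • e + t • l - v)
    rwa [inner_sub_right, inner_add_right, real_inner_smul_right, real_inner_smul_right, e3,
      real_inner_self_eq_norm_sq, e1, mul_zero, add_zero, one_pow, mul_one, one_mul] at this
  by_cases hb : ⟪e, v⟫ ≤ 2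
  · refine ⟨(5 : ℝ) • e, by rw [real_inner_smul_right, e2, mul_zero], by
      rw [norm_smul, e1]; norm_num, fun t => le_trans ?_ (key 5 t)⟩
    exact le_trans (by linarith) (le_abs_self _)
  · refine ⟨(0 : ℝ) • e, by rw [real_inner_smul_right, e2, mul_zero], by
      rw [norm_smul, e1]; norm_num, fun t => le_trans ?_ (key 0 t)⟩
    exact le_trans (by linarith) (neg_le_abs _)

/-- a plaque at the level `c` of a tetrahedron near `a` -/
def SC.t2_Pl (k : SC G (L.lt V) (L.T V w)) (a : Y) (c : ℝ) (q : k.T3 × ℝ) : Prop :=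
  q.2 ∈ Ioo (0 : ℝ) 1 ∧ L.H a (k.pt q.1 q.2) = c ∧ ∃ u, ‖u‖ < 27 ∧ range q.1.1 = L.N V w a u

/-- a generic level in the range of the chart -/
def LM.t2_Lv (L : LM Y 300 η) (V : SubMulAction G Y) (a : Y) (c : ℝ) : Prop :=
  (∃ t : ℝ, |t| ≤ 15 ∧ L.H a (L.χ a (t • L.l a)) = c) ∧ ∀ p ∈ L.S V a, L.H a p.1 ≠ c

include h in
theorem LM.Good.t2_same (hf : k.tri.Fol φ)
    (hs : k.Sp (fun a u v t => L.H a.1 (L.γ u.1 v.1 t)) φ) (a : Y) {c : ℝ} (hc : L.t2_Lv V a c)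
    {q q' : k.T3 × ℝ} (h1 : k.t2_Pl a c q) (h2 : k.t2_Pl a c q') : EqvGen (k.tri.Step φ) q q' := by
  obtain ⟨⟨t, ht, rfl⟩, gen⟩ := hc
  obtain ⟨a1, a2, u, a3, a4⟩ := h1
  obtain ⟨b1, b2, u', b3, b4⟩ := h2
  exact h.same k hf hs a ht gen q.1 q'.1 a3 b3 a4 b4 a1 b1 a2 b2

include h in
theorem LM.Good.t2_ex (a : Y) {c : ℝ} (hc : L.t2_Lv V a c) : ∃ q, k.t2_Pl a c q := by
  obtain ⟨⟨t, ht, rfl⟩, gen⟩ := hc
  obtain ⟨x, u, t', a1, a2, -, a3, p, hp, q, hq, -, -, -, -, a6, a7⟩ :=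
    h.t2_tet k a ht gen (z := 0) (inner_zero_right _) (by simp)
  obtain ⟨s, s1, s2⟩ := h.level k a x a2 hp hq a6 a7
  exact ⟨(x, s), s1, s2, u, a1, a3⟩

include h in
theorem LM.Good.t2_step (hf : k.tri.Fol φ)
    (hs : k.Sp (fun a u v t => L.H a.1 (L.γ u.1 v.1 t)) φ) (a : Y) {c c' : ℝ} (hc : L.t2_Lv V a c)
    (hc' : L.t2_Lv V a c') (e : c < c') (v : E3)
    (hv : ∀ p ∈ L.S V a, c < L.H a p.1 → L.H a p.1 < c' → L.P V a p = v)
    {q q' : k.T3 × ℝ} (h1 : k.t2_Pl a c q) (h2 : k.t2_Pl a c' q') : k.tri.Rise φ q q' := by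
  obtain ⟨z, z1, z2, z3⟩ := t2_far (l := L.l a) v
  obtain ⟨⟨t, ht, et⟩, gen⟩ := id hc
  obtain ⟨x, u, t', a1, a2, -, a3, p, hp, r, hr, -, rS, -, a5, a6, a7⟩ :=
    h.t2_tet k a ht (et ▸ gen) z1 z2
  rw [et] at a6 a7
  have a8 : c' < L.H a r.1 := by
    refine lt_of_le_of_ne (not_lt.1 fun b => ?_) (hc'.2 r rS).symm
    have := z3 t'
    rw [← hv r rS a7 b] at this
    linarith
  obtain ⟨s, s1, s2⟩ := h.level k a x a2 hp hr a6 a7
  obtain ⟨s', s3, s4⟩ := h.level k a x a2 hp hr (a6.trans e) a8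
  have ss : s < s' := ((h.t2_mono k a x a2).lt_iff_lt (Ioo_subset_Icc_self s1)
    (Ioo_subset_Icc_self s3)).1 (by rw [s2, s4]; exact e)
  exact t2_absL k (h.t2_same k hf hs a hc h1 (q' := (x, s)) ⟨s1, s2, u, a1, a3⟩)
    (t2_absR k (t2_up k x ss) (h.t2_same k hf hs a hc' (q := (x, s')) ⟨s3, s4, u, a1, a3⟩ h2))

include h in
theorem LM.Good.t2_ind (hf : k.tri.Fol φ)
    (hs : k.Sp (fun a u v t => L.H a.1 (L.γ u.1 v.1 t)) φ) (a : Y) (n : ℕ) : ∀ c c' : ℝ,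
    L.H a (L.χ a ((-15 : ℝ) • L.l a)) ≤ c → c' ≤ L.H a (L.χ a ((15 : ℝ) • L.l a)) → c < c' →
    (∀ p ∈ L.S V a, L.H a p.1 ≠ c) → (∀ p ∈ L.S V a, L.H a p.1 ≠ c') →
    {p | p ∈ L.S V a ∧ c < L.H a p.1 ∧ L.H a p.1 < c'}.ncard = n →
    ∀ q q', k.t2_Pl a c q → k.t2_Pl a c' q' → TransGen (k.tri.Rise φ) q q' := by
  induction n using Nat.strong_induction_on with
  | _ n ih =>
  intro c c' lo hi e g g' hn q q' h1 h2
  have lv : ∀ b, c ≤ b → b ≤ c' → (∀ p ∈ L.S V a, L.H a p.1 ≠ b) → L.t2_Lv V a b :=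
    fun b b1 b2 b3 => ⟨h.lev a (by norm_num) le_rfl (lo.trans b1) (b2.trans hi), b3⟩
  have fin : {p | p ∈ L.S V a ∧ c < L.H a p.1 ∧ L.H a p.1 < c'}.Finite :=
    (h.eu a).fin.subset fun p hp => hp.1
  by_cases two : ∃ v ∈ L.S V a, ∃ v' ∈ L.S V a, c < L.H a v.1 ∧ L.H a v.1 < L.H a v'.1 ∧
      L.H a v'.1 < c'
  · obtain ⟨v, hv, v', hv', v1, v2, v3⟩ := two
    obtain ⟨b, b1, b2, b3⟩ := h.t2_gen a v2
    obtain ⟨r, hr⟩ := h.t2_ex k a (lv b (by linarith) (by linarith) b3)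
    refine (ih _ ?_ c b lo (by linarith) (by linarith) g b3 rfl q r h1 hr).trans
      (ih _ ?_ b c' (by linarith) hi (by linarith) b3 g' rfl r q' hr h2)
    · rw [← hn]
      refine ncard_lt_ncard ⟨fun p hp => ⟨hp.1, hp.2.1, by linarith [hp.2.2]⟩, fun ss => ?_⟩ fin
      have := (ss (show v' ∈ _ from ⟨hv', by linarith, v3⟩)).2.2
      linarith
    · rw [← hn]
      refine ncard_lt_ncard ⟨fun p hp => ⟨hp.1, by linarith [hp.2.1], hp.2.2⟩, fun ss => ?_⟩ fin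
      have := (ss (show v ∈ _ from ⟨hv, v1, by linarith⟩)).2.1
      linarith
  · obtain ⟨v, hv⟩ : ∃ v : E3, ∀ p ∈ L.S V a, c < L.H a p.1 → L.H a p.1 < c' → L.P V a p = v := by
      by_cases ex : ∃ v ∈ L.S V a, c < L.H a v.1 ∧ L.H a v.1 < c'
      · obtain ⟨v, hv, v1, v2⟩ := ex
        refine ⟨L.P V a v, fun p hp p1 p2 => congrArg _ (h.hne a hp hv ?_)⟩
        rcases lt_trichotomy (L.H a p.1) (L.H a v.1) with b | b | b
        · exact absurd ⟨p, hp, v, hv, p1, b, v2⟩ two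
        · exact b
        · exact absurd ⟨v, hv, p, hp, v1, b, p2⟩ two
      · exact ⟨0, fun p hp p1 p2 => absurd ⟨p, hp, p1, p2⟩ ex⟩
    exact .single (h.t2_step k hf hs a (lv c le_rfl e.le g) (lv c' e.le le_rfl g') e v hv h1 h2)

include h in
theorem LM.Good.t2_ctr (a : Y) (x : k.T3) {s : ℝ} (h1 : s ∈ Ioo (0 : ℝ) 1)
    (d1 : L.d a (k.pt x s) < 14) : L.d a (x.1 0).1 < 50 ∧ L.H a (x.1 0).1 < L.H a (k.pt x s) ∧
      L.H a (k.pt x s) < L.H a (x.1 3).1 ∧ ∃ u, ‖u‖ < 27 ∧ range x.1 = L.N V w a u := by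
  have a1 := h.t2_lt k x
  have a2 : L.d (x.1 0).1 (k.pt x s) ≤ _ := h.γ_near (by linarith) (Ioo_subset_Icc_self h1)
  have a3 := L.tri a (k.pt x s) (x.1 0).1
  rw [L.symm (k.pt x s)] at a3
  have a4 : L.d a (x.1 0).1 < 19 := by linarith
  have m := h.t2_mono k a x (by linarith)
  have m0 := m (left_mem_Icc.2 zero_le_one) (Ioo_subset_Icc_self h1) h1.1
  have m1 := m (Ioo_subset_Icc_self h1) (right_mem_Icc.2 zero_le_one) h1.2
  have e0 : k.pt x 0 = (x.1 0).1 := h.γ_zero _ _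
  have e1 : k.pt x 1 = (x.1 3).1 := h.γ_one (by linarith)
  simp only [e0, e1] at m0 m1
  obtain ⟨u, u1, u2⟩ := h.of_T a x.2.1 (mem_range_self 0) (by linarith)
  refine ⟨by linarith, m0, m1, u, ?_, u2⟩
  have b3 : x.1 0 ∈ L.N V w a u := u2 ▸ mem_range_self 0
  have b4 := (h.eu a).near (u := u) (by linarith) b3
  have b5 := (abs_le.1 (L.norm_ψ a (y := (x.1 0).1) (by linarith))).1
  have b6 := norm_add_le (u - L.P V a (x.1 0)) (L.P V a (x.1 0))
  have b7 := h.small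
  rw [sub_add_cancel] at b6
  unfold LM.P at b4 b6
  linarith

include h in
theorem LM.Good.rise (hf : k.tri.Fol φ)
    (hs : k.Sp (fun a u v t => L.H a.1 (L.γ u.1 v.1 t)) φ) (a : Y) (x y : k.T3) {s s' : ℝ}
    (h1 : s ∈ Ioo (0 : ℝ) 1) (h2 : s' ∈ Ioo (0 : ℝ) 1) (d1 : L.d a (k.pt x s) < 14)
    (d2 : L.d a (k.pt y s') < 14) (e : L.H a (k.pt x s) < L.H a (k.pt y s')) :
    TransGen (k.tri.Rise φ) (x, s) (y, s') := by
  obtain ⟨x1, x2, x3, xu⟩ := h.t2_ctr k a x h1 d1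
  obtain ⟨y1, y2, y3, yu⟩ := h.t2_ctr k a y h2 d2
  have lo := (h.between a (r := 15) le_rfl (y := k.pt x s) (by linarith)).1
  have hi := (h.between a (r := 15) le_rfl (y := k.pt y s') (by linarith)).2
  obtain ⟨c, c1, c2, c3⟩ := h.t2_gen a (lt_min x3 e)
  have c4 := (lt_min_iff.1 c2).1
  have c5 := (lt_min_iff.1 c2).2
  obtain ⟨c', c6, c7, c8⟩ := h.t2_gen a (max_lt y2 c5)
  have c9 := (max_lt_iff.1 c6).1
  have c10 := (max_lt_iff.1 c6).2
  obtain ⟨r, r1, r2⟩ := h.level k a x x1 (mem_range_self 0) (mem_range_self 3) (x2.trans c1) c4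
  obtain ⟨r', r3, r4⟩ := h.level k a y y1 (mem_range_self 0) (mem_range_self 3) c9 (c7.trans y3)
  have s1 : s < r := ((h.t2_mono k a x x1).lt_iff_lt (Ioo_subset_Icc_self h1)
    (Ioo_subset_Icc_self r1)).1 (by rw [r2]; exact c1)
  have s2 : r' < s' := ((h.t2_mono k a y y1).lt_iff_lt (Ioo_subset_Icc_self r3)
    (Ioo_subset_Icc_self h2)).1 (by rw [r4]; exact c7)
  exact ((h.t2_ind k hf hs a _ c c' (by linarith) (by linarith) c10 c3 c8 rfl (x, r) (y, r')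
    ⟨r1, r2, xu⟩ ⟨r3, r4, yu⟩).head (t2_up k x s1)).tail (t2_up k y s2)

include h in
theorem LM.Good.near (a : Y) {c c' : ℝ} (hc : c < c') (e : c = L.H a a ∨ c' = L.H a a) :
    ∃ (x : k.T3) (s : ℝ), s ∈ Ioo (0 : ℝ) 1 ∧ c < L.H a (k.pt x s) ∧ L.H a (k.pt x s) < c' ∧
      L.d a (k.pt x s) < 12 := by
  obtain ⟨lo, hi⟩ := h.between a (r := 0.6) (by norm_num) (y := a) (by rw [L.d_self]; norm_num)
  have lt : max c (L.H a (L.χ a ((-0.6 : ℝ) • L.l a))) <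
      min c' (L.H a (L.χ a ((0.6 : ℝ) • L.l a))) := by
    rcases e with e | e
    · exact max_lt (lt_min hc (e ▸ hi)) (lt_min (lo.trans (e ▸ hc)) (lo.trans hi))
    · exact max_lt (lt_min hc ((e ▸ hc : c < L.H a a).trans hi)) (lt_min (e ▸ lo) (lo.trans hi))
  obtain ⟨b, b1, b2, b3⟩ := h.t2_gen a lt
  obtain ⟨t, ht, rfl⟩ := h.lev a (r := 0.6) (by norm_num) (by norm_num) (max_lt_iff.1 b1).2.le
    (lt_min_iff.1 b2).2.le
  obtain ⟨x, u, t', -, a2, a3, -, p, hp, q, hq, pS, -, a4, -, a6, a7⟩ :=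
    h.t2_tet k a (ht.trans (by norm_num)) b3 (z := 0) (inner_zero_right _) (by simp)
  obtain ⟨s, s1, s2⟩ := h.level k a x a2 hp hq a6 a7
  refine ⟨x, s, s1, s2 ▸ (max_lt_iff.1 b1).1, s2 ▸ (lt_min_iff.1 b2).1, ?_⟩
  have c1 : ‖t' • L.l a‖ ≤ 3.6 := by
    rw [norm_smul, L.unit, mul_one, Real.norm_eq_abs]
    have := abs_le.1 a3
    have := abs_le.1 ht
    exact abs_le.2 ⟨by linarith, by linarith⟩
  rw [zero_add] at a4
  have c2 := norm_sub_le (t' • L.l a) (t' • L.l a - L.P V a p)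
  rw [sub_sub_cancel] at c2
  have c3 := h.t2_d a pS
  have c4 := h.diam x.2.1 hp (mem_range_self 0)
  have c5 := h.diam x.2.1 hp (mem_range_self 3)
  have c6 := h.t2_lt k x
  obtain ⟨c7, c8⟩ : L.d (x.1 0).1 (k.pt x s) ≤ _ ∧ L.d (x.1 3).1 (k.pt x s) ≤ _ :=
    h.γ_near2 (u := (x.1 0).1) (v := (x.1 3).1) (by linarith) (Ioo_subset_Icc_self s1)
  have c9 := L.tri a p.1 (x.1 0).1
  have c10 := L.tri a p.1 (x.1 3).1
  have c11 := L.tri a (x.1 0).1 (k.pt x s)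
  have c12 := L.tri a (x.1 3).1 (k.pt x s)
  linarith

end Pool.Agent.Work.MP_3d425c_gt.Sm
end

-- merged part: Pool.Agent.Work.MP_3d425c_gt.Sm.T3
section
/-! Block T3: tautness. For p0 = (x, s) take y0 = pt x s and g, y1, y2 from LM.Taut;
pt (g • x) s = g • y0 (γ_smul). Above y: every plaque q, level in (0,1), with d y (pt q) < 13 and
H y y < H y (pt q) has TransGen Rise p0 q. Above y0 by `rise`. W y z and Above y give Above z: `near` at y
with c' = H y (pt q) gives q0, then `rise` in the chart at z. Below y: the mirror statement with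
TransGen Rise q (g • p0); it passes backwards along W. At y1, y2 `near` gives a plaque between. -/

namespace Pool.Agent.Work.MP_3d425c_gt.Sm
open Set Relation Metric Topology Filter
open scoped RealInnerProductSpace

variable {Y : Type} [TopologicalSpace Y] {η : ℝ} {L : LM Y 300 η} {G : Type} [Group G]
  [MulAction G Y] {V : SubMulAction G Y} {w : Y → ℝ} (h : L.Good V w)
  (k : SC G (L.lt V) (L.T V w)) {φ : k.T2 → ℝ ≃o ℝ}

include h in
theorem LM.Good.taut (hf : k.tri.Fol φ)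
    (hs : k.Sp (fun a u v t => L.H a.1 (L.γ u.1 v.1 t)) φ) (ht : L.Taut G) : k.tri.Taut φ := by
  intro x s s1
  obtain ⟨g, y1, y2, c1, c2, c3, c4⟩ := ht (k.pt x s)
  have eg : k.pt (g • x) s = g • k.pt x s :=
    h.γ_smul g (x.2.2 0 3 (by decide)).1 ⟨s1.1.le, s1.2.le⟩
  have up : ∀ y, ReflTransGen L.W (k.pt x s) y → ∀ (q : k.T3), ∀ r ∈ Ioo (0 : ℝ) 1,
      L.d y (k.pt q r) < 13 → L.H y y < L.H y (k.pt q r) →
      TransGen (k.tri.Rise φ) (x, s) (q, r) := by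
    intro y hy
    induction hy with
    | refl =>
      intro q r r1 d e
      exact h.rise k hf hs (k.pt x s) x q s1 r1 (by rw [L.d_self]; norm_num) (by linarith) e
    | @tail y z _ hw ih =>
      intro q r r1 d e
      have d1 := hw.1
      have d2 := L.tri y z (k.pt q r)
      have e1 : L.H y z < L.H y (k.pt q r) :=
        L.compat z y z _ (by rw [L.d_self]; norm_num) (by linarith) (by linarith) (by linarith) e
      obtain ⟨q0, r0, a1, a2, a3, a4⟩ := h.near k y (hw.2.trans_lt e1) (Or.inl rfl)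
      exact (ih q0 r0 a1 (by linarith) a2).trans
        (h.rise k hf hs y q0 q a1 r1 (by linarith) (by linarith) a3)
  have dn : ∀ y, ReflTransGen L.W y (g • k.pt x s) → ∀ (q : k.T3), ∀ r ∈ Ioo (0 : ℝ) 1,
      L.d y (k.pt q r) < 13 → L.H y (k.pt q r) < L.H y y →
      TransGen (k.tri.Rise φ) (q, r) (g • x, s) := by
    intro y hy
    induction hy using ReflTransGen.head_induction_on with
    | refl =>
      intro q r r1 d e
      exact h.rise k hf hs (g • k.pt x s) q (g • x) r1 s1 (by linarith)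
        (by rw [eg, L.d_self]; norm_num) (by rwa [eg])
    | @head y z hw _ ih =>
      intro q r r1 d e
      have d1 := hw.1
      have d2 := L.tri z y (k.pt q r)
      rw [L.symm z y] at d2
      have e1 : L.H z (k.pt q r) < L.H z z := L.compat y z _ z (by linarith) (by linarith)
        (by linarith) (by rw [L.d_self]; norm_num) (e.trans_le hw.2)
      obtain ⟨q0, r0, a1, a2, a3, a4⟩ := h.near k z e1 (Or.inr rfl)
      exact (h.rise k hf hs z q q0 r1 a1 (by linarith) (by linarith) a2).trans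
        (ih q0 r0 a1 (by linarith) a3)
  obtain ⟨q0, r0, a1, a2, a3, a4⟩ := h.near k y1 c3 (Or.inl rfl)
  have d2 := L.tri y2 y1 (k.pt q0 r0)
  rw [L.symm y2 y1] at d2
  exact ⟨g, (up y1 c1 q0 r0 a1 (by linarith) a2).trans (dn y2 c4 q0 r0 a1 (by linarith)
    (L.compat y1 y2 _ y2 (by linarith) (by linarith) (by linarith)
      (by rw [L.d_self]; norm_num) a3))⟩

end Pool.Agent.Work.MP_3d425c_gt.Sm
end

-- merged part: Pool.Agent.Work.MP_3d425c_gt.Tp.Uc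
section
/-! Existence of the universal cover. -/

namespace Pool.Agent.Work.MP_3d425c_gt.Tp
open Set Topology

universe u
variable {X : Type u} [TopologicalSpace X]

open CategoryTheory in
theorem exists_val [PathConnectedSpace X] (m : X) :
    ∃ W : ∀ x y : X, Path x y → FundamentalGroup X m,
      (∀ (x y z : X) (α : Path x y) (β : Path y z), W x z (α.trans β) = W x y α * W y z β) ∧
      (∀ (x y : X) (α β : Path x y), W x y α = W x y β ↔ α.Homotopic β) ∧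
      ∀ x y g, ∃ α : Path x y, W x y α = g := by
  let c : ∀ x : X, FundamentalGroupoid.mk m ⟶ FundamentalGroupoid.mk x := fun x =>
    FundamentalGroupoid.fromPath (Path.Homotopic.Quotient.mk (PathConnectedSpace.somePath m x))
  let k : ∀ x y : X, Path x y → (FundamentalGroupoid.mk x ⟶ FundamentalGroupoid.mk y) :=
    fun x y α => FundamentalGroupoid.fromPath (Path.Homotopic.Quotient.mk α)
  have hk : ∀ (x y z : X) (α : Path x y) (β : Path y z),
      k x z (α.trans β) = k x y α ≫ k y z β := fun x y z α β => rfl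
  refine ⟨fun x y α => (c y ≫ inv (k x y α) ≫ inv (c x) : End (FundamentalGroupoid.mk m)),
    fun x y z α β => ?_, fun x y α β => ?_, fun x y g => ?_⟩
  · rw [End.mul_def]
    simp [hk]
  · rw [← Path.Homotopic.Quotient.eq]
    show c y ≫ inv (k x y α) ≫ inv (c x) = c y ≫ inv (k x y β) ≫ inv (c x) ↔ k x y α = k x y β
    rw [cancel_epi, cancel_mono, IsIso.inv_eq_inv]
  · obtain ⟨α, hα⟩ := Path.Homotopic.Quotient.mk_surjective
      (inv (c x) ≫ inv (show FundamentalGroupoid.mk m ⟶ FundamentalGroupoid.mk m from g) ≫ c y)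
    refine ⟨α, ?_⟩
    have : k x y α = inv (c x) ≫
      inv (show FundamentalGroupoid.mk m ⟶ FundamentalGroupoid.mk m from g) ≫ c y := hα
    show c y ≫ inv (k x y α) ≫ inv (c x) = _
    simp [this]

/-- Induction over small pieces of a path. -/
theorem path_ind {ι : Type*} (U : ι → Set X) (ho : ∀ i, IsOpen (U i)) (hc : ∀ x, ∃ i, x ∈ U i)
    (S : ∀ x y : X, Path x y → Prop)
    (hh : ∀ x y (α β : Path x y), α.Homotopic β → S x y α → S x y β)
    (ht : ∀ x y z (α : Path x y) (β : Path y z), S x y α → S y z β → S x z (α.trans β))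
    (hs : ∀ i x y (α : Path x y), (∀ t, α t ∈ U i) → S x y α) {x y : X} (α : Path x y) :
    S x y α := by
  obtain ⟨t, t0, tm, ⟨n, hn⟩, ti⟩ := exists_monotone_Icc_subset_open_cover_unitInterval
    (c := fun i => α ⁻¹' U i) (fun i => (ho i).preimage α.continuous)
    (fun s _ => mem_iUnion.2 (hc (α s)))
  have small : ∀ m, S _ _ (α.subpath (t m) (t (m + 1))) := fun m => by
    obtain ⟨i, hi⟩ := ti m
    refine hs i _ _ _ fun s => ?_
    have h : α.subpath (t m) (t (m + 1)) s ∈ range (α.subpath (t m) (t (m + 1))) := ⟨s, rfl⟩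
    rw [Path.range_subpath_of_le _ _ _ (tm (Nat.le_succ m))] at h
    obtain ⟨u, hu, e⟩ := h
    exact e ▸ hi hu
  have ind : ∀ m, S _ _ (α.subpath (t 0) (t (m + 1))) := fun m => by
    induction m with
    | zero => exact small 0
    | succ m ih =>
      exact hh _ _ _ _ ⟨Path.Homotopy.subpathTransSubpath α _ _ _⟩ (ht _ _ _ _ _ ih (small _))
  have fin := ind n
  rw [t0, hn (n + 1) (Nat.le_succ n), Path.subpath_zero_one] at fin
  have hcast : ∀ (x' y' : X) (hx : x' = x) (hy : y' = y), S x' y' (α.cast hx hy) → S x y α := by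
    intro x' y' hx hy
    subst hx hy
    exact id
  exact hcast _ _ _ _ fin

theorem exists_universal_cover [PathConnectedSpace X] [LocallyPathConnectedSpace X] (m : X)
    (h : ∀ x : X, ∃ U ∈ 𝓝 x, ∀ (y z : X) (α β : Path y z), (∀ t, α t ∈ U) → (∀ t, β t ∈ U) →
      α.Homotopic β) :
    ∃ (Y : Type u) (_ : TopologicalSpace Y) (_ : MulAction (FundamentalGroup X m) Y) (p : Y → X),
      IsQuotientCoveringMap p (FundamentalGroup X m) ∧ SimplyConnectedSpace Y := by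
  obtain ⟨W, Wt, Wh, Ws⟩ := exists_val m
  have : ∀ x : X, ∃ U : Set X, IsOpen U ∧ x ∈ U ∧ IsPathConnected U ∧
      ∀ (y z : X) (α β : Path y z), (∀ t, α t ∈ U) → (∀ t, β t ∈ U) → α.Homotopic β := fun x => by
    obtain ⟨U, hU, a⟩ := h x
    obtain ⟨V, ⟨v1, v2, v3⟩, v4⟩ := (isOpen_isPathConnected_basis x).mem_iff.1 hU
    exact ⟨V, v1, v2, v3, fun y z α β c d => a y z α β (fun t => v4 (c t)) fun t => v4 (d t)⟩
  choose U Uo Um Up Uh using this
  have : ∀ i y, ∃ g : FundamentalGroup X m, ∀ α : Path i y, (∀ t, α t ∈ U i) → W i y α = g :=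
    fun i y => by
      by_cases e : ∃ α : Path i y, ∀ t, α t ∈ U i
      · obtain ⟨α, hα⟩ := e
        exact ⟨W i y α, fun β hβ => (Wh _ _ _ _).2 (Uh i _ _ _ _ hβ hα)⟩
      · exact ⟨1, fun β hβ => absurd ⟨β, hβ⟩ e⟩
  choose a ha using this
  have step : ∀ i y z (α : Path y z), (∀ t, α t ∈ U i) → a i z = a i y * W y z α := by
    intro i y z α hα
    obtain ⟨γ, hγ⟩ := (Up i).joinedIn i (Um i) y (by simpa using hα 0)
    rw [← ha i y γ hγ, ← Wt, ha i z (γ.trans α)]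
    intro t
    have : (γ.trans α) t ∈ range (γ.trans α) := ⟨t, rfl⟩
    rw [Path.trans_range] at this
    rcases this with ⟨s, e⟩ | ⟨s, e⟩
    · exact e ▸ hγ s
    · exact e ▸ hα s
  let _ : TopologicalSpace (FundamentalGroup X m) := ⊥
  have : DiscreteTopology (FundamentalGroup X m) := ⟨rfl⟩
  let Z : FiberBundleCore X X (FundamentalGroup X m) :=
    { baseSet := U
      isOpen_baseSet := Uo
      indexAt := id
      mem_baseSet_at := Um
      coordChange := fun i j y v => v * (a i y * (a j y)⁻¹)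
      coordChange_self := fun i y _ v => by simp
      continuousOn_coordChange := fun i j => by
        have c : ContinuousOn (fun y => a i y * (a j y)⁻¹) (U i ∩ U j) := fun y hy => by
          refine ContinuousAt.continuousWithinAt (Filter.EventuallyEq.continuousAt
            (y := a i y * (a j y)⁻¹) ?_)
          filter_upwards [pathComponentIn_mem_nhds (((Uo i).inter (Uo j)).mem_nhds hy)] with z hz
          obtain ⟨γ, hγ⟩ := hz
          rw [step i y z γ fun t => (hγ t).1, step j y z γ fun t => (hγ t).2]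
          group
        exact (continuous_of_discreteTopology
          (f := fun q : FundamentalGroup X m × FundamentalGroup X m => q.1 * q.2)).comp_continuousOn
          (continuous_snd.continuousOn.prodMk (c.comp continuous_fst.continuousOn fun q hq => hq.1))
      coordChange_comp := fun i j k y _ v => by group }
  have hcov : IsCoveringMap Z.proj :=
    IsFiberBundle.isCoveringMap fun y => ⟨Z.localTriv y, Um y⟩
  let sd : Z.TotalSpace → FundamentalGroup X m := fun e => e.2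
  let mk : X → FundamentalGroup X m → Z.TotalSpace := fun y v => ⟨y, v⟩
  let act : MulAction (FundamentalGroup X m) Z.TotalSpace :=
    { smul := fun g e => mk e.1 (g * sd e)
      one_smul := fun e => congrArg (mk e.1) (one_mul (sd e))
      mul_smul := fun g k e => congrArg (mk e.1) (mul_assoc g k (sd e)) }
  let H : Z.TotalSpace → FundamentalGroup X m := fun e => sd e * a e.1 e.1
  have Hinj : ∀ e e' : Z.TotalSpace, e.1 = e'.1 → H e = H e' → e = e' := by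
    rintro ⟨y, v⟩ ⟨y', v'⟩ (rfl : y = y') e
    exact congrArg (mk y) (mul_right_cancel (a := sd ⟨y, v⟩) (c := sd ⟨y, v'⟩) e)
  have key : ∀ (e e' : Z.TotalSpace) (γ : Path e e'),
      H e' = H e * W _ _ (γ.map Z.continuous_proj) := fun e e' γ => by
    refine path_ind (fun i => Z.proj ⁻¹' U i) (fun i => (Uo i).preimage Z.continuous_proj)
      (fun e => ⟨e.1, Um _⟩) (fun e e' γ => H e' = H e * W _ _ (γ.map Z.continuous_proj))
      (fun e e' α β c d => d.trans (congrArg _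
        ((Wh _ _ _ _).2 (c.map ⟨Z.proj, Z.continuous_proj⟩))))
      (fun e e' e'' α β c d => by rw [Path.map_trans, Wt, d, c, mul_assoc]) ?_ γ
    intro i e e' α hα
    have c : (Z.localTriv i e).2 = (Z.localTriv i e').2 :=
      (isPreconnected_range α.continuous).constant (continuous_snd.comp_continuousOn
        ((Z.localTriv i).continuousOn.mono (by rintro _ ⟨t, rfl⟩; exact hα t)))
        ⟨0, α.source⟩ ⟨1, α.target⟩
    have c' : H e * (a i e.1)⁻¹ = H e' * (a i e'.1)⁻¹ :=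
      (mul_assoc _ _ _).trans (c.trans (mul_assoc _ _ _).symm)
    rw [step i _ _ (α.map Z.continuous_proj) hα] at c'
    rw [← mul_inv_eq_iff_eq_mul, ← mul_left_inj (a i e.1)⁻¹, c']
    group
  refine ⟨Z.TotalSpace, inferInstance, act, Z.proj,
    (isQuotientCoveringMap_iff_isCoveringMap_and _ _).2 ⟨hcov, fun y => ⟨mk y 1, rfl⟩,
      ⟨fun g => ?_⟩, ?_, ?_⟩, simply_connected_iff_paths_homotopic'.2 ⟨?_, ?_⟩⟩
  · refine continuous_iff_continuousAt.2 fun e => ?_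
    refine (Z.localTriv e.1).continuousAt_of_comp_left Z.continuous_proj.continuousAt (Um _) ?_
    have c := (Z.localTriv e.1).continuousAt (x := e) (Um _)
    have d : Continuous fun q : X × FundamentalGroup X m => (q.1, g * q.2) :=
      continuous_fst.prodMk ((continuous_of_discreteTopology (f := fun v => g * v)).comp
        continuous_snd)
    refine (d.continuousAt.comp c).congr (Filter.Eventually.of_forall fun x => ?_)
    exact Prod.ext rfl (mul_assoc g (sd x) _).symm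
  · exact
      { left_cancel' := fun g e e' c => smul_left_cancel g c
        right_cancel' := fun g k e c => mul_right_cancel (b := sd e) (congrArg sd c) }
  · rintro ⟨y, v⟩ ⟨y', v'⟩
    constructor
    · rintro (rfl : y = y')
      exact ⟨sd ⟨y, v⟩ * (sd ⟨y, v'⟩)⁻¹,
        congrArg (mk y) (inv_mul_cancel_right (sd ⟨y, v⟩) (sd ⟨y, v'⟩))⟩
    · rintro ⟨g, e⟩
      exact (congrArg Bundle.TotalSpace.proj e).symm
  · refine ⟨⟨mk m 1⟩, fun e e' => ?_⟩
    obtain ⟨δ, hδ⟩ := Ws e.1 e'.1 ((H e)⁻¹ * H e')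
    obtain ⟨Γ, g1, g2⟩ := hcov.exists_path_lifts δ e δ.source
    have e1 : (Γ 1).1 = e'.1 := (congrFun g1 1).trans δ.target
    have cast : ∀ (x y y' : X) (hy : y' = y) (α : Path x y) (β : Path x y'), (∀ t, β t = α t) →
        W x y' β = W x y α := by
      rintro x y y' rfl α β c
      rw [Path.ext (funext c)]
    have := key e (Γ 1) ⟨Γ, g2, rfl⟩
    rw [cast _ _ _ e1 δ _ (congrFun g1), hδ, mul_inv_cancel_left] at this
    exact ⟨⟨Γ, g2, Hinj _ _ e1 this⟩⟩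
  · intro e e' α β
    have := (Wh _ _ _ _).1 (mul_left_cancel ((key e e' α).symm.trans (key e e' β)))
    exact Path.Homotopic.Quotient.eq.1 (hcov.injective_path_homotopic_map e e'
      (Path.Homotopic.Quotient.eq.2 this))

theorem homotopic_of_mem (U : Set X) [SimplyConnectedSpace U] {x y : X} (α β : Path x y)
    (hα : ∀ t, α t ∈ U) (hβ : ∀ t, β t ∈ U) : α.Homotopic β := by
  have hx : x ∈ U := by simpa using hα 0
  have hy : y ∈ U := by simpa using hα 1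
  let α' : Path (⟨x, hx⟩ : U) ⟨y, hy⟩ :=
    { toFun := fun t => ⟨α t, hα t⟩
      source' := by simp
      target' := by simp }
  let β' : Path (⟨x, hx⟩ : U) ⟨y, hy⟩ :=
    { toFun := fun t => ⟨β t, hβ t⟩
      source' := by simp
      target' := by simp }
  exact (SimplyConnectedSpace.paths_homotopic α' β').map ⟨Subtype.val, continuous_subtype_val⟩

/-- A connected manifold has a universal cover. -/
theorem exists_universal_cover_manifold (E : Type*) [NormedAddCommGroup E] [NormedSpace ℝ E]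
    [ChartedSpace E X] [ConnectedSpace X] (m : X) :
    ∃ (Y : Type u) (_ : TopologicalSpace Y) (_ : MulAction (FundamentalGroup X m) Y) (p : Y → X),
      IsQuotientCoveringMap p (FundamentalGroup X m) ∧ SimplyConnectedSpace Y := by
  have := ChartedSpace.locallyPathConnectedSpace E X
  have : PathConnectedSpace X := PathConnectedSpace.of_locallyPathConnectedSpace
  refine exists_universal_cover m fun x => ?_
  obtain ⟨ε, hε, hb⟩ := Metric.mem_nhds_iff.1 (chart_target_mem_nhds E x)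
  refine ⟨(chartAt E x).symm '' Metric.ball (chartAt E x x) ε, ?_, fun y z α β => ?_⟩
  · have := (chartAt E x).symm.image_mem_nhds (mem_chart_target E x) (Metric.ball_mem_nhds _ hε)
    rwa [(chartAt E x).left_inv (mem_chart_source E x)] at this
  · have c : ContractibleSpace (Metric.ball (chartAt E x x) ε) :=
      (convex_ball _ _).contractibleSpace ⟨_, Metric.mem_ball_self hε⟩
    have := ((chartAt E x).symm.homeomorphOfImageSubsetSource hb
      rfl).symm.toHomotopyEquiv.simplyConnectedSpace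
    exact homotopic_of_mem _ α β

end Pool.Agent.Work.MP_3d425c_gt.Tp
end

-- merged part: Pool.Agent.Work.MP_3d425c_gt.Sm.Main
section
/-! The smooth front end: assembly. -/

namespace Pool.Agent.Work.MP_3d425c_gt.Sm
open Set Relation Metric Topology Filter
open scoped Manifold ContDiff

variable {M : Type} [TopologicalSpace M] [ChartedSpace E3 M] [IsManifold 𝓘(ℝ, E3) ∞ M]
  [CompactSpace M] [T2Space M]

/-- the carried taut foliation of a taut foliation -/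
theorem normal_form {Y G : Type} [TopologicalSpace Y] [SimplyConnectedSpace Y] [Group G]
    [MulAction G Y] (p : Y → M) (hp : IsQuotientCoveringMap p G)
    {A : Set (OpenPartialHomeomorph M ((ℝ × ℝ) × ℝ))} (hA : Foliation A) (hT : Taut A) :
    ∃ (X0 X1 X2 X3 : Type) (_ : MulAction G X0) (_ : MulAction G X1) (_ : MulAction G X2)
      (_ : MulAction G X3) (T : Md.Tri G X0 X1 X2 X3) (φ : X2 → ℝ ≃o ℝ), Nv.Disc T ∧
      (∀ v, ∃ f, T.d1 (T.d2 f 2) 0 = v) ∧ T.Fol φ ∧ T.Taut φ := by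
  have := ChartedSpace.locallyPathConnectedSpace E3 M
  have : LocallyPathConnectedSpace Y := by
    choose e he _ using hp.isCoveringMap.isLocalHomeomorph
    let _ : ChartedSpace M Y := ⟨range e, e, he, mem_range_self⟩
    exact ChartedSpace.locallyPathConnectedSpace M Y
  obtain ⟨δ2, h2, h2', η1, e1, n1⟩ := net1
  obtain ⟨δ4, h4, δ5, h5, η2, e2, n2⟩ := net2
  obtain ⟨η3, e3, n3⟩ := good h2 h2' h4 h5
  set η := min (min η1 η2) (min η3 (1 / 1000))
  have p0 : 0 < η := by positivity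
  have p1 : η ≤ η1 := (min_le_left _ _).trans (min_le_left _ _)
  have p2 : η ≤ η2 := (min_le_left _ _).trans (min_le_right _ _)
  have p3 : η ≤ η3 := (min_le_right _ _).trans (min_le_left _ _)
  have p4 : η ≤ 1 / 1000 := (min_le_right _ _).trans (min_le_right _ _)
  obtain ⟨L0, a1, a2, a3⟩ := lm_down hA p0 p4
  obtain ⟨L, hI, hH⟩ := lm_up p hp p0 p4 L0 a1 a2
  have ht : L.Taut G := lm_taut p hp hT L fun a =>
    let ⟨f, b1, b2, b3⟩ := a3 (p a); ⟨f, b1, b2, fun y => (hH a y).trans (b3 _)⟩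
  obtain ⟨V, hN, g2⟩ := n1 η p0 p1 Y G L hI
  obtain ⟨w, w1, w2, g4, g5⟩ := n2 η p0 p2 Y G L hI V hN
  have hg := n3 η p0 p3 Y G L V w hI hN w1 w2 g2 g4 g5
  obtain ⟨φ, hf, hs⟩ := hg.sc.exists_phi hg.hts
  exact ⟨_, _, _, _, _, _, _, _, hg.sc.tri, φ, hg.sc.disc, hg.sc.mid', hf, hg.taut _ hf hs ht⟩

theorem main [ConnectedSpace M] (m : M)
    (tf : ∀ a : FundamentalGroup M m, a ≠ 1 → ¬ IsOfFinOrder a)
    (cent : ∀ a : FundamentalGroup M m, a ≠ 1 → IsCyclic (Subgroup.centralizer {a}))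
    (big : ∀ E : Subgroup (FundamentalGroup M m), E.FG → IsCyclic E ∨ E.FiniteIndex ∨
      ∃ f : E →* Multiplicative (ℤ × ℤ), Function.Surjective f)
    {A : Set (OpenPartialHomeomorph M ((ℝ × ℝ) × ℝ))} (hA : Foliation A) (hT : Taut A) :
    Nontrivial (FundamentalGroup M m) ∧
      ∃ r : FundamentalGroup M m → FundamentalGroup M m → Prop,
        IsStrictTotalOrder _ r ∧ ∀ a b c, r a b ↔ r (c * a) (c * b) := by
  obtain ⟨Y, _, _, p, hp, _⟩ := Tp.exists_universal_cover_manifold E3 m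
  obtain ⟨X0, X1, X2, X3, _, _, _, _, T, φ, a, b, c, d⟩ := normal_form p hp hA hT
  exact T.main_taut ⟨tf, cent⟩ big a b φ c d

end Pool.Agent.Work.MP_3d425c_gt.Sm
end

-- merged part: Pool.Agent.Work.MP_3d425c_gt.Bg.End
section
/-! A complex that carries a foliation with surplus has one end. -/

namespace Pool.Agent.Work.MP_3d425c_gt.Nv
open Set Relation Filter Topology Sys Pool.Agent.Work.MP_3d425c_gt.Md

variable {G X0 X1 X2 X3 : Type} [Group G] [MulAction G X0] [MulAction G X1] [MulAction G X2]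
  [MulAction G X3] {T : Tri G X0 X1 X2 X3} {φ : X2 → ℝ ≃o ℝ}

theorem end_aon (hD : Disc T) (hf : T.Flat φ)
    (S : (sys T φ).Surf (Dm φ true) (cells T) (Em T φ true)) :
    (sys T φ).AON (Do φ) ((sys T φ).Ho (Do φ) (Dm φ true) (cells T) (Em T φ true)) := by
  have cv := cv T φ
  have cr : S_cross T φ := cross
  refine aon_ho ?_ (cv hf true) (cv hf false) S ?_ ?_ ?_ ?_ fun x p q hp hq =>
    ⟨aon_cross (do_sub false) (cv hf true) (cv hf false) (cr hD hf false) hp hq,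
      aon_cross (do_sub true) (cv hf false) (cv hf true) (cr hD hf true) hp hq⟩
  · rintro ⟨f, _ | _⟩ <;> exact ordConnected_Ioo
  · rintro ⟨f, _ | _⟩ <;> exact fc2_gt _ _
  · rintro ⟨x, i⟩
    fin_cases i <;> exact fc2_gt _ _
  · rintro ⟨f, _ | _⟩ <;> exact fc2_lt _ _
  · rintro ⟨x, i⟩
    fin_cases i <;> exact fc2_lt _ _

theorem end_fc (a b : ℝ) : FC2 (fun a => 𝓝[>] a) (Ioo a b) (Iv true a b) := fun t =>
  ⟨fun h => by
    filter_upwards [Ioo_mem_nhdsGT (not_le.1 h.2 : t < b)] with x hx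
    exact ⟨lt_of_le_of_lt h.1 hx.1, hx.2⟩,
  fun h => (fc2_gt a b t).2 (h.mono fun _ k => ⟨k.1.le, not_le.2 k.2⟩)⟩

/-- leaves are simply connected and meet an edge once, in the half open mode -/
theorem end_null (hD : Disc T) (hf : T.Flat φ)
    (S : (sys T φ).Surf (Dm φ true) (cells T) (Em T φ true)) (x : X1 × ℝ) (p)
    (d : (sys T φ).Def (Dm φ true) x p) (e : ((sys T φ).go x p).1 = x.1) :
    (sys T φ).Hd (Dm φ true) (cells T) (Em T φ true) x p [] := by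
  obtain ⟨b, a⟩ := x
  have d1 : ∀ w, FC2 (fun a => 𝓝[>] a) (Do φ w) (Dm φ true w) := by
    rintro ⟨f, _ | _⟩ <;> exact end_fc _ _
  refine aon_closed side_gt ?_ ?_ (cv T φ hf true) S (fun _ _ _ => aon_univ (cv T φ hf true))
    (Eventually.frequently ((aon_ev side_gt d1 d).mono fun r hr => ?_))
  · rintro ⟨f, _ | _⟩ <;> exact fc2_gt _ _
  · rintro ⟨x, i⟩
    fin_cases i <;> exact fc2_gt _ _
  · exact (nov_of_aon hD hf (end_aon hD hf S) hr ((go_fst b r a p).trans e)).2.2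

theorem end_nc (hD : Disc T) (hf : T.Flat φ)
    (S : (sys T φ).Surf (Dm φ true) (cells T) (Em T φ true)) : T.NC φ := by
  refine dual_nc hf fun b a a' p d e => ?_
  have := (cong_hd (cv T φ hf true)).go_eq
    (end_null hD hf S _ p (d.mono (do_sub true)) (by rw [e]))
  rw [e] at this
  exact (congrArg Prod.snd this).symm

theorem end_cell (x : X3) {s : ℝ} (hs : s ∈ Ioo (0 : ℝ) 1) : ∃ j, s ∈ Em T φ true (x, j) := by
  by_cases h1 : mark φ (T.d3 x 2) ≤ s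
  · by_cases h2 : mark φ (T.d3 x 1) ≤ s
    · exact ⟨2, h2, not_le.2 hs.2⟩
    · exact ⟨1, h1, h2⟩
  · exact ⟨0, hs.1.le, h1⟩

variable (hf : T.Flat φ) (S : (sys T φ).Surf (Dm φ true) (cells T) (Em T φ true))

include hf in
theorem end_face (z) : ∃ k, T.d3 (S.Q.cell z).1.1.1 k = z.1.1.1.1 := by
  have h1 : (z.1.1, S.Q.sg z) ∈ (sys T φ).bd (cells T) (S.Q.cell z).1 := by
    rw [← S.bd_eq]
    exact List.mem_map.2 ⟨(z.1, S.Q.sg z), List.mem_map.2 ⟨z, (S.Q.mem _ _).2 rfl, rfl⟩, rfl⟩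
  rw [show (S.Q.cell z).1 = (((S.Q.cell z).1.1.1, (S.Q.cell z).1.1.2), (S.Q.cell z).1.2) from rfl,
    surf_bd hf (S.Q.cell z).2] at h1
  obtain ⟨p, -, e⟩ := List.mem_map.1 h1
  exact ⟨p.1, congrArg (fun y => y.1.1.1) e⟩

include hf in
theorem end_side {x : X3} {k : Fin 4} {b : Bool} {t : ℝ} (ht : t ∈ Dm φ true (T.d3 x k, b))
    {j : Fin 3} (hj : T.pos φ x k t ∈ Em T φ true (x, j)) :
    ∃ c, S.Q.cell (⟨((T.d3 x k, b), t), ht⟩, c) = ⟨((x, j), T.pos φ x k t), hj⟩ := by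
  obtain ⟨i, h1, h2⟩ := (surf_dm hf true x k b t).1 ht
  rw [jm_apply] at h1
  obtain rfl := surf_em hf h1 hj
  have h3 : (((T.d3 x k, b), t), surfDir k) ∈
      (sys T φ).bd (cells T) ((x, i), T.pos φ x k t) := by
    rw [surf_bd hf hj]
    exact List.mem_map.2 ⟨(k, b), h2, by rw [← jm_apply, OrderIso.symm_apply_apply]⟩
  have h4 := S.bd_eq ⟨((x, i), T.pos φ x k t), hj⟩
  obtain ⟨z, hz, e⟩ := List.mem_map.1 (h4.symm ▸ h3 :
    _ ∈ (S.Q.bd ⟨((x, i), T.pos φ x k t), hj⟩).map fun z => (z.1.1, z.2))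
  obtain ⟨c, hc⟩ := S.Q.mem_bd hz
  have e2 : z.1 = ⟨((T.d3 x k, b), t), ht⟩ := Subtype.ext (congrArg Prod.fst e)
  exact ⟨c, e2 ▸ hc⟩

include hf in
theorem end_reach {p q : X3 × ℝ} (h : T.Lf φ p q) (hp : p.2 ∈ Ioo (0 : ℝ) 1) {i j : Fin 3}
    (hi : p.2 ∈ Em T φ true (p.1, i)) (hj : q.2 ∈ Em T φ true (q.1, j)) :
    ReflTransGen (S.Q.Adj ∅) ⟨((p.1, i), p.2), hi⟩ ⟨((q.1, j), q.2), hj⟩ := by
  induction h generalizing i j with
  | rel p q h =>
    obtain ⟨x, s⟩ := p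
    obtain ⟨y, r⟩ := q
    obtain ⟨k, l, t, ht, e, e1, e2⟩ := h
    obtain rfl : s = T.pos φ x k t := e1
    obtain rfl : r = T.pos φ y l t := e2
    obtain ⟨b, hb⟩ : ∃ b, t ∈ Dm φ true (T.d3 x k, b) := by
      by_cases h : mark φ (T.d3 x k) ≤ t
      · exact ⟨true, h, not_le.2 ht.2⟩
      · exact ⟨false, ht.1.le, h⟩
    obtain ⟨c, hc⟩ := end_side hf S hb hi
    have e' : T.d3 x k = T.d3 y l := e
    obtain ⟨c', hc'⟩ := end_side hf S (e' ▸ hb) hj
    have e2 : (⟨((T.d3 y l, b), t), e' ▸ hb⟩ : {α : (X2 × Bool) × ℝ // α.2 ∈ Dm φ true α.1}) =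
        ⟨((T.d3 x k, b), t), hb⟩ := Subtype.ext (by simp only [e'])
    rw [e2] at hc'
    rw [← hc, ← hc']
    by_cases h : c' = c
    · rw [h]
    · have : c' = !c := by cases c <;> cases c' <;> simp_all
      exact .single ⟨_, c, id, rfl, by rw [this]⟩
  | refl p =>
    obtain rfl := surf_em hf hi hj
    exact .refl
  | symm p q h ih => exact S.Q.reach_symm (ih ((hf.lf_mem h).2 hp) hj hi)
  | trans p q r h _ i1 i2 =>
    have hq := (hf.lf_mem h).1 hp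
    obtain ⟨m, hm⟩ := end_cell (T := T) (φ := φ) q.1 hq
    exact (i1 hp hi hm).trans (i2 hq hm hj)

/-- more than `n` tetrahedra of the colour `c` meet the leaf of `p` -/
def Many (T : Tri G X0 X1 X2 X3) (φ : X2 → ℝ ≃o ℝ) (n : ℕ) (c : X3 → Prop) (p : X3 × ℝ) : Prop :=
  ∃ Y : Finset X3, n < Y.card ∧ ∀ y ∈ Y, c y ∧ ∃ r, T.Lf φ p (y, r)

theorem Many.lf {n : ℕ} {c : X3 → Prop} {p q : X3 × ℝ} (h : Many T φ n c p) (k : T.Lf φ q p) :
    Many T φ n c q :=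
  let ⟨Y, h1, h2⟩ := h
  ⟨Y, h1, fun y hy => ⟨(h2 y hy).1, let ⟨r, hr⟩ := (h2 y hy).2; ⟨r, k.trans hr⟩⟩⟩

theorem many_open (n : ℕ) (c : X3 → Prop) (x : X3) : IsOpen {s | Many T φ n c (x, s)} := by
  refine isOpen_iff_mem_nhds.2 fun s ⟨Y, h1, h2⟩ => ?_
  have : ∀ᶠ r in 𝓝 s, ∀ y ∈ Y, ∃ r', T.Lf φ (x, r) (y, r') :=
    (eventually_all_finset Y).2 fun y hy => by
      obtain ⟨r, hr⟩ := (h2 y hy).2
      obtain ⟨ψ, -, h⟩ := objB_hol hr
      exact h.mono fun r k => ⟨_, k⟩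
  exact this.mono fun r hr => ⟨Y, h1, fun y hy => ⟨(h2 y hy).1, hr y hy⟩⟩

include hf in
theorem Many.card {n : ℕ} {c : X3 → Prop} {x : X3} {s : ℝ} (h : Many T φ n c (x, s))
    (hs : s ∈ Ioo (0 : ℝ) 1) {i : Fin 3} (hi : s ∈ Em T φ true (x, i))
    (fin : {κ' | ReflTransGen (S.Q.Adj ∅) ⟨((x, i), s), hi⟩ κ' ∧ c κ'.1.1.1}.Finite) :
    n < fin.toFinset.card := by
  classical
  obtain ⟨Y, h1, h2⟩ := h
  refine h1.trans_le ((Finset.card_le_card fun y hy => ?_).trans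
    (Finset.card_image_le (f := fun κ => κ.1.1.1)))
  obtain ⟨hc, r, hr⟩ := h2 y hy
  obtain ⟨j, hj⟩ := end_cell (T := T) (φ := φ) y ((hf.lf_mem hr).1 hs)
  exact Finset.mem_image.2 ⟨⟨((y, j), r), hj⟩,
    fin.mem_toFinset.2 ⟨end_reach hf S hr hs hi hj, hc⟩, rfl⟩

theorem end_tets (T : Tri G X0 X1 X2 X3) {F : Set X2} (hF : F.Finite) :
    {x | ∃ k, T.d3 x k ∈ F}.Finite := by
  refine (hF.biUnion (t := fun f => {x | ∃ k, T.d3 x k = f}) fun f _ => ?_).subset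
    fun x ⟨k, hk⟩ => mem_biUnion hk ⟨k, rfl⟩
  obtain ⟨p, q, -, h⟩ := T.two f
  refine (toFinite {p.1, q.1}).subset fun x ⟨k, hk⟩ => ?_
  rcases (h (x, k)).1 hk with e | e
  · exact Or.inl (congrArg Prod.fst e)
  · exact Or.inr (congrArg Prod.fst e)

include hf in
theorem end_ball (F0 : Finset (X2 × Bool)) (n : ℕ) : ∃ Bl : Set X3, Bl.Finite ∧
    ∀ Z : Set {α : (X2 × Bool) × ℝ // α.2 ∈ Dm φ true α.1}, (∀ a ∈ Z, a.1.1 ∈ F0) →
      ∀ κ, S.Q.Near Z n κ → κ.1.1.1 ∈ Bl := by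
  have base : {x | ∃ k, T.d3 x k ∈ Prod.fst '' (F0 : Set (X2 × Bool))}.Finite :=
    end_tets T (F0.finite_toSet.image _)
  induction n with
  | zero =>
    refine ⟨_, base, fun Z hZ κ h => ?_⟩
    cases h with
    | base _ z hz =>
      obtain ⟨k, hk⟩ := end_face hf S z
      exact ⟨k, _, hZ _ hz, hk.symm⟩
  | succ n ih =>
    obtain ⟨Bl, h1, h2⟩ := ih
    refine ⟨_, base.union (end_tets T ((h1.prod (finite_univ (α := Fin 4))).image
      fun p => T.d3 p.1 p.2)), fun Z hZ κ h => ?_⟩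
    cases h with
    | base _ z hz =>
      obtain ⟨k, hk⟩ := end_face hf S z
      exact Or.inl ⟨k, _, hZ _ hz, hk.symm⟩
    | step _ c _ h hadj =>
      obtain ⟨a, b, -, rfl, rfl⟩ := hadj
      obtain ⟨k, hk⟩ := end_face hf S (a, b)
      obtain ⟨l, hl⟩ := end_face hf S (a, !b)
      exact Or.inr ⟨l, (_, k), ⟨h2 Z hZ _ h, trivial⟩, hk.trans hl.symm⟩

include hf S in
/-- one end -/
theorem one_end (hD : Disc T) (hI : T.Inf φ) (c : X3 → Prop) {F : Set X2} (hF : F.Finite)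
    (hc : ∀ x k y l, T.d3 x k = T.d3 y l → T.d3 x k ∉ F → (c x ↔ c y)) :
    {x | c x}.Finite ∨ {x | ¬ c x}.Finite := by
  classical
  have hC := cv T φ hf true
  have hN := end_null hD hf S
  let F0 : Finset (X2 × Bool) := hF.toFinset ×ˢ Finset.univ
  obtain ⟨n, hn⟩ := exists_nat_ge (|S.Y| * (2 * F0.card))
  have hu : ∀ a : {α : (X2 × Bool) × ℝ // α.2 ∈ Dm φ true α.1}, a.1.1 ∉ F0 →
      (c (S.Q.cell (a, true)).1.1.1 ↔ c (S.Q.cell (a, false)).1.1.1) := by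
    intro a ha
    obtain ⟨k, hk⟩ := end_face hf S (a, true)
    obtain ⟨l, hl⟩ := end_face hf S (a, false)
    refine hc _ k _ l (hk.trans hl.symm) fun h => ha ?_
    rw [hk] at h
    exact Finset.mem_product.2 ⟨hF.mem_toFinset.2 h, Finset.mem_univ _⟩
  have hu' : ∀ a : {α : (X2 × Bool) × ℝ // α.2 ∈ Dm φ true α.1}, a.1.1 ∉ F0 →
      (¬ c (S.Q.cell (a, true)).1.1.1 ↔ ¬ c (S.Q.cell (a, false)).1.1.1) :=
    fun a ha => not_congr (hu a ha)
  have notboth : ∀ x, ∀ s ∈ Ioo (0 : ℝ) 1,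
      Many T φ n c (x, s) → Many T φ n (fun y => ¬ c y) (x, s) → False := by
    intro x s hs h1 h2
    obtain ⟨i, hi⟩ := end_cell (T := T) (φ := φ) x hs
    rcases minor_fin hC S hN (fun κ => c κ.1) F0 hu ⟨((x, i), s), hi⟩ with h | h
    · exact absurd (minor_bd hC S hN (fun κ => c κ.1) F0 hu hn _ h).1
        (not_le.2 (h1.card hf S hs hi h))
    · exact absurd (minor_bd hC S hN (fun κ => ¬ c κ.1) F0 hu' hn _ h).1
        (not_le.2 (h2.card hf S hs hi h))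
  have some : ∀ x, ∀ s ∈ Ioo (0 : ℝ) 1,
      Many T φ n c (x, s) ∨ Many T φ n (fun y => ¬ c y) (x, s) := by
    intro x s hs
    have inf : {y | ∃ r, T.Lf φ (x, s) (y, r)}.Infinite := by
      intro fin
      have ex : ∀ y, ∃ r, ∀ r', T.Lf φ (x, s) (y, r') → r' = r := fun y => by
        by_cases h : ∃ r, T.Lf φ (x, s) (y, r)
        · obtain ⟨r, hr⟩ := h
          exact ⟨r, fun r' h' => end_nc hD hf S y r' r (h'.symm.trans hr)⟩
        · exact ⟨0, fun r' h' => absurd ⟨r', h'⟩ h⟩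
      choose ρ hρ using ex
      refine hI x s hs ((fin.image fun y => (ob G y, ρ y)).subset ?_)
      rintro ⟨o, r⟩ ⟨y, e, h⟩
      rw [stepZ_empty] at h
      exact ⟨y, ⟨r, h⟩, Prod.ext e (hρ y r h).symm⟩
    have : {y | c y ∧ ∃ r, T.Lf φ (x, s) (y, r)}.Infinite ∨
        {y | ¬ c y ∧ ∃ r, T.Lf φ (x, s) (y, r)}.Infinite := by
      rw [← infinite_union]
      refine inf.mono fun y hy => ?_
      by_cases h : c y
      · exact Or.inl ⟨h, hy⟩
      · exact Or.inr ⟨h, hy⟩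
    refine this.imp (fun h => ?_) fun h => ?_ <;>
    · obtain ⟨Y, h1, h2⟩ := h.exists_subset_card_eq (n + 1)
      exact ⟨Y, by omega, fun y hy => h1 hy⟩
  have const : ∀ x, ∀ s ∈ Ioo (0 : ℝ) 1, ∀ r ∈ Ioo (0 : ℝ) 1,
      Many T φ n c (x, s) → Many T φ n c (x, r) := by
    intro x s hs r hr h
    have := isPreconnected_Ioo.subset_left_of_subset_union
      ((many_open (T := T) (φ := φ) n c x).inter (isOpen_Ioo (a := (0 : ℝ)) (b := 1)))
      ((many_open (T := T) (φ := φ) n (fun y => ¬ c y) x).inter (isOpen_Ioo (a := (0 : ℝ)) (b := 1)))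
      (disjoint_left.2 fun t h1 h2 => notboth x t h1.2 h1.1 h2.1)
      (fun t ht => (some x t ht).imp (fun k => ⟨k, ht⟩) fun k => ⟨k, ht⟩) ⟨s, hs, h, hs⟩
    exact (this hr).1
  have half : (1 / 2 : ℝ) ∈ Ioo (0 : ℝ) 1 := ⟨by norm_num, by norm_num⟩
  have all : ∀ x y, Many T φ n c (x, 1 / 2) ↔ Many T φ n c (y, 1 / 2) := by
    intro x y
    have step : ∀ x k y l, T.d3 x k = T.d3 y l → Many T φ n c (x, 1 / 2) →
        Many T φ n c (y, 1 / 2) := fun x k y l e h =>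
      const y _ (hf.pos_mem y l half) _ half
        ((const x _ half _ (hf.pos_mem x k half) h).lf (Tri.Lf.arc e.symm half))
    induction T.conn x y with
    | rel x y h =>
      obtain ⟨k, l, e⟩ := h
      exact ⟨step x k y l e, step y l x k e.symm⟩
    | refl => rfl
    | symm _ _ _ ih => exact ih.symm
    | trans _ _ _ _ _ i j => exact i.trans j
  obtain ⟨Bl, hB, hB2⟩ := end_ball hf S F0 n
  obtain ⟨x0⟩ := T.ne
  rcases some x0 _ half with h | h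
  · refine Or.inr (hB.subset fun x hx => ?_)
    obtain ⟨i, hi⟩ := end_cell (T := T) (φ := φ) x half
    rcases minor_fin hC S hN (fun κ => c κ.1) F0 hu ⟨((x, i), _), hi⟩ with k | k
    · exact absurd (minor_bd hC S hN (fun κ => c κ.1) F0 hu hn _ k).1
        (not_le.2 (((all x0 x).1 h).card hf S half hi k))
    · obtain ⟨Z, h1, h2⟩ := (minor_bd hC S hN (fun κ => ¬ c κ.1) F0 hu' hn _ k).2 _
        (k.mem_toFinset.2 ⟨.refl, hx⟩)
      exact hB2 Z h1 _ h2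
  · refine Or.inl (hB.subset fun x hx => ?_)
    obtain ⟨i, hi⟩ := end_cell (T := T) (φ := φ) x half
    have h' : Many T φ n (fun y => ¬ c y) (x, 1 / 2) :=
      (some x _ half).resolve_left fun k => notboth x0 _ half ((all x x0).1 k) h
    rcases minor_fin hC S hN (fun κ => c κ.1) F0 hu ⟨((x, i), _), hi⟩ with k | k
    · obtain ⟨Z, h1, h2⟩ := (minor_bd hC S hN (fun κ => c κ.1) F0 hu hn _ k).2 _
        (k.mem_toFinset.2 ⟨.refl, hx⟩)
      exact hB2 Z h1 _ h2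
    · exact absurd (minor_bd hC S hN (fun κ => ¬ c κ.1) F0 hu' hn _ k).1
        (not_le.2 (h'.card hf S half hi k))

/-- from one end to the first cohomology with compact support -/
theorem hc1_of_end (T : Tri G X0 X1 X2 X3) (hD : Disc T) (pure : ∀ e, ∃ f i, T.d2 f i = e)
    (hE : ∀ (c : X3 → Prop) (F : Set X2), F.Finite →
      (∀ x k y l, T.d3 x k = T.d3 y l → T.d3 x k ∉ F → (c x ↔ c y)) →
      {x | c x}.Finite ∨ {x | ¬ c x}.Finite)
    {A : Type} [AddCommGroup A] (z : X1 → A) (hz : (Function.support z).Finite)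
    (co : ∀ f, z (T.d2 f 1) = z (T.d2 f 2) + z (T.d2 f 0)) :
    ∃ s : X0 → A, (Function.support s).Finite ∧ ∀ e, z e = s (T.d1 e 0) - s (T.d1 e 1) := by
  classical
  have : Finite (Ob G X3) := T.fin
  obtain ⟨σ, hσ⟩ := hD.sc (Multiplicative A) (fun e => Multiplicative.ofAdd (z e))
    fun f => by rw [co, ofAdd_add]
  let s0 : X0 → A := fun v => - Multiplicative.toAdd (σ v)
  have hs : ∀ e, z e = s0 (T.d1 e 0) - s0 (T.d1 e 1) := fun e => by
    have := congrArg Multiplicative.toAdd (hσ e)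
    simp only [toAdd_ofAdd, toAdd_mul, toAdd_inv] at this
    rw [this]
    simp only [s0]
    abel
  let val : X2 → A := fun f => s0 (T.d1 (T.d2 f 0) 0)
  have face : ∀ f, (∀ i, z (T.d2 f i) = 0) → ∀ i j, s0 (T.d1 (T.d2 f i) j) = val f := by
    intro f h i j
    have e : ∀ i, s0 (T.d1 (T.d2 f i) 1) = s0 (T.d1 (T.d2 f i) 0) := fun i =>
      (sub_eq_zero.1 ((hs _).symm.trans (h i))).symm
    have a1 : s0 (T.d1 (T.d2 f 1) 0) = val f := congrArg s0 (T.s2 f 0 0 le_rfl)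
    have a2 : s0 (T.d1 (T.d2 f 2) 0) = val f :=
      (congrArg s0 (T.s2 f 0 1 (by decide))).trans (e 0)
    fin_cases i <;> fin_cases j
    exacts [rfl, e 0, a1, (e 1).trans a1, a2, (e 2).trans a2]
  let Bad : Set X3 := {x | ∃ k i, z (T.d2 (T.d3 x k) i) ≠ 0}
  have hBad : Bad.Finite := by
    refine (hz.biUnion (t := fun e => ⋃ p : Fin 4 × Fin 3, {x | T.d2 (T.d3 x p.1) p.2 = e})
      fun e _ => finite_iUnion fun p => surf_fin T _ (fun g x => by rw [T.e3, T.e2]) e).subset ?_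
    rintro x ⟨k, i, h⟩
    exact mem_biUnion h (mem_iUnion.2 ⟨(k, i), rfl⟩)
  have tet : ∀ x, x ∉ Bad → ∀ k, val (T.d3 x k) = val (T.d3 x 0) := by
    intro x hx k
    refine Fin.cases rfl (fun j => ?_) k
    exact (congrArg (fun e => s0 (T.d1 e 0)) (T.s3 x 0 j (Fin.zero_le j))).trans
      (face _ (fun i => by_contra fun h => hx ⟨_, i, h⟩) j 0)
  let F : Set X2 := (fun p : X3 × Fin 4 => T.d3 p.1 p.2) '' (Bad ×ˢ univ)
  have hF : F.Finite := (hBad.prod finite_univ).image _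
  have adj : ∀ x k y l, T.d3 x k = T.d3 y l → T.d3 x k ∉ F →
      val (T.d3 x 0) = val (T.d3 y 0) := fun x k y l e h => by
    rw [← tet x (fun hx => h ⟨(x, k), ⟨hx, trivial⟩, rfl⟩) k,
      ← tet y (fun hy => h ⟨(y, l), ⟨hy, trivial⟩, e.symm⟩) l, e]
  obtain ⟨a, ha⟩ : ∃ a, {x | ¬ val (T.d3 x 0) = a}.Finite := by
    by_contra hn
    have fib : ∀ a, {x | val (T.d3 x 0) = a}.Finite := fun a =>
      (hE (fun x => val (T.d3 x 0) = a) F hF fun x k y l e h => by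
        rw [adj x k y l e h]).resolve_right fun h => hn ⟨a, h⟩
    obtain ⟨x0⟩ := T.ne
    let R : Set A := insert (val (T.d3 x0 0)) (val '' F)
    have hR : R.Finite := (hF.image _).insert _
    have inF : ∀ x k, T.d3 x k ∈ F → val (T.d3 x 0) ∈ R := fun x k h => by
      by_cases hx : x ∈ Bad
      · exact Or.inr ⟨_, ⟨(x, 0), ⟨hx, trivial⟩, rfl⟩, rfl⟩
      · exact Or.inr ⟨_, h, tet x hx k⟩
    have all : ∀ x y, val (T.d3 x 0) ∈ R ↔ val (T.d3 y 0) ∈ R := by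
      intro x y
      induction T.conn x y with
      | rel x y h =>
        obtain ⟨k, l, e⟩ := h
        by_cases h : T.d3 x k ∈ F
        · exact iff_of_true (inF x k h) (inF y l (e ▸ h))
        · rw [adj x k y l e h]
      | refl => rfl
      | symm _ _ _ ih => exact ih.symm
      | trans _ _ _ _ _ i j => exact i.trans j
    exact hn ⟨0, (hR.biUnion fun a _ => fib a).subset fun x _ =>
      mem_biUnion ((all x0 x).1 (Or.inl rfl)) rfl⟩
  refine ⟨fun v => if ∃ e j, T.d1 e j = v then s0 v - a else 0, ?_, fun e => ?_⟩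
  · refine (((hBad.union ha).prod (finite_univ (α := Fin 4 × Fin 3 × Fin 2))).image
      fun p => T.d1 (T.d2 (T.d3 p.1 p.2.1) p.2.2.1) p.2.2.2).subset fun v hv => ?_
    by_cases h : ∃ e j, T.d1 e j = v
    · obtain ⟨e, j, rfl⟩ := h
      obtain ⟨f, i, rfl⟩ := pure e
      obtain ⟨x, k, rfl⟩ := T.face_surj f
      refine ⟨(x, k, i, j), ⟨?_, trivial⟩, rfl⟩
      by_contra hx
      rw [mem_union, not_or] at hx
      refine hv ((if_pos ⟨_, j, rfl⟩).trans (sub_eq_zero.2 ?_))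
      rw [face _ (fun i => by_contra fun h => hx.1 ⟨_, i, h⟩), tet x hx.1]
      exact not_not.1 hx.2
    · exact absurd (if_neg h) hv
  · beta_reduce
    rw [if_pos ⟨e, 0, rfl⟩, if_pos ⟨e, 1, rfl⟩, hs]
    abel

include hf S in
/-- the first cohomology with compact support vanishes -/
theorem hc1_surf (hD : Disc T) (hI : T.Inf φ) (pure : ∀ e, ∃ f i, T.d2 f i = e)
    {A : Type} [AddCommGroup A] (z : X1 → A) (hz : (Function.support z).Finite)
    (co : ∀ f, z (T.d2 f 1) = z (T.d2 f 2) + z (T.d2 f 0)) :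
    ∃ s : X0 → A, (Function.support s).Finite ∧ ∀ e, z e = s (T.d1 e 0) - s (T.d1 e 1) :=
  hc1_of_end T hD pure (fun c _ hF hc => one_end hf S hD hI c hF hc) z hz co

theorem hc1_flw (hD : Disc T) {y} (hy : T.Flw y) (hf : T.Fol φ) (pure : ∀ e, ∃ f i, T.d2 f i = e)
    {A : Type} [AddCommGroup A] (z : X1 → A) (hz : (Function.support z).Finite)
    (co : ∀ f, z (T.d2 f 1) = z (T.d2 f 2) + z (T.d2 f 0)) :
    ∃ s : X0 → A, (Function.support s).Finite ∧ ∀ e, z e = s (T.d1 e 0) - s (T.d1 e 1) :=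
  let ⟨S⟩ := surf y hy hf.1 true
  hc1_surf hf.1 S hD (Tri.inf hy hf) pure z hz co

end Pool.Agent.Work.MP_3d425c_gt.Nv
end

-- merged part: Pool.Agent.Work.MP_3d425c_gt.Md.Main
section
/-! Assembly. -/

namespace Pool.Agent.Work.MP_3d425c_gt.Md
open Set Relation Pool.Agent.Work.MP_3d425c_gt.Gn Pool.Agent.Work.MP_3d425c_gt.Cy

variable {G X0 X1 X2 X3 : Type} [Group G] [MulAction G X0] [MulAction G X1] [MulAction G X2]
  [MulAction G X3]

theorem Tri.main (hs : Ht.S_shear) (T : Tri G X0 X1 X2 X3) (hcy : T.Cyc) (hG : Hyp G)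
    (hB : Big G)
    (ex : ∃ φ, T.Fol φ) (nov : ∀ φ, T.Fol φ → T.NC φ) : Nontrivial G ∧ LO G := by
  by_cases h0 : NoHom G
  · obtain ⟨y, hy⟩ := T.flow hcy h0
    obtain ⟨φ, hf, ha⟩ := Tri.generic ex fun φ hf x s hs' g h hg hh hne => by
      obtain ⟨Z, hZ, k⟩ := Tri.collapse hf (Tri.inf hy hf) hs' hg hh hne
      exact ⟨Z, Tri.shear hs hy hf hZ, k⟩
    exact Tri.obj hG hB hf (nov φ hf) (Tri.inf hy hf) ha
  · obtain ⟨χ, hχ⟩ := not_forall.1 h0
    refine ⟨?_, lo_of_hom hG hB χ hχ⟩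
    by_contra hn
    have := not_nontrivial_iff_subsingleton.1 hn
    exact hχ (MonoidHom.ext fun g => by rw [Subsingleton.elim g 1, map_one, map_one])

end Pool.Agent.Work.MP_3d425c_gt.Md
end

-- merged part: Pool.Agent.Work.MP_3d425c_gt.Cw.AB
section
/-! Groups with a finitely generated abelian normal subgroup. -/

namespace Pool.Agent.Work.MP_3d425c_gt.To.Cs
open Set MulAction Pool.Agent.Work.MP_3d425c_gt.Cy
open Pool.Agent.Work.MP_3d425c_gt.To.Ax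

variable {G X : Type*} [Group G] [MulAction G X] {C : Set (ℝ → X)} {up : X → X → Prop}

omit [MulAction G X] in
/-- Two commuting dependent elements are powers of one element. -/
theorem ab_root (tf : ∀ a : G, a ≠ 1 → ¬ IsOfFinOrder a) {a b : G} (c : Commute a b)
    (e : ∃ m n : ℤ, ¬ (m = 0 ∧ n = 0) ∧ a ^ m = b ^ n) :
    ∃ z ∈ Subgroup.closure ({a, b} : Set G), a ∈ Subgroup.zpowers z ∧ b ∈ Subgroup.zpowers z := by
  obtain ⟨m, n, mn, q⟩ := e
  obtain ⟨d, i, j, d0, ij, rfl, rfl⟩ := Int.exists_gcd_one' (m := m) (n := n)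
    (Int.gcd_pos_iff.2 (not_and_or.1 mn))
  have q' : a ^ i = b ^ j := by
    by_contra ne
    refine tf (a ^ i * (b ^ j)⁻¹) (fun k => ne (mul_inv_eq_one.1 k))
      (isOfFinOrder_iff_zpow_eq_one.2 ⟨d, by omega, ?_⟩)
    rw [(c.zpow_zpow i j).inv_right.mul_zpow, inv_zpow, ← zpow_mul, ← zpow_mul, q, mul_inv_cancel]
  obtain ⟨u, v, uv⟩ := Int.isCoprime_iff_gcd_eq_one.2 ij
  refine ⟨a ^ v * b ^ u, mul_mem (zpow_mem (Subgroup.subset_closure (by simp)) v)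
    (zpow_mem (Subgroup.subset_closure (by simp)) u), ⟨j, ?_⟩, ⟨i, ?_⟩⟩
  · show (a ^ v * b ^ u) ^ j = a
    rw [(c.zpow_zpow v u).mul_zpow, ← zpow_mul, ← zpow_mul, mul_comm u j, zpow_mul b, ← q',
      ← zpow_mul, ← zpow_add, show v * j + i * u = 1 by linarith, zpow_one]
  · show (a ^ v * b ^ u) ^ i = b
    rw [(c.zpow_zpow v u).mul_zpow, ← zpow_mul, ← zpow_mul, mul_comm v i, zpow_mul a, q',
      ← zpow_mul, ← zpow_add, show j * v + u * i = 1 by linarith, zpow_one]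

omit [MulAction G X] in
/-- A finitely generated abelian group of rank one is cyclic. -/
theorem ab_cyc (tf : ∀ a : G, a ≠ 1 → ¬ IsOfFinOrder a) {Y : Subgroup G} (fg : Y.FG)
    (cm : ∀ a ∈ Y, ∀ b ∈ Y, a * b = b * a)
    (d : ∀ a ∈ Y, ∀ b ∈ Y, ∃ m n : ℤ, ¬ (m = 0 ∧ n = 0) ∧ a ^ m = b ^ n) :
    ∃ z : G, Y = Subgroup.zpowers z := by
  obtain ⟨S, rfl, hS⟩ := (Subgroup.fg_iff Y).1 fg
  have k : ∀ U : Set G, U.Finite → U ⊆ Subgroup.closure S →
      ∃ z ∈ Subgroup.closure S, ∀ x ∈ U, x ∈ Subgroup.zpowers z := by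
    intro U hU
    induction U, hU using Set.Finite.induction_on with
    | empty => exact fun _ => ⟨1, one_mem _, nofun⟩
    | @insert x U _ _ ih =>
      intro k
      obtain ⟨z, z1, z2⟩ := ih fun y hy => k (.inr hy)
      have hx := k (.inl rfl)
      obtain ⟨w, w1, w2, w3⟩ := ab_root tf (cm x hx z z1) (d x hx z z1)
      refine ⟨w, (Subgroup.closure_le _).2 ?_ w1, ?_⟩
      · rintro _ (rfl | rfl)
        exacts [hx, z1]
      · rintro y (rfl | hy)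
        exacts [w2, Subgroup.zpowers_le_of_mem w3 (z2 y hy)]
  obtain ⟨z, z1, z2⟩ := k S hS Subgroup.subset_closure
  exact ⟨z, le_antisymm ((Subgroup.closure_le _).2 z2) (Subgroup.zpowers_le_of_mem z1)⟩

/-- A totally ordered orbit orders the group. -/
theorem lo_of_cmp (h : Om G C up) (y : X) (cyc : IsCyclic (stabilizer G y))
    (tf : ∀ a : G, a ≠ 1 → ¬ IsOfFinOrder a) (c : ∀ p q : G, Cmp C (p • y) (q • y)) :
    ∃ r : G → G → Prop, IsStrictTotalOrder G r ∧ ∀ a b c, r a b ↔ r (c * a) (c * b) := by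
  obtain ⟨κ, hκ⟩ := cyc.exists_generator
  obtain ⟨t, t1, t2⟩ := Gl.lin_of_cyclic (A := ⊤ ⊓ stabilizer G y) (α := (κ : G))
    ((em _).imp_right (tf _)) fun g hg =>
      let ⟨n, hn⟩ := hκ ⟨g, hg.2⟩
      ⟨n, (congrArg Subtype.val hn).symm⟩
  obtain ⟨r, r1, r2, -⟩ := Gl.ord_of_action (A := ⊤) (F := ∅) (Asc C) y (by simp)
    (fun _ _ => asc_irr h _) (fun _ _ _ _ _ _ => asc_trans h)
    (fun p _ q _ ne => (c p q).imp (fun k => k.resolve_left ne) fun k => k.resolve_left ne.symm)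
    (fun g _ _ _ _ _ => asc_smul h g) t1 t2 (by simp)
  refine ⟨r, { trichotomous := fun p q k1 k2 => ?_
               irrefl := fun p => r1.irr p trivial
               trans := fun p q s => r1.trans p trivial q trivial s trivial },
    fun p q g => ⟨r2 g trivial p trivial q trivial, fun k => ?_⟩⟩
  · by_contra ne
    exact (r1.tot p trivial q trivial ne).elim k1 k2
  · simpa using r2 g⁻¹ trivial _ trivial _ trivial k

/-- A group with a nontrivial finitely generated abelian normal subgroup and a taut action with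
cyclic stabilisers is left orderable. -/
theorem lo_ab (h : Om G C up) (x₀ : X)
    (taut : ∀ x : X, ∃ g : G, Relation.TransGen (Asc C) x (g • x))
    (cyc : ∀ y : X, IsCyclic (stabilizer G y)) (tf : ∀ a : G, a ≠ 1 → ¬ IsOfFinOrder a)
    {Y : Subgroup G} (hN : Y.Normal) (fg : Y.FG) (cm : ∀ a ∈ Y, ∀ b ∈ Y, a * b = b * a)
    (ne : Y ≠ ⊥) {S : Set G} (hS : S.Finite) (hc : Subgroup.closure S = ⊤)
    (h0 : ∀ χ : G → ℝ, (∀ a b, χ (a * b) = χ a + χ b) → ∀ g, χ g = 0) :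
    ∃ r : G → G → Prop, IsStrictTotalOrder G r ∧ ∀ a b c, r a b ↔ r (c * a) (c * b) := by
  by_cases d : ∀ a ∈ Y, ∀ b ∈ Y, ∃ m n : ℤ, ¬ (m = 0 ∧ n = 0) ∧ a ^ m = b ^ n
  · obtain ⟨z, rfl⟩ := ab_cyc tf fg cm d
    exact lo_normal h x₀ taut cyc tf (fun e => ne (by simp [e])) hN hS hc h0
  obtain ⟨a, ha, b, hb, ind⟩ :
      ∃ a ∈ Y, ∃ b ∈ Y, ¬ ∃ m n : ℤ, ¬ (m = 0 ∧ n = 0) ∧ a ^ m = b ^ n := by
    by_contra k
    exact d fun a ha b hb => by_contra fun n => k ⟨a, ha, b, hb, n⟩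
  have nf : ∀ y : X, ¬ (a • y = y ∧ b • y = y) := by
    rintro y ⟨k1, k2⟩
    obtain ⟨κ, hκ⟩ := (cyc y).exists_generator
    obtain ⟨i, hi⟩ := hκ ⟨a, k1⟩
    obtain ⟨j, hj⟩ := hκ ⟨b, k2⟩
    have hi' : (κ : G) ^ i = a := congrArg Subtype.val hi
    have hj' : (κ : G) ^ j = b := congrArg Subtype.val hj
    by_cases e : i = 0
    · exact ind ⟨1, 0, by simp, by simp [← hi', e]⟩
    · exact ind ⟨j, i, fun q => e q.2, by simp only [← hi', ← hj', ← zpow_mul, mul_comm]⟩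
  have ma : a ∈ Subgroup.closure ({a, b} : Set G) := Subgroup.subset_closure (by simp)
  have mb : b ∈ Subgroup.closure ({a, b} : Set G) := Subgroup.subset_closure (by simp)
  have le : Subgroup.closure ({a, b} : Set G) ≤ Y := (Subgroup.closure_le _).2 (by
    rintro _ (rfl | rfl)
    exacts [ha, hb])
  obtain ⟨s, s1, -, ⟨y, L⟩ | ⟨m, n, ⟨t, ht, t1⟩, Z⟩⟩ := axis h (cm a ha b hb) x₀ nf
  · have two : ∀ u v : X, Cmp C u (a • u) → Cmp C u (b • u) → Cmp C v (a • v) →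
        Cmp C v (b • v) → Cmp C u v := fun u v a1 b1 a2 b2 => by
      by_contra nc
      obtain ⟨m, k, -⟩ := sep_fix h nc
      exact nf m ⟨k a a1 a2, k b b1 b2⟩
    have mv : ∀ p ∈ Y, ∀ q ∈ Y, Cmp C y (p • y) → Cmp C (q • y) (p • q • y) :=
      fun p hp q hq k => by
        rw [← mul_smul, cm p hp q hq, mul_smul]
        exact cmp_smul h q k
    have all : ∀ q ∈ Y, Cmp C y (q • y) := fun q hq =>
      two _ _ (L a ma).1 (L b mb).1 (mv a ha q hq (L a ma).1) (mv b hb q hq (L b mb).1)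
    have cj : ∀ p ∈ Y, ∀ g : G, Cmp C (g • y) (p • g • y) := fun p hp g => by
      have := cmp_smul h g (all _ (hN.conj_mem p hp g⁻¹))
      simpa [mul_smul] using this
    exact lo_of_cmp h y (cyc y) tf fun p q =>
      two _ _ (cj a ha p) (cj b hb p) (cj a ha q) (cj b hb q)
  have sk : Skew C up t m n := (Z t ht).2.1.1 (t1 ▸ one_pos)
  have fx : ∀ q ∈ Y, ∀ x : X, q • x = x → q • m = m := fun q hq x e => by
    rcases sk.tri h (cm t (le ht) q hq) with k | k | k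
    · exact k.1
    · exact (k.not_cmp h x (by rw [e]; exact cmp_refl _)).elim
    · exact (k.not_cmp h x (by rw [inv_smul_eq_iff.2 e.symm]; exact cmp_refl _)).elim
  have N : (Y ⊓ stabilizer G m).Normal := ⟨fun q hq g =>
    ⟨hN.conj_mem q hq.1 g, fx _ (hN.conj_mem q hq.1 g) (g • m) (by
      have e : q • m = m := hq.2
      simp [mul_smul, e])⟩⟩
  have c : IsCyclic ↥(Y ⊓ stabilizer G m) :=
    have := cyc m
    Subgroup.isCyclic_of_le (H' := stabilizer G m) inf_le_right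
  obtain ⟨z, hz⟩ := (Subgroup.isCyclic_iff_exists_zpowers_eq_top _).1 c
  refine lo_normal h x₀ taut cyc tf (a := z) (fun e => ?_) (hz ▸ N) hS hc h0
  have tr : ∀ q ∈ Subgroup.closure ({a, b} : Set G), s q = 0 → q = 1 := fun q hq k => by
    have : q ∈ Subgroup.zpowers z := hz ▸ ⟨le hq, ((Z q hq).2.2.1 k).1⟩
    simpa [e] using this
  have s0 : s 1 = 0 := by
    have := s1 1 (one_mem _) 1 (one_mem _)
    rw [mul_one] at this
    linarith
  have sz : ∀ q ∈ Subgroup.closure ({a, b} : Set G), ∀ k : ℤ, s (q ^ k) = k * s q := by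
    intro q hq k
    induction k with
    | zero => simpa using s0
    | succ k ih =>
      rw [zpow_add_one, s1 _ (zpow_mem hq _) _ hq, ih]
      push_cast
      ring
    | pred k ih =>
      have := s1 _ (zpow_mem hq (-(k : ℤ) - 1)) _ hq
      rw [← zpow_add_one, sub_add_cancel, ih] at this
      push_cast at this ⊢
      linarith
  obtain ⟨i, hi⟩ := (Z a ma).1
  obtain ⟨j, hj⟩ := (Z b mb).1
  by_cases i0 : i = 0
  · exact ind ⟨1, 0, by simp, by simpa using tr a ma (by simp [hi, i0])⟩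
  · refine ind ⟨j, i, fun q => i0 q.2, mul_inv_eq_one.1 (tr _
      (mul_mem (zpow_mem ma j) (inv_mem (zpow_mem mb i))) ?_)⟩
    rw [← zpow_neg, s1 _ (zpow_mem ma j) _ (zpow_mem mb _), sz a ma, sz b mb, hi, hj]
    push_cast
    ring

omit [MulAction G X] in
/-- An abelian subgroup of finite index contains a normal one. -/
theorem ab_core (tf : ∀ a : G, a ≠ 1 → ¬ IsOfFinOrder a) {S : Set G} (hS : S.Finite)
    (hc : Subgroup.closure S = ⊤) {A : Subgroup G} [A.FiniteIndex]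
    (cm : ∀ a ∈ A, ∀ b ∈ A, a * b = b * a) (ne : A ≠ ⊥) :
    ∃ Y : Subgroup G, Y.Normal ∧ Y.FG ∧ (∀ a ∈ Y, ∀ b ∈ Y, a * b = b * a) ∧ Y ≠ ⊥ := by
  have : Group.FG G := Group.fg_iff.2 ⟨S, hc, hS⟩
  refine ⟨A.normalCore, inferInstance,
    (Group.fg_iff_subgroup_fg _).1 (Subgroup.fg_of_index_ne_zero _),
    fun a ha b hb => cm a (A.normalCore_le ha) b (A.normalCore_le hb), fun e => ne ?_⟩
  refine (Subgroup.eq_bot_iff_forall _).2 fun a _ => by_contra fun n => tf a n ?_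
  refine isOfFinOrder_iff_pow_eq_one.2 ⟨A.normalCore.index,
    Nat.pos_of_ne_zero Subgroup.FiniteIndex.index_ne_zero, ?_⟩
  have := Subgroup.pow_index_mem A.normalCore a
  rwa [e, Subgroup.mem_bot, ← e] at this

end Pool.Agent.Work.MP_3d425c_gt.To.Cs

namespace Pool.Agent.Work.MP_3d425c_gt.Md
open Pool.Agent.Work.MP_3d425c_gt.Cy Pool.Agent.Work.MP_3d425c_gt.To

variable {G X0 X1 X2 X3 : Type} [Group G] [MulAction G X0] [MulAction G X1] [MulAction G X2]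
  [MulAction G X3]

/-- The case of a finitely generated abelian normal subgroup. -/
theorem Tri.lo_ab (T : Tri G X0 X1 X2 X3) (tf : ∀ a : G, a ≠ 1 → ¬ IsOfFinOrder a)
    (h0 : NoHom G) (hD : Nv.Disc T) (mid : ∀ v, ∃ f, T.d1 (T.d2 f 2) 0 = v) (φ : X2 → ℝ ≃o ℝ)
    (hf : T.Fol φ) (ht : T.Taut φ) {Y : Subgroup G} (hN : Y.Normal) (fg : Y.FG)
    (cm : ∀ a ∈ Y, ∀ b ∈ Y, a * b = b * a) (ne : Y ≠ ⊥) :
    ∃ r : G → G → Prop, IsStrictTotalOrder G r ∧ ∀ a b c, r a b ↔ r (c * a) (c * b) := by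
  obtain ⟨Z, _, y, C, up, h, cyc, -⟩ := T.model_taut tf h0 hD mid φ hf ht
  obtain ⟨S, hS, hc⟩ := T.fin_gen
  refine Cs.lo_ab (om_of_OM h) y h.pre.taut cyc tf hN fg cm ne hS hc fun χ k g => ?_
  have := h0 (MonoidHom.mk' (fun g => Multiplicative.ofAdd (χ g)) fun a b => by
    rw [k, ofAdd_add])
  exact ofAdd_eq_one.1 (DFunLike.congr_fun this g)

/-- The case of an abelian subgroup of finite index. -/
theorem Tri.lo_fi (T : Tri G X0 X1 X2 X3) (tf : ∀ a : G, a ≠ 1 → ¬ IsOfFinOrder a)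
    (h0 : NoHom G) (hD : Nv.Disc T) (mid : ∀ v, ∃ f, T.d1 (T.d2 f 2) 0 = v) (φ : X2 → ℝ ≃o ℝ)
    (hf : T.Fol φ) (ht : T.Taut φ) {A : Subgroup G} [A.FiniteIndex]
    (cm : ∀ a ∈ A, ∀ b ∈ A, a * b = b * a) (ne : A ≠ ⊥) :
    ∃ r : G → G → Prop, IsStrictTotalOrder G r ∧ ∀ a b c, r a b ↔ r (c * a) (c * b) := by
  obtain ⟨S, hS, hc⟩ := T.fin_gen
  obtain ⟨Y, a, b, c, d⟩ := Cs.ab_core tf hS hc cm ne
  exact T.lo_ab tf h0 hD mid φ hf ht a b c d

end Pool.Agent.Work.MP_3d425c_gt.Md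
end
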