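import Mathlib
import Pool.Agent.Work.MP_3d425c_gt.Nh.Rhm
import Pool.Agent.Work.MP_3d425c_gt.Sv.Line
import Pool.Agent.Work.MP_3d425c_gt.Nh.Tree

-- merged part: Pool.Agent.Work.MP_3d425c_gt.Sp.Defs
section
/-! The standard presentation of the group of a Seifert manifold with boundary. -/

namespace Pool.Agent.Work.MP_3d425c_gt.Sp
open FreeGroup

/-- Relators on the fibre `none` and the curves `some i`: each curve commutes with the fibre
(the curve `0` inverts it if `tw`), and `cᵢ ^ αᵢ = h ^ βᵢ`. -/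
def rels (n : ℕ) (tw : Bool) (α : ℕ → ℕ) (β : ℕ → ℤ) : Set (FreeGroup (Option (Fin n))) :=
  ⋃ i : Fin n, {of (some i) * of none * (of (some i))⁻¹ *
    (if tw ∧ i.1 = 0 then of none else (of none)⁻¹), of (some i) ^ α i * (of none ^ β i)⁻¹}

/-- `V` has this presentation on the generators `h` and `c i`, `i < n`. -/
def Pres {G : Type*} [Group G] (V : Subgroup G) (h : G) (n : ℕ) (c : ℕ → G) (tw : Bool)
    (α : ℕ → ℕ) (β : ℕ → ℤ) : Prop :=
  ∃ e : PresentedGroup (rels n tw α β) ≃* V, (e (PresentedGroup.of none)).1 = h ∧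
    ∀ i : Fin n, (e (PresentedGroup.of (some i))).1 = c i

end Pool.Agent.Work.MP_3d425c_gt.Sp
end

-- merged part: Pool.Agent.Work.MP_3d425c_gt.Jt.Defs
section
/-! A decomposition along tori into simple and Seifert pieces, read on the fundamental group. -/

namespace Pool.Agent.Work.MP_3d425c_gt.Jt
open MulAction Subgroup

variable (G : Type) [Group G] {V : Type} [MulAction G V] (T : SimpleGraph V)

/-- A simple piece: a nontrivial element of the vertex group fixes exactly one edge at `v`, or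
has cyclic centraliser in the vertex group. -/
def Sim (v : V) : Prop := ∀ a : G, a ≠ 1 → a • v = v →
  (∃! w, T.Adj v w ∧ a • w = w) ∨ IsCyclic ↥(centralizer {a} ⊓ stabilizer G v)

/-- The vertex group is the group of a Seifert manifold with fibre `h` over a sphere or a
projective plane with holes; the boundary curves `c i` (`α i = 0`, not the cross cap) correspond
to the orbits of edges at `v`, with edge groups generated by `h` and `c i`. -/
def Sei (v : V) : Prop :=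
  ∃ (h : G) (n : ℕ) (c : ℕ → G) (tw : Bool) (α : ℕ → ℕ) (β : ℕ → ℤ) (w : ℕ → V),
    Sp.Pres (stabilizer G v) h n c tw α β ∧ 0 < n ∧ α n = 0 ∧ (tw → α 0 = 0) ∧
    (if tw then c 0 else 1) * ((List.range (n + 1)).map c).prod = 1 ∧
    (∀ i ≤ n, α i = 0 → ¬ (tw ∧ i = 0) →
      T.Adj v (w i) ∧ stabilizer G v ⊓ stabilizer G (w i) = closure {h, c i}) ∧
    ∀ u, T.Adj v u → ∃! i, i ≤ n ∧ α i = 0 ∧ ¬ (tw ∧ i = 0) ∧ ∃ g : G, g • v = v ∧ g • w i = u

/-- An action on a tree without inversion, with edge groups `ℤ²` that are proper in the vertex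
groups, simple or Seifert vertex groups, and fibres that do not match across an edge. -/
structure Jsj : Prop where
  tree : T.IsTree
  act : ∀ (g : G) u v, T.Adj u v → T.Adj (g • u) (g • v)
  ninv : ∀ (g : G) u v, T.Adj u v → g • u = v → g • v ≠ u
  edge : ∀ u v, T.Adj u v →
    Nonempty (↥(stabilizer G u ⊓ stabilizer G v) ≃* Multiplicative (ℤ × ℤ))
  red : ∀ u v, T.Adj u v → ∃ g : G, g • u = u ∧ g • v ≠ v
  min : ∀ u v, T.Adj u v → ∀ a : G, a • u = u → a • v = v →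
    (∀ g : G, g • u = u ∨ g • v = v → g * a * g⁻¹ ∈ zpowers a) → a = 1
  vert : ∀ v, Sim G T v ∨ Sei G T v

/-- `G` is finite, or has a nontrivial normal cyclic subgroup (Seifert case), or has a
decomposition along tori. -/
def Geo : Prop := Finite G ∨ (∃ h : G, h ≠ 1 ∧ (zpowers h).Normal) ∨
  ∃ (V : Type) (_ : MulAction G V) (T : SimpleGraph V), Jsj G T

end Pool.Agent.Work.MP_3d425c_gt.Jt
end

-- merged part: Pool.Agent.Work.MP_3d425c_gt.Rv.Defs
section
/-! A decomposition along tori into atoroidal and Seifert pieces, read on the fundamental group. -/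

namespace Pool.Agent.Work.MP_3d425c_gt.Rv
open MulAction Subgroup

variable (G : Type) [Group G] {V : Type} [MulAction G V] (T : SimpleGraph V)

/-- A simple piece: a nontrivial element of the vertex group fixes at most one edge at `v`, and
every subgroup `ℤ²` of the vertex group fixes an edge at `v`. -/
def Sim (v : V) : Prop :=
  (∀ a : G, a ≠ 1 → a • v = v → {w | T.Adj v w ∧ a • w = w}.Subsingleton) ∧
    ∀ f : Multiplicative (ℤ × ℤ) →* G, Function.Injective f → (∀ z, f z • v = v) →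
      ∃ w, T.Adj v w ∧ ∀ z, f z • w = w

/-- An action on a tree without inversion, with edge groups `ℤ²` that are proper in the vertex
groups, simple or Seifert vertex groups, and fibres that do not match across an edge. -/
structure Jsj : Prop where
  tree : T.IsTree
  act : ∀ (g : G) u v, T.Adj u v → T.Adj (g • u) (g • v)
  ninv : ∀ (g : G) u v, T.Adj u v → g • u = v → g • v ≠ u
  edge : ∀ u v, T.Adj u v →
    Nonempty (↥(stabilizer G u ⊓ stabilizer G v) ≃* Multiplicative (ℤ × ℤ))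
  red : ∀ u v, T.Adj u v → ∃ g : G, g • u = u ∧ g • v ≠ v
  min : ∀ u v, T.Adj u v → ∀ a : G, a • u = u → a • v = v →
    (∀ g : G, g • u = u ∨ g • v = v → g * a * g⁻¹ ∈ zpowers a) → a = 1
  vert : ∀ v, Sim G T v ∨ Jt.Sei G T v

/-- `G` has no subgroup `ℤ²` (atoroidal case), or has a nontrivial normal cyclic subgroup
(Seifert case), or has a decomposition along tori. -/
def Geo : Prop := (∀ f : Multiplicative (ℤ × ℤ) →* G, ¬ Function.Injective f) ∨
  (∃ h : G, h ≠ 1 ∧ (zpowers h).Normal) ∨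
  ∃ (V : Type) (_ : MulAction G V) (T : SimpleGraph V), Jsj G T

end Pool.Agent.Work.MP_3d425c_gt.Rv
end

-- merged part: Pool.Agent.Work.MP_3d425c_gt.Sv.Defs
section
/-! A decomposition along tori into atoroidal pieces and pieces with a fibre. -/

namespace Pool.Agent.Work.MP_3d425c_gt.Sv
open MulAction Subgroup

variable (G : Type) [Group G] {V : Type} [MulAction G V] (T : SimpleGraph V)

/-- A piece with a fibre: a nontrivial element fixes `v` and all edges at `v`, and its cyclic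
group is normalised by the vertex group. -/
def Sei (v : V) : Prop :=
  ∃ h : G, h ≠ 1 ∧ h • v = v ∧ (∀ w, T.Adj v w → h • w = w) ∧
    ∀ g : G, g • v = v → g * h * g⁻¹ ∈ zpowers h

/-- An action on a tree without inversion, with edge groups `ℤ²` that are proper in the vertex
groups, simple or fibred vertex groups, and fibres that do not match across an edge. -/
structure Jsj : Prop where
  tree : T.IsTree
  act : ∀ (g : G) u v, T.Adj u v → T.Adj (g • u) (g • v)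
  ninv : ∀ (g : G) u v, T.Adj u v → g • u = v → g • v ≠ u
  edge : ∀ u v, T.Adj u v →
    Nonempty (↥(stabilizer G u ⊓ stabilizer G v) ≃* Multiplicative (ℤ × ℤ))
  red : ∀ u v, T.Adj u v → ∃ g : G, g • u = u ∧ g • v ≠ v
  min : ∀ u v, T.Adj u v → ∀ a : G, a • u = u → a • v = v →
    (∀ g : G, g • u = u ∨ g • v = v → g * a * g⁻¹ ∈ zpowers a) → a = 1
  vert : ∀ v, Rv.Sim G T v ∨ Sei G T v

/-- `G` has no subgroup `ℤ²`, or has a nontrivial normal cyclic subgroup, or has a decomposition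
along tori. -/
def Geo : Prop := (∀ f : Multiplicative (ℤ × ℤ) →* G, ¬ Function.Injective f) ∨
  (∃ h : G, h ≠ 1 ∧ (zpowers h).Normal) ∨
  ∃ (V : Type) (_ : MulAction G V) (T : SimpleGraph V), Jsj G T

end Pool.Agent.Work.MP_3d425c_gt.Sv
end

-- merged part: Pool.Agent.Work.MP_3d425c_gt.Cw.Defs
section
/-! Canonical walls: definitions. -/

namespace Pool.Agent.Work.MP_3d425c_gt.Cw
open Set MulAction Pool.Agent.Work.MP_3d425c_gt.Md Pool.Agent.Work.MP_3d425c_gt.Bg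
  Pool.Agent.Work.MP_3d425c_gt.Jw
open scoped Pointwise

section
variable {G X : Type} [Group G] [MulAction G X]

/-- invariant under `P` -/
def Inv (P : Subgroup G) (A : Set X) : Prop := ∀ p ∈ P, ∀ x, p • x ∈ A ↔ x ∈ A

/-- the number of orbits of `P` in `S` -/
noncomputable def ar (P : Subgroup G) (S : Set X) : ℕ := {q : Ob P X | q.out ∈ S}.ncard

/-- equal up to a set that is finite modulo `P` -/
def Near (P : Subgroup G) (A B : Set X) : Prop := SmP P {x | ¬ (x ∈ A ↔ x ∈ B)}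

/-- the translates of `D` -/
def sat (P : Subgroup G) (D : Set X) : Set X := {x | ∃ p ∈ P, p • x ∈ D}

/-- a basis of a free abelian group of rank two -/
def Z2 (a b : G) : Prop := Commute a b ∧ ∀ m n : ℤ, a ^ m * b ^ n = 1 → m = 0 ∧ n = 0

/-- the group generated by two elements -/
abbrev pp (a b : G) : Subgroup G := Subgroup.closure {a, b}

end

variable {G X0 X1 X2 X3 : Type} [Group G] [MulAction G X0] [MulAction G X1] [MulAction G X2]
  [MulAction G X3] (T : Tri G X0 X1 X2 X3)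

/-- least area in its class -/
structure Mn (P : Subgroup G) (A : Set X0) : Prop where
  inv : Inv P A
  fin : SmP P (cut T A)
  min : ∀ B, Inv P B → Near P A B → ar P (cut T A) ≤ ar P (cut T B)

/-- the least set of least area in its class -/
structure Lst (P : Subgroup G) (A : Set X0) : Prop where
  mn : Mn T P A
  le : ∀ B, Mn T P B → Near P A B → A ⊆ B

/-- a canonical wall -/
def Can (A : Set X0) : Prop := ∃ a b : G, Z2 a b ∧ IsWall T a b A ∧ Lst T (pp a b) A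

/-- a wall that is moved into itself by an element that normalises its group -/
def Line : Prop := ∃ (a b g : G) (A : Set X0), Z2 a b ∧ IsWall T a b A ∧ Mn T (pp a b) A ∧
  (∀ p, g * p * g⁻¹ ∈ pp a b ↔ p ∈ pp a b) ∧ g • A ⊂ A

open Classical in
/-- the canonical wall on the other side -/
noncomputable def st (A : Set X0) : Set X0 :=
  if h : ∃ B, Can T B ∧ Near (stabilizer G A) B Aᶜ then h.choose else Aᶜ

/-- nested walls -/
def Nst (A B : Set X0) : Prop := A ⊆ B ∨ A ⊆ st T B ∨ st T A ⊆ B ∨ B ⊆ A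

/-- a canonical wall that is nested with all canonical walls -/
def Unc (A : Set X0) : Prop := Can T A ∧ ∀ B, Can T B → Nst T A B

/-- the standing hypotheses -/
structure Std : Prop where
  mfd : Mfd T
  tf : ∀ a : G, a ≠ 1 → ¬ IsOfFinOrder a
  nh : NoHom G
  nl : ¬ Line T

end Pool.Agent.Work.MP_3d425c_gt.Cw
end

-- merged part: Pool.Agent.Work.MP_3d425c_gt.Cw.Tot
section
/-! Sums over orbits. -/

namespace Pool.Agent.Work.MP_3d425c_gt.Cw
open Set MulAction Function Pool.Agent.Work.MP_3d425c_gt.Md Pool.Agent.Work.MP_3d425c_gt.Bg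
  Pool.Agent.Work.MP_3d425c_gt.Jw Pool.Agent.Work.MP_3d425c_gt.Bq

variable {G X : Type} [Group G] [MulAction G X] {P I : Subgroup G}

/-- the sum over the orbits -/
noncomputable def tot (P : Subgroup G) (h : X → ℝ) : ℝ := ∑ᶠ q : Ob P X, h q.out

open Classical in
/-- the indicator -/
noncomputable def ch {Y : Type} (S : Set Y) (y : Y) : ℝ := if y ∈ S then 1 else 0

theorem ch_of {Y : Type} {S : Set Y} {y : Y} (h : y ∈ S) : ch S y = 1 := if_pos h
theorem ch_of_not {Y : Type} {S : Set Y} {y : Y} (h : y ∉ S) : ch S y = 0 := if_neg h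
theorem ch_sup {Y : Type} {S : Set Y} : support (ch S) ⊆ S := fun _ h =>
  by_contra fun n => h (ch_of_not n)

theorem fs_ch {Y : Type} {S : Set Y} (h : S.Finite) : ∑ᶠ y, ch S y = S.ncard := by
  rw [finsum_eq_sum_of_support_subset_of_finite _ ch_sup h, ncard_eq_toFinset_card S h,
    Finset.sum_congr rfl fun y hy => ch_of (h.mem_toFinset.1 hy)]
  simp

theorem fin_q {S : Set X} (h : SmP P S) : {q : Ob P X | q.out ∈ S}.Finite := by
  obtain ⟨K, hK, k⟩ := h
  refine (hK.image (ob P)).subset fun q hq => ?_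
  obtain ⟨y, hy, p, hp, e⟩ := k _ hq
  exact ⟨y, hy, by rw [← ob_out q, e]; exact (ob_smul (⟨p, hp⟩ : P) y).symm⟩

theorem fin_f {f : X → ℝ} (h : SmP P (support f)) :
    HasFiniteSupport fun q : Ob P X => f q.out := fin_q h

theorem tot_ch {S : Set X} (h : SmP P S) : tot P (ch S) = ar P S := fs_ch (fin_q h)

theorem tot_le {f g : X → ℝ} (hf : SmP P (support f)) (hg : SmP P (support g))
    (h : ∀ x, f x ≤ g x) : tot P f ≤ tot P g :=
  finsum_le_finsum' (fin_f hf) (fin_f hg) fun _ => h _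

theorem tot_add {f g : X → ℝ} (hf : SmP P (support f)) (hg : SmP P (support g)) :
    tot P (fun x => f x + g x) = tot P f + tot P g := finsum_add_distrib (fin_f hf) (fin_f hg)

theorem tot_sub {f g : X → ℝ} (hf : SmP P (support f)) (hg : SmP P (support g)) :
    tot P (fun x => f x - g x) = tot P f - tot P g := finsum_sub_distrib (fin_f hf) (fin_f hg)

theorem tot_mul (f : X → ℝ) (c : ℝ) : tot P (fun x => c * f x) = c * tot P f :=
  (mul_finsum _ c).symm

theorem tot_sum {s : Finset ℕ} {f : ℕ → X → ℝ} (hf : ∀ j ∈ s, SmP P (support (f j))) :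
    tot P (fun x => ∑ j ∈ s, f j x) = ∑ j ∈ s, tot P (f j) :=
  finsum_sum_comm s (fun (q : Ob P X) j => f j q.out) fun j hj => fin_f (hf j hj)

theorem sm_ch {S : Set X} (h : SmP P S) : SmP P (support (ch S)) := h.mono ch_sup

theorem sm_add {f g : X → ℝ} (hf : SmP P (support f)) (hg : SmP P (support g)) :
    SmP P (support fun x => f x + g x) := (hf.union hg).mono (support_add f g)

theorem ar_add {S S' U U' : Set X} (h : SmP P S) (h' : SmP P S') (k : SmP P U) (k' : SmP P U')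
    (e : ∀ x, ch S x + ch S' x ≤ ch U x + ch U' x) : ar P S + ar P S' ≤ ar P U + ar P U' := by
  have := tot_le (sm_add (sm_ch h) (sm_ch h')) (sm_add (sm_ch k) (sm_ch k')) e
  rw [tot_add (sm_ch h) (sm_ch h'), tot_add (sm_ch k) (sm_ch k'), tot_ch h, tot_ch h', tot_ch k,
    tot_ch k'] at this
  exact_mod_cast this

theorem sm_sub (le : I ≤ P) {S : Set X} (h : SmP I S) : SmP (I.subgroupOf P) S :=
  let ⟨K, hK, k⟩ := h
  ⟨K, hK, fun x hx => let ⟨y, hy, p, hp, e⟩ := k x hx; ⟨y, hy, ⟨p, le hp⟩, hp, e⟩⟩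

theorem unfold (fr : ∀ (g : G) (x : X), g • x = x → g = 1) (le : I ≤ P) {h : X → ℝ}
    (hi : ∀ p ∈ I, ∀ x, h (p • x) = h x) (hs : SmP I (support h)) :
    tot P (sm0 (I.subgroupOf P) h) = tot I h := by
  let Φ : Ob P X × (P ⧸ I.subgroupOf P) → Ob I X := fun r => ob I (r.2.out⁻¹ • r.1.out)
  have bij : Bijective Φ := by
    constructor
    · rintro ⟨q, c⟩ ⟨q', c'⟩ e
      obtain ⟨i, hi⟩ := ob_eq_iff.1 e
      have hi' : (⟨i, le i.2⟩ : P) • c'.out⁻¹ • q'.out = c.out⁻¹ • q.out := hi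
      have e1 : q = q' := by
        rw [← ob_out q, ← ob_out q', ← ob_smul c.out⁻¹, ← hi', ob_smul, ob_smul]
      subst e1
      have e2 : ((c.out * (⟨i, le i.2⟩ : P) * c'.out⁻¹ : P) : G) = 1 := fr _ q.out (by
        show (c.out * (⟨i, le i.2⟩ : P) * c'.out⁻¹) • q.out = q.out
        rw [mul_smul, mul_smul, hi', smul_inv_smul])
      have e3 : c.out * (⟨i, le i.2⟩ : P) = c'.out := mul_inv_eq_one.1 (Subtype.ext e2)
      refine Prod.ext rfl ?_
      show c = c'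
      rw [← QuotientGroup.out_eq' c, ← QuotientGroup.out_eq' c', ← e3]
      exact (QuotientGroup.mk_mul_of_mem _ (show _ ∈ I.subgroupOf P from i.2)).symm
    · intro r
      obtain ⟨p, hp⟩ := ob_eq_iff.1 (ob_out (ob P r.out))
      obtain ⟨i, hi⟩ := QuotientGroup.mk_out_eq_mul (I.subgroupOf P) p
      refine ⟨(ob P r.out, QuotientGroup.mk p), ?_⟩
      show ob I ((Quotient.out (QuotientGroup.mk p : P ⧸ I.subgroupOf P))⁻¹ • _) = r
      rw [hi, ← hp, mul_inv_rev, mul_smul, inv_smul_smul]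
      exact (ob_smul (⟨_, I.inv_mem i.2⟩ : I) r.out).trans (ob_out r)
  have ev : ∀ r, h (r.2.out⁻¹ • r.1.out) = h (Φ r).out := fun r => by
    obtain ⟨i, e⟩ := ob_eq_iff.1 (ob_out (Φ r))
    rw [← e]
    exact (hi i i.2 _).symm
  have fi : HasFiniteSupport fun r : Ob P X × (P ⧸ I.subgroupOf P) => h (r.2.out⁻¹ • r.1.out) := by
    refine ((fin_q hs).preimage bij.1.injOn).subset fun r hr => ?_
    show h (Φ r).out ≠ 0
    rw [← ev]
    exact hr
  exact (finsum_curry _ fi).symm.trans (finsum_eq_of_bijective Φ bij ev)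

theorem sm_sat {D : Set X} (h : SmP P D) : SmP P (sat P D) := by
  obtain ⟨K, hK, k⟩ := h
  refine ⟨K, hK, ?_⟩
  rintro x ⟨p, hp, hx⟩
  obtain ⟨y, hy, q, hq, e⟩ := k _ hx
  exact ⟨y, hy, p⁻¹ * q, mul_mem (inv_mem hp) hq, by rw [mul_smul, ← e, inv_smul_smul]⟩

theorem inv_sat (D : Set X) : Inv P (sat P D) := fun p hp x =>
  ⟨fun ⟨q, hq, h⟩ => ⟨q * p, mul_mem hq hp, by rwa [mul_smul]⟩,
    fun ⟨q, hq, h⟩ => ⟨q * p⁻¹, mul_mem hq (inv_mem hp), by rwa [mul_smul, inv_smul_smul]⟩⟩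

theorem sm_pull {Y : Type} [MulAction G Y] {S : Set X} (h : SmP P S) (d : Y → X)
    (he : ∀ (g : G) y, d (g • y) = g • d y) (hd : ∀ x, {y | d y = x}.Finite) :
    SmP P (d ⁻¹' S) := by
  obtain ⟨K, hK, k⟩ := h
  refine ⟨⋃ x ∈ K, {y | d y = x}, hK.biUnion fun x _ => hd x, fun y hy => ?_⟩
  obtain ⟨x, hx, p, hp, e⟩ := k _ hy
  exact ⟨p⁻¹ • y, mem_biUnion hx (by show d _ = _; rw [he, e, inv_smul_smul]), p, hp,
    (smul_inv_smul p y).symm⟩

theorem Near.symm {A B : Set X} (h : Near P A B) : Near P B A :=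
  SmP.mono h fun _ k e => k e.symm

theorem Near.trans {A B C : Set X} (h : Near P A B) (k : Near P B C) : Near P A C :=
  (SmP.union h k).mono fun x n => by
    by_contra c
    simp only [mem_union, mem_ofPred_eq, not_or, not_not] at c
    exact n (c.1.trans c.2)

theorem Near.refl (A : Set X) : Near P A A := SmP.empty.mono fun _ k => k Iff.rfl

theorem Near.compl {A B : Set X} (h : Near P A B) : Near P Aᶜ Bᶜ :=
  SmP.mono h fun _ k e => k (not_congr e)

theorem Near.le {Q : Subgroup G} {A B : Set X} (h : Near P A B) (l : P ≤ Q) : Near Q A B :=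
  SmP.le h l

theorem Near.sm {A B : Set X} (h : Near P A B) (k : SmP P B) : SmP P A :=
  (SmP.union h k).mono fun _ a => (em _).elim .inr fun n => .inl fun e => n (e.1 a)

theorem Inv.le {Q : Subgroup G} {A : Set X} (h : Inv Q A) (l : P ≤ Q) : Inv P A :=
  fun p hp => h p (l hp)

theorem Inv.compl {A : Set X} (h : Inv P A) : Inv P Aᶜ := fun p hp x => not_congr (h p hp x)

theorem Inv.inter {A B : Set X} (h : Inv P A) (k : Inv P B) : Inv P (A ∩ B) :=
  fun p hp x => and_congr (h p hp x) (k p hp x)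

theorem Inv.union {A B : Set X} (h : Inv P A) (k : Inv P B) : Inv P (A ∪ B) :=
  fun p hp x => or_congr (h p hp x) (k p hp x)

theorem mem_pp {a b : G} (c : Commute a b) (p : G) :
    p ∈ pp a b ↔ ∃ m n : ℤ, p = a ^ m * b ^ n := by
  refine ⟨fun hp => ?_, ?_⟩
  · induction hp using Subgroup.closure_induction with
    | mem x hx =>
      rcases hx with rfl | rfl
      exacts [⟨1, 0, by simp⟩, ⟨0, 1, by simp⟩]
    | one => exact ⟨0, 0, by simp⟩
    | mul x y _ _ hx hy =>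
      obtain ⟨i, j, rfl⟩ := hx
      obtain ⟨k, l, rfl⟩ := hy
      exact ⟨i + k, j + l, by
        rw [zpow_add, zpow_add, (c.symm.zpow_zpow j k).mul_mul_mul_comm]⟩
    | inv x _ hx =>
      obtain ⟨i, j, rfl⟩ := hx
      exact ⟨-i, -j, by rw [mul_inv_rev, ← zpow_neg, ← zpow_neg, (c.zpow_zpow (-i) (-j)).eq]⟩
  · rintro ⟨m, n, rfl⟩
    exact mul_mem (zpow_mem (Subgroup.subset_closure (by simp)) _)
      (zpow_mem (Subgroup.subset_closure (by simp)) _)

theorem sm2_iff {a b : G} (z : Z2 a b) {S : Set X} : Sm2 a b S ↔ SmP (pp a b) S := by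
  have m := mem_pp z.1
  exact ⟨fun ⟨K, h, k⟩ => ⟨K, h, fun x hx => let ⟨y, hy, i, j, e⟩ := k x hx
      ⟨y, hy, _, (m _).2 ⟨i, j, rfl⟩, e⟩⟩,
    fun ⟨K, h, k⟩ => ⟨K, h, fun x hx => let ⟨y, hy, p, hp, e⟩ := k x hx
      let ⟨i, j, e'⟩ := (m p).1 hp; ⟨y, hy, i, j, e' ▸ e⟩⟩⟩

end Pool.Agent.Work.MP_3d425c_gt.Cw
end

-- merged part: Pool.Agent.Work.MP_3d425c_gt.Cw.La
section
/-! Sets of least area stay of least area under small changes. -/

namespace Pool.Agent.Work.MP_3d425c_gt.Cw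
open Set MulAction Function Pool.Agent.Work.MP_3d425c_gt.Md Pool.Agent.Work.MP_3d425c_gt.Bg
  Pool.Agent.Work.MP_3d425c_gt.Jw Pool.Agent.Work.MP_3d425c_gt.Bq

variable {G X0 X1 X2 X3 : Type} [Group G] [MulAction G X0] [MulAction G X1] [MulAction G X2]
  [MulAction G X3] {T : Tri G X0 X1 X2 X3} {P Q I : Subgroup G} {A B D : Set X0}

theorem sm_end (hM : Mfd T) (h : SmP P D) : SmP P {e | T.d1 e 0 ∈ D ∨ T.d1 e 1 ∈ D} := by
  have := hM.fin1
  have p := fun i => sm_pull h (fun e => T.d1 e i) (fun g e => T.e1 g e i)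
    (fib_finite T.free (fun e => T.d1 e i) fun g e => T.e1 g e i)
  exact (p 0).union (p 1)

theorem sm_dif (hM : Mfd T) (n : Near P A B) : SmP P (cut T A \ cut T B) :=
  (sm_end hM n).mono fun e h => by
    have h1 : ¬ (_ ↔ _) := h.1
    have h2 : ¬ ¬ (_ ↔ _) := h.2
    simp only [mem_ofPred_eq]
    tauto

theorem sm_cut (hM : Mfd T) (h : SmP P (cut T A)) (n : Near P A B) : SmP P (cut T B) :=
  (h.union (sm_dif hM n.symm)).mono fun _ k => (em _).elim .inl fun c => .inr ⟨k, c⟩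

theorem cut_compl (A : Set X0) : cut T Aᶜ = cut T A := by
  ext e
  simp only [cut, mem_ofPred_eq, mem_compl_iff, not_iff_not]

theorem inv_cut (h : Inv P A) : Inv P (cut T A) := fun p hp e => by
  simp only [cut, mem_ofPred_eq, T.e1, h p hp]

theorem Mn.compl (h : Mn T P A) : Mn T P Aᶜ :=
  ⟨h.inv.compl, by rw [cut_compl]; exact h.fin, fun B hB n => by
    have := h.min Bᶜ hB.compl (by simpa only [compl_compl] using n.compl)
    rw [cut_compl] at this ⊢
    exact this⟩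

theorem lev (K a b : ℕ) (r : ℝ) (h1 : (a : ℝ) - b ≤ r) (h2 : (b : ℝ) - a ≤ r) :
    ∑ j ∈ Finset.range K, ch {j | ¬ (j < a ↔ j < b)} j ≤ r := by
  classical
  have e : ∑ j ∈ Finset.range K, ch {j | ¬ (j < a ↔ j < b)} j =
      ((Finset.range K).filter fun j => ¬ (j < a ↔ j < b)).card := by
    rw [Finset.card_filter]
    push_cast
    exact Finset.sum_congr rfl fun j _ => by unfold ch; congr
  have l : ((Finset.range K).filter fun j => ¬ (j < a ↔ j < b)).card ≤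
      (Finset.Ico (min a b) (max a b)).card := Finset.card_le_card fun j hj => by
    have := (Finset.mem_filter.1 hj).2
    rw [Finset.mem_Ico]
    omega
  rw [Nat.card_Ico] at l
  rw [e]
  refine le_trans (Nat.cast_le.2 l) ?_
  rcases le_total a b with k | k
  · rwa [min_eq_left k, max_eq_right k, Nat.cast_sub k]
  · rwa [min_eq_right k, max_eq_left k, Nat.cast_sub k]

theorem nc_le {Y : Type} {U V : Set Y} (hU : U.Finite) (hV : V.Finite) :
    (U.ncard : ℝ) - V.ncard ≤ {c | ¬ (c ∈ U ↔ c ∈ V)}.ncard := by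
  have f : {c | ¬ (c ∈ U ↔ c ∈ V)}.Finite := (hU.union hV).subset fun c k => by
    simp only [mem_ofPred_eq, mem_union] at k ⊢
    tauto
  have := (ncard_le_ncard (s := U) (t := V ∪ {c | ¬ (c ∈ U ↔ c ∈ V)})
    (fun c k => (em _).elim .inl fun n => .inr fun e => n (e.1 k)) (hV.union f)).trans
      (ncard_union_le _ _)
  rw [sub_le_iff_le_add']
  exact_mod_cast this

theorem core (hM : Mfd T) (h : Mn T P A) (le : I ≤ P) (hB : Inv I B) (n : Near I A B) :
    ∃ (K : ℕ) (L : ℕ → Set X0), (∀ j, Inv P (L j)) ∧ (∀ j ≤ K, Near P A (L j)) ∧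
      (B ⊆ A → L K = A \ sat P (A \ B)) ∧
      ∑ j ∈ Finset.range (K + 1), ar P (cut T (L j)) + ar I (cut T A \ cut T B) ≤
        (K + 1) * ar P (cut T A) + ar I (cut T B \ cut T A) := by
  classical
  obtain ⟨D, hD⟩ : ∃ D : Set X0, D = {x | ¬ (x ∈ A ↔ x ∈ B)} := ⟨_, rfl⟩
  have nD : SmP I D := hD ▸ n
  have iD : Inv I D := fun p hp x => by
    simp only [hD, mem_ofPred_eq, h.inv p (le hp), hB p hp]
  obtain ⟨C, hC⟩ : ∃ C : X0 → Set (P ⧸ I.subgroupOf P), ∀ x, C x = {c | c.out⁻¹ • x ∈ D} :=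
    ⟨_, fun _ => rfl⟩
  have fC : ∀ x, (C x).Finite := fun x =>
    hC x ▸ (sm_sub le nD).fin (fun g x e => Subtype.ext (T.free g x e)) x
  have eC : ∀ x, ((C x).ncard : ℝ) = sm0 (I.subgroupOf P) (ch D) x := fun x => by
    rw [← fs_ch (fC x), hC]
    rfl
  have iC : ∀ p ∈ P, ∀ x, (C (p • x)).ncard = (C x).ncard := fun p hp x => by
    refine Nat.cast_injective (R := ℝ) ?_
    rw [eC, eC]
    refine sm0_smul (fun q hq g => ?_) (⟨p, hp⟩ : P)
    unfold ch
    exact if_congr (iD q hq _) rfl rfl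
  have zC : ∀ x, x ∉ sat P D → (C x).ncard = 0 := fun x hx => by
    rw [ncard_eq_zero (fC x), hC]
    exact eq_empty_of_forall_notMem fun c hc => hx ⟨_, (c.out⁻¹).2, hc⟩
  have pC : ∀ x, x ∈ sat P D → 0 < (C x).ncard := by
    rintro x ⟨p, hp, hx⟩
    rw [← iC p hp, ncard_pos (fC _), hC]
    obtain ⟨i, hi⟩ := QuotientGroup.mk_out_eq_mul (I.subgroupOf P) (1 : P)
    refine ⟨QuotientGroup.mk 1, ?_⟩
    show (Quotient.out (QuotientGroup.mk 1 : P ⧸ I.subgroupOf P))⁻¹ • p • x ∈ D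
    rw [hi, one_mul]
    exact (iD _ (I.inv_mem i.2) _).2 hx
  have sD := sm_sat (nD.le le)
  obtain ⟨M, hMb⟩ : ∃ M : ℕ, ∀ x, (C x).ncard ≤ M := by
    obtain ⟨K, hK, k⟩ := sD
    obtain ⟨M, m⟩ := (hK.image fun x => (C x).ncard).bddAbove
    refine ⟨M, fun x => ?_⟩
    by_cases c : x ∈ sat P D
    · obtain ⟨y, hy, p, hp, rfl⟩ := k x c
      rw [iC p hp]
      exact m ⟨y, hy, rfl⟩
    · rw [zC x c]
      exact M.zero_le
  obtain ⟨F, hF⟩ : ∃ F : X0 → ℕ, ∀ x,
      F x = if x ∈ A then 2 * M + 1 - (C x).ncard else (C x).ncard := ⟨_, fun _ => rfl⟩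
  have F1 : ∀ x ∈ A, (F x : ℝ) = 2 * M + 1 - (C x).ncard := fun x hx => by
    rw [hF, if_pos hx, Nat.cast_sub (by have := hMb x; omega)]
    push_cast
    rfl
  have F0 : ∀ x, x ∉ A → (F x : ℝ) = (C x).ncard := fun x hx => by rw [hF, if_neg hx]
  have nL : ∀ j ≤ 2 * M, Near P A {x | j < F x} := fun j hj => sD.mono fun x k => by
    by_contra c
    refine k ?_
    rw [mem_ofPred_eq, hF, zC x c]
    by_cases a : x ∈ A
    · simp only [a, if_true, true_iff]
      omega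
    · simp [a]
  refine ⟨2 * M, fun j => {x | j < F x}, fun j p hp x => ?_, nL, fun s => ?_, ?_⟩
  · simp only [mem_ofPred_eq, hF, iC p hp, h.inv p hp]
  · have e : A \ B = D := by
      ext x
      have := @s x
      simp only [hD, mem_sdiff, mem_ofPred_eq]
      tauto
    ext x
    rw [e, mem_ofPred_eq, hF, mem_sdiff]
    have := hMb x
    by_cases a : x ∈ A
    · simp only [a, if_true, true_and]
      exact ⟨fun k c => by have := pC x c; omega, fun k => by have := zC x k; omega⟩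
    · simp only [a, if_false, false_and, iff_false]
      omega
  obtain ⟨g, hg⟩ : ∃ g : X1 → ℝ, g = fun e => ch (cut T B \ cut T A) e - ch (cut T A \ cut T B) e :=
    ⟨_, rfl⟩
  have s1 := sm_dif hM n
  have s2 := sm_dif hM n.symm
  have gs : SmP I (support g) := ((sm_ch s2).union (sm_ch s1)).mono (hg ▸ support_sub _ _)
  have gi : ∀ p ∈ I, ∀ e, g (p • e) = g e := fun p hp e => by
    simp only [hg, ch, mem_sdiff, inv_cut (T := T) h.inv p (le hp), inv_cut (T := T) hB p hp]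
  have Hs : SmP P (support (sm0 (I.subgroupOf P) g)) := (sm_sat (gs.le le)).mono fun e k =>
    let ⟨p, hp⟩ := sm0_ne k; ⟨p, p.2, hp⟩
  have sL : ∀ j ∈ Finset.range (2 * M + 1), SmP P (cut T {x | j < F x}) := fun j hj =>
    sm_cut hM h.fin (nL j (by have := Finset.mem_range.1 hj; omega))
  have key : ∀ e, ∑ j ∈ Finset.range (2 * M + 1), ch (cut T {x | j < F x}) e ≤
      (2 * M + 1) * ch (cut T A) e + sm0 (I.subgroupOf P) g e := fun e => by
    have fS : {c | ¬ (c ∈ C (T.d1 e 0) ↔ c ∈ C (T.d1 e 1))}.Finite :=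
      ((fC _).union (fC _)).subset fun c k => by
        simp only [mem_ofPred_eq, mem_union] at k ⊢
        tauto
    have ge : ∀ c : P ⧸ I.subgroupOf P, g (c.out⁻¹ • e) = (1 - 2 * ch (cut T A) e) *
        ch {c | ¬ (c ∈ C (T.d1 e 0) ↔ c ∈ C (T.d1 e 1))} c := fun c => by
      simp only [hg, ch, hC, hD, cut, mem_sdiff, mem_ofPred_eq, Subgroup.smul_def]
      obtain ⟨p, hp⟩ := c.out⁻¹
      simp only [T.e1, h.inv p hp]
      by_cases x0 : T.d1 e 0 ∈ A <;> by_cases x1 : T.d1 e 1 ∈ A <;>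
        by_cases y0 : p • T.d1 e 0 ∈ B <;>
        by_cases y1 : p • T.d1 e 1 ∈ B <;> simp [x0, x1, y0, y1] <;> norm_num
    have He : sm0 (I.subgroupOf P) g e = (1 - 2 * ch (cut T A) e) *
        {c | ¬ (c ∈ C (T.d1 e 0) ↔ c ∈ C (T.d1 e 1))}.ncard := by
      rw [← fs_ch fS, mul_finsum]
      exact finsum_congr ge
    have l1 := nc_le (fC (T.d1 e 0)) (fC (T.d1 e 1))
    have l2 := nc_le (fC (T.d1 e 1)) (fC (T.d1 e 0))
    simp only [iff_comm (a := _ ∈ C (T.d1 e 1))] at l2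
    have l3 : ({c | ¬ (c ∈ C (T.d1 e 0) ↔ c ∈ C (T.d1 e 1))}.ncard : ℝ) ≤
        (C (T.d1 e 0)).ncard + (C (T.d1 e 1)).ncard := by
      have := (ncard_le_ncard (s := {c | ¬ (c ∈ C (T.d1 e 0) ↔ c ∈ C (T.d1 e 1))})
        (fun c k => by
          simp only [mem_ofPred_eq, mem_union] at k ⊢
          tauto) ((fC _).union (fC _))).trans (ncard_union_le _ _)
      exact_mod_cast this
    have b0 : ((C (T.d1 e 0)).ncard : ℝ) ≤ M := Nat.cast_le.2 (hMb _)
    have b1 : ((C (T.d1 e 1)).ncard : ℝ) ≤ M := Nat.cast_le.2 (hMb _)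
    rw [He]
    refine lev _ (F (T.d1 e 0)) (F (T.d1 e 1)) _ ?_ ?_ <;>
      by_cases x0 : T.d1 e 0 ∈ A <;> by_cases x1 : T.d1 e 1 ∈ A <;>
      simp only [F1, F0, ch, cut, mem_ofPred_eq, x0, x1, not_false_eq_true, iff_self, not_true,
        if_true, if_false, iff_false, false_iff, not_not, iff_true, true_iff] <;> linarith
  have := tot_le (P := P) ?_ (sm_add ((sm_ch h.fin).mono (support_mul_subset_right _ _)) Hs) key
  · rw [tot_sum fun j hj => sm_ch (sL j hj), Finset.sum_congr rfl fun j hj => tot_ch (sL j hj),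
      tot_add ((sm_ch h.fin).mono (support_mul_subset_right _ _)) Hs, tot_mul, tot_ch h.fin,
      unfold T.free1 le gi gs, hg, tot_sub (sm_ch s2) (sm_ch s1), tot_ch s1, tot_ch s2] at this
    have : (∑ j ∈ Finset.range (2 * M + 1), (ar P (cut T {x | j < F x}) : ℝ)) +
        ar I (cut T A \ cut T B) ≤ (2 * M + 1) * ar P (cut T A) + ar I (cut T B \ cut T A) := by
      linarith
    exact_mod_cast this
  · refine (h.fin.union (sm_end hM sD)).mono fun e k => ?_
    obtain ⟨j, hj, k⟩ := Finset.exists_ne_zero_of_sum_ne_zero k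
    by_contra c
    refine ch_sup k ?_
    simp only [mem_union, mem_ofPred_eq, not_or, cut, not_not] at c
    simp only [mem_ofPred_eq, hF, zC _ c.2.1, zC _ c.2.2, c.1]

theorem la (hM : Mfd T) (h : Mn T P A) (le : I ≤ P) (hB : Inv I B) (n : Near I A B) :
    ar I (cut T A \ cut T B) ≤ ar I (cut T B \ cut T A) := by
  obtain ⟨K, L, l1, l2, -, l4⟩ := core hM h le hB n
  have := Finset.card_nsmul_le_sum (Finset.range (K + 1)) (fun j => ar P (cut T (L j))) _
    fun j hj => h.min _ (l1 j) (l2 j (Nat.lt_succ_iff.1 (Finset.mem_range.1 hj)))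
  rw [Finset.card_range, smul_eq_mul] at this
  omega

theorem Mn.of_le (hM : Mfd T) (h : Mn T P A) (i : Inv P B) (n : Near P A B)
    (l : ar P (cut T B) ≤ ar P (cut T A)) : Mn T P B :=
  ⟨i, sm_cut hM h.fin n, fun C hC k => l.trans (h.min C hC (n.trans k))⟩

theorem la_eq (hM : Mfd T) (h : Mn T P A) (le : I ≤ P) (hB : Inv I B) (n : Near I A B)
    (s : B ⊆ A) (e : ar I (cut T B \ cut T A) ≤ ar I (cut T A \ cut T B)) :
    Mn T P (A \ sat P (A \ B)) := by
  obtain ⟨K, L, l1, l2, l3, l4⟩ := core hM h le hB n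
  have := Finset.card_nsmul_le_sum (Finset.range K) (fun j => ar P (cut T (L j))) _
    fun j hj => h.min _ (l1 j) (l2 j (Finset.mem_range.1 hj).le)
  rw [Finset.card_range, smul_eq_mul] at this
  rw [Finset.sum_range_succ, add_mul, one_mul] at l4
  exact l3 s ▸ h.of_le hM (l1 K) (l2 K le_rfl) (by omega)

theorem near_inter (n : SmP P (A \ B)) : Near P A (A ∩ B) :=
  n.mono fun _ k => by
    simp only [mem_ofPred_eq, mem_inter_iff, mem_sdiff] at k ⊢
    tauto

theorem near_union (n : SmP P (A \ B)) : Near P B (A ∪ B) :=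
  n.mono fun _ k => by
    simp only [mem_ofPred_eq, mem_union, mem_sdiff] at k ⊢
    tauto

theorem Near.dif (n : Near P A B) : SmP P (A \ B) := SmP.mono n fun _ k e => k.2 (e.1 k.1)

theorem Mn.inter (hM : Mfd T) (h : Mn T P A) (k : Mn T P B) (n : Near P A B) :
    Mn T P (A ∩ B) := by
  have n1 := near_inter n.dif
  have n2 := near_union n.dif
  have := ar_add (sm_cut hM h.fin n1) (sm_cut hM k.fin n2) h.fin k.fin fun e => by
    unfold ch
    by_cases x0 : T.d1 e 0 ∈ A <;> by_cases x1 : T.d1 e 1 ∈ A <;> by_cases y0 : T.d1 e 0 ∈ B <;>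
      by_cases y1 : T.d1 e 1 ∈ B <;> simp [cut, x0, x1, y0, y1]
  have := k.min _ (h.inv.union k.inv) n2
  exact h.of_le hM (h.inv.inter k.inv) n1 (by omega)

theorem exists_mn (hM : Mfd T) (h : Inv P A) (f : SmP P (cut T A)) :
    ∃ B, Mn T P B ∧ Near P A B := by
  obtain ⟨B, ⟨b1, b2⟩, b3⟩ := (measure fun B : Set X0 => ar P (cut T B)).wf.has_min
    {B | Inv P B ∧ Near P A B} ⟨A, h, .refl A⟩
  exact ⟨B, ⟨b1, sm_cut hM f b2, fun C c1 c2 => not_lt.1 (b3 C ⟨c1, b2.trans c2⟩)⟩, b2⟩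

theorem exch (hM : Mfd T) (h : Mn T P A) (k : Mn T Q B) (n : SmP (P ⊓ Q) (A \ B)) :
    Mn T P (A \ sat P (A \ B)) := by
  have ia := h.inv.le (inf_le_left : P ⊓ Q ≤ P)
  have ib := k.inv.le (inf_le_right : P ⊓ Q ≤ Q)
  have n1 := near_inter n
  have n2 := near_union n
  have l := la hM k inf_le_right (ia.union ib) n2
  have := ar_add (sm_dif hM n1.symm) (sm_dif hM n2.symm) (sm_dif hM n1) (sm_dif hM n2) fun e => by
    unfold ch
    by_cases x0 : T.d1 e 0 ∈ A <;> by_cases x1 : T.d1 e 1 ∈ A <;> by_cases y0 : T.d1 e 0 ∈ B <;>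
      by_cases y1 : T.d1 e 1 ∈ B <;> simp [cut, x0, x1, y0, y1]
  have := la_eq hM h inf_le_left (ia.inter ib) n1 inter_subset_left (by omega)
  rwa [diff_self_inter] at this

theorem mono (hM : Mfd T) (h : Lst T P A) (k : Mn T Q B) (n : SmP (P ⊓ Q) (A \ B)) : A ⊆ B := by
  have := h.le _ (exch hM h.mn k n) ((sm_sat (n.le inf_le_left)).mono fun x c => by
    simp only [mem_ofPred_eq, mem_sdiff] at c
    tauto)
  exact fun x hx => by_contra fun c => (this hx).2 ⟨1, one_mem _, by rw [one_smul]; exact ⟨hx, c⟩⟩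

end Pool.Agent.Work.MP_3d425c_gt.Cw
end

-- merged part: Pool.Agent.Work.MP_3d425c_gt.Cw.C34
section
/-! Minimal walls are connected; a class of walls has a least minimal member or a line. -/

namespace Pool.Agent.Work.MP_3d425c_gt.Cw
open Set MulAction Relation Pool.Agent.Work.MP_3d425c_gt.Md Pool.Agent.Work.MP_3d425c_gt.Bg
  Pool.Agent.Work.MP_3d425c_gt.Bq Pool.Agent.Work.MP_3d425c_gt.Jw
open scoped Pointwise

variable {G X0 X1 X2 X3 : Type} [Group G] [MulAction G X0] [MulAction G X1] [MulAction G X2]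
  [MulAction G X3] {T : Tri G X0 X1 X2 X3} {P Q I : Subgroup G} {A B D : Set X0} {a b : G}

/-- two edges of one triangle -/
def c3_tri (T : Tri G X0 X1 X2 X3) (e e' : X1) : Prop := ∃ f i j, T.d2 f i = e ∧ T.d2 f j = e'

/-- one step inside `S` -/
def c3_st (T : Tri G X0 X1 X2 X3) (S : Set X1) (e e' : X1) : Prop :=
  e ∈ S ∧ e' ∈ S ∧ c3_tri T e e'

/-- connected through triangles -/
def c3_Trk (T : Tri G X0 X1 X2 X3) (S : Set X1) : Prop :=
  ∀ e ∈ S, ∀ e' ∈ S, ReflTransGen (c3_st T S) e e'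

theorem c3_tri_smul (g : G) {e e' : X1} (h : c3_tri T e e') : c3_tri T (g • e) (g • e') := by
  obtain ⟨f, i, j, rfl, rfl⟩ := h
  exact ⟨g • f, i, j, T.e2 g f i, T.e2 g f j⟩

theorem c3_lift (g : G) {S S' : Set X1} (h : ∀ e ∈ S, g • e ∈ S') {e e' : X1}
    (k : ReflTransGen (c3_st T S) e e') : ReflTransGen (c3_st T S') (g • e) (g • e') := by
  induction k with
  | refl => exact .refl
  | tail _ s ih => exact ih.tail ⟨h _ s.1, h _ s.2.1, c3_tri_smul g s.2.2⟩

theorem c3_symm {S : Set X1} {e e' : X1} (k : ReflTransGen (c3_st T S) e e') :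
    ReflTransGen (c3_st T S) e' e := by
  induction k with
  | refl => exact .refl
  | tail _ s ih =>
    obtain ⟨h1, h2, f, i, j, h3, h4⟩ := s
    exact ih.head ⟨h2, h1, f, j, i, h4, h3⟩

theorem c3_cut_inv (h : Inv P A) : Inv P (cut T A) := fun p hp e => by
  simp only [cut, mem_ofPred_eq, T.e1, h p hp]

theorem c3_const (hM : Mfd T) (h : ∀ e, e ∉ cut T D) (x y : X0) : x ∈ D ↔ y ∈ D := by
  have := const_of hM (t := wi D) (fun e => wi_congr (not_not.1 (h e))) x y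
  by_cases h1 : x ∈ D <;> by_cases h2 : y ∈ D
  · exact iff_of_true h1 h2
  · rw [wi_pos h1, wi_neg h2] at this; exact absurd this one_ne_zero
  · rw [wi_neg h1, wi_pos h2] at this; exact absurd this.symm one_ne_zero
  · exact iff_of_false h1 h2

theorem c3_ne (hM : Mfd T) {x y : X0} (hx : x ∈ D) (hy : y ∉ D) : ∃ e, e ∈ cut T D := by
  by_contra n
  exact hy ((c3_const hM (fun e he => n ⟨e, he⟩) x y).1 hx)

section
variable {X : Type} [MulAction G X] {S S' : Set X}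

theorem c3_out (P : Subgroup G) (x : X) : ∃ p ∈ P, (ob P x).out = p • x := by
  obtain ⟨p, hp⟩ := ob_eq_iff.1 (ob_out (ob P x))
  exact ⟨p, p.2, hp.symm⟩

theorem c3_arfin (h : SmP P S) : {q : Ob P X | q.out ∈ S}.Finite := by
  obtain ⟨K, hK, h⟩ := h
  refine (hK.image (ob P)).subset fun q hq => ?_
  obtain ⟨k, hk, p, hp, e⟩ := h _ hq
  exact ⟨k, hk, ((ob_out q).symm.trans (ob_eq_iff.2 ⟨⟨p, hp⟩, e.symm⟩)).symm⟩

theorem c3_arlt (h : SmP P S) (i : Inv P S) (i' : Inv P S') (s : S' ⊆ S) {e : X} (he : e ∈ S)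
    (he' : e ∉ S') : ar P S' < ar P S := by
  obtain ⟨p, hp, k⟩ := c3_out P e
  refine ncard_lt_ncard ⟨fun q hq => s hq, fun n => he' ?_⟩ (c3_arfin h)
  have : (ob P e).out ∈ S' := n (show (ob P e).out ∈ S by rw [k]; exact (i p hp e).2 he)
  rw [k] at this
  exact (i' p hp e).1 this

theorem c3_sat_inv : Inv P (sat P S) := fun p hp x =>
  ⟨fun ⟨q, hq, h⟩ => ⟨q * p, mul_mem hq hp, by rwa [mul_smul]⟩,
    fun ⟨q, hq, h⟩ => ⟨q * p⁻¹, mul_mem hq (inv_mem hp), by rwa [mul_smul, inv_smul_smul]⟩⟩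

theorem c3_sat_sm (h : SmP P S) : SmP P (sat P S) := by
  obtain ⟨K, hK, h⟩ := h
  refine ⟨K, hK, ?_⟩
  rintro x ⟨p, hp, hx⟩
  obtain ⟨k, hk, q, hq, e⟩ := h _ hx
  exact ⟨k, hk, p⁻¹ * q, mul_mem (inv_mem hp) hq, by rw [mul_smul, ← e, inv_smul_smul]⟩

end

/-- a small union of components of a minimal set is empty -/
theorem c3_shrink (hM : Mfd T) (h : Mn T P A) {y : X0} (hy : y ∉ A) (s : SmP P D) (sub : D ⊆ A)
    (c : cut T D ⊆ cut T A) (x : X0) : x ∉ D := fun hx => by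
  have sa : sat P D ⊆ A := fun x ⟨p, hp, k⟩ => (h.inv p hp x).1 (sub k)
  have sc : cut T (sat P D) ⊆ cut T A := fun e he => by
    have key : ∀ i j : Fin 2, T.d1 e i ∈ sat P D → T.d1 e j ∉ sat P D →
        ∃ p ∈ P, T.d1 (p • e) i ∈ D ∧ T.d1 (p • e) j ∉ D := by
      rintro i j ⟨p, hp, k⟩ n
      exact ⟨p, hp, by rwa [T.e1], fun m => n ⟨p, hp, by rwa [T.e1] at m⟩⟩
    by_cases h0 : T.d1 e 0 ∈ sat P D
    · obtain ⟨p, hp, k1, k2⟩ := key 0 1 h0 fun m => he (iff_of_true h0 m)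
      exact (c3_cut_inv h.inv p hp e).1 (c fun m => k2 (m.1 k1))
    · have h1 : T.d1 e 1 ∈ sat P D := by_contra fun m => he (iff_of_false h0 m)
      obtain ⟨p, hp, k1, k2⟩ := key 1 0 h1 h0
      exact (c3_cut_inv h.inv p hp e).1 (c fun m => k2 (m.2 k1))
  have iB : Inv P (A \ sat P D) := fun p hp x => by
    rw [mem_sdiff, mem_sdiff, h.inv p hp, c3_sat_inv p hp]
  obtain ⟨e, he⟩ := c3_ne hM (D := sat P D) (x := x) ⟨1, one_mem _, by rwa [one_smul]⟩
    fun m => hy (sa m)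
  have m := h.min _ iB ((c3_sat_sm s).mono fun x hx => by_contra fun n =>
    hx ⟨fun k => ⟨k, n⟩, fun k => k.1⟩)
  refine absurd m (not_le.2 (c3_arlt h.fin (c3_cut_inv h.inv) (c3_cut_inv iB) (fun e' he' => ?_)
    (sc he) ?_))
  · by_cases k : e' ∈ cut T (sat P D)
    · exact sc k
    · have k' := not_not.1 k
      intro n
      exact he' (by rw [mem_sdiff, mem_sdiff, n, k'])
  · have k1 := sc he
    have k2 := @sa (T.d1 e 0)
    have k3 := @sa (T.d1 e 1)
    simp only [cut, mem_ofPred_eq, mem_sdiff] at he k1 ⊢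
    tauto

theorem c3_cut_compl : cut T Aᶜ = cut T A := by
  ext e
  simp only [cut, mem_ofPred_eq, mem_compl_iff, not_iff_not]

/-- a small set whose boundary lies in the boundary of a minimal set is empty -/
theorem c3_empty (hM : Mfd T) (h : Mn T P A) {x y : X0} (hx : x ∈ A) (hy : y ∉ A) (s : SmP P D)
    (c : cut T D ⊆ cut T A) (z : X0) : z ∉ D := fun hz => by
  by_cases k : z ∈ A
  · refine c3_shrink hM h hy (s.mono inter_subset_left) inter_subset_right (fun e he => ?_) z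
      ⟨hz, k⟩
    have := @c e
    simp only [cut, mem_ofPred_eq, mem_inter_iff] at he this ⊢
    tauto
  · refine c3_shrink hM h.compl (y := x) (not_not.2 hx) (s.mono inter_subset_left)
      inter_subset_right (fun e he => ?_) z ⟨hz, k⟩
    have := @c e
    simp only [cut, mem_ofPred_eq, mem_inter_iff, mem_compl_iff] at he this ⊢
    tauto

theorem c3_iso (z : Z2 a b) : Nonempty (pp a b ≃* Multiplicative (ℤ × ℤ)) := by
  let f : Multiplicative (ℤ × ℤ) →* G :=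
    { toFun := fun x => a ^ x.toAdd.1 * b ^ x.toAdd.2
      map_one' := by simp
      map_mul' := fun x y => by
        simp only [toAdd_mul, Prod.fst_add, Prod.snd_add, zpow_add]
        exact (z.1.zpow_zpow _ _).mul_mul_mul_comm _ _ }
  have inj : Function.Injective f := (injective_iff_map_eq_one f).2 fun x hx =>
    Multiplicative.toAdd.injective (Prod.ext (z.2 _ _ hx).1 (z.2 _ _ hx).2)
  have e : f.range = pp a b := by
    refine le_antisymm ?_ ((Subgroup.closure_le _).2 ?_)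
    · rintro _ ⟨x, rfl⟩
      exact mul_mem (zpow_mem (Subgroup.subset_closure (.inl rfl)) _)
        (zpow_mem (Subgroup.subset_closure (.inr rfl)) _)
    · rintro _ (rfl | rfl)
      · exact ⟨Multiplicative.ofAdd (1, 0), by simp [f]⟩
      · exact ⟨Multiplicative.ofAdd (0, 1), by simp [f]⟩
  exact ⟨((MonoidHom.ofInjective inj).trans (MulEquiv.subgroupCongr e)).symm⟩

/-- one end modulo a cyclic group -/
theorem c3_end (hM : Mfd T) (tf : ∀ a : G, a ≠ 1 → ¬ IsOfFinOrder a) (hc : IsCyclic I)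
    (i : Inv I B) (s : SmP I (cut T B)) : SmP I B ∨ SmP I Bᶜ := by
  obtain ⟨c, rfl⟩ := (Subgroup.isCyclic_iff_exists_zpowers_eq_top I).1 hc
  obtain ⟨u, hu, e⟩ := wang_tf hM tf c (z := wz T B) (wz_coc B)
    (wz_inv (i c (Subgroup.mem_zpowers c))) (smP_zpowers.1 (s.mono fun e he => wz_ne he))
  have hu' := smP_zpowers.2 hu
  have ct := const_of hM (t := fun x => wi B x - u x) fun x => by
    have := e x
    unfold wz at this
    linarith
  by_contra n
  rw [not_or] at n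
  have p : ∀ S : Set X0, ¬ SmP (Subgroup.zpowers c) S → ∃ x ∈ S, u x = 0 := fun S hS => by
    by_contra m
    exact hS (hu'.mono fun x hx q => m ⟨x, hx, q⟩)
  obtain ⟨x, hx, ex⟩ := p _ n.1
  obtain ⟨y, hy, ey⟩ := p _ n.2
  have := ct x y
  simp only [wi_pos hx, wi_neg hy, ex, ey] at this
  norm_num at this

theorem c3_l1 {a0 a1 b0 b1 : Prop} (k1 : ¬ (a0 ↔ a1) → ¬ (b0 ↔ b1))
    (k2 : ¬ (b0 ↔ b1) → ¬ (a0 ↔ a1)) : (a0 ↔ b0) ↔ (a1 ↔ b1) := by tauto

theorem c3_l2 {a0 a1 b0 b1 : Prop} (k : ¬ (a0 ↔ a1) ↔ ¬ (b0 ↔ b1)) :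
    (a0 ↔ b0) ↔ (a1 ↔ b1) := by tauto

theorem c3_l3 {a0 a1 b0 b1 : Prop} (k : (a0 ↔ b0) ↔ (a1 ↔ b1)) (k' : a0 ↔ a1) : b0 ↔ b1 := by
  tauto

theorem c3_l4 {a0 a1 b0 b1 : Prop} (k : ¬ (b0 ↔ b1) → ¬ (a0 ↔ a1))
    (h : ¬ (¬ (a0 ↔ b0) ↔ ¬ (a1 ↔ b1))) : ¬ (a0 ↔ a1) := by tauto

theorem c3_l5 {a0 a1 b0 b1 : Prop} (k : ¬ (b0 ↔ b1) → ¬ (a0 ↔ a1))
    (h : ¬ (¬ (a0 ↔ ¬ b0) ↔ ¬ (a1 ↔ ¬ b1))) : ¬ (a0 ↔ a1) := by tauto

theorem c3_l6 {a0 a1 b0 b1 : Prop} (k0 : ¬ ¬ (a0 ↔ b0)) (k1 : ¬ ¬ (a1 ↔ b1))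
    (h : ¬ (a0 ↔ a1)) : ¬ (b0 ↔ b1) := by tauto

theorem c3_l7 {a0 a1 b0 b1 : Prop} (k0 : ¬ ¬ (a0 ↔ ¬ b0)) (k1 : ¬ ¬ (a1 ↔ ¬ b1))
    (h : ¬ (a0 ↔ a1)) : ¬ (b0 ↔ b1) := by tauto

theorem c3_l8 {u v w : Prop} : ¬ (u ↔ w) ↔ ¬ (¬ (v ↔ w) ↔ ¬ (u ↔ v)) := by tauto

theorem c3_l9 {c0 c1 c2 a0 a1 a2 : Prop} (par : a1 ↔ ¬ (a2 ↔ a0)) (s0 : c0 → a0) (s1 : c1 → a1)
    (s2 : c2 → a2) (t0 : c0 ∨ c1 ∨ c2 → a0 → c0) (t1 : c0 ∨ c1 ∨ c2 → a1 → c1)
    (t2 : c0 ∨ c1 ∨ c2 → a2 → c2) : c1 ↔ ¬ (c2 ↔ c0) := by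
  by_cases h : c0 ∨ c1 ∨ c2
  · rw [show c0 ↔ a0 from ⟨s0, t0 h⟩, show c1 ↔ a1 from ⟨s1, t1 h⟩, show c2 ↔ a2 from ⟨s2, t2 h⟩]
    exact par
  · exact iff_of_false (fun k => h (.inr (.inl k))) (not_not.2
      (iff_of_false (fun k => h (.inr (.inr k))) fun k => h (.inl k)))

theorem c3_side (hM : Mfd T) {C : Set X1} (sub : C ⊆ cut T A)
    (cl : ∀ e ∈ C, ∀ e' ∈ cut T A, c3_tri T e e' → e' ∈ C) : ∃ B, cut T B = C := by
  classical
  obtain ⟨s, hs⟩ := hM.sc ℤˣ (fun e => if e ∈ C then -1 else 1) fun f => by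
    have t : ∀ i j, T.d2 f i ∈ C → T.d2 f j ∈ cut T A → T.d2 f j ∈ C := fun i j h k =>
      cl _ h _ k ⟨f, i, j, rfl, rfl⟩
    have par : T.d2 f 1 ∈ cut T A ↔ ¬ (T.d2 f 2 ∈ cut T A ↔ T.d2 f 0 ∈ cut T A) := by
      simp only [cut, mem_ofPred_eq, sa, sb, sc']
      exact c3_l8
    have t' : ∀ j, T.d2 f 0 ∈ C ∨ T.d2 f 1 ∈ C ∨ T.d2 f 2 ∈ C → T.d2 f j ∈ cut T A →
        T.d2 f j ∈ C := fun j h => h.elim (t 0 j) fun h => h.elim (t 1 j) (t 2 j)
    have k := c3_l9 par (@sub _) (@sub _) (@sub _) (t' 0) (t' 1) (t' 2)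
    by_cases h0 : T.d2 f 0 ∈ C <;> by_cases h2 : T.d2 f 2 ∈ C <;> simp [k, h0, h2]
  refine ⟨{x | s x = 1}, Set.ext fun e => ?_⟩
  have k := hs e
  have n : (-1 : ℤˣ) ≠ 1 := by decide
  simp only [cut, mem_ofPred_eq]
  rcases Int.units_eq_one_or (s (T.d1 e 0)) with h0 | h0 <;>
    rcases Int.units_eq_one_or (s (T.d1 e 1)) with h1 | h1 <;>
    by_cases h : e ∈ C <;> simp [h0, h1, h, n, n.symm] at k ⊢

theorem c3_vert {q : X0 → Prop} (f : X2)
    (h : ∀ k, q (T.d1 (T.d2 f k) 0) ↔ q (T.d1 (T.d2 f k) 1)) (i : Fin 3) :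
    q (T.d1 (T.d2 f i) 0) ↔ q (T.d1 (T.d2 f 0) 0) := by
  have h0 := h 0
  rw [sb] at h0
  match i with
  | 0 => rfl
  | 1 => rw [sc']
  | 2 => exact h0.symm

/-- the boundary of a minimal wall is connected -/
theorem c3_track (hM : Mfd T) (tf : ∀ a : G, a ≠ 1 → ¬ IsOfFinOrder a) (z : Z2 a b)
    (w : IsWall T a b A) (h : Mn T (pp a b) A) : c3_Trk T (cut T A) := by
  intro e0 h0
  obtain ⟨C, hC⟩ : ∃ C : Set X1, ∀ e, e ∈ C ↔ ReflTransGen (c3_st T (cut T A)) e0 e :=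
    ⟨{e | ReflTransGen (c3_st T (cut T A)) e0 e}, fun _ => Iff.rfl⟩
  have ic := c3_cut_inv (T := T) h.inv
  have sub : C ⊆ cut T A := fun e he => by
    have k := (hC e).1 he
    cases k with
    | refl => exact h0
    | tail _ s => exact s.2.1
  have cl : ∀ e ∈ C, ∀ e' ∈ cut T A, c3_tri T e e' → e' ∈ C := fun e he e' he' t =>
    (hC e').2 (((hC e).1 he).tail ⟨sub he, he', t⟩)
  have m0 : e0 ∈ C := (hC e0).2 .refl
  obtain ⟨B, hB⟩ := c3_side hM sub cl
  have lf : ∀ p ∈ pp a b, ∀ e ∈ C, ReflTransGen (c3_st T (cut T A)) (p • e0) (p • e) :=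
    fun p hp e he => c3_lift p (fun e he => (ic p hp e).2 he) ((hC e).1 he)
  have qC : ∀ e, ReflTransGen (c3_st T (cut T A)) e0 e →
      ((T.d1 e 0 ∈ A ↔ T.d1 e 0 ∈ B) ↔ (T.d1 e0 0 ∈ A ↔ T.d1 e0 0 ∈ B)) := fun e he => by
    induction he with
    | refl => rfl
    | tail r s ih =>
      obtain ⟨-, -, f, i, j, rfl, rfl⟩ := s
      have v := c3_vert (T := T) (q := fun x => x ∈ A ↔ x ∈ B) f fun k => by
        have k1 := fun m => cl _ ((hC _).2 r) (T.d2 f k) m ⟨f, i, k, rfl, rfl⟩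
        have k2 := @sub (T.d2 f k)
        rw [← hB] at k1 k2
        exact c3_l1 k1 k2
      exact ((v j).trans (v i).symm).trans ih
  let J : Subgroup G :=
    { carrier := {p | p ∈ pp a b ∧ p • e0 ∈ C}
      one_mem' := ⟨one_mem _, by rwa [one_smul]⟩
      mul_mem' := fun {p q} hp hq => ⟨mul_mem hp.1 hq.1, (hC _).2 (((hC _).1 hp.2).trans
        (by rw [mul_smul]; exact lf p hp.1 _ hq.2))⟩
      inv_mem' := fun {p} hp => ⟨inv_mem hp.1, (hC _).2 (c3_symm (by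
        have := lf p⁻¹ (inv_mem hp.1) _ hp.2
        rwa [inv_smul_smul] at this))⟩ }
  have le : J ≤ pp a b := fun _ hp => hp.1
  have mv : ∀ p ∈ J, ∀ e ∈ C, p • e ∈ C := fun p hp e he =>
    (hC _).2 (((hC _).1 hp.2).trans (lf p hp.1 e he))
  have iB : Inv J B := fun p hp x => by
    have k := c3_const hM (D := {x | p • x ∈ B ↔ x ∈ B}) (fun e he => by
      have k1 : p • e ∈ C ↔ e ∈ C :=
        ⟨fun m => by simpa using mv p⁻¹ (inv_mem hp) _ m, mv p hp e⟩
      rw [← hB] at k1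
      simp only [cut, mem_ofPred_eq, T.e1] at k1
      exact he (c3_l2 k1)) x (T.d1 e0 0)
    refine k.2 ?_
    have k1 := qC _ ((hC _).1 hp.2)
    have k2 := h.inv p hp.1 (T.d1 e0 0)
    rw [T.e1] at k1
    exact c3_l3 k1 k2
  have sC : SmP J C := by
    obtain ⟨K, hK, k⟩ := h.fin
    have : Nonempty X1 := ⟨e0⟩
    have ch : ∀ k : X1, (∃ e ∈ C, ∃ p ∈ pp a b, e = p • k) →
        ∃ e, e ∈ C ∧ ∃ p ∈ pp a b, e = p • k := fun _ h => h
    choose! c c1 c2 using ch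
    refine ⟨c '' K, hK.image _, fun e he => ?_⟩
    obtain ⟨k, hk, p, hp, ek⟩ := k e (sub he)
    obtain ⟨p', hp', ek'⟩ := c2 k ⟨e, he, p, hp, ek⟩
    have e1 : e = (p * p'⁻¹) • c k := by rw [ek', mul_smul, inv_smul_smul, ek]
    have hq := mul_mem hp (inv_mem hp')
    refine ⟨c k, ⟨k, hk, rfl⟩, p * p'⁻¹, ⟨hq, (hC _).2 (((hC e).1 he).trans (c3_symm ?_))⟩, e1⟩
    rw [e1]
    exact lf _ hq _ (c1 k ⟨e, he, p, hp, ek⟩)
  obtain ⟨x, hx⟩ : ∃ x, x ∈ A := by_contra fun n =>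
    w.big ⟨∅, finite_empty, fun x hx => (n ⟨x, hx⟩).elim⟩
  obtain ⟨y, hy⟩ : ∃ y, y ∉ A := by_contra fun n =>
    w.big' ⟨∅, finite_empty, fun x hx => (n ⟨x, hx⟩).elim⟩
  have em : ∀ D : Set X0, SmP J D → cut T D ⊆ cut T A → ∀ z, z ∉ D := fun D s c =>
    c3_empty hM h hx hy (s.le le) c
  have b0 : e0 ∈ cut T B := hB ▸ m0
  have nB : ¬ SmP J B := fun s => b0 (iff_of_false (em B s (hB ▸ sub) _) (em B s (hB ▸ sub) _))
  have nB' : ¬ SmP J Bᶜ := fun s => by
    have := em Bᶜ s (by rw [c3_cut_compl, hB]; exact sub)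
    exact b0 (iff_of_true (not_not.1 (this _)) (not_not.1 (this _)))
  have hc : ¬ IsCyclic J := fun hc => (c3_end hM tf hc iB (hB ▸ sC)).elim nB nB'
  obtain ⟨i⟩ := c3_iso z
  have fi := wl_rank le i hc
  obtain ⟨a', b', cm, ind, mem⟩ := d1_basis (pp a b) J le i hc
  have ma : a' ∈ J := (mem a').2 ⟨1, 0, by rw [zpow_one, zpow_zero, mul_one]⟩
  have mb : b' ∈ J := (mem b').2 ⟨0, 1, by rw [zpow_one, zpow_zero, one_mul]⟩
  have eJ : pp a' b' = J := by
    refine le_antisymm ((Subgroup.closure_le _).2 ?_) fun p hp => ?_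
    · rintro _ (rfl | rfl)
      · exact ma
      · exact mb
    · obtain ⟨m, n, rfl⟩ := (mem p).1 hp
      exact mul_mem (zpow_mem (Subgroup.subset_closure (.inl rfl)) _)
        (zpow_mem (Subgroup.subset_closure (.inr rfl)) _)
  have z' : Z2 a' b' := ⟨cm, ind⟩
  have s0 : ∀ S : Set X0, Sm2 a' b' S ↔ SmP J S := fun S => eJ ▸ sm2_iff z'
  have s1 : ∀ S : Set X1, Sm2 a' b' S ↔ SmP J S := fun S => eJ ▸ sm2_iff z'
  have wA : IsWall T a' b' A := ⟨h.inv a' (le ma), h.inv b' (le mb), (s1 _).2 (wl_fi h.fin fi),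
    fun s => w.big ((sm2_iff z).2 (((s0 _).1 s).le le)),
    fun s => w.big' ((sm2_iff z).2 (((s0 _).1 s).le le))⟩
  have wB : IsWall T a' b' B := ⟨iB a' ma, iB b' mb, (s1 _).2 (hB ▸ sC),
    fun s => nB ((s0 _).1 s), fun s => nB' ((s0 _).1 s)⟩
  intro e he
  rw [← hC, ← hB]
  rw [← hB] at sub
  rcases wall_uniq hM cm ind wA wB with s | s
  · have k := em _ ((s0 _).1 s) fun e he => c3_l4 (@sub e) he
    exact c3_l6 (k _) (k _) he
  · have k := em _ ((s0 _).1 s) fun e he => c3_l5 (@sub e) he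
    exact c3_l7 (k _) (k _) he

/-- edges within a number of triangles from `k` -/
def c3_ball (T : Tri G X0 X1 X2 X3) (k : X1) : ℕ → Set X1
  | 0 => {k}
  | j + 1 => c3_ball T k j ∪ {e' | ∃ e ∈ c3_ball T k j, c3_tri T e e'}

theorem c3_ball_fin (T : Tri G X0 X1 X2 X3) (k : X1) (j : ℕ) : (c3_ball T k j).Finite := by
  have := T.fin2
  induction j with
  | zero => exact finite_singleton k
  | succ j ih =>
    refine ih.union ((ih.biUnion (t := fun e => ⋃ i : Fin 3, ⋃ j : Fin 3,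
      (fun f => T.d2 f j) '' {f | T.d2 f i = e}) fun e _ => finite_iUnion fun i =>
        finite_iUnion fun j => (fib_finite T.free1 (fun f => T.d2 f i) (fun g f => T.e2 g f i)
          e).image _).subset ?_)
    rintro e' ⟨e, he, f, i, j, h1, h2⟩
    exact mem_biUnion he (mem_iUnion.2 ⟨i, mem_iUnion.2 ⟨j, f, h1, h2⟩⟩)

theorem c3_ball_self (k : X1) (j : ℕ) : k ∈ c3_ball T k j := by
  induction j with
  | zero => rfl
  | succ j ih => exact .inl ih

/-- covered by `n` orbits -/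
def c3_Cov (Q : Subgroup G) (S : Set X1) (n : ℕ) : Prop :=
  ∃ K : Set X1, K.Finite ∧ K.ncard ≤ n ∧ ∀ e ∈ S, ∃ k ∈ K, ∃ q ∈ Q, e = q • k

theorem c3_rad {S : Set X1} {n : ℕ} {k : X1} (i : Inv Q S) (tk : c3_Trk T S) (hk : k ∈ S)
    (c : c3_Cov Q S n) : ∀ e ∈ S, ∃ q ∈ Q, ∃ r ∈ S ∩ c3_ball T k n, e = q • r := by
  obtain ⟨K, hK, hn, c⟩ := c
  have sK : ∀ j, ob Q '' (S ∩ c3_ball T k j) ⊆ ob Q '' K := by
    rintro j _ ⟨e, he, rfl⟩
    obtain ⟨k, hk, q, hq, rfl⟩ := c e he.1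
    exact ⟨k, hk, (ob_smul (⟨q, hq⟩ : Q) k).symm⟩
  have key : ∀ j, (∀ e ∈ S, ∃ q ∈ Q, ∃ r ∈ S ∩ c3_ball T k j, e = q • r) ∨
      j + 1 ≤ (ob Q '' (S ∩ c3_ball T k j)).ncard := fun j => by
    induction j with
    | zero =>
      exact .inr ((ncard_pos ((hK.image _).subset (sK 0))).2 ⟨_, k, ⟨hk, rfl⟩, rfl⟩)
    | succ j ih =>
      rcases ih with ih | ih
      · refine .inl fun e he => ?_
        obtain ⟨q, hq, r, hr, e1⟩ := ih e he
        exact ⟨q, hq, r, ⟨hr.1, .inl hr.2⟩, e1⟩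
      by_cases m : ob Q '' (S ∩ c3_ball T k (j + 1)) ⊆ ob Q '' (S ∩ c3_ball T k j)
      · refine .inl fun e he => ?_
        have : ∃ q ∈ Q, ∃ r ∈ S ∩ c3_ball T k j, e = q • r := by
          have p := tk k hk e he
          clear he
          induction p with
          | refl => exact ⟨1, one_mem _, k, ⟨hk, c3_ball_self k j⟩, (one_smul _ _).symm⟩
          | @tail u v _ s ih =>
            obtain ⟨q, hq, r, hr, rfl⟩ := ih
            have t := c3_tri_smul q⁻¹ s.2.2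
            rw [inv_smul_smul] at t
            obtain ⟨r', hr', e1⟩ := m ⟨q⁻¹ • v, ⟨(i _ (inv_mem hq) v).2 s.2.1,
              .inr ⟨r, hr.2, t⟩⟩, rfl⟩
            obtain ⟨q', e2⟩ := ob_eq_iff.1 e1.symm
            exact ⟨q * q', mul_mem hq q'.2, r', hr', by
              rw [mul_smul, show (q' : G) • r' = q⁻¹ • v from e2, smul_inv_smul]⟩
        obtain ⟨q, hq, r, hr, e1⟩ := this
        exact ⟨q, hq, r, ⟨hr.1, .inl hr.2⟩, e1⟩
      · have u : S ∩ c3_ball T k j ⊆ S ∩ c3_ball T k (j + 1) := fun e he => ⟨he.1, .inl he.2⟩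
        exact .inr (Nat.succ_le_of_lt (ih.trans_lt (ncard_lt_ncard
          ⟨image_mono u, m⟩ ((hK.image _).subset (sK _)))))
  refine (key n).resolve_right (not_le.2 (Nat.lt_succ_of_le ?_))
  exact (ncard_le_ncard (sK n) (hK.image _)).trans ((ncard_image_le hK).trans hn)

/-- the elements that do not move a ball off itself -/
def c3_F (T : Tri G X0 X1 X2 X3) (k : X1) (n : ℕ) : Set G :=
  {g | ∃ e ∈ c3_ball T k (n + 1), g • e ∈ c3_ball T k (n + 1)}

theorem c3_F_fin (T : Tri G X0 X1 X2 X3) (k : X1) (n : ℕ) : (c3_F T k n).Finite := by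
  have f := c3_ball_fin T k (n + 1)
  refine (f.biUnion (t := fun e => ⋃ e' ∈ c3_ball T k (n + 1), {g : G | g • e = e'}) fun e _ =>
    f.biUnion fun e' _ => Set.Subsingleton.finite fun g hg g' hg' => ?_).subset ?_
  · have : (g'⁻¹ * g) • e = e := by
      rw [mul_smul, show g • e = e' from hg, ← show g' • e = e' from hg', inv_smul_smul]
    exact (inv_mul_eq_one.1 (T.free1 _ _ this)).symm
  · rintro g ⟨e, he, hg⟩
    exact mem_biUnion he (mem_biUnion hg rfl)

theorem c3_gen {S : Set X1} {n : ℕ} {k : X1} (i : Inv Q S) (tk : c3_Trk T S) (hk : k ∈ S)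
    (c : c3_Cov Q S n) : Q = Subgroup.closure ((Q : Set G) ∩ c3_F T k n) := by
  have rad := c3_rad i tk hk c
  have le : Subgroup.closure ((Q : Set G) ∩ c3_F T k n) ≤ Q :=
    (Subgroup.closure_le _).2 inter_subset_left
  refine le_antisymm (fun q hq => ?_) le
  have key : ∀ e, ReflTransGen (c3_st T S) k e →
      ∃ h ∈ Subgroup.closure ((Q : Set G) ∩ c3_F T k n), ∃ r ∈ S ∩ c3_ball T k n, e = h • r := by
    intro e p
    induction p with
    | refl => exact ⟨1, one_mem _, k, ⟨hk, c3_ball_self k n⟩, (one_smul _ _).symm⟩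
    | @tail u v _ s ih =>
      obtain ⟨h, hh, r, hr, rfl⟩ := ih
      have t := c3_tri_smul h⁻¹ s.2.2
      rw [inv_smul_smul] at t
      obtain ⟨q', hq', r', hr', e1⟩ := rad _ ((i _ (inv_mem (le hh)) v).2 s.2.1)
      refine ⟨h * q', mul_mem hh (Subgroup.subset_closure ⟨hq', r', .inl hr'.2, ?_⟩), r', hr',
        by rw [mul_smul, ← e1, smul_inv_smul]⟩
      rw [← e1]
      exact .inr ⟨r, hr.2, t⟩
  obtain ⟨h, hh, r, hr, e1⟩ := key _ (tk k hk _ ((i q hq k).2 hk))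
  have : h⁻¹ * q ∈ Subgroup.closure ((Q : Set G) ∩ c3_F T k n) :=
    Subgroup.subset_closure ⟨mul_mem (inv_mem (le hh)) hq, k, c3_ball_self k _, by
      rw [mul_smul, e1, inv_smul_smul]
      exact .inl hr.2⟩
  simpa using mul_mem hh this

/-- the walls of bounded area through the edge `k` -/
def c3_Ty (T : Tri G X0 X1 X2 X3) (k : X1) (n : ℕ) : Set (Subgroup G × Set X0) :=
  {p | Inv p.1 p.2 ∧ k ∈ cut T p.2 ∧ c3_Trk T (cut T p.2) ∧ c3_Cov p.1 (cut T p.2) n}

theorem c3_Ty_fin (hM : Mfd T) (k : X1) (n : ℕ) : (c3_Ty T k n).Finite := by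
  refine Set.Finite.of_finite_image (f := fun p : Subgroup G × Set X0 =>
    ((p.1 : Set G) ∩ c3_F T k n, cut T p.2 ∩ c3_ball T k n, T.d1 k 0 ∈ p.2))
    (((c3_F_fin T k n).finite_subsets.prod ((c3_ball_fin T k n).finite_subsets.prod
      (finite_univ (α := Prop)))).subset ?_) ?_
  · rintro _ ⟨p, -, rfl⟩
    exact ⟨inter_subset_right, inter_subset_right, trivial⟩
  · rintro ⟨Q, A⟩ ⟨i, m, t, c⟩ ⟨Q', A'⟩ ⟨i', m', t', c'⟩ e
    simp only [Prod.mk.injEq] at e i m t c i' m' t' c' ⊢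
    obtain ⟨e1, e2, e3⟩ := e
    have eQ : Q = Q' := by
      rw [c3_gen (c3_cut_inv i) t m c, e1, ← c3_gen (c3_cut_inv i') t' m' c']
    subst eQ
    have k1 : ∀ e, e ∈ cut T A ↔ e ∈ cut T A' := fun e => by
      constructor <;> intro he
      · obtain ⟨q, hq, r, hr, rfl⟩ := c3_rad (c3_cut_inv i) t m c e he
        exact (c3_cut_inv i' q hq r).2 (e2 ▸ hr).1
      · obtain ⟨q, hq, r, hr, rfl⟩ := c3_rad (c3_cut_inv i') t' m' c' e he
        exact (c3_cut_inv i q hq r).2 (e2.symm ▸ hr).1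
    exact ⟨rfl, Set.ext fun x => (c3_const hM (D := {x | x ∈ A ↔ x ∈ A'})
      (fun e he => he (c3_l2 (k1 e))) x (T.d1 k 0)).2 (iff_of_eq e3)⟩

theorem c3_move (g : G) {k : X1} {n : ℕ} (h : (P, A) ∈ c3_Ty T k n) :
    (P.comap (MulAut.conj g⁻¹).toMonoidHom, {x | g⁻¹ • x ∈ A}) ∈ c3_Ty T (g • k) n := by
  obtain ⟨i, m, t, K, hK, hn, c⟩ := h
  have mc : ∀ e, e ∈ cut T {x | g⁻¹ • x ∈ A} ↔ g⁻¹ • e ∈ cut T A := fun e => by
    simp only [cut, mem_ofPred_eq, T.e1]
  refine ⟨fun p hp x => ?_, (mc _).2 (by rwa [inv_smul_smul]), fun e he e' he' => ?_,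
    (g • ·) '' K, hK.image _, (ncard_image_le hK).trans hn, fun e he => ?_⟩
  · have := i _ hp (g⁻¹ • x)
    simp only [MulEquiv.coe_toMonoidHom, MulAut.conj_apply, inv_inv, mul_smul, smul_inv_smul]
      at this
    exact this
  · have := c3_lift (T := T) (S' := cut T {x | g⁻¹ • x ∈ A}) g
      (fun e he => (mc _).2 (by rwa [inv_smul_smul])) (t _ ((mc e).1 he) _ ((mc e').1 he'))
    rwa [smul_inv_smul, smul_inv_smul] at this
  · obtain ⟨k, hk, q, hq, e1⟩ := c _ ((mc e).1 he)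
    refine ⟨_, ⟨k, hk, rfl⟩, g * q * g⁻¹, ?_, by
      simp only [mul_smul, inv_smul_smul, ← e1, smul_inv_smul]⟩
    simpa [Subgroup.mem_comap, mul_assoc] using hq

theorem c3_near_symm {X : Type} [MulAction G X] {A B : Set X} (h : Near P A B) : Near P B A :=
  h.mono fun _ k m => k m.symm

theorem c3_near_trans {X : Type} [MulAction G X] {A B C : Set X} (h : Near P A B)
    (k : Near P B C) : Near P A C :=
  (SmP.union h k).mono fun _ m => by_contra fun n =>
    m ((not_not.1 fun u => n (.inl u)).trans (not_not.1 fun u => n (.inr u)))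

theorem c3_wall (z : Z2 a b) (w : IsWall T a b A) (h : Mn T (pp a b) B) (n : Near (pp a b) A B) :
    IsWall T a b B :=
  ⟨h.inv a (Subgroup.subset_closure (.inl rfl)), h.inv b (Subgroup.subset_closure (.inr rfl)),
    (sm2_iff z).2 h.fin,
    fun s => w.big ((sm2_iff z).2 ((((sm2_iff z).1 s).union n).mono fun _ m =>
      by_contra fun u => u (.inr fun v => u (.inl (v.1 m))))),
    fun s => w.big' ((sm2_iff z).2 ((((sm2_iff z).1 s).union n).mono fun _ m =>
      by_contra fun u => u (.inr fun v => u (.inl fun r => m (v.2 r)))))⟩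

theorem lst_or_line (hM : Mfd T) (tf : ∀ a : G, a ≠ 1 → ¬ IsOfFinOrder a) (z : Z2 a b)
    (h : IsWall T a b A) : (∃ B, Lst T (pp a b) B ∧ Near (pp a b) A B) ∨ Line T := by
  refine or_iff_not_imp_left.2 fun no => ?_
  have iA : Inv (pp a b) A := fun p hp => by
    induction hp using Subgroup.closure_induction with
    | mem p hp => exact hp.elim (fun e => e ▸ h.ia) fun e => e ▸ h.ib
    | one => exact fun x => by rw [one_smul]
    | mul p q _ _ hp hq => exact fun x => by rw [mul_smul, hp, hq]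
    | inv p _ hp => exact fun x => by rw [← hp, smul_inv_smul]
  obtain ⟨B0, m0, n0⟩ := exists_mn hM iA ((sm2_iff z).1 h.fin)
  have step : ∀ B : {B // Mn T (pp a b) B ∧ Near (pp a b) A B},
      ∃ B' : {B // Mn T (pp a b) B ∧ Near (pp a b) A B}, B'.1 ⊂ B.1 := by
    rintro ⟨B, m, n⟩
    by_contra u
    refine no ⟨B, ⟨m, fun B' m' n' => by_contra fun v => u ⟨⟨B ∩ B', m.inter hM m' n',
      c3_near_trans n (n'.mono fun x k r => k ⟨fun y => ⟨y, r.1 y⟩, fun y => y.1⟩)⟩,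
      inter_subset_left, fun r => v fun x hx => (r hx).2⟩⟩, n⟩
  choose nx hnx using step
  let W : ℕ → {B // Mn T (pp a b) B ∧ Near (pp a b) A B} := fun n => nx^[n] ⟨B0, m0, n0⟩
  have anti : StrictAnti fun n => (W n).1 := strictAnti_nat_of_succ_lt fun n => by
    show (nx^[n + 1] _).1 ⊂ _
    rw [Function.iterate_succ_apply']
    exact hnx _
  have wl : ∀ n, IsWall T a b (W n).1 := fun n => c3_wall z h (W n).2.1 (W n).2.2
  have ty : ∀ n, ∃ k, (pp a b, (W n).1) ∈ c3_Ty T k (ar (pp a b) (cut T B0)) := fun n => by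
    obtain ⟨x, hx⟩ : ∃ x, x ∈ (W n).1 := by_contra fun u =>
      (wl n).big ⟨∅, finite_empty, fun x hx => (u ⟨x, hx⟩).elim⟩
    obtain ⟨y, hy⟩ : ∃ y, y ∉ (W n).1 := by_contra fun u =>
      (wl n).big' ⟨∅, finite_empty, fun x hx => (u ⟨x, hx⟩).elim⟩
    obtain ⟨k, hk⟩ := c3_ne hM hx hy
    have f := c3_arfin (W n).2.1.fin
    refine ⟨k, (W n).2.1.inv, hk, c3_track hM tf z (wl n) (W n).2.1, Quotient.out '' _, f.image _,
      (ncard_image_le f).trans ((W n).2.1.min B0 m0.inv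
        (c3_near_trans (c3_near_symm (W n).2.2) n0)), fun e he => ?_⟩
    obtain ⟨p, hp, e1⟩ := c3_out (pp a b) e
    exact ⟨_, ⟨ob _ e, show _ ∈ cut T _ by rw [e1]; exact (c3_cut_inv (W n).2.1.inv p hp e).2 he,
      rfl⟩, p⁻¹, inv_mem hp, by rw [e1, inv_smul_smul]⟩
  choose k hk using ty
  have mv : ∀ n, ∃ g : G, g • k n = (ob G (k n)).out := fun n => ob_eq_iff.1 (ob_out _)
  choose g hg using mv
  have := hM.fin1
  obtain ⟨m, n, lt, e⟩ := Set.Finite.exists_lt_map_eq_of_forall_mem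
    (f := fun n => ((pp a b).comap (MulAut.conj (g n)⁻¹).toMonoidHom, {x | (g n)⁻¹ • x ∈ (W n).1}))
    (t := ⋃ q : Ob G X1, c3_Ty T q.out (ar (pp a b) (cut T B0)))
    (fun n => mem_iUnion.2 ⟨ob G (k n), hg n ▸ c3_move (g n) (hk n)⟩)
    (finite_iUnion fun q => c3_Ty_fin hM _ _)
  obtain ⟨e1, e2⟩ := Prod.mk.inj e
  refine ⟨a, b, (g n)⁻¹ * g m, (W m).1, z, wl m, (W m).2.1, fun p => ?_, ?_⟩
  · have := SetLike.ext_iff.1 e1 (g m * p * (g m)⁻¹)
    simpa [Subgroup.mem_comap, mul_assoc] using this.symm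
  · have : ((g n)⁻¹ * g m) • (W m).1 = (W n).1 := Set.ext fun x => by
      have := Set.ext_iff.1 e2 (g n • x)
      simpa [mem_smul_set_iff_inv_smul_mem, mul_smul] using this
    rw [this]
    exact anti lt

end Pool.Agent.Work.MP_3d425c_gt.Cw
end

-- merged part: Pool.Agent.Work.MP_3d425c_gt.Cw.Can
section
/-! Canonical walls: transport, the wall on the other side, nested walls. -/

namespace Pool.Agent.Work.MP_3d425c_gt.Cw
open Set MulAction Pool.Agent.Work.MP_3d425c_gt.Md Pool.Agent.Work.MP_3d425c_gt.Bg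
  Pool.Agent.Work.MP_3d425c_gt.Jw Pool.Agent.Work.MP_3d425c_gt.Bq
open scoped Pointwise

section
variable {G X : Type} [Group G] [MulAction G X] {P Q P' : Subgroup G} {g a b c d : G}
  {S A B C : Set X}

theorem cn_cj (h : ∀ p, g * p * g⁻¹ ∈ P' ↔ p ∈ P) (p : G) : g⁻¹ * p * g⁻¹⁻¹ ∈ P ↔ p ∈ P' := by
  rw [← h]
  simp [mul_assoc]

theorem cn_smp (h : ∀ p, g * p * g⁻¹ ∈ P' ↔ p ∈ P) (k : SmP P S) : SmP P' (g • S) := by
  obtain ⟨K, hK, k⟩ := k
  refine ⟨g • K, hK.smul_set, ?_⟩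
  rintro _ ⟨x, hx, rfl⟩
  obtain ⟨y, hy, p, hp, rfl⟩ := k x hx
  exact ⟨g • y, smul_mem_smul_set hy, g * p * g⁻¹, (h p).2 hp, by simp [mul_smul]⟩

theorem cn_inv (h : ∀ p, g * p * g⁻¹ ∈ P' ↔ p ∈ P) (k : Inv P S) : Inv P' (g • S) := by
  intro p hp x
  rw [mem_smul_set_iff_inv_smul_mem, mem_smul_set_iff_inv_smul_mem,
    ← k _ ((cn_cj h p).2 hp) (g⁻¹ • x)]
  simp [mul_smul]

theorem cn_near (h : ∀ p, g * p * g⁻¹ ∈ P' ↔ p ∈ P) (k : Near P A B) :
    Near P' (g • A) (g • B) := by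
  refine (cn_smp h k).mono fun x hx => ?_
  rw [mem_smul_set_iff_inv_smul_mem]
  simpa only [mem_ofPred_eq, mem_smul_set_iff_inv_smul_mem] using hx

theorem cn_ar (h : ∀ p, g * p * g⁻¹ ∈ P' ↔ p ∈ P) (k : Inv P S) : ar P' (g • S) = ar P S := by
  have e : ∀ x y : X, ob P' (g • x) = ob P' (g • y) ↔ ob P x = ob P y := fun x y => by
    rw [ob_eq_iff, ob_eq_iff]
    constructor
    · rintro ⟨p, hp⟩
      refine ⟨⟨_, (cn_cj h p).2 p.2⟩, ?_⟩
      show (g⁻¹ * p * g⁻¹⁻¹) • y = x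
      rw [inv_inv, mul_smul, mul_smul, inv_smul_eq_iff]
      exact hp
    · rintro ⟨p, hp⟩
      refine ⟨⟨_, (h p).2 p.2⟩, ?_⟩
      show (g * p * g⁻¹) • g • y = g • x
      rw [mul_smul, mul_smul, inv_smul_smul, ← hp]
      rfl
  have inj : Function.Injective fun q : Ob P X => ob P' (g • q.out) := fun q q' m => by
    rw [← ob_out q, ← ob_out q']
    exact (e _ _).1 m
  unfold ar
  rw [← ncard_image_of_injective _ inj]
  congr 1
  ext q
  constructor
  · intro hq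
    obtain ⟨p, hp⟩ := ob_eq_iff.1 (ob_out (ob P (g⁻¹ • q.out)))
    refine ⟨ob P (g⁻¹ • q.out), ?_, ?_⟩
    · show Quotient.out _ ∈ S
      rw [← hp]
      exact (k p p.2 _).2 (mem_smul_set_iff_inv_smul_mem.1 hq)
    · show ob P' (g • Quotient.out _) = q
      rw [(e _ _).2 (ob_out _), smul_inv_smul, ob_out]
  · rintro ⟨q, hq, rfl⟩
    obtain ⟨p, hp⟩ := ob_eq_iff.1 (ob_out (ob P' (g • q.out)))
    show Quotient.out _ ∈ g • S
    rw [← hp]
    exact (cn_inv h k p p.2 _).2 (smul_mem_smul_set hq)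

theorem cn_pp (g a b p : G) : g * p * g⁻¹ ∈ pp (g * a * g⁻¹) (g * b * g⁻¹) ↔ p ∈ pp a b := by
  have e : pp (g * a * g⁻¹) (g * b * g⁻¹) = (pp a b).map (MulAut.conj g).toMonoidHom := by
    rw [MonoidHom.map_closure, image_pair]
    rfl
  rw [e]
  exact Subgroup.mem_map_iff_mem (f := (MulAut.conj g).toMonoidHom) (MulAut.conj g).injective

theorem cn_z2 (z : Z2 a b) (g : G) : Z2 (g * a * g⁻¹) (g * b * g⁻¹) := by
  refine ⟨z.1.map (MulAut.conj g), fun m n e => z.2 m n ?_⟩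
  apply (MulAut.conj g).injective
  rw [map_mul, map_zpow, map_zpow, map_one]
  exact e

theorem cn_stab (g : G) (A : Set X) (p : G) :
    g * p * g⁻¹ ∈ stabilizer G (g • A) ↔ p ∈ stabilizer G A := by
  rw [mem_stabilizer_iff, mem_stabilizer_iff, mul_smul, mul_smul, inv_smul_smul,
    smul_left_cancel_iff]

theorem cn_le (h : Inv P A) : P ≤ stabilizer G A := fun p hp => by
  rw [mem_stabilizer_iff]
  ext x
  rw [mem_smul_set_iff_inv_smul_mem, h _ (inv_mem hp)]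

theorem cn_inv_st (A : Set X) : Inv (stabilizer G A) A := fun p hp x => by
  conv_lhs => rw [← mem_stabilizer_iff.1 hp]
  exact smul_mem_smul_set_iff

theorem cn_symm (h : Near P A B) : Near P B A := SmP.mono h fun _ hx e => hx e.symm

theorem cn_trans (h : Near P A B) (k : Near P B C) : Near P A C :=
  (SmP.union h k).mono fun x hx => by
    by_contra n
    simp only [mem_union, mem_ofPred_eq, not_or, not_not] at n
    exact hx (n.1.trans n.2)

theorem cn_diff (h : Near P A B) : SmP P (A \ B) :=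
  SmP.mono h fun _ hx e => hx.2 (e.1 hx.1)

theorem cn_fi (h : SmP Q S) (r : P.relIndex Q ≠ 0) : SmP P S := wl_fi h ⟨r⟩

/-- the elements of `Q` that move a point into a set that is finite modulo `P` -/
theorem cn_cos (fr : ∀ (g : G) (x : X), g • x = x → g = 1) (h : SmP P S) (Q : Subgroup G) (e : X) :
    ∃ R : Set G, R.Finite ∧ ∀ q ∈ Q, q • e ∈ S → ∃ r ∈ R, q * r⁻¹ ∈ P ⊓ Q := by
  obtain ⟨K, hK, h⟩ := h
  have c : ∀ k : X, ∃ r : G, ∀ q ∈ Q, (∃ p ∈ P, q • e = p • k) → q * r⁻¹ ∈ P ⊓ Q := fun k => by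
    by_cases n : ∃ r ∈ Q, ∃ p ∈ P, r • e = p • k
    · obtain ⟨r, hr, p, hp, m⟩ := n
      refine ⟨r, fun q hq ⟨p', hp', m'⟩ => Subgroup.mem_inf.2 ⟨?_, mul_mem hq (inv_mem hr)⟩⟩
      have : (p' * p⁻¹)⁻¹ * (q * r⁻¹) = 1 := fr _ (r • e) (by
        rw [mul_smul, mul_smul q, inv_smul_smul, m', m, inv_smul_eq_iff, mul_smul, inv_smul_smul])
      rw [← inv_mul_eq_one.1 this]
      exact mul_mem hp' (inv_mem hp)
    · exact ⟨1, fun q hq m => (n ⟨q, hq, m⟩).elim⟩
  choose r hr using c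
  refine ⟨r '' K, hK.image r, fun q hq m => ?_⟩
  obtain ⟨k, hk, m⟩ := h _ m
  exact ⟨r k, ⟨k, hk, rfl⟩, hr k q hq m⟩

theorem cn_orb (fr : ∀ (g : G) (x : X), g • x = x → g = 1) (h : SmP P S) (k : Inv Q S)
    (ne : S.Nonempty) : P.relIndex Q ≠ 0 := by
  obtain ⟨e, he⟩ := ne
  obtain ⟨R, hR, m⟩ := cn_cos fr h Q e
  rw [← Subgroup.inf_relIndex_right]
  refine (wl_of_orbit fr inf_le_right e ⟨(· • e) '' R, hR.image _, ?_⟩).1
  rintro _ ⟨q, hq, rfl⟩
  obtain ⟨r, hr, n⟩ := m q hq ((k q hq e).2 he)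
  exact ⟨r • e, ⟨r, hr, rfl⟩, _, n, by rw [mul_smul, inv_smul_smul]⟩

theorem cn_iso (z : Z2 a b) : Nonempty (pp a b ≃* Multiplicative (ℤ × ℤ)) := by
  let φ : Multiplicative (ℤ × ℤ) →* G := MonoidHom.mk' (fun x => a ^ x.toAdd.1 * b ^ x.toAdd.2)
    fun x y => by
      simp only [toAdd_mul, Prod.fst_add, Prod.snd_add, zpow_add]
      exact (z.1.zpow_zpow _ _).mul_mul_mul_comm _ _
  have inj : Function.Injective φ := (injective_iff_map_eq_one φ).2 fun x e =>
    Multiplicative.toAdd.injective (Prod.ext (z.2 _ _ e).1 (z.2 _ _ e).2)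
  have e : φ.range = pp a b := by
    refine le_antisymm ?_ ((Subgroup.closure_le _).2 ?_)
    · rintro _ ⟨x, rfl⟩
      exact mul_mem (zpow_mem (Subgroup.subset_closure (by simp)) _)
        (zpow_mem (Subgroup.subset_closure (by simp)) _)
    · rintro _ (rfl | rfl)
      · exact ⟨Multiplicative.ofAdd (1, 0), by simp [φ]⟩
      · exact ⟨Multiplicative.ofAdd (0, 1), by simp [φ]⟩
  exact ⟨((MonoidHom.ofInjective inj).trans (MulEquiv.subgroupCongr e)).symm⟩

theorem cn_ma (a b : G) : a ∈ pp a b := Subgroup.subset_closure (by simp)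

theorem cn_mb (a b : G) : b ∈ pp a b := Subgroup.subset_closure (by simp)

theorem cn_rk (z : Z2 a b) (z' : Z2 c d) (h : (pp a b).relIndex (pp c d) ≠ 0) :
    (pp c d).relIndex (pp a b) ≠ 0 := by
  obtain ⟨m, m0, -, hm⟩ := Subgroup.exists_pow_mem_of_relIndex_ne_zero h (cn_ma c d)
  obtain ⟨n, n0, -, hn⟩ := Subgroup.exists_pow_mem_of_relIndex_ne_zero h (cn_mb c d)
  obtain ⟨i⟩ := cn_iso z
  rw [← Subgroup.inf_relIndex_left]
  refine (wl_rank inf_le_left i fun cy => ?_).1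
  obtain ⟨x, hx⟩ := cy.exists_generator
  obtain ⟨s, hs⟩ := hx ⟨_, hm⟩
  obtain ⟨t, ht⟩ := hx ⟨_, hn⟩
  have hs' : (x : G) ^ s = c ^ m := congrArg Subtype.val hs
  have ht' : (x : G) ^ t = d ^ n := congrArg Subtype.val ht
  have e := z'.2 (m * t) (n * -s) (by
    rw [zpow_mul, zpow_mul, zpow_natCast, zpow_natCast, ← hs', ← ht', ← zpow_mul, ← zpow_mul,
      ← zpow_add, show s * t + t * -s = 0 by ring, zpow_zero])
  have s0 : s = 0 := by
    rcases mul_eq_zero.1 e.2 with k | k <;> omega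
  have := (z'.2 m 0 (by rw [zpow_natCast, ← hs', s0, zpow_zero, zpow_zero, mul_one])).1
  omega

end

variable {G X0 X1 X2 X3 : Type} [Group G] [MulAction G X0] [MulAction G X1] [MulAction G X2]
  [MulAction G X3] {T : Tri G X0 X1 X2 X3} {P Q I P' : Subgroup G} {A B D : Set X0} {a b g : G}

theorem cn_cut (g : G) (A : Set X0) : cut T (g • A) = g • cut T A := by
  ext e
  rw [mem_smul_set_iff_inv_smul_mem]
  simp only [cut, mem_ofPred_eq, mem_smul_set_iff_inv_smul_mem, T.e1]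

theorem cn_cut_compl (A : Set X0) : cut T Aᶜ = cut T A := by
  ext e
  simp only [cut, mem_ofPred_eq, mem_compl_iff, not_iff_not]

theorem cn_cut_inv (h : Inv P A) : Inv P (cut T A) := fun p hp e => by
  simp only [cut, mem_ofPred_eq, T.e1, h p hp]

theorem cn_mn (h : ∀ p, g * p * g⁻¹ ∈ P' ↔ p ∈ P) (k : Mn T P A) : Mn T P' (g • A) := by
  refine ⟨cn_inv h k.inv, by rw [cn_cut]; exact cn_smp h k.fin, fun B hB n => ?_⟩
  have i := cn_inv (cn_cj h) hB
  have m := cn_near (cn_cj h) n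
  rw [inv_smul_smul] at m
  have e := cn_ar h (cn_cut_inv (T := T) i)
  rw [← cn_cut, smul_inv_smul] at e
  rw [cn_cut, cn_ar h (cn_cut_inv k.inv), e]
  exact k.min _ i m

theorem cn_lst (h : ∀ p, g * p * g⁻¹ ∈ P' ↔ p ∈ P) (k : Lst T P A) : Lst T P' (g • A) := by
  refine ⟨cn_mn h k.mn, fun B hB n => ?_⟩
  have m := cn_near (cn_cj h) n
  rw [inv_smul_smul] at m
  rintro _ ⟨x, hx, rfl⟩
  exact mem_inv_smul_set_iff.1 (k.le _ (cn_mn (cn_cj h) hB) m hx)

theorem cn_mk (z : Z2 a b) (i : Inv (pp a b) A) (f : SmP (pp a b) (cut T A))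
    (h : ¬ SmP (pp a b) A) (k : ¬ SmP (pp a b) Aᶜ) : IsWall T a b A :=
  ⟨i a (cn_ma a b), i b (cn_mb a b), (sm2_iff z).2 f, fun n => h ((sm2_iff z).1 n),
    fun n => k ((sm2_iff z).1 n)⟩

theorem cn_wall (z : Z2 a b) (h : IsWall T a b A) (k : Mn T (pp a b) B) (n : Near (pp a b) A B) :
    IsWall T a b B := by
  refine cn_mk z k.inv k.fin (fun m => h.big ((sm2_iff z).2 ((m.union n).mono fun x hx => ?_)))
    fun m => h.big' ((sm2_iff z).2 ((m.union n).mono fun x hx => ?_))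
  · by_cases c : x ∈ B
    · exact .inl c
    · exact .inr fun e => c (e.1 hx)
  · by_cases c : x ∈ B
    · exact .inr fun e => hx (e.2 c)
    · exact .inl c

theorem cn_wall_compl (h : IsWall T a b A) : IsWall T a b Aᶜ :=
  ⟨fun x => not_congr (h.ia x), fun x => not_congr (h.ib x), by rw [cn_cut_compl]; exact h.fin,
    h.big', by rw [compl_compl]; exact h.big⟩

theorem cn_ne (hM : Mfd T) (h : A.Nonempty) (k : Aᶜ.Nonempty) : (cut T A).Nonempty := by
  classical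
  obtain ⟨x, hx⟩ := h
  obtain ⟨y, hy⟩ := k
  by_contra n
  have := const_of hM (t := fun x => if x ∈ A then 1 else 0) (fun e => by
    have : T.d1 e 0 ∈ A ↔ T.d1 e 1 ∈ A := by
      by_contra c
      exact n ⟨e, c⟩
    simp only [this]) x y
  simp only [if_pos hx, if_neg hy] at this
  exact one_ne_zero this

theorem cn_ne' {S : Set X0} (h : ¬ Sm2 a b S) : S.Nonempty := by
  by_contra n
  exact h ⟨∅, finite_empty, fun x hx => (n ⟨x, hx⟩).elim⟩

theorem cn_cut_near (hM : Mfd T) (h : SmP P (cut T A)) (n : Near P A B) : SmP P (cut T B) := by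
  have := hM.fin1
  have p : ∀ i, SmP P {e | ¬ (T.d1 e i ∈ A ↔ T.d1 e i ∈ B)} := fun i => by
    obtain ⟨K, hK, k⟩ := n
    refine ⟨⋃ x ∈ K, {e | T.d1 e i = x}, hK.biUnion fun x _ =>
      fib_finite T.free (fun e => T.d1 e i) (fun g e => T.e1 g e i) x, fun e he => ?_⟩
    obtain ⟨x, hx, p, hp, m⟩ := k _ he
    exact ⟨p⁻¹ • e, mem_biUnion hx (by rw [mem_ofPred_eq, T.e1, m, inv_smul_smul]), p, hp,
      (smul_inv_smul _ _).symm⟩
  refine ((h.union (p 0)).union (p 1)).mono fun e he => ?_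
  by_contra c
  simp only [cut, mem_union, mem_ofPred_eq, not_or, not_not] at c
  exact he (c.1.2.symm.trans (c.1.1.trans c.2))

theorem cn_path (hM : Mfd T) (x y : X0) : ∃ F : Set X1, F.Finite ∧
    ∀ A : Set X0, ¬ (x ∈ A ↔ y ∈ A) → ∃ e ∈ F, e ∈ cut T A := by
  obtain ⟨q, hq⟩ := hM.conn x y
  induction hq with
  | nil => exact ⟨∅, finite_empty, fun A h => (h Iff.rfl).elim⟩
  | @cons a l b q c k _ ih =>
    obtain ⟨F, hF, ih⟩ := ih
    refine ⟨insert l.1 F, hF.insert _, fun A h => ?_⟩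
    by_cases m : b ∈ A ↔ c ∈ A
    · refine ⟨l.1, mem_insert _ _, fun n => h (Iff.trans ?_ m)⟩
      obtain ⟨e, _ | _⟩ := l
      · rw [show b = T.d1 e 1 from k.1, show a = T.d1 e 0 from k.2]
        exact n
      · rw [show a = T.d1 e 1 from k.1, show b = T.d1 e 0 from k.2]
        exact n.symm
    · obtain ⟨e, he, n⟩ := ih A m
      exact ⟨e, mem_insert_of_mem _ he, n⟩

/-- a set near `B` meets a set that misses `B` in a set that is small for both groups -/
theorem cn_nr (hM : Mfd T) (d : A ⊆ Bᶜ) (ne : B.Nonempty) (hB : Inv Q B) (f : SmP P (cut T A))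
    (h : SmP Q D) : SmP (P ⊓ Q) (A ∩ D) := by
  obtain ⟨y, hy⟩ := ne
  obtain ⟨K, hK, h⟩ := h
  choose F hF m using fun x => cn_path hM x y
  choose R hR n using fun e => cn_cos T.free1 f Q e
  refine ⟨⋃ k ∈ K, ⋃ e ∈ F k, (· • k) '' R e,
    hK.biUnion fun k _ => (hF k).biUnion fun e _ => (hR e).image _, fun x hx => ?_⟩
  obtain ⟨k, hk, q, hq, rfl⟩ := h x hx.2
  obtain ⟨e, he, c⟩ := m k (q⁻¹ • A) fun c => d (mem_inv_smul_set_iff.1
    (c.1 (mem_inv_smul_set_iff.2 hx.1))) ((hB q hq y).2 hy)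
  rw [cn_cut, mem_inv_smul_set_iff] at c
  obtain ⟨r, hr, p⟩ := n e q hq c
  exact ⟨r • k, mem_biUnion hk (mem_biUnion he ⟨r, hr, rfl⟩), _, p, by
    rw [mul_smul, inv_smul_smul]⟩

theorem Can.smul (h : Can T A) (g : G) : Can T (g • A) := by
  obtain ⟨a, b, z, w, l⟩ := h
  have c := cn_pp g a b
  have l' := cn_lst c l
  refine ⟨_, _, cn_z2 z g, cn_mk (cn_z2 z g) l'.mn.inv l'.mn.fin (fun n => w.big ?_)
    fun n => w.big' ?_, l'⟩
  · simpa using (sm2_iff z).2 (cn_smp (cn_cj c) n)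
  · rw [← smul_set_compl] at n
    simpa using (sm2_iff z).2 (cn_smp (cn_cj c) n)

theorem Can.fin (h : Can T A) : SmP (stabilizer G A) (cut T A) :=
  let ⟨_, _, _, _, l⟩ := h
  l.mn.fin.le (cn_le l.mn.inv)

theorem cn_cne (hM : Mfd T) (h : Can T A) : (cut T A).Nonempty :=
  let ⟨_, _, _, w, _⟩ := h
  cn_ne hM (cn_ne' w.big) (cn_ne' w.big')

theorem Can.idx (hM : Mfd T) (h : Can T A) : ∃ a b : G, Z2 a b ∧ IsWall T a b A ∧
    Lst T (pp a b) A ∧ pp a b ≤ stabilizer G A ∧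
    ((pp a b).subgroupOf (stabilizer G A)).FiniteIndex := by
  have ne := cn_cne hM h
  obtain ⟨a, b, z, w, l⟩ := h
  exact ⟨a, b, z, w, l, cn_le l.mn.inv,
    ⟨cn_orb T.free1 l.mn.fin (cn_cut_inv (cn_inv_st A)) ne⟩⟩

theorem Can.big (hM : Mfd T) (h : Can T A) : ¬ SmP (stabilizer G A) A := fun n =>
  let ⟨_, _, z, w, _, _, i⟩ := h.idx hM
  w.big ((sm2_iff z).2 (wl_fi n i))

theorem Can.big' (hM : Mfd T) (h : Can T A) : ¬ SmP (stabilizer G A) Aᶜ := fun n =>
  let ⟨_, _, z, w, _, _, i⟩ := h.idx hM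
  w.big' ((sm2_iff z).2 (wl_fi n i))

theorem cn_two {S S' : Subgroup G} (h : P.relIndex S ≠ 0) (k : Q.relIndex S' ≠ 0) :
    (P ⊓ Q).relIndex (S ⊓ S') ≠ 0 :=
  Subgroup.relIndex_inf_ne_zero
    (mt (Subgroup.relIndex_eq_zero_of_le_right inf_le_left) h)
    (mt (Subgroup.relIndex_eq_zero_of_le_right inf_le_right) k)

theorem Can.sub (hM : Mfd T) (h : Can T A) (k : Can T B)
    (n : SmP (stabilizer G A ⊓ stabilizer G B) (A \ B)) : A ⊆ B :=
  let ⟨_, _, _, _, l, _, i⟩ := h.idx hM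
  let ⟨_, _, _, _, l', _, j⟩ := k.idx hM
  mono hM l l'.mn (cn_fi n (cn_two i.1 j.1))

theorem cn_sub (hM : Mfd T) (h : Can T A) (k : Can T B)
    (n : SmP (stabilizer G A ⊓ stabilizer G B) (A ∩ B)) : A ⊆ Bᶜ :=
  let ⟨_, _, _, _, l, _, i⟩ := h.idx hM
  let ⟨_, _, _, _, l', _, j⟩ := k.idx hM
  mono hM l l'.mn.compl ((cn_fi n (cn_two i.1 j.1)).mono fun _ hx => ⟨hx.1, not_not.1 hx.2⟩)

theorem cn_ex (S : Std T) (z : Z2 a b) (h : IsWall T a b A) :
    ∃ B, Can T B ∧ Inv (pp a b) B ∧ Near (pp a b) A B := by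
  obtain ⟨B, l, n⟩ := (lst_or_line S.mfd S.tf z h).resolve_right S.nl
  exact ⟨B, ⟨a, b, z, cn_wall z h l.mn n, l⟩, l.mn.inv, n⟩

theorem exists_can (S : Std T) (z : Z2 a b) : ∃ B, Can T B ∧ a • B = B ∧ b • B = B := by
  obtain ⟨A, h⟩ := exists_wall S.mfd S.nh z.1 z.2
  obtain ⟨B, k, i, -⟩ := cn_ex S z h
  exact ⟨B, k, cn_le i (cn_ma a b), cn_le i (cn_mb a b)⟩

theorem cn_rel (hM : Mfd T) (z : Z2 a b) (k : Can T B) (f : SmP (pp a b) (cut T B)) :
    (stabilizer G B).relIndex (pp a b) ≠ 0 := by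
  obtain ⟨c, d, z', -, l, le, -⟩ := k.idx hM
  exact mt (Subgroup.relIndex_eq_zero_of_le_left le)
    (cn_rk z z' (cn_orb T.free1 f (cn_cut_inv l.mn.inv) (cn_cne hM k)))

theorem cn_eq (hM : Mfd T) (z : Z2 a b) (h : Can T A) (k : Can T B)
    (f : SmP (pp a b) (cut T A)) (n : Near (pp a b) A B) : A = B := by
  have r := cn_rel hM z h f
  have r' := cn_rel hM z k (cn_cut_near hM f n)
  have fi : ∀ {S : Set X0} {U V : Subgroup G}, SmP (pp a b) S → U.relIndex (pp a b) ≠ 0 →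
    V.relIndex (pp a b) ≠ 0 → SmP (U ⊓ V) S := fun s u v =>
      cn_fi s (Subgroup.relIndex_inf_ne_zero u v)
  exact (h.sub hM k (fi (cn_diff n) r r')).antisymm (k.sub hM h (fi (cn_diff (cn_symm n)) r' r))

theorem cn_spec (S : Std T) (h : Can T A) :
    Can T (st T A) ∧ Near (stabilizer G A) (st T A) Aᶜ := by
  have e : ∃ B, Can T B ∧ Near (stabilizer G A) B Aᶜ := by
    obtain ⟨a, b, z, w, -, le, -⟩ := h.idx S.mfd
    obtain ⟨B, k, -, n⟩ := cn_ex S z (cn_wall_compl w)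
    exact ⟨B, k, SmP.le (cn_symm n) le⟩
  unfold st
  rw [dif_pos e]
  exact e.choose_spec

theorem Can.star (S : Std T) (h : Can T A) : Can T (st T A) := (cn_spec S h).1

theorem Can.st_near (S : Std T) (h : Can T A) : Near (stabilizer G A) (st T A) Aᶜ :=
  (cn_spec S h).2

theorem cn_uniq (S : Std T) (h : Can T A) (k : Can T B) (n : Near (stabilizer G A) B Aᶜ) :
    B = st T A := by
  obtain ⟨a, b, z, w, l, -, i⟩ := h.idx S.mfd
  have n' : Near (pp a b) B Aᶜ := wl_fi n i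
  exact cn_eq S.mfd z k (h.star S) (cn_cut_near S.mfd l.mn.compl.fin (cn_symm n'))
    (cn_trans n' (cn_symm (wl_fi (h.st_near S) i)))

theorem Can.st_smul (S : Std T) (h : Can T A) (g : G) : st T (g • A) = g • st T A := by
  refine (cn_uniq S (h.smul g) ((h.star S).smul g) ?_).symm
  rw [← smul_set_compl]
  exact cn_near (cn_stab g A) (h.st_near S)

theorem cn_st_le (S : Std T) (h : Can T A) : stabilizer G A ≤ stabilizer G (st T A) :=
  fun g hg => by rw [mem_stabilizer_iff, ← h.st_smul S, mem_stabilizer_iff.1 hg]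

theorem Can.st_st (S : Std T) (h : Can T A) : st T (st T A) = A := by
  refine (cn_uniq S (h.star S) h (SmP.le (SmP.mono (h.st_near S) fun x hx e => hx ?_)
    (cn_st_le S h))).symm
  simp only [mem_compl_iff] at e ⊢
  tauto

theorem cn_st_eq (S : Std T) (h : Can T A) : stabilizer G (st T A) = stabilizer G A := by
  refine le_antisymm ?_ (cn_st_le S h)
  have := cn_st_le S (h.star S)
  rwa [h.st_st S] at this

theorem Can.st_sub (S : Std T) (h : Can T A) : st T A ⊆ Aᶜ := by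
  refine cn_sub S.mfd (h.star S) h ?_
  rw [cn_st_eq S h, inf_idem]
  exact SmP.mono (h.st_near S) fun x hx e => e.1 hx.1 hx.2

theorem Can.sub_st (S : Std T) (h : Can T A) (k : Can T B) (d : A ⊆ Bᶜ) : A ⊆ st T B := by
  refine h.sub S.mfd (k.star S) ?_
  rw [cn_st_eq S k]
  have ne : B.Nonempty := let ⟨_, _, _, w, _⟩ := k; cn_ne' w.big
  exact (cn_nr S.mfd d ne (cn_inv_st B) h.fin (k.st_near S)).mono fun x hx =>
    ⟨hx.1, fun e => hx.2 (e.2 (d hx.1))⟩

theorem Can.st_anti (S : Std T) (h : Can T A) (k : Can T B) (d : A ⊆ B) : st T B ⊆ st T A :=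
  (k.star S).sub_st S h ((k.st_sub S).trans (compl_subset_compl.2 d))

theorem Can.nst (S : Std T) (h : Can T A) (k : Can T B)
    (c : SmP (stabilizer G A ⊓ stabilizer G B) (A \ B) ∨
      SmP (stabilizer G A ⊓ stabilizer G B) (A ∩ B) ∨
      SmP (stabilizer G A ⊓ stabilizer G B) (Aᶜ ∩ Bᶜ) ∨
      SmP (stabilizer G A ⊓ stabilizer G B) (B \ A)) : Nst T A B := by
  rcases c with c | c | c | c
  · exact .inl (h.sub S.mfd k c)
  · exact .inr (.inl (h.sub_st S k (cn_sub S.mfd h k c)))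
  · refine .inr (.inr (.inl ((h.star S).sub S.mfd k ?_)))
    rw [cn_st_eq S h]
    exact c.mono fun x hx => ⟨h.st_sub S hx.1, hx.2⟩
  · exact .inr (.inr (.inr (k.sub S.mfd h (by rwa [inf_comm]))))

theorem cn_fix (hM : Mfd T) (h : Can T A) (z : Z2 a b) (h1 : a • A = A) (h2 : b • A = A) :
    IsWall T a b A ∧ (pp a b).relIndex (stabilizer G A) ≠ 0 := by
  have le : pp a b ≤ stabilizer G A := (Subgroup.closure_le _).2 (by
    rintro _ (rfl | rfl)
    exacts [h1, h2])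
  obtain ⟨c, d, z', -, -, -, i⟩ := h.idx hM
  have r := Subgroup.relIndex_ne_zero_trans
    (cn_rk z' z (mt (Subgroup.relIndex_eq_zero_of_le_right le) i.1)) i.1
  exact ⟨cn_mk z (fun p hp => cn_inv_st A p (le hp)) (cn_fi h.fin r)
    (fun n => h.big hM (n.le le)) fun n => h.big' hM (n.le le), r⟩

theorem Can.comm (S : Std T) (h : Can T A) (k : Can T B) (z : Z2 a b) (h1 : a • A = A)
    (h2 : b • A = A) (k1 : a • B = B) (k2 : b • B = B) : B = A ∨ B = st T A := by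
  obtain ⟨w, r⟩ := cn_fix S.mfd h z h1 h2
  obtain ⟨w', -⟩ := cn_fix S.mfd k z k1 k2
  rcases wall_uniq S.mfd z.1 z.2 w w' with n | n
  · exact .inl (cn_eq S.mfd z h k ((sm2_iff z).1 w.fin) ((sm2_iff z).1 n)).symm
  · refine .inr (cn_uniq S h k (SmP.le (SmP.mono ((sm2_iff z).1 n) fun x hx e => hx ?_)
      ((Subgroup.closure_le _).2 (by
        rintro _ (rfl | rfl)
        exacts [h1, h2]))))
    simp only [mem_compl_iff] at e ⊢
    tauto

end Pool.Agent.Work.MP_3d425c_gt.Cw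
end

-- merged part: Pool.Agent.Work.MP_3d425c_gt.Cw.C5
section
/-! A wall that is moved into itself by its normaliser gives a normal abelian subgroup. -/

namespace Pool.Agent.Work.MP_3d425c_gt.Cw
open Set MulAction Subgroup Pool.Agent.Work.MP_3d425c_gt.Md Pool.Agent.Work.MP_3d425c_gt.Bg
  Pool.Agent.Work.MP_3d425c_gt.Bq Pool.Agent.Work.MP_3d425c_gt.Jw
open scoped Pointwise

section
variable {G : Type} [Group G] {a b g : G}

theorem c5_mem (h : Commute a b) {p : G} :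
    p ∈ pp a b ↔ ∃ m n : ℤ, p = a ^ m * b ^ n := by
  refine ⟨fun hp => ?_, ?_⟩
  · induction hp using closure_induction with
    | mem x hx =>
      rcases hx with rfl | rfl
      · exact ⟨1, 0, by simp⟩
      · exact ⟨0, 1, by simp⟩
    | one => exact ⟨0, 0, by simp⟩
    | mul x y _ _ hx hy =>
      obtain ⟨m, n, rfl⟩ := hx
      obtain ⟨m', n', rfl⟩ := hy
      exact ⟨m + m', n + n', by
        rw [zpow_add, zpow_add, (h.zpow_zpow m' n).symm.mul_mul_mul_comm]⟩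
    | inv x _ hx =>
      obtain ⟨m, n, rfl⟩ := hx
      exact ⟨-m, -n, by rw [mul_inv_rev, ← zpow_neg, ← zpow_neg, (h.zpow_zpow _ _).eq]⟩
  · rintro ⟨m, n, rfl⟩
    exact mul_mem (zpow_mem (subset_closure (by simp)) m) (zpow_mem (subset_closure (by simp)) n)

theorem c5_comm (h : Commute a b) {p q : G} (hp : p ∈ pp a b)
    (hq : q ∈ pp a b) : Commute p q := by
  obtain ⟨m, n, rfl⟩ := (c5_mem h).1 hp
  obtain ⟨m', n', rfl⟩ := (c5_mem h).1 hq
  exact ((Commute.zpow_zpow_self a m m').mul_right (h.zpow_zpow m n')).mul_left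
    ((h.zpow_zpow m' n).symm.mul_right (Commute.zpow_zpow_self b n n'))

theorem c5_fg (h : Commute a b) {Y : Subgroup G} (hY : Y ≤ pp a b) : Y.FG := by
  let φ : Multiplicative (ℤ × ℤ) →* G :=
    { toFun := fun z => a ^ z.toAdd.1 * b ^ z.toAdd.2
      map_one' := by simp
      map_mul' := fun x y => by
        rw [toAdd_mul, Prod.fst_add, Prod.snd_add, zpow_add, zpow_add,
          (h.zpow_zpow _ _).symm.mul_mul_mul_comm] }
  have k : (Y.comap φ).FG := by
    have := (Submodule.fg_iff_addSubgroup_fg _).1 (IsNoetherian.noetherian (R := ℤ)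
      (AddSubgroup.toIntSubmodule (Subgroup.toAddSubgroup' (Y.comap φ))))
    exact (AddSubgroup.fg_iff_mul_fg _).1 this
  obtain ⟨S, hS⟩ := k
  classical
  refine ⟨S.image φ, ?_⟩
  rw [Finset.coe_image, ← MonoidHom.map_closure, hS]
  refine map_comap_eq_self fun y hy => ?_
  obtain ⟨m, n, rfl⟩ := (c5_mem h).1 (hY hy)
  exact ⟨Multiplicative.ofAdd (m, n), rfl⟩

theorem c5_conj {P : Subgroup G} (hg : ∀ p, p ∈ P ↔ g * p * g⁻¹ ∈ P) (k : ℤ) :
    ∀ p, p ∈ P ↔ g ^ k * p * (g ^ k)⁻¹ ∈ P :=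
  mem_normalizer_iff.1 (zpow_mem (mem_normalizer_iff.2 hg) k)

theorem c5_sup {P : Subgroup G} (hg : ∀ p, p ∈ P ↔ g * p * g⁻¹ ∈ P) {x : G}
    (hx : x ∈ P ⊔ zpowers g) : ∃ p ∈ P, ∃ k : ℤ, x = p * g ^ k := by
  rw [sup_eq_closure] at hx
  induction hx using closure_induction with
  | mem x hx =>
    rcases hx with hx | ⟨k, rfl⟩
    · exact ⟨x, hx, 0, by simp⟩
    · exact ⟨1, P.one_mem, k, by simp⟩
  | one => exact ⟨1, P.one_mem, 0, by simp⟩
  | mul x y _ _ hx hy =>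
    obtain ⟨p, hp, k, rfl⟩ := hx
    obtain ⟨q, hq, l, rfl⟩ := hy
    exact ⟨p * (g ^ k * q * (g ^ k)⁻¹), P.mul_mem hp ((c5_conj hg k q).1 hq), k + l, by
      rw [zpow_add]; group⟩
  | inv x _ hx =>
    obtain ⟨p, hp, k, rfl⟩ := hx
    exact ⟨g ^ (-k) * p⁻¹ * (g ^ (-k))⁻¹, (c5_conj hg _ _).1 (P.inv_mem hp), -k, by group⟩

/-- a virtually (rank two lattice by cyclic) group has a normal abelian subgroup -/
theorem c5_grp (h : Commute a b) (ha : ∀ n : ℤ, a ^ n = 1 → n = 0)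
    (hg : ∀ p, p ∈ pp a b ↔ g * p * g⁻¹ ∈ pp a b)
    (fi : (pp a b ⊔ zpowers g).FiniteIndex) :
    ∃ Y : Subgroup G, Y.Normal ∧ Y ≠ ⊥ ∧ Y.FG ∧ ∀ x ∈ Y, ∀ y ∈ Y, Commute x y := by
  obtain ⟨N, hN⟩ : ∃ N, N = pp a b ⊔ zpowers g := ⟨_, rfl⟩
  rw [← hN] at fi
  have le : ⁅N.normalCore, N.normalCore⁆ ≤ pp a b := by
    refine commutator_le.2 fun x hx y hy => ?_
    obtain ⟨p, hp, k, rfl⟩ := c5_sup hg (hN ▸ N.normalCore_le hx)
    obtain ⟨q, hq, l, rfl⟩ := c5_sup hg (hN ▸ N.normalCore_le hy)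
    rw [commutatorElement_def, show p * g ^ k * (q * g ^ l) * (p * g ^ k)⁻¹ * (q * g ^ l)⁻¹ =
        p * (g ^ k * q * (g ^ k)⁻¹) * (g ^ l * p⁻¹ * (g ^ l)⁻¹) * q⁻¹ by group]
    exact mul_mem (mul_mem (mul_mem hp ((c5_conj hg k q).1 hq))
      ((c5_conj hg l _).1 (inv_mem hp))) (inv_mem hq)
  by_cases e : ⁅N.normalCore, N.normalCore⁆ = ⊥
  · refine ⟨N.normalCore, inferInstance, fun k => ?_, ?_, fun x hx y hy => ?_⟩
    · have := N.normalCore.pow_index_mem a
      rw [← zpow_natCast] at this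
      exact N.normalCore.index_ne_zero_of_finite
        (Int.natCast_eq_zero.1 (ha _ (mem_bot.1 (k ▸ this))))
    · have f : N.FG := by
        rw [hN, zpowers_eq_closure]
        exact FG.sup ((fg_iff _).2 ⟨_, rfl, Set.toFinite _⟩) ((fg_iff _).2 ⟨_, rfl, Set.toFinite _⟩)
      have := (Group.fg_iff_subgroup_fg N).2 f
      have f2 : Group.FG (N.normalCore.subgroupOf N) := inferInstance
      exact (Group.fg_iff_subgroup_fg _).1 (Group.fg_of_surjective
        (f := (subgroupOfEquivOfLe N.normalCore_le).toMonoidHom)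
        (subgroupOfEquivOfLe N.normalCore_le).surjective)
    · exact commutatorElement_eq_one_iff_commute.1
        (mem_bot.1 (e ▸ commutator_mem_commutator hx hy))
  · exact ⟨_, inferInstance, e, c5_fg h le, fun x hx y hy => c5_comm h (le hx) (le hy)⟩

end

variable {G X0 X1 X2 X3 : Type} [Group G] [MulAction G X0] [MulAction G X1] [MulAction G X2]
  [MulAction G X3] {T : Tri G X0 X1 X2 X3} {a b g : G} {P : Subgroup G} {A : Set X0}

theorem c5_sm2 {X : Type} [MulAction G X] (h : Commute a b) {S : Set X} :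
    Sm2 a b S ↔ SmP (pp a b) S := by
  refine exists_congr fun K => and_congr_right fun _ => forall₂_congr fun x _ =>
    exists_congr fun k => and_congr_right fun _ => ⟨?_, ?_⟩
  · rintro ⟨m, n, e⟩
    exact ⟨_, (c5_mem h).2 ⟨m, n, rfl⟩, e⟩
  · rintro ⟨p, hp, e⟩
    obtain ⟨m, n, rfl⟩ := (c5_mem h).1 hp
    exact ⟨m, n, e⟩

theorem c5_pre {X : Type} [MulAction G X] (hg : ∀ p ∈ P, g * p * g⁻¹ ∈ P) {S : Set X}
    (hS : SmP P S) : SmP P {x | g⁻¹ • x ∈ S} := by
  obtain ⟨K, hK, k⟩ := hS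
  refine ⟨(g • ·) '' K, hK.image _, fun x hx => ?_⟩
  obtain ⟨c, hc, p, hp, e⟩ := k _ hx
  exact ⟨_, ⟨c, hc, rfl⟩, _, hg p hp, by
    show x = _ • g • c
    rw [mul_smul, inv_smul_smul, mul_smul, ← e, smul_inv_smul]⟩

theorem c5_mono (sub : ∀ x ∈ A, g • x ∈ A) {x : X0} {k j : ℤ} (hk : g ^ k • x ∈ A) (le : k ≤ j) :
    g ^ j • x ∈ A := by
  induction j, le using Int.leInduction with
  | base => exact hk
  | succ n _ ih =>
    rw [add_comm, zpow_one_add, mul_smul]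
    exact sub _ ih

/-- the group generated by the lattice and the element has finite index -/
theorem c5_fi (hM : Mfd T) (inv : Inv P A) (fin : SmP P (cut T A)) (sub : ∀ x ∈ A, g • x ∈ A)
    {x₀ : X0} (h₀ : x₀ ∈ A) (h₁ : g⁻¹ • x₀ ∉ A) (hD : SmP P {x | x ∈ A ∧ g⁻¹ • x ∉ A}) :
    (P ⊔ zpowers g).FiniteIndex := by
  have n0 : ∀ m : ℤ, m < 0 → g ^ m ∉ P := fun m hm k => h₁ (by
    have := c5_mono sub ((inv _ k x₀).2 h₀) (show m ≤ -1 by omega)
    rwa [zpow_neg_one] at this)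
  have np : ∀ m : ℤ, g ^ m ∈ P → m = 0 := fun m k => by
    rcases lt_trichotomy m 0 with l | l | l
    · exact absurd k (n0 m l)
    · exact l
    · exact absurd (by rw [zpow_neg]; exact P.inv_mem k) (n0 (-m) (by omega))
  have ed : ∀ e : X1, {k : ℤ | g ^ k • e ∈ cut T A}.Finite := fun e => by
    obtain ⟨K, hK, k⟩ := fin
    refine (hK.biUnion (t := fun c => {j : ℤ | ∃ p ∈ P, g ^ j • e = p • c})
      fun c _ => Set.Subsingleton.finite ?_).subset fun j hj => ?_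
    · rintro i ⟨p, hp, ei⟩ j ⟨q, hq, ej⟩
      have e1 : ((g ^ j)⁻¹ * q * p⁻¹ * g ^ i) • e = e := by
        rw [mul_smul, ei, mul_smul, inv_smul_smul, mul_smul, ← ej, inv_smul_smul]
      have e2 : g ^ (j - i) = q * p⁻¹ := by
        have := T.free1 _ _ e1
        rw [mul_assoc, mul_assoc, inv_mul_eq_one, ← mul_assoc] at this
        rw [zpow_sub, this, mul_inv_cancel_right]
      have := np _ (e2 ▸ P.mul_mem hq (P.inv_mem hp))
      omega
    · obtain ⟨c, hc, p⟩ := k _ hj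
      exact mem_biUnion hc p
  have ct : ∀ S : Set X0, (∀ e, T.d1 e 0 ∈ S ↔ T.d1 e 1 ∈ S) → x₀ ∈ S → ∀ x, x ∈ S :=
    fun S hS h x => by
      by_contra n
      have := const_of hM (t := wi S) (fun e => wi_congr (hS e)) x₀ x
      rw [wi_pos h, wi_neg n] at this
      exact one_ne_zero this
  have cu : ∀ (e : X1) (k : ℤ), g ^ k • e ∈ cut T A ↔
      ¬ (g ^ k • T.d1 e 0 ∈ A ↔ g ^ k • T.d1 e 1 ∈ A) := fun e k => by
    rw [← T.e1, ← T.e1]
    rfl
  have up := ct {x | ∃ k : ℤ, g ^ k • x ∈ A} (fun e => by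
    by_contra n
    refine absurd (ed e) (Set.not_finite.2 ?_)
    by_cases u : ∃ k : ℤ, g ^ k • T.d1 e 0 ∈ A
    · obtain ⟨k, hk⟩ := u
      exact (Set.Ici_infinite k).mono fun j hj => (cu e j).2 fun q =>
        n (iff_of_true ⟨k, hk⟩ ⟨j, q.1 (c5_mono sub hk hj)⟩)
    · by_cases v : ∃ k : ℤ, g ^ k • T.d1 e 1 ∈ A
      · obtain ⟨k, hk⟩ := v
        exact (Set.Ici_infinite k).mono fun j hj => (cu e j).2 fun q =>
          u ⟨j, q.2 (c5_mono sub hk hj)⟩
      · exact absurd (iff_of_false u v) n) ⟨0, by rwa [zpow_zero, one_smul]⟩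
  have dn := ct {x | ∃ k : ℤ, g ^ k • x ∉ A} (fun e => by
    by_contra n
    refine absurd (ed e) (Set.not_finite.2 ?_)
    by_cases u : ∃ k : ℤ, g ^ k • T.d1 e 0 ∉ A
    · obtain ⟨k, hk⟩ := u
      exact (Set.Iic_infinite k).mono fun j hj => (cu e j).2 fun q =>
        n (iff_of_true ⟨k, hk⟩ ⟨j, fun r => hk (c5_mono sub (q.2 r) hj)⟩)
    · by_cases v : ∃ k : ℤ, g ^ k • T.d1 e 1 ∉ A
      · obtain ⟨k, hk⟩ := v
        exact (Set.Iic_infinite k).mono fun j hj => (cu e j).2 fun q =>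
          u ⟨j, fun r => hk (c5_mono sub (q.1 r) hj)⟩
      · exact absurd (iff_of_false u v) n) ⟨-1, by rwa [zpow_neg_one]⟩
  obtain ⟨K, hK, k⟩ := hD
  refine finiteIndex_of T.free x₀ K hK fun γ => ?_
  obtain ⟨l, hl⟩ := dn (γ • x₀)
  obtain ⟨m, hm, mi⟩ := Int.exists_least_of_bdd (P := fun k => g ^ k • γ • x₀ ∈ A)
    ⟨l, fun z hz => le_of_not_ge fun q => hl (c5_mono sub hz q)⟩ (up (γ • x₀))
  obtain ⟨c, hc, p, hp, e⟩ := k (g ^ m • γ • x₀) ⟨hm, fun q => by
    have := mi (-1 + m) (by rwa [zpow_add, zpow_neg_one, mul_smul])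
    omega⟩
  refine ⟨c, hc, ⟨(g ^ m)⁻¹ * p, mul_mem (inv_mem (mem_sup_right (zpow_mem_zpowers g m)))
    (mem_sup_left hp)⟩, ?_⟩
  show γ • x₀ = ((g ^ m)⁻¹ * p) • c
  rw [mul_smul, ← e, inv_smul_smul]

/-- the translate of a wall by an element of the normaliser is a wall -/
theorem c5_wall (h : Commute a b) (hA : IsWall T a b A) (inv : Inv (pp a b) A)
    (hg : ∀ p, p ∈ pp a b ↔ g * p * g⁻¹ ∈ pp a b) : IsWall T a b {x | g⁻¹ • x ∈ A} := by
  have hg' : ∀ p ∈ pp a b, g⁻¹ * p * g⁻¹⁻¹ ∈ pp a b := fun p hp => (hg _).2 (by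
    rwa [show g * (g⁻¹ * p * g⁻¹⁻¹) * g⁻¹ = p by group])
  have iv : ∀ p ∈ pp a b, ∀ x : X0, g⁻¹ • p • x ∈ A ↔ g⁻¹ • x ∈ A := fun p hp x => by
    rw [← inv _ (hg' p hp) (g⁻¹ • x), mul_smul, inv_smul_smul, mul_smul]
  refine ⟨iv a (subset_closure (by simp)), iv b (subset_closure (by simp)),
    (c5_sm2 h).2 ((c5_pre (fun p => (hg p).1) ((c5_sm2 h).1 hA.fin)).mono fun e he => ?_),
    fun k => hA.big ((c5_sm2 h).2 ((c5_pre hg' ((c5_sm2 h).1 k)).mono fun x hx => ?_)),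
    fun k => hA.big' ((c5_sm2 h).2 ((c5_pre hg' ((c5_sm2 h).1 k)).mono fun x hx => ?_))⟩
  · show ¬ (T.d1 (g⁻¹ • e) 0 ∈ A ↔ T.d1 (g⁻¹ • e) 1 ∈ A)
    rw [T.e1, T.e1]
    exact he
  · show g⁻¹ • g⁻¹⁻¹ • x ∈ A
    rwa [smul_inv_smul]
  · show ¬ g⁻¹ • g⁻¹⁻¹ • x ∈ A
    rwa [smul_inv_smul]

/-- block C5 -/
theorem line_normal (hM : Mfd T) (hL : Line T) :
    ∃ Y : Subgroup G, Y.Normal ∧ Y ≠ ⊥ ∧ Y.FG ∧ ∀ x ∈ Y, ∀ y ∈ Y, Commute x y := by
  obtain ⟨a, b, g, A, ⟨h, ind⟩, hA, mn, hg, ss⟩ := hL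
  have hB := c5_wall h hA mn.inv fun p => (hg p).symm
  obtain ⟨x₀, h₀, h₁⟩ := exists_of_ssubset ss
  have sb : ∀ x, g⁻¹ • x ∈ A → x ∈ A := fun x hx => ss.1 (mem_smul_set_iff_inv_smul_mem.2 hx)
  refine c5_grp h (fun n k => (ind n 0 (by rw [k, zpow_zero, one_mul])).1) (fun p => (hg p).symm)
    (c5_fi hM mn.inv mn.fin (fun x hx => ss.1 (smul_mem_smul_set hx)) h₀
      (fun q => h₁ (mem_smul_set_iff_inv_smul_mem.2 q)) ?_)
  rcases wall_uniq hM h ind hA hB with k | k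
  · exact ((c5_sm2 h).1 k).mono fun x hx q => hx.2 (q.1 hx.1)
  · exact absurd (Sm2_mono k fun x hx q => q.1 (sb x hx) hx) hB.big

theorem line_ab (hM : Mfd T) (h : Line T) : ∃ Y : Subgroup G, Y ≠ ⊥ ∧ Y.Normal ∧ Y.FG ∧
    ∀ x ∈ Y, ∀ y ∈ Y, x * y = y * x :=
  let ⟨Y, n, e, f, c⟩ := line_normal hM h
  ⟨Y, e, n, f, c⟩

end Pool.Agent.Work.MP_3d425c_gt.Cw
end

-- merged part: Pool.Agent.Work.MP_3d425c_gt.Cw.Ori
section
/-! The stabiliser of a side of a wall is free abelian of rank two. -/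

namespace Pool.Agent.Work.MP_3d425c_gt.Cw
open Set Relation Pool.Agent.Work.MP_3d425c_gt.Md Pool.Agent.Work.MP_3d425c_gt.Cy
  Pool.Agent.Work.MP_3d425c_gt.Bg Pool.Agent.Work.MP_3d425c_gt.Bq Pool.Agent.Work.MP_3d425c_gt.Jw

theorem ori_lin {M : Type} [AddCommGroup M] (tf : ∀ (n : ℤ) (x : M), n • x = 0 → n = 0 ∨ x = 0)
    (dep : ∀ x y z : M, ∃ r s t : ℤ, ¬ (r = 0 ∧ s = 0 ∧ t = 0) ∧ r • x + s • y + t • z = 0)
    (σ : Module.End ℤ M) {k : ℕ} (hk : k ≠ 0) (hσ : σ ^ k = 1) {q n : M} (q0 : q ≠ 0)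
    (σq : σ q = q) (hn : σ n ≠ n) :
    ∃ p, σ p = -p ∧ ∀ m n : ℤ, m • q + n • p = 0 → m = 0 ∧ n = 0 := by
  obtain ⟨N, hN⟩ : ∃ N : Module.End ℤ M, N = ∑ i ∈ Finset.range k, σ ^ i := ⟨_, rfl⟩
  have N1 : ∀ x, N (σ x) = N x := fun x => by
    have := geom_sum_mul σ k
    rw [← hN, hσ, sub_self] at this
    have e := congrArg (fun f : Module.End ℤ M => f x) this
    simp only [Module.End.mul_apply, LinearMap.sub_apply, Module.End.one_apply, map_sub,
      LinearMap.zero_apply] at e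
    exact sub_eq_zero.1 e
  have it : ∀ (x : M) (c d : ℤ), c • σ x = d • x → ∀ i : ℕ, c ^ i • (σ ^ i) x = d ^ i • x :=
    fun x c d e i => by
      induction i with
      | zero => simp
      | succ i ih =>
        rw [pow_succ' σ, Module.End.mul_apply, pow_succ' c, mul_smul, ← map_zsmul σ, ih,
          map_zsmul, smul_comm, e, ← mul_smul, pow_succ]
  have N2 : ∀ x, σ x = x → N x = (k : ℤ) • x := fun x e => by
    have := it x 1 1 (by rw [e])
    simp only [one_pow, one_smul] at this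
    rw [hN, LinearMap.sum_apply, Finset.sum_congr rfl fun i _ => this i]
    simp
  have k0 : (k : ℤ) ≠ 0 := Int.natCast_ne_zero.2 hk
  have p0 : n - σ n ≠ 0 := fun e => hn (sub_eq_zero.1 e).symm
  have Np : N (n - σ n) = 0 := by rw [map_sub, N1, sub_self]
  generalize n - σ n = p at p0 Np
  have Nq : ∀ m : ℤ, N (m • q) = 0 → m = 0 := fun m e => by
    rw [map_zsmul, N2 q σq, ← mul_smul] at e
    exact (mul_eq_zero.1 ((tf _ _ e).resolve_right q0)).resolve_right k0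
  refine ⟨p, ?_, fun m n e => ?_⟩
  · obtain ⟨r, s, t, nz, e⟩ := dep p q (σ p)
    have s0 : s = 0 := Nq s (by
      have := congrArg N e
      rwa [map_add, map_add, map_zsmul, map_zsmul N t, N1, Np, smul_zero, smul_zero, zero_add,
        add_zero, map_zero] at this)
    rw [s0, zero_smul, add_zero] at e
    have t0 : t ≠ 0 := fun h => by
      rw [h, zero_smul, add_zero] at e
      exact nz ⟨(tf _ _ e).resolve_right p0, s0, h⟩
    have e' : t • σ p = (-r) • p := by rw [neg_smul]; exact eq_neg_of_add_eq_zero_right e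
    have k1 := it p t (-r) e' k
    rw [hσ, Module.End.one_apply, ← sub_eq_zero, ← sub_smul] at k1
    have k2 : |t| ^ k = |-r| ^ k := by
      rw [← abs_pow, ← abs_pow, sub_eq_zero.1 ((tf _ _ k1).resolve_right p0)]
    rcases abs_eq_abs.1 ((pow_left_inj₀ (abs_nonneg _) (abs_nonneg _) hk).1 k2) with h | h
    · rw [← h, ← sub_eq_zero, ← smul_sub] at e'
      have := N2 p (sub_eq_zero.1 ((tf _ _ e').resolve_left t0))
      exact absurd ((tf _ _ (this.symm.trans Np)).resolve_left k0) p0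
    · rw [neg_neg] at h
      rw [← h, neg_smul, ← smul_neg, ← sub_eq_zero, ← smul_sub] at e'
      exact sub_eq_zero.1 ((tf _ _ e').resolve_left t0)
  · have m0 : m = 0 := Nq m (by
      have := congrArg N e
      rwa [map_add, map_zsmul N n, Np, smul_zero, add_zero, map_zero] at this)
    rw [m0, zero_smul, zero_add] at e
    exact ⟨m0, (tf _ _ e).resolve_right p0⟩

theorem ori_dep (x y z : ℤ × ℤ) :
    ∃ r s t : ℤ, ¬ (r = 0 ∧ s = 0 ∧ t = 0) ∧ r • x + s • y + t • z = 0 := by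
  have : ¬ LinearIndependent ℤ ![x, y, z] := fun h => by
    have := h.fintype_card_le_finrank
    simp at this
  obtain ⟨g, e, i, hi⟩ := Fintype.not_linearIndependent_iff.1 this
  rw [Fin.sum_univ_three] at e
  refine ⟨g 0, g 1, g 2, fun k => hi ?_, e⟩
  fin_cases i
  exacts [k.1, k.2.1, k.2.2]

theorem ori_pow {H : Type} [Group H] (tf : ∀ a : H, a ≠ 1 → ¬ IsOfFinOrder a) {x : H} {n : ℤ}
    (e : x ^ n = 1) : n = 0 ∨ x = 1 := by
  by_contra k
  rw [not_or] at k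
  exact tf x k.2 (isOfFinOrder_iff_zpow_eq_one.2 ⟨n, k.1, e⟩)

theorem ori_grp {H : Type} [Group H] (tf : ∀ a : H, a ≠ 1 → ¬ IsOfFinOrder a)
    (j : Multiplicative (ℤ × ℤ) →* H) (hj : Function.Injective j) [j.range.FiniteIndex]
    (no : ∀ g q p : H, q ∈ j.range → p ∈ j.range →
      (∀ m n : ℤ, q ^ m * p ^ n = 1 → m = 0 ∧ n = 0) → Commute q g → g * p = p⁻¹ * g → False) :
    Nonempty (H ≃* Multiplicative (ℤ × ℤ)) := by
  obtain ⟨N, hN⟩ : ∃ N, N = j.range.normalCore := ⟨_, rfl⟩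
  have le : N ≤ j.range := hN ▸ j.range.normalCore_le
  have : N.Normal := hN ▸ inferInstance
  have : N.FiniteIndex := hN ▸ inferInstance
  have cen : N ≤ Subgroup.center H := fun n hn => Subgroup.mem_center_iff.2 fun g => by
    by_contra hg
    let : CommGroup N := { (inferInstance : Group N) with
      mul_comm := fun x y => Subtype.ext (by
        obtain ⟨u, hu⟩ := le x.2
        obtain ⟨v, hv⟩ := le y.2
        show (x : H) * y = y * x
        rw [← hu, ← hv, ← map_mul, ← map_mul, mul_comm]) }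
    let σ : Module.End ℤ (Additive N) :=
      (MonoidHom.toAdditive (MulAut.conjNormal g : MulAut N).toMonoidHom).toIntLinearMap
    have hσ : ∀ x : Additive N, ((σ x).toMul : H) = g * x.toMul * g⁻¹ := fun x => rfl
    have ext : ∀ {x y : Additive N}, (x.toMul : H) = y.toMul → x = y := fun e =>
      Additive.toMul.injective (Subtype.ext e)
    have hp : ∀ (i : ℕ) (x : Additive N), (((σ ^ i) x).toMul : H) = g ^ i * x.toMul * (g ^ i)⁻¹ :=
      fun i x => by
        induction i with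
        | zero => simp
        | succ i ih => rw [pow_succ' σ, Module.End.mul_apply, hσ, ih, pow_succ']; group
    have k0 : N.index ≠ 0 := Subgroup.FiniteIndex.index_ne_zero
    have mq : g ^ N.index ∈ N := N.pow_index_mem g
    obtain ⟨p, e1, e2⟩ := ori_lin (M := Additive N) (fun m x e => (ori_pow tf
        (x := (x.toMul : H)) (congrArg (fun y : Additive N => (y.toMul : H)) e)).imp_right
        fun k => ext k)
      (fun x y z => by
        obtain ⟨u, hu⟩ := le x.toMul.2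
        obtain ⟨v, hv⟩ := le y.toMul.2
        obtain ⟨w, hw⟩ := le z.toMul.2
        obtain ⟨r, s, t, nz, e⟩ := ori_dep u.toAdd v.toAdd w.toAdd
        refine ⟨r, s, t, nz, ext ?_⟩
        show (x.toMul : H) ^ r * (y.toMul : H) ^ s * (z.toMul : H) ^ t = 1
        rw [← hu, ← hv, ← hw, ← map_zpow, ← map_zpow, ← map_zpow, ← map_mul, ← map_mul, ← map_one j]
        exact congrArg j (Multiplicative.toAdd.injective e))
      σ k0 (LinearMap.ext fun x => ext (by
        rw [hp]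
        exact mul_inv_eq_iff_eq_mul.2
          (congrArg Subtype.val (mul_comm (⟨_, mq⟩ : N) x.toMul))))
      (q := Additive.ofMul ⟨_, mq⟩) (n := Additive.ofMul ⟨n, hn⟩)
      (fun e => by
        have e' : g ^ (N.index : ℤ) = 1 := by
          rw [zpow_natCast]
          exact congrArg (fun y : Additive N => (y.toMul : H)) e
        rcases ori_pow tf e' with k | k
        · exact k0 (Int.natCast_eq_zero.1 k)
        · exact hg (by rw [k, one_mul, mul_one]))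
      (ext (by
        rw [hσ]
        show g * g ^ N.index * g⁻¹ = g ^ N.index
        group))
      fun e => hg (mul_inv_eq_iff_eq_mul.1 (congrArg (fun y : Additive N => (y.toMul : H)) e))
    refine no g (g ^ N.index) p.toMul (le mq) (le p.toMul.2) (fun m n e => e2 m n (ext e))
      ((Commute.refl g).pow_left _) (mul_inv_eq_iff_eq_mul.1 ?_)
    exact congrArg (fun y : Additive N => (y.toMul : H)) e1
  have : (Subgroup.center H).FiniteIndex := Subgroup.finiteIndex_of_le cen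
  have inj : ∀ {K : Type} [Group K] (f : H →* K) (d : ℕ), d ≠ 0 → (∀ x, f x = 1 → x ^ d = 1) →
      Function.Injective f := fun f d hd k => (injective_iff_map_eq_one f).2 fun x e =>
    (ori_pow tf (n := d) (by rw [zpow_natCast]; exact k x e)).resolve_left
      (Int.natCast_ne_zero.2 hd)
  have comm : ∀ x y : H, x * y = y * x := fun x y =>
    inj (MonoidHom.transferCenterPow H) _ Subgroup.FiniteIndex.index_ne_zero
      (fun x e => congrArg Subtype.val e) (by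
        rw [map_mul, map_mul]
        exact Subtype.ext (Subgroup.mem_center_iff.1 (MonoidHom.transferCenterPow H y).2 _))
  let : CommGroup H := { (inferInstance : Group H) with mul_comm := comm }
  let f : H →* Multiplicative (ℤ × ℤ) := (MonoidHom.ofInjective hj).symm.toMonoidHom.comp
    ((powMonoidHom j.range.index).codRestrict j.range fun x => j.range.pow_index_mem x)
  have hf : Function.Injective f := inj f _ Subgroup.FiniteIndex.index_ne_zero fun x e =>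
    congrArg Subtype.val ((map_eq_one_iff _ (MonoidHom.ofInjective hj).symm.injective).1 e)
  let f' : Additive H →ₗ[ℤ] ℤ × ℤ := (MonoidHom.toAdditiveLeft f).toIntLinearMap
  let j' : ℤ × ℤ →ₗ[ℤ] Additive H := (MonoidHom.toAdditiveRight j).toIntLinearMap
  have hf' : Function.Injective f' := hf
  have hj' : Function.Injective j' := hj
  have := Module.Finite.of_injective f' hf'
  have := Module.Free.of_equiv (LinearEquiv.ofInjective f' hf').symm
  exact ⟨AddEquiv.toMultiplicativeRight (LinearEquiv.ofFinrankEq (R := ℤ) (Additive H) (ℤ × ℤ)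
    (le_antisymm (LinearMap.finrank_le_finrank_of_injective hf')
      (LinearMap.finrank_le_finrank_of_injective hj'))).toAddEquiv⟩

variable {G X0 X1 X2 X3 : Type} [Group G] [MulAction G X0] [MulAction G X1] [MulAction G X2]
  [MulAction G X3] {T : Tri G X0 X1 X2 X3} {a b : G}

/-- translation by a commuting element acts trivially in degree two -/
theorem ori_two (hM : Mfd T) (h0 : NoHom G) (ha : ∀ n : ℤ, a ^ n = 1 → n = 0) (h : Commute a b)
    {t : X2 → ℝ} (ht : Fa a t) (hc : ∀ x, d1_c2 T t x = 0) :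
    ∃ r, Fa a r ∧ ∀ f, d1_c1 T r f = t f - t (b • f) := by
  obtain ⟨w, hw, wc, mv, nt⟩ := we_two hM h0 ha
  obtain ⟨u, hu, eu⟩ := mv b h
  obtain ⟨c, c', hcc, s, hs, es⟩ := wang2 hM ha hc ht wc hw
  have c0 : c ≠ 0 := fun e => by
    have c1 : c' ≠ 0 := hcc.resolve_left fun k => k e
    refine nt _ (hs.lin hs c'⁻¹ 0) fun f => ?_
    have := es f
    rw [e] at this
    unfold d1_c1 at this ⊢
    field_simp
    linarith
  refine ⟨_, (Fa_sub hs (hs.shift h)).lin hu c⁻¹ (-c' / c), fun f => ?_⟩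
  have k1 := es f
  have k2 := es (b • f)
  have k3 := eu f
  unfold d1_c1 at k1 k2 k3 ⊢
  simp only [T.e2] at k2
  field_simp
  linear_combination k2 - k1 - c' * k3

/-- no element that keeps a side reflects the lattice -/
theorem ori_top (hM : Mfd T) (h0 : NoHom G) (h : Commute a b)
    (ind : ∀ m n : ℤ, a ^ m * b ^ n = 1 → m = 0 ∧ n = 0) {A : Set X0} (hA : IsWall T a b A)
    {g : G} (ga : Commute a g) (gb : g * b = b⁻¹ * g) (gA : ∀ x, g • x ∈ A ↔ x ∈ A) : False := by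
  have ha : ∀ n : ℤ, a ^ n = 1 → n = 0 := fun n k => (ind n 0 (by rw [k, zpow_zero, one_mul])).1
  have F0 := cb_fr h ind T.free
  have F1 := cb_fr h ind T.free1
  have F2 := cb_fr h ind T.free2
  have F3 := cb_fr h ind T.free3
  obtain ⟨y, hy, Py⟩ := d1_rep F1 (z := wz T A) (wz_inv hA.ia) (wz_inv hA.ib)
    (Sm2_mono hA.fin fun _ k => wz_ne k)
  obtain ⟨t, ht, et⟩ := (hy.c1 (T := T)).ker F2 fun f => by
    rw [d1_P1 (hy.sb F1), funext Py]
    exact sub_eq_zero.2 (wz_coc A f).symm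
  have tc : ∀ x, d1_c2 T t x = 0 := (ht.c2 (T := T)).zero F3 fun x => by
    have k := d1_c21 (T := T) y x
    unfold d1_c2 at k ⊢
    simp only [T.e3]
    linarith only [k, et (T.d3 x 0), et (T.d3 x 1), et (T.d3 x 2), et (T.d3 x 3)]
  have gn : ∀ n : ℤ, g * b ^ n = b ^ (-n) * g := fun n => by
    have : SemiconjBy g b b⁻¹ := gb
    rw [(this.zpow_right n).eq, inv_zpow']
  have hy' := hy.shift ga
  obtain ⟨r, hr, er⟩ := (Fa_sub hy hy').ker F1 fun e => by
    rw [we_sub (hy.sb F1) (hy'.sb F1), Py, ← wz_inv gA e, ← Py, sub_eq_zero]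
    refine ((Equiv.neg ℤ).tsum_eq _).symm.trans (tsum_congr fun n => ?_)
    show y (b ^ (-n) • g • e) = y (g • b ^ n • e)
    rw [← mul_smul, ← mul_smul, gn]
  have gc : Commute a (g * b⁻¹) := ga.mul_right h.inv_right
  have ht' := ht.shift gc
  obtain ⟨r', hr', er'⟩ := ori_two hM h0 ha gc ht tc
  have z := (Fa_sub (ht.lin ht' 1 1) (hr.c1 (T := T))).zero F2 fun f => by
    have k1 := et f
    have k2 := et (g • f)
    have e1 : (g * b⁻¹) • b • f = g • f := by rw [mul_smul, inv_smul_smul]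
    have e2 : (g * b⁻¹) • f = b • g • f := by
      rw [← mul_smul, ← zpow_neg_one, gn, neg_neg, zpow_one]
    rw [e1, e2]
    unfold d1_c1 at k1 k2 ⊢
    simp only [T.e2] at k2 ⊢
    linarith only [k1, k2, er (T.d2 f 0), er (T.d2 f 1), er (T.d2 f 2)]
  have hu := hr.lin hr' (1 / 2) (1 / 2)
  obtain ⟨u, eu⟩ : ∃ u, u = fun x => 1 / 2 * r x + 1 / 2 * r' x := ⟨_, rfl⟩
  rw [← eu] at hu
  have du : ∀ f, d1_c1 T u f = t f := fun f => by
    have k1 := z f
    have k2 := er' f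
    rw [eu]
    unfold d1_c1 at k1 k2 ⊢
    linarith
  obtain ⟨s, hs, es⟩ := wang1 hM ha (z := fun e => y e - (u e - u (b • e))) (fun f => by
    have k1 := du f
    have k2 := du (b • f)
    have k3 := et f
    unfold d1_c1 at k1 k2 k3 ⊢
    simp only [T.e2] at k2
    linarith) (Fa_sub hy (Fa_sub hu (hu.shift h)))
  have ct := const_of hM (t := fun x => wi A x - zb_P b s x) fun e => by
    have := d1_P0 (T := T) (hs.sb F0) e
    rw [← funext es, d1_P_shift (hy.sb F1) (hu.sb F1), Py] at this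
    unfold wz d1_c0 at this
    linarith
  have p : ∀ S : Set X0, ¬ Sm2 a b S → ∃ x ∈ S, zb_P b s x = 0 := fun S hS => by
    by_contra m
    exact hS (Sm2_mono (hs.P h).2 fun x hx q => m ⟨x, hx, q⟩)
  obtain ⟨x, hx, ex⟩ := p _ hA.big
  obtain ⟨x', hx', ex'⟩ := p _ hA.big'
  have := ct x x'
  simp only [wi_pos hx, wi_neg hx', ex, ex'] at this
  norm_num at this

/-- the lattice as a homomorphism -/
def latt (h : Commute a b) : Multiplicative (ℤ × ℤ) →* G :=
  MonoidHom.mk' (fun v => a ^ v.toAdd.1 * b ^ v.toAdd.2) fun u v => by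
    show a ^ (u.toAdd.1 + v.toAdd.1) * b ^ (u.toAdd.2 + v.toAdd.2) = _
    rw [zpow_add, zpow_add]
    exact ((h.zpow_zpow _ _).mul_mul_mul_comm _ _)

/-- passage to a sublattice of rank two -/
theorem Sm2_sub {X : Type} [MulAction G X] (h : Commute a b) {u w : Multiplicative (ℤ × ℤ)}
    (ind : ∀ m n : ℤ, latt h u ^ m * latt h w ^ n = 1 → m = 0 ∧ n = 0) {S : Set X} :
    Sm2 (latt h u) (latt h w) S ↔ Sm2 a b S := by
  have e : ∀ m n : ℤ, latt h u ^ m * latt h w ^ n = latt h (u ^ m * w ^ n) := fun m n => by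
    rw [map_mul, map_zpow, map_zpow]
  refine ⟨fun ⟨K, hK, k⟩ => ⟨K, hK, fun x hx => ?_⟩, fun ⟨K, hK, k⟩ => ?_⟩
  · obtain ⟨c, hc, m, n, q⟩ := k x hx
    exact ⟨c, hc, _, _, by rw [q, e]; rfl⟩
  · obtain ⟨α, hα⟩ : ∃ α, α = u.toAdd := ⟨_, rfl⟩
    obtain ⟨β, hβ⟩ : ∃ β, β = w.toAdd := ⟨_, rfl⟩
    have z : ∀ m n : ℤ, m • α + n • β = 0 → m = 0 ∧ n = 0 := fun m n q => ind m n (by
      rw [e, ← map_one (latt h)]
      exact congrArg _ (Multiplicative.toAdd.injective (by rwa [hα, hβ] at q)))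
    obtain ⟨D, hD⟩ : ∃ D, D = α.1 * β.2 - α.2 * β.1 := ⟨_, rfl⟩
    have dn : D ≠ 0 := fun d => by
      have p := z β.2 (-α.2) (Prod.ext (by simp; linarith) (by simp; ring))
      have q := z β.1 (-α.1) (Prod.ext (by simp; ring) (by simp; linarith))
      exact one_ne_zero (z 0 1 (Prod.ext (by simp [q.1]) (by simp [p.1]))).2
    refine ⟨⋃ c ∈ K, (fun p : ℤ × ℤ => latt h (Multiplicative.ofAdd p) • c) ''
      (Icc 0 |D| ×ˢ Icc 0 |D|),
      hK.biUnion fun c _ => ((finite_Icc _ _).prod (finite_Icc _ _)).image _, fun x hx => ?_⟩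
    obtain ⟨c, hc, m, n, q⟩ := k x hx
    refine ⟨_, mem_biUnion hc ⟨(m % D, n % D), ⟨⟨Int.emod_nonneg m dn, (Int.emod_lt_abs m dn).le⟩,
      Int.emod_nonneg n dn, (Int.emod_lt_abs n dn).le⟩, rfl⟩,
      m / D * β.2 - n / D * β.1, α.1 * (n / D) - α.2 * (m / D), ?_⟩
    show x = _ • latt h _ • c
    rw [e, ← mul_smul, ← map_mul, q]
    refine congrArg (· • c) (congrArg (latt h) (a₁ := Multiplicative.ofAdd (m, n))
      (Multiplicative.toAdd.injective ?_))
    have d1 := Int.mul_ediv_add_emod m D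
    have d2 := Int.mul_ediv_add_emod n D
    rw [toAdd_mul, toAdd_mul, toAdd_zpow, toAdd_zpow, ← hα, ← hβ]
    refine Prod.ext ?_ ?_
    · show m = (m / D * β.2 - n / D * β.1) * α.1 + (α.1 * (n / D) - α.2 * (m / D)) * β.1 + m % D
      linear_combination -d1 + (m / D) * hD
    · show n = (m / D * β.2 - n / D * β.1) * α.2 + (α.1 * (n / D) - α.2 * (m / D)) * β.2 + n % D
      linear_combination -d2 + (n / D) * hD

/-- a group that keeps a side of a wall and contains its lattice is free abelian of rank two -/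
theorem ori (hM : Mfd T) (h0 : NoHom G) (tf : ∀ a : G, a ≠ 1 → ¬ IsOfFinOrder a)
    (h : Commute a b) (ind : ∀ m n : ℤ, a ^ m * b ^ n = 1 → m = 0 ∧ n = 0) {A : Set X0}
    (hA : IsWall T a b A) (S : Subgroup G) (ha : a ∈ S) (hb : b ∈ S)
    (hS : ∀ g ∈ S, ∀ x, g • x ∈ A ↔ x ∈ A) : Nonempty (S ≃* Multiplicative (ℤ × ℤ)) := by
  let j := (latt h).codRestrict S fun v => mul_mem (zpow_mem ha _) (zpow_mem hb _)
  have hj : Function.Injective j := (injective_iff_map_eq_one j).2 fun v e =>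
    Multiplicative.toAdd.injective
      (Prod.ext (ind _ _ (congrArg Subtype.val e)).1 (ind _ _ (congrArg Subtype.val e)).2)
  have ne : ∀ S : Set X0, ¬ Sm2 a b S → ∃ x, x ∈ S := fun S hS => by
    by_contra m
    exact hS ⟨∅, finite_empty, fun x hx => (m ⟨x, hx⟩).elim⟩
  obtain ⟨e, he⟩ : ∃ e, e ∈ cut T A := by
    by_contra m
    obtain ⟨x, hx⟩ := ne _ hA.big
    obtain ⟨y, hy⟩ := ne _ hA.big'
    have := const_of hM (t := wi A) (fun e => wi_congr (not_not.1 fun k => m ⟨e, k⟩)) x y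
    rw [wi_pos hx, wi_neg hy] at this
    exact one_ne_zero this
  have : j.range.FiniteIndex := by
    obtain ⟨K, hK, k⟩ := hA.fin
    refine finiteIndex_of (G := S) (fun g x e => Subtype.ext (T.free1 g x e)) e K hK fun g => ?_
    obtain ⟨c, hc, m, n, q⟩ := k ((g : G) • e) fun q => he (by
      rwa [T.e1, T.e1, hS _ g.2, hS _ g.2] at q)
    exact ⟨c, hc, ⟨_, Multiplicative.ofAdd (m, n), rfl⟩, q⟩
  refine ori_grp (fun x hx k => tf x (fun e => hx (Subtype.ext e))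
    (S.subtype.isOfFinOrder k)) j hj ?_
  rintro g _ _ ⟨u, rfl⟩ ⟨w, rfl⟩ id c e
  have id' : ∀ m n : ℤ, latt h u ^ m * latt h w ^ n = 1 → m = 0 ∧ n = 0 := fun m n k =>
    id m n (Subtype.ext k)
  exact ori_top hM h0 (a := latt h u) (b := latt h w) ((Commute.all u w).map _) id'
    ⟨hS _ (j u).2, hS _ (j w).2, (Sm2_sub h id').2 hA.fin, mt (Sm2_sub h id').1 hA.big,
      mt (Sm2_sub h id').1 hA.big'⟩ (g := g) (congrArg Subtype.val c.eq)
    (congrArg Subtype.val e) (hS _ g.2)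

open scoped Pointwise in
theorem Can.z2 {A : Set X0} (S : Std T) (h : Can T A) :
    Nonempty (MulAction.stabilizer G A ≃* Multiplicative (ℤ × ℤ)) := by
  obtain ⟨a, b, z, w, -⟩ := h
  have k : ∀ g : G, g ∈ MulAction.stabilizer G A ↔ ∀ x, g • x ∈ A ↔ x ∈ A := fun g =>
    MulAction.mem_stabilizer_set
  exact ori S.mfd S.nh S.tf z.1 z.2 w _ ((k a).2 w.ia) ((k b).2 w.ib) fun g => (k g).1

end Pool.Agent.Work.MP_3d425c_gt.Cw
end

-- merged part: Pool.Agent.Work.MP_3d425c_gt.Cw.Skel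
section
/-! The canonical walls: all files. -/
end

-- merged part: Pool.Agent.Work.MP_3d425c_gt.Cw.Un
section
/-! The canonical walls that are nested with all canonical walls form a nested family with
finitely many orbits. -/

namespace Pool.Agent.Work.MP_3d425c_gt.Cw
open Set MulAction Pool.Agent.Work.MP_3d425c_gt.Md Pool.Agent.Work.MP_3d425c_gt.Bg
  Pool.Agent.Work.MP_3d425c_gt.Bq Pool.Agent.Work.MP_3d425c_gt.Jw Pool.Agent.Work.MP_3d425c_gt.Nh
open scoped Pointwise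

variable {G X0 X1 X2 X3 : Type} [Group G] [MulAction G X0] [MulAction G X1] [MulAction G X2]
  [MulAction G X3] {T : Tri G X0 X1 X2 X3}

/-- the facts on canonical walls that the tree uses -/
structure Cf (T : Tri G X0 X1 X2 X3) : Prop where
  smul : ∀ (g : G) A, Can T A → Can T (g • A)
  mst : ∀ A, Can T A → Can T (st T A)
  inv : ∀ A, Can T A → st T (st T A) = A
  ast : ∀ (g : G) A, Can T A → st T (g • A) = g • st T A
  dis : ∀ A, Can T A → st T A ⊆ Aᶜ
  anti : ∀ A B, Can T A → Can T B → A ⊆ B → st T B ⊆ st T A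
  fin : ∀ A, Can T A → SmP (stabilizer G A) (cut T A)
  big : ∀ A, Can T A → ¬ SmP (stabilizer G A) A
  rk : ∀ A B, Can T A → Can T B → A ≠ B → A ≠ st T B →
    IsCyclic ↥(stabilizer G A ⊓ stabilizer G B)

/-- a nested family with half spaces in the complex -/
structure Sy (T : Tri G X0 X1 X2 X3) {E : Type} [MulAction G E] (lt : E → E → Prop) (s : E → E)
    (m : E → Set X0) : Prop where
  poc : Poc G lt s
  mono : ∀ e f, lt e f → m e ⊆ m f
  eqv : ∀ (g : G) e, m (g • e) = g • m e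
  dis : ∀ e, m (s e) ⊆ (m e)ᶜ
  fin : ∀ e, SmP (stabilizer G e) (cut T (m e))
  big : ∀ e, ¬ SmP (stabilizer G e) (m e)
  orb : SmP (⊤ : Subgroup G) (univ : Set E)
  rk : ∀ e f, lt e f → IsCyclic ↥(stabilizer G e ⊓ stabilizer G f)

/-- the number of orbits of a nested family is bounded -/
def Bound (T : Tri G X0 X1 X2 X3) : Prop := ∃ N : ℕ, ∀ (E : Type) [MulAction G E] [Nonempty E]
  (lt : E → E → Prop) (s : E → E) (m : E → Set X0), Sy T lt s m →
  ∃ K : Set E, K.Finite ∧ K.ncard ≤ N ∧ ∀ e, ∃ k ∈ K, ∃ g : G, e = g • k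

theorem un_cut (g : G) (A : Set X0) (e : X1) : g • e ∈ cut T (g • A) ↔ e ∈ cut T A := by
  simp only [cut, mem_ofPred_eq, T.e1, smul_mem_smul_set_iff]

/-- an edge leaves finitely many members -/
theorem un_edge {F : Set (Set X0)} (ho : SmP (⊤ : Subgroup G) F)
    (hf : ∀ A ∈ F, SmP (stabilizer G A) (cut T A)) (e : X1) : {A ∈ F | e ∈ cut T A}.Finite := by
  obtain ⟨K, hK, k⟩ := ho
  have key : ∀ B : Set X0, {A ∈ F | e ∈ cut T A ∧ ∃ g : G, A = g • B}.Finite := fun B => by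
    rcases eq_empty_or_nonempty {A ∈ F | e ∈ cut T A ∧ ∃ g : G, A = g • B} with h | ⟨A₀, h₀, -, g₀, e₀⟩
    · rw [h]
      exact finite_empty
    obtain ⟨L, hL, l⟩ := hf A₀ h₀
    refine (hL.biUnion (t := fun c => (fun g : G => g • A₀) '' {g | g • c = e}) fun c _ =>
      Finite.image _ (Set.Subsingleton.finite fun g a g' b => ?_)).subset ?_
    · have : (g'⁻¹ * g) • c = c := by
        rw [mul_smul, a, inv_smul_eq_iff, b]
      exact (inv_mul_eq_one.1 (T.free1 _ _ this)).symm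
    · rintro A ⟨-, c, g, rfl⟩
      have a : g • B = (g * g₀⁻¹) • A₀ := by rw [e₀, mul_smul, inv_smul_smul]
      rw [a, ← smul_inv_smul (g * g₀⁻¹) e, un_cut] at c
      obtain ⟨x, hx, p, hp, q⟩ := l _ c
      refine mem_biUnion hx ⟨g * g₀⁻¹ * p, ?_, ?_⟩
      · show (g * g₀⁻¹ * p) • x = e
        rw [mul_smul, ← q, smul_inv_smul]
      · show (g * g₀⁻¹ * p) • A₀ = g • B
        rw [mul_smul, a, mem_stabilizer_iff.1 hp]
  refine (hK.biUnion fun B _ => key B).subset fun A h => ?_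
  obtain ⟨B, hB, p, -, q⟩ := k A h.1
  exact mem_biUnion hB ⟨h.1, h.2, p, q⟩

/-- finitely many members separate two vertices -/
theorem un_sep (hM : Mfd T) {F : Set (Set X0)} (ho : SmP (⊤ : Subgroup G) F)
    (hf : ∀ A ∈ F, SmP (stabilizer G A) (cut T A)) (x y : X0) :
    {A ∈ F | ¬ (x ∈ A ↔ y ∈ A)}.Finite := by
  have c := const_of hM (t := wi {y | {A ∈ F | ¬ (x ∈ A ↔ y ∈ A)}.Finite}) (fun e => wi_congr
    ⟨fun h => (Finite.union h (un_edge ho hf e)).subset fun A k => ?_,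
      fun h => (Finite.union h (un_edge ho hf e)).subset fun A k => ?_⟩) x y
  · by_contra n
    rw [wi_pos (by simp), wi_neg n] at c
    exact one_ne_zero c
  · have := k.2
    simp only [mem_union, mem_ofPred_eq, k.1, cut, true_and]
    tauto
  · have := k.2
    simp only [mem_union, mem_ofPred_eq, k.1, cut, true_and]
    tauto

namespace Cf
variable (h : Cf T)
include h

theorem ne {A : Set X0} (hA : Can T A) : A.Nonempty :=
  nonempty_iff_ne_empty.2 fun e => h.big A hA (e ▸ SmP.empty)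

theorem nsub {A : Set X0} (hA : Can T A) : ¬ A ⊆ st T A := fun k =>
  let ⟨_, hx⟩ := h.ne hA
  h.dis A hA (k hx) hx

theorem inj {A B : Set X0} (hA : Can T A) (hB : Can T B) (e : st T A = st T B) : A = B := by
  rw [← h.inv A hA, e, h.inv B hB]

theorem anti' {A B : Set X0} (hA : Can T A) (hB : Can T B) (k : A ⊂ B) : st T B ⊂ st T A :=
  ssubset_iff_subset_ne.2 ⟨h.anti A B hA hB k.1, fun e => k.ne (h.inj hB hA e).symm⟩

theorem stab {A : Set X0} (hA : Can T A) : stabilizer G (st T A) = stabilizer G A := by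
  ext g
  rw [mem_stabilizer_iff, mem_stabilizer_iff, ← h.ast g A hA]
  exact ⟨h.inj (h.smul g A hA) hA, congrArg _⟩

theorem nst_symm {A B : Set X0} (hA : Can T A) (hB : Can T B) (k : Nst T A B) : Nst T B A := by
  rcases k with k | k | k | k
  · exact .inr (.inr (.inr k))
  · exact .inr (.inl (h.inv B hB ▸ h.anti _ _ hA (h.mst B hB) k))
  · exact .inr (.inr (.inl (h.inv A hA ▸ h.anti _ _ (h.mst A hA) hB k)))
  · exact .inl k

theorem nst_st {A B : Set X0} (hA : Can T A) (hB : Can T B) (k : Nst T A B) :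
    Nst T (st T A) B := by
  rcases k with k | k | k | k
  · exact .inr (.inr (.inl ((h.inv A hA).symm ▸ k)))
  · exact .inr (.inr (.inr (h.inv B hB ▸ h.anti _ _ hA (h.mst B hB) k)))
  · exact .inl k
  · exact .inr (.inl (h.anti _ _ hB hA k))

theorem nst_smul (g : G) {A B : Set X0} (hA : Can T A) (hB : Can T B) (k : Nst T A B) :
    Nst T (g • A) (g • B) := by
  unfold Nst at k ⊢
  rw [h.ast g A hA, h.ast g B hB]
  simpa only [smul_set_subset_smul_set_iff] using k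

theorem unc_smul (g : G) {A : Set X0} (hA : Unc T A) : Unc T (g • A) :=
  ⟨h.smul g A hA.1, fun B hB => by
    simpa only [smul_inv_smul] using
      h.nst_smul g hA.1 (h.smul g⁻¹ B hB) (hA.2 _ (h.smul g⁻¹ B hB))⟩

theorem unc_st {A : Set X0} (hA : Unc T A) : Unc T (st T A) :=
  ⟨h.mst A hA.1, fun B hB => h.nst_st hA.1 hB (hA.2 B hB)⟩

/-- an invariant nested family of walls with finitely many orbits is a system -/
theorem sy0 (hM : Mfd T) (F : SubMulAction G (Set X0)) (hF : ∀ A ∈ F, Can T A)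
    (hn : ∀ A ∈ F, ∀ B ∈ F, Nst T A B)
    (hs : ∀ A ∈ F, st T A ∈ F) (ho : SmP (⊤ : Subgroup G) (F : Set (Set X0))) :
    Sy T (fun e f : F => e.1 ⊂ f.1) (fun e => ⟨st T e.1, hs _ e.2⟩) Subtype.val := by
  have c : ∀ e : F, Can T e.1 := fun e => hF _ e.2
  have sb : ∀ e : F, stabilizer G e = stabilizer G e.1 := fun e => by
    ext g
    rw [mem_stabilizer_iff, mem_stabilizer_iff, Subtype.ext_iff]
    rfl
  have sp : ∀ {A B : Set X0}, A ⊆ B → A = B ∨ A ⊂ B := fun k => k.eq_or_ssubset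
  refine ⟨⟨fun e => ssubset_irrefl _, fun a b => a.trans b, fun e => Subtype.ext (h.inv _ (c e)),
    fun e k => h.nsub (c e) (congrArg Subtype.val k).ge, fun e k => h.nsub (c e) k.1,
    fun {e f} k => h.anti' (c e) (c f) k, fun g e f k => ?_,
    fun g e => Subtype.ext (h.ast g _ (c e)), fun e f => ?_, fun e f => ?_⟩,
    fun e f k => k.1, fun g e => rfl, fun e => h.dis _ (c e), fun e => sb e ▸ h.fin _ (c e),
    fun e => sb e ▸ h.big _ (c e), ?_, fun e f k => ?_⟩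
  · exact ssubset_iff_subset_ne.2 ⟨smul_set_mono k.1, fun q => k.ne (smul_left_cancel g q)⟩
  · rcases hn _ e.2 _ f.2 with k | k | k | k <;> rcases sp k with k | k
    · exact .inl (Subtype.ext k)
    · exact .inr (.inr (.inl k))
    · exact .inr (.inl (Subtype.ext k))
    · exact .inr (.inr (.inr (.inl k)))
    · exact .inr (.inl (Subtype.ext ((h.inv _ (c e)).symm.trans (congrArg _ k))))
    · exact .inr (.inr (.inr (.inr (.inl k))))
    · exact .inl (Subtype.ext k.symm)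
    · exact .inr (.inr (.inr (.inr (.inr (h.anti' (c f) (c e) k)))))
  · obtain ⟨x, hx⟩ := h.ne (c e)
    obtain ⟨y, hy⟩ := h.ne (h.mst _ (c f))
    refine ((un_sep hM ho (fun A a => h.fin A (hF A a)) x y).preimage
      (f := (Subtype.val : F → Set X0)) Subtype.val_injective.injOn).subset fun A k => ⟨A.2, fun q => ?_⟩
    exact h.dis _ (c f) hy (k.2.1 (q.1 (k.1.1 hx)))
  · obtain ⟨K, hK, k⟩ := ho
    refine ⟨Subtype.val ⁻¹' K, hK.preimage Subtype.val_injective.injOn, fun e _ => ?_⟩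
    obtain ⟨B, hB, p, -, q⟩ := k e.1 e.2
    have m : B ∈ F := by simpa only [q, inv_smul_smul] using F.smul_mem p⁻¹ e.2
    exact ⟨⟨B, m⟩, hB, p, trivial, Subtype.ext q⟩
  · rw [sb, sb]
    refine h.rk _ _ (c e) (c f) k.ne fun q => ?_
    obtain ⟨x, hx⟩ := h.ne (c e)
    exact h.dis _ (c f) (q ▸ hx) (k.1 hx)

/-- an invariant family of uncrossed walls with finitely many orbits is a system -/
theorem sy (hM : Mfd T) (F : SubMulAction G (Set X0)) (hF : ∀ A ∈ F, Unc T A)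
    (hs : ∀ A ∈ F, st T A ∈ F) (ho : SmP (⊤ : Subgroup G) (F : Set (Set X0))) :
    Sy T (fun e f : F => e.1 ⊂ f.1) (fun e => ⟨st T e.1, hs _ e.2⟩) Subtype.val :=
  h.sy0 hM F (fun A a => (hF A a).1) (fun A a B b => (hF A a).2 B (hF B b).1) hs ho

/-- the uncrossed walls have finitely many orbits -/
theorem unc_fin (hM : Mfd T) (hb : Bound T) : SmP (⊤ : Subgroup G) {A | Unc T A} := by
  obtain ⟨N, hN⟩ := hb
  have fin : (ob G '' {A | Unc T A}).Finite := by
    by_contra n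
    obtain ⟨S, hS, fS, cS⟩ := Infinite.exists_subset_ncard_eq n (N + 1)
    let F : SubMulAction G (Set X0) :=
      { carrier := {A | Unc T A ∧ (ob G A ∈ S ∨ ob G (st T A) ∈ S)}
        smul_mem' := fun g A a => ⟨h.unc_smul g a.1, by
          rw [h.ast g A a.1.1, ob_smul, ob_smul]
          exact a.2⟩ }
    have hs : ∀ A ∈ F, st T A ∈ F := fun A a => ⟨h.unc_st a.1, by
      rw [h.inv A a.1.1]
      exact a.2.symm⟩
    have ho : SmP (⊤ : Subgroup G) (F : Set (Set X0)) := by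
      refine ⟨Quotient.out '' S ∪ st T '' (Quotient.out '' S),
        (fS.image _).union ((fS.image _).image _), fun A a => ?_⟩
      rcases a.2 with k | k
      · obtain ⟨g, q⟩ := ob_eq_iff.1 (ob_out (ob G A)).symm
        exact ⟨_, .inl ⟨_, k, rfl⟩, g, trivial, q.symm⟩
      · obtain ⟨g, q⟩ := ob_eq_iff.1 (ob_out (ob G (st T A)))
        refine ⟨_, .inr ⟨_, ⟨_, k, rfl⟩, rfl⟩, g⁻¹, trivial, ?_⟩
        rw [← q, h.ast g _ (h.mst A a.1.1), h.inv A a.1.1, inv_smul_smul]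
    have mem : ∀ q ∈ S, ∃ e : F, ob G e.1 = q := fun q hq => by
      obtain ⟨A, a, rfl⟩ := hS hq
      exact ⟨⟨A, a, .inl hq⟩, rfl⟩
    obtain ⟨q, hq⟩ : S.Nonempty := nonempty_of_ncard_ne_zero (by omega)
    have : Nonempty F := ⟨(mem q hq).choose⟩
    obtain ⟨K, hK, cK, k⟩ := hN F _ _ _ (h.sy hM F (fun A a => a.1) hs ho)
    have sub : S ⊆ (fun e : F => ob G e.1) '' K := fun q hq => by
      obtain ⟨e, rfl⟩ := mem q hq
      obtain ⟨c, hc, g, rfl⟩ := k e
      exact ⟨c, hc, (ob_smul g c.1).symm⟩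
    have := (ncard_le_ncard sub (hK.image _)).trans (ncard_image_le hK)
    omega
  refine ⟨Quotient.out '' (ob G '' {A | Unc T A}), fin.image _, fun A a => ?_⟩
  obtain ⟨g, q⟩ := ob_eq_iff.1 (ob_out (ob G A)).symm
  exact ⟨_, ⟨_, ⟨A, a, rfl⟩, rfl⟩, g, trivial, q.symm⟩

/-- the uncrossed walls -/
def U : SubMulAction G (Set X0) where
  carrier := {A | Unc T A}
  smul_mem' := fun g _ a => h.unc_smul g a

/-- strict inclusion -/
def ult (e f : h.U) : Prop := e.1 ⊂ f.1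

/-- the other side -/
noncomputable def ust (e : h.U) : h.U := ⟨st T e.1, h.unc_st e.2⟩

theorem u_stab (e : h.U) : stabilizer G e = stabilizer G e.1 := by
  ext g
  rw [mem_stabilizer_iff, mem_stabilizer_iff, Subtype.ext_iff]
  rfl

/-- the uncrossed walls form a system -/
theorem u_sy (hM : Mfd T) (hb : Bound T) : Sy T h.ult h.ust Subtype.val :=
  h.sy hM h.U (fun _ a => a) (fun _ a => h.unc_st a) (h.unc_fin hM hb)

/-- the tree of the uncrossed walls -/
theorem u_tree (hM : Mfd T) (hb : Bound T) (hn : ∃ A, Unc T A) :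
    ∃ (V : Type) (_ : MulAction G V) (Γ : SimpleGraph V) (hd tl : h.U → V),
      Tr G h.ult h.ust Γ hd tl :=
  let ⟨A, a⟩ := hn
  have : Nonempty h.U := ⟨⟨A, a⟩⟩
  (h.u_sy hM hb).poc.tree

end Cf

end Pool.Agent.Work.MP_3d425c_gt.Cw
end

-- merged part: Pool.Agent.Work.MP_3d425c_gt.Cw.Tree
section
/-! The tree of the uncrossed canonical walls and its properties. -/

namespace Pool.Agent.Work.MP_3d425c_gt.Cw
open Set MulAction Pool.Agent.Work.MP_3d425c_gt.Md Pool.Agent.Work.MP_3d425c_gt.Bg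
  Pool.Agent.Work.MP_3d425c_gt.Bq Pool.Agent.Work.MP_3d425c_gt.Jw Pool.Agent.Work.MP_3d425c_gt.Nh
open scoped Pointwise

variable {G X0 X1 X2 X3 : Type} [Group G] [MulAction G X0] [MulAction G X1] [MulAction G X2]
  [MulAction G X3] {T : Tri G X0 X1 X2 X3}

/-- two different walls have a cyclic common stabiliser -/
theorem Can.rk (S : Std T) {A B : Set X0} (h : Can T A) (k : Can T B) (n : A ≠ B)
    (n' : A ≠ st T B) : IsCyclic ↥(stabilizer G A ⊓ stabilizer G B) := by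
  by_contra c
  obtain ⟨i⟩ := h.z2 S
  obtain ⟨a, b, ab, ind, hb⟩ := d1_basis _ _ inf_le_left i c
  have ma := (hb a).2 ⟨1, 0, by rw [zpow_one, zpow_zero, mul_one]⟩
  have mb := (hb b).2 ⟨0, 1, by rw [zpow_one, zpow_zero, one_mul]⟩
  exact (k.comm S h ⟨ab, ind⟩ ma.2 mb.2 ma.1 mb.1).elim n n'

theorem Std.cf (S : Std T) : Cf T :=
  ⟨fun g _ h => h.smul g, fun _ h => h.star S, fun _ h => h.st_st S, fun g _ h => h.st_smul S g,
    fun _ h => h.st_sub S, fun _ _ h k d => h.st_anti S k d, fun _ h => h.fin,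
    fun _ h => h.big S.mfd, fun _ _ h k => h.rk S k⟩

theorem z2_not_cyc {D : Type} [Group D] (i : D ≃* Multiplicative (ℤ × ℤ)) : ¬ IsCyclic D := by
  intro c
  obtain ⟨g, hg⟩ := (i.isCyclic.1 c).exists_generator
  obtain ⟨m, hm⟩ := hg (Multiplicative.ofAdd (1, 0))
  obtain ⟨n, hn⟩ := hg (Multiplicative.ofAdd (0, 1))
  have a := congrArg Multiplicative.toAdd hm
  have b := congrArg Multiplicative.toAdd hn
  simp only [toAdd_zpow, toAdd_ofAdd, Prod.ext_iff, Prod.smul_fst, Prod.smul_snd, smul_eq_mul]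
    at a b
  have : g.toAdd.2 = 0 := by
    rcases mul_eq_zero.1 a.2 with z | z
    · rw [z, zero_mul] at a
      exact absurd a.1 zero_ne_one
    · exact z
  rw [this, mul_zero] at b
  exact zero_ne_one b.2

theorem Sy.hsp {E : Type} [MulAction G E] {lt : E → E → Prop} {s : E → E} {m : E → Set X0}
    (hM : Mfd T) (Y : Sy T lt s m) (inj : Function.Injective m) : Hsp G lt s m := by
  have sb : ∀ e, stabilizer G e = stabilizer G (m e) := fun e => by
    ext g
    rw [mem_stabilizer_iff, mem_stabilizer_iff, ← Y.eqv, inj.eq_iff]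
  refine ⟨fun {e f} => Y.mono e f, fun g e x => by rw [Y.eqv, smul_mem_smul_set_iff],
    fun e => nonempty_iff_ne_empty.2 fun q => Y.big e (q ▸ SmP.empty),
    fun e x a b => Y.dis e b a, fun x y => ?_⟩
  have ho : SmP (⊤ : Subgroup G) (range m) := by
    obtain ⟨K, hK, k⟩ := Y.orb
    refine ⟨m '' K, hK.image _, ?_⟩
    rintro _ ⟨e, rfl⟩
    obtain ⟨c, hc, p, -, rfl⟩ := k e trivial
    exact ⟨_, ⟨c, hc, rfl⟩, p, trivial, Y.eqv p c⟩
  refine ((un_sep hM ho ?_ x y).preimage inj.injOn).subset fun e k =>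
    ⟨⟨e, rfl⟩, fun q => k.2 (q.1 k.1)⟩
  rintro _ ⟨e, rfl⟩
  exact sb e ▸ Y.fin e

theorem Std.zw (S : Std T) : Zw G S.cf.ust (Subtype.val : S.cf.U → Set X0) := fun a b c ind => by
  obtain ⟨B, hB, -, q⟩ := exists_can S ⟨c, ind⟩
  have q' : b • st T B = st T B := by rw [← hB.st_smul S, q]
  refine ⟨B, st T B, S.cf.ne hB, S.cf.ne (hB.star S), fun x k l => hB.st_sub S l k, fun x => ?_,
    fun x => ?_, fun e => e.2.2 B hB⟩
  · rw [← smul_mem_smul_set_iff (a := b) (x := x), q]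
  · rw [← smul_mem_smul_set_iff (a := b) (x := x), q']

/-- the tree of the uncrossed walls with its edge groups -/
structure Jw0 (S : Std T) {V : Type} [MulAction G V] (Γ : SimpleGraph V) (hd tl : S.cf.U → V) :
    Prop where
  tr : Tr G S.cf.ult S.cf.ust Γ hd tl
  sy : Sy T S.cf.ult S.cf.ust Subtype.val
  hsp : Hsp G S.cf.ult S.cf.ust Subtype.val
  grp : ∀ u v, Γ.Adj u v → ∃ e : S.cf.U, stabilizer G u ⊓ stabilizer G v = stabilizer G e.1
  edge : ∀ u v, Γ.Adj u v →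
    Nonempty (↥(stabilizer G u ⊓ stabilizer G v) ≃* Multiplicative (ℤ × ℤ))
  red : ∀ u v, Γ.Adj u v → ∃ g : G, g • u = u ∧ g • v ≠ v
  min : ∀ u v, Γ.Adj u v → ∀ a : G, a • u = u → a • v = v →
    (∀ g : G, g • u = u ∨ g • v = v → g * a * g⁻¹ ∈ Subgroup.zpowers a) → a = 1
  cusp : ∀ v (a b : G), Z2 a b → a • v = v → b • v = v →
    (∃ w, Γ.Adj v w ∧ a • w = w ∧ b • w = w) ∨
      ∃ B, Can T B ∧ ¬ Unc T B ∧ a • B = B ∧ b • B = B

theorem exists_jw0 (S : Std T) (hb : Bound T) (hn : ∃ A, Unc T A) :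
    ∃ (V : Type) (_ : MulAction G V) (Γ : SimpleGraph V) (hd tl : S.cf.U → V),
      Jw0 S Γ hd tl := by
  obtain ⟨V, _, Γ, hd, tl, R⟩ := S.cf.u_tree S.mfd hb hn
  have Y := S.cf.u_sy S.mfd hb
  have H := Y.hsp S.mfd Subtype.val_injective
  have := or_fin0 S.mfd
  have grp : ∀ u v, Γ.Adj u v →
      ∃ e : S.cf.U, stabilizer G u ⊓ stabilizer G v = stabilizer G e.1 := fun u v a =>
    (R.edge_grp a).imp fun e k => k.trans (S.cf.u_stab e)
  have red := R.red Y.poc H Y.big fun e f k le => by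
    have c := Y.rk e f k
    rw [inf_eq_left.2 le, S.cf.u_stab] at c
    exact (e.2.1.z2 S).elim fun i => z2_not_cyc i c
  refine ⟨V, _, Γ, hd, tl, R, Y, H, grp, fun u v a => ?_, red, R.min Y.poc H S.tf S.zw red,
    fun v a b z av bv => ?_⟩
  · obtain ⟨e, k⟩ := grp u v a
    rw [k]
    exact e.2.1.z2 S
  · obtain ⟨B, hB, p, q⟩ := exists_can S z
    by_cases u : Unc T B
    · obtain ⟨w, k, l⟩ := R.cusp v ⟨B, u⟩
      exact .inl ⟨w, k, l a av (Subtype.ext p), l b bv (Subtype.ext q)⟩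
    · exact .inr ⟨B, hB, u, p, q⟩

/-- a lattice in the vertex group whose canonical wall is crossed -/
def S1 (T : Tri G X0 X1 X2 X3) {V : Type} [MulAction G V] (v : V) : Prop :=
  ∃ (a b : G) (B : Set X0), Z2 a b ∧ a • v = v ∧ b • v = v ∧ Can T B ∧ ¬ Unc T B ∧
    a • B = B ∧ b • B = B

/-- a nontrivial element that fixes two edges at the vertex -/
def S2 (G : Type) [Group G] {V : Type} [MulAction G V] (Γ : SimpleGraph V) (v : V) : Prop :=
  ∃ (a : G) (w w' : V), a ≠ 1 ∧ a • v = v ∧ Γ.Adj v w ∧ Γ.Adj v w' ∧ w ≠ w' ∧ a • w = w ∧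
    a • w' = w'

theorem z2_of_hom (f : Multiplicative (ℤ × ℤ) →* G) (hf : Function.Injective f) :
    Z2 (f (.ofAdd (1, 0))) (f (.ofAdd (0, 1))) ∧
      ∀ z, ∃ m n : ℤ, f z = f (.ofAdd (1, 0)) ^ m * f (.ofAdd (0, 1)) ^ n := by
  have k : ∀ m n : ℤ, f (.ofAdd (1, 0)) ^ m * f (.ofAdd (0, 1)) ^ n = f (.ofAdd (m, n)) :=
    fun m n => by
      rw [← map_zpow f, ← map_zpow f, ← map_mul f, ← ofAdd_zsmul, ← ofAdd_zsmul, ← ofAdd_add]
      simp
  refine ⟨⟨(Commute.all _ _).map f, fun m n e => ?_⟩, fun z => ⟨z.toAdd.1, z.toAdd.2, (k _ _).symm⟩⟩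
  rw [k, ← map_one f] at e
  exact Prod.ext_iff.1 (congrArg Multiplicative.toAdd (hf e))

/-- every vertex is simple, or carries a crossed wall, or has two edges with a common element -/
theorem Jw0.vert {S : Std T} {V : Type} [MulAction G V] {Γ : SimpleGraph V} {hd tl : S.cf.U → V}
    (J : Jw0 S Γ hd tl) (v : V) : Rv.Sim G Γ v ∨ S1 T v ∨ S2 G Γ v := by
  by_cases a : S1 T v
  · exact .inr (.inl a)
  by_cases b : S2 G Γ v
  · exact .inr (.inr b)
  refine .inl ⟨fun g g1 gv w k w' k' => by_contra fun n =>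
    b ⟨g, w, w', g1, gv, k.1, k'.1, n, k.2, k'.2⟩, fun f hf fv => ?_⟩
  obtain ⟨z, k⟩ := z2_of_hom f hf
  rcases J.cusp v _ _ z (fv _) (fv _) with ⟨w, ad, p, q⟩ | ⟨B, hB⟩
  · refine ⟨w, ad, fun x => ?_⟩
    obtain ⟨m, n, e⟩ := k x
    rw [e]
    exact (stabilizer G w).mul_mem ((stabilizer G w).zpow_mem p m) ((stabilizer G w).zpow_mem q n)
  · exact absurd ⟨_, _, B, z, fv _, fv _, hB⟩ a

end Pool.Agent.Work.MP_3d425c_gt.Cw
end

-- merged part: Pool.Agent.Work.MP_3d425c_gt.Cw.Bound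
section
/-! A nested family of walls with cyclic intersections has finitely many orbits. -/

namespace Pool.Agent.Work.MP_3d425c_gt.Cw
open Set MulAction Pool.Agent.Work.MP_3d425c_gt.Md Pool.Agent.Work.MP_3d425c_gt.Bg
  Pool.Agent.Work.MP_3d425c_gt.Bq Pool.Agent.Work.MP_3d425c_gt.Jw Pool.Agent.Work.MP_3d425c_gt.Nh
open scoped Pointwise

variable {G X0 X1 X2 X3 E : Type} [Group G] [MulAction G X0] [MulAction G X1] [MulAction G X2]
  [MulAction G X3] [MulAction G E] {T : Tri G X0 X1 X2 X3} {lt : E → E → Prop} {st : E → E}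

theorem bd_orb {X Y : Type} [MulAction G X] [MulAction G Y] [Finite (Ob G X)] {R : X → Y → Prop}
    (inv : ∀ (g : G) x y, R x y → R (g • x) (g • y)) (fin : ∀ x, {y | R x y}.Finite) (y : Y) :
    SmP (stabilizer G y) {x | R x y} := by
  have c : ∀ y' : Y, ∃ γ : G, (∃ g : G, g • y' = y) → γ • y' = y := fun y' => by
    by_cases h : ∃ g : G, g • y' = y
    · exact ⟨h.choose, fun _ => h.choose_spec⟩
    · exact ⟨1, fun k => (h k).elim⟩
  choose γ hγ using c
  refine ⟨⋃ o : Ob G X, (fun y' => γ y' • o.out) '' {y' | R o.out y'},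
    finite_iUnion fun o => (fin _).image _, fun x hx => ?_⟩
  obtain ⟨h, hh⟩ := ob_eq_iff.1 (ob_out (ob G x)).symm
  have r : R (ob G x).out (h⁻¹ • y) := by
    have := inv h⁻¹ _ _ hx
    rwa [← hh, inv_smul_smul] at this
  have e := hγ (h⁻¹ • y) ⟨h, smul_inv_smul _ _⟩
  refine ⟨_, mem_iUnion.2 ⟨ob G x, _, r, rfl⟩, h * (γ (h⁻¹ • y))⁻¹, ?_, ?_⟩
  · rw [mem_stabilizer_iff, mul_smul, inv_smul_eq_iff.2 e.symm, smul_inv_smul]
  · rw [mul_smul, inv_smul_smul, hh]

theorem bd_loc {X : Type} [MulAction G X] [Finite (Ob G E)]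
    (fr : ∀ (g : G) (x : X), g • x = x → g = 1) {R : X → E → Prop}
    (inv : ∀ (g : G) x y, R x y → R (g • x) (g • y))
    (fin : ∀ e, SmP (stabilizer G e) {x | R x e}) (x : X) : {e | R x e}.Finite := by
  choose K hK h using fin
  refine (finite_iUnion fun o : Ob G E => (hK o.out).biUnion
    (t := fun k => {e | ∃ g : G, g • k = x ∧ e = g • o.out}) fun k _ =>
      Set.Subsingleton.finite ?_).subset fun e he => ?_
  · rintro _ ⟨g, a, rfl⟩ _ ⟨g', a', rfl⟩
    rw [inv_mul_eq_one.1 (fr (g⁻¹ * g') k (by rw [mul_smul, a', ← a, inv_smul_smul]))]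
  · obtain ⟨g, hg⟩ := ob_eq_iff.1 (ob_out (ob G e)).symm
    have r : R (g⁻¹ • x) (ob G e).out := by
      have := inv g⁻¹ _ _ he
      rwa [← hg, inv_smul_smul] at this
    obtain ⟨k, hk, p, hp, a⟩ := h _ _ r
    refine mem_iUnion.2 ⟨ob G e, mem_biUnion hk ⟨g * p, ?_, ?_⟩⟩
    · rw [mul_smul, ← a, smul_inv_smul]
    · rw [mul_smul, mem_stabilizer_iff.1 hp, hg]

theorem bd_conn (hM : Mfd T) (p : X0 → Prop) (h : ∀ e, p (T.d1 e 0) ↔ p (T.d1 e 1)) {x : X0}
    (hx : p x) (y : X0) : p y := by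
  by_contra k
  have := const_of hM (t := wi {x | p x}) (fun e => wi_congr (h e)) x y
  rw [wi_pos (S := {x | p x}) hx, wi_neg (S := {x | p x}) k] at this
  exact one_ne_zero this

omit [MulAction G E] in
theorem bd_sep (hM : Mfd T) {u : X0 → E → Prop}
    (fin : ∀ ε, {e | ¬ (u (T.d1 ε 0) e ↔ u (T.d1 ε 1) e)}.Finite) (x y : X0) :
    {e | ¬ (u x e ↔ u y e)}.Finite :=
  bd_conn hM (fun y => {e | ¬ (u x e ↔ u y e)}.Finite)
    (fun ε => ⟨fun h => (h.union (fin ε)).subset fun e he => by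
        simp only [mem_union, mem_ofPred_eq] at he ⊢; tauto,
      fun h => (h.union (fin ε)).subset fun e he => by
        simp only [mem_union, mem_ofPred_eq] at he ⊢; tauto⟩) (x := x) (by simp) y

/-- a choice of sides for every vertex -/
structure Uf (T : Tri G X0 X1 X2 X3) (lt : E → E → Prop) (st : E → E) (u : X0 → E → Prop) :
    Prop where
  no : ∀ {x e}, u x e → ¬ u x (st e)
  up : ∀ {x e f}, u x e → lt e f → u x f
  or : ∀ x e, u x e ∨ u x (st e)
  eqv : ∀ (g : G) {x e}, u x e → u (g • x) (g • e)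
  fin : ∀ ε, {e | ¬ (u (T.d1 ε 0) e ↔ u (T.d1 ε 1) e)}.Finite
  big : ∀ e, ¬ SmP (stabilizer G e) {x | u x e}

/-- the vertices of a triangle -/
def vt (T : Tri G X0 X1 X2 X3) (f : X2) : Fin 3 → X0 :=
  ![T.d1 (T.d2 f 2) 1, T.d1 (T.d2 f 2) 0, T.d1 (T.d2 f 0) 0]

theorem vt_smul (g : G) (f : X2) (i : Fin 3) : vt T (g • f) i = g • vt T f i := by
  fin_cases i <;> simp [vt, T.e1, T.e2]

theorem vt_edge (hM : Mfd T) (ε : X1) : ∃ f i j, T.d1 ε 0 = vt T f i ∧ T.d1 ε 1 = vt T f j := by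
  obtain ⟨f, i, rfl⟩ := hM.pure ε
  fin_cases i
  · exact ⟨f, 2, 1, rfl, sb T f⟩
  · exact ⟨f, 2, 0, sc' T f, sa T f⟩
  · exact ⟨f, 1, 0, rfl, rfl⟩

/-- the least element that separates `x` from `y` and `z` -/
def Mk (lt : E → E → Prop) (u : X0 → E → Prop) (x y z : X0) (e : E) : Prop :=
  u y e ∧ u z e ∧ ¬ u x e ∧ ∀ h, u y h → u z h → ¬ u x h → ¬ lt h e

/-- nothing lies between -/
def Cov (lt : E → E → Prop) (g e : E) : Prop := lt g e ∧ ∀ x, lt g x → ¬ lt x e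

/-- the part of the coboundary of `e` that comes from `g` -/
noncomputable def zz (u : X0 → E → Prop) (e g : E) (x y : X0) : ℝ :=
  wi {x | u x g} x * (1 - wi {x | u x e} y) - wi {x | u x g} y * (1 - wi {x | u x e} x)

variable {u : X0 → E → Prop}

theorem bd_stab (P : Poc G lt st) (e : E) : stabilizer G (st e) = stabilizer G e := by
  ext g
  rw [mem_stabilizer_iff, mem_stabilizer_iff, ← P.ast]
  exact ⟨fun h => by rw [← P.inv (g • e), h, P.inv], fun h => by rw [h]⟩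

theorem Uf.iff (U : Uf T lt st u) (g : G) {x : X0} {e : E} : u (g • x) (g • e) ↔ u x e :=
  ⟨fun h => by simpa only [inv_smul_smul] using U.eqv g⁻¹ h, U.eqv g⟩

theorem Uf.mk_uniq (U : Uf T lt st u) (P : Poc G lt st) {x y z : X0} {e f : E}
    (a : Mk lt u x y z e) (b : Mk lt u x y z f) : e = f := by
  rcases P.nest e f with h | h | h | h | h | h
  · exact h
  · exact (U.no b.1 (h ▸ a.1)).elim
  · exact (b.2.2.2 e a.1 a.2.1 a.2.2.1 h).elim
  · exact (U.no b.1 (U.up a.1 h)).elim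
  · exact (b.2.2.1 (U.up ((U.or x e).resolve_left a.2.2.1) h)).elim
  · exact (a.2.2.2 f b.1 b.2.1 b.2.2.1 (P.anti' h)).elim

theorem Uf.mk_smul (U : Uf T lt st u) (P : Poc G lt st) (g : G) {x y z : X0} {e : E}
    (a : Mk lt u x y z e) : Mk lt u (g • x) (g • y) (g • z) (g • e) := by
  refine ⟨U.eqv g a.1, U.eqv g a.2.1, fun h => a.2.2.1 ((U.iff g).1 h), fun h b c d k => ?_⟩
  rw [← smul_inv_smul g h] at b c d k
  exact a.2.2.2 _ ((U.iff g).1 b) ((U.iff g).1 c) (fun j => d (U.eqv g j)) ((P.act_iff g).1 k)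

theorem Uf.cov_uniq (U : Uf T lt st u) (P : Poc G lt st) {y : X0} {e g g' : E} (a : Cov lt g e)
    (b : Cov lt g' e) (c : u y g) (d : u y g') : g = g' := by
  rcases P.nest g g' with h | h | h | h | h | h
  · exact h
  · exact (U.no d (h ▸ c)).elim
  · exact (a.2 _ h b.1).elim
  · exact (U.no d (U.up c h)).elim
  · exact (P.nst (st e) (by rw [P.inv]; exact P.tr (P.anti a.1) (P.tr h b.1))).elim
  · exact (b.2 _ (P.anti' h) a.1).elim

theorem Uf.top (U : Uf T lt st u) (hM : Mfd T) (P : Poc G lt st) {x y : X0} {e h : E}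
    (hx : ¬ u x e) (a : u y h) (b : lt h e) : ∃ g, Cov lt g e ∧ u y g ∧ (h = g ∨ lt h g) := by
  have hS : {k | u y k ∧ lt k e ∧ (h = k ∨ lt h k)}.Finite :=
    (bd_sep hM U.fin x y).subset fun k hk j => hx (U.up (j.2 hk.1) hk.2.1)
  obtain ⟨g, hg, mn⟩ := Set.exists_min_image _
    (fun k => {j | j ∈ {k | u y k ∧ lt k e ∧ (h = k ∨ lt h k)} ∧ lt k j}.ncard) hS
    ⟨h, a, b, .inl rfl⟩
  refine ⟨g, ⟨hg.2.1, fun k c d => ?_⟩, hg.1, hg.2.2⟩
  have hk : k ∈ {k | u y k ∧ lt k e ∧ (h = k ∨ lt h k)} :=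
    ⟨U.up hg.1 c, d, .inr (hg.2.2.elim (fun j => j ▸ c) fun j => P.tr j c)⟩
  refine (mn k hk).not_gt (Set.ncard_lt_ncard ⟨fun j hj => ⟨hj.1, P.tr c hj.2⟩, fun s => ?_⟩
    (hS.subset fun j hj => hj.1))
  exact P.irr k (s ⟨hk, c⟩).2

theorem Uf.zz_smul (U : Uf T lt st u) (p : G) (e g : E) (x y : X0) :
    zz u (p • e) (p • g) (p • x) (p • y) = zz u e g x y := by
  have w : ∀ e x, wi {x | u x (p • e)} (p • x) = wi {x | u x e} x := fun e x => wi_congr (U.iff p)
  simp only [zz, w]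

theorem Uf.zz_ne (U : Uf T lt st u) {e g : E} (a : lt g e) {x y : X0} (h : zz u e g x y ≠ 0) :
    ¬ (u x e ↔ u y e) ∧ ¬ (u x g ↔ u y g) := by
  have hx : u x g → u x e := fun k => U.up k a
  have hy : u y g → u y e := fun k => U.up k a
  by_cases x1 : u x g <;> by_cases x2 : u x e <;> by_cases y1 : u y g <;> by_cases y2 : u y e <;>
    simp_all [zz, wi]

theorem Uf.marked (U : Uf T lt st u) (hM : Mfd T) (tf : ∀ a : G, a ≠ 1 → ¬ IsOfFinOrder a)
    (P : Poc G lt st) (e : E)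
    (rk : ∀ f, lt f e → IsCyclic (stabilizer G e ⊓ stabilizer G f : Subgroup G)) :
    ∃ f i j k, Mk lt u (vt T f i) (vt T f j) (vt T f k) e := by
  classical
  by_contra un
  have := hM.fin1
  have un' : ∀ f i j k, u (vt T f j) e → u (vt T f k) e → ¬ u (vt T f i) e →
      ∃ g, Cov lt g e ∧ u (vt T f j) g ∧ u (vt T f k) g := fun f i j k a b c => by
    by_contra n
    refine un ⟨f, i, j, k, a, b, c, fun h d d' _ l => n ?_⟩
    obtain ⟨g, r, s, t⟩ := U.top hM P c d l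
    exact ⟨g, r, s, t.elim (fun q => q ▸ d') (U.up d')⟩
  have bad : ∀ g, Cov lt g e → ∀ f i j k, ¬ u (vt T f i) e → u (vt T f j) g → u (vt T f k) e →
      u (vt T f k) g := fun g hg f i j k a b c => by
    obtain ⟨g', r, s, t⟩ := un' f i j k (U.up b hg.1) c a
    exact U.cov_uniq P r hg s b ▸ t
  have sinv : ∀ (p : G) (ε : X1) (e : E), ¬ (u (T.d1 ε 0) e ↔ u (T.d1 ε 1) e) →
      ¬ (u (T.d1 (p • ε) 0) (p • e) ↔ u (T.d1 (p • ε) 1) (p • e)) := fun p ε e h => by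
    rwa [T.e1, T.e1, U.iff, U.iff]
  have one : ∀ g, ∃ s : X0 → ℝ, Cov lt g e → SmP (stabilizer G e) (Function.support s) ∧
      ∀ ε, zz u e g (T.d1 ε 0) (T.d1 ε 1) = s (T.d1 ε 0) - s (T.d1 ε 1) := fun g => by
    by_cases hg : Cov lt g e
    swap
    · exact ⟨0, fun k => (hg k).elim⟩
    obtain ⟨c, hc⟩ := (Subgroup.isCyclic_iff_exists_zpowers_eq_top _).1 (rk g hg.1)
    have mc : c ∈ stabilizer G e ⊓ stabilizer G g := hc ▸ Subgroup.mem_zpowers c
    obtain ⟨s, h1, h2⟩ := wang_tf hM tf c (z := fun ε => zz u e g (T.d1 ε 0) (T.d1 ε 1))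
      (fun f => by
        have b := bad g hg f
        have b012 := b 0 1 2
        have b021 := b 0 2 1
        have b102 := b 1 0 2
        have b120 := b 1 2 0
        have b201 := b 2 0 1
        have b210 := b 2 1 0
        have u0 : u (vt T f 0) g → u (vt T f 0) e := fun k => U.up k hg.1
        have u1 : u (vt T f 1) g → u (vt T f 1) e := fun k => U.up k hg.1
        have u2 : u (vt T f 2) g → u (vt T f 2) e := fun k => U.up k hg.1
        show zz u e g _ _ = zz u e g _ _ + zz u e g _ _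
        rw [sa, sb, sc']
        change zz u e g (vt T f 2) (vt T f 0) =
          zz u e g (vt T f 1) (vt T f 0) + zz u e g (vt T f 2) (vt T f 1)
        clear b
        generalize vt T f 0 = x at *
        generalize vt T f 1 = y at *
        generalize vt T f 2 = z at *
        by_cases x1 : u x g <;> by_cases x2 : u x e <;> by_cases y1 : u y g <;>
          by_cases y2 : u y e <;> by_cases z1 : u z g <;> by_cases z2 : u z e <;>
          first
          | exact (x2 (u0 x1)).elim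
          | exact (y2 (u1 y1)).elim
          | exact (z2 (u2 z1)).elim
          | exact (z1 (b012 x2 y1 z2)).elim
          | exact (y1 (b021 x2 z1 y2)).elim
          | exact (z1 (b102 y2 x1 z2)).elim
          | exact (x1 (b120 y2 z1 x2)).elim
          | exact (y1 (b201 z2 x1 y2)).elim
          | exact (x1 (b210 z2 y1 x2)).elim
          | simp [zz, wi, x1, x2, y1, y2, z1, z2])
      (fun ε => by
        have := U.zz_smul c e g (T.d1 ε 0) (T.d1 ε 1)
        rw [mem_stabilizer_iff.1 mc.1, mem_stabilizer_iff.1 mc.2] at this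
        show zz u e g _ _ = _
        rw [T.e1, T.e1, this])
      (by
        rw [← smP_zpowers, hc]
        refine ((bd_orb (G := G) (Y := E × E) (R := fun ε q =>
          ¬ (u (T.d1 ε 0) q.1 ↔ u (T.d1 ε 1) q.1) ∧ ¬ (u (T.d1 ε 0) q.2 ↔ u (T.d1 ε 1) q.2))
          (fun p ε q h => ⟨sinv p ε _ h.1, sinv p ε _ h.2⟩)
          (fun ε => ((U.fin ε).prod (U.fin ε)).subset fun q h => h) (e, g)).le fun p hp => ?_).mono
          fun ε h => U.zz_ne hg.1 h
        exact ⟨congrArg Prod.fst (mem_stabilizer_iff.1 hp),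
          congrArg Prod.snd (mem_stabilizer_iff.1 hp)⟩)
    exact ⟨s, fun _ => ⟨(smP_zpowers.2 h1).le (hc ▸ inf_le_left), h2⟩⟩
  choose s hs using one
  obtain ⟨K, hK, hcut⟩ := bd_orb (G := G) (R := fun ε e => ¬ (u (T.d1 ε 0) e ↔ u (T.d1 ε 1) e))
    sinv U.fin e
  have hC : {g | Cov lt g e ∧ ∃ κ ∈ K, ¬ (u (T.d1 κ 0) g ↔ u (T.d1 κ 1) g)}.Finite :=
    (hK.biUnion fun κ _ => U.fin κ).subset fun g ⟨_, κ, a, b⟩ => mem_biUnion a b
  have L : ∀ g, ∃ L : Set X0, L.Finite ∧ (Cov lt g e → ∀ x, s g x ≠ 0 →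
      ∃ k ∈ L, ∃ p ∈ stabilizer G e, x = p • k) := fun g => by
    by_cases hg : Cov lt g e
    · obtain ⟨L, a, b⟩ := (hs g hg).1
      exact ⟨L, a, fun _ => b⟩
    · exact ⟨∅, finite_empty, fun k => (hg k).elim⟩
  choose L hL hL' using L
  obtain ⟨D, hD, all⟩ : ∃ D : Set X0, SmP (stabilizer G e) D ∧ ∀ g, ∃ σ : X0 → ℝ,
      (∀ x, x ∉ D → σ x = 0) ∧ ∀ ε, (if Cov lt g e then zz u e g (T.d1 ε 0) (T.d1 ε 1) else 0) =
        σ (T.d1 ε 0) - σ (T.d1 ε 1) := by
    refine ⟨{x | ∃ k ∈ ⋃ g ∈ {g | Cov lt g e ∧ ∃ κ ∈ K, ¬ (u (T.d1 κ 0) g ↔ u (T.d1 κ 1) g)}, L g,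
      ∃ p ∈ stabilizer G e, x = p • k}, ⟨_, hC.biUnion fun g _ => hL g, fun x h => h⟩,
      fun g => ?_⟩
    by_cases hg : Cov lt g e ∧ ∃ ε, zz u e g (T.d1 ε 0) (T.d1 ε 1) ≠ 0
    · obtain ⟨hg, ε, hε⟩ := hg
      obtain ⟨κ, hκ, p, hp, rfl⟩ := hcut ε (U.zz_ne hg.1 hε).1
      have pe : p⁻¹ • e = e := inv_smul_eq_iff.2 (mem_stabilizer_iff.1 hp).symm
      have cg : Cov lt (p⁻¹ • g) e := ⟨pe ▸ P.act p⁻¹ hg.1, fun x a b => hg.2 (p • x)
        (by simpa only [smul_inv_smul] using P.act p a)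
        (by simpa only [mem_stabilizer_iff.1 hp] using P.act p b)⟩
      refine ⟨fun x => s (p⁻¹ • g) (p⁻¹ • x), fun x hx => ?_, fun ε => ?_⟩
      · by_contra n
        obtain ⟨k, hk, q, hq, a⟩ := hL' _ cg _ n
        refine hx ⟨k, mem_biUnion (x := p⁻¹ • g) ⟨cg, κ, hκ, ?_⟩ hk, p * q, mul_mem hp hq, ?_⟩
        · simpa only [inv_smul_smul] using sinv p⁻¹ _ _ (U.zz_ne hg.1 hε).2
        · rw [mul_smul, ← a, smul_inv_smul]
      · have := (hs _ cg).2 (p⁻¹ • ε)
        rw [T.e1, T.e1] at this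
        rw [if_pos hg, ← this, ← U.zz_smul p⁻¹, pe]
    · refine ⟨0, fun _ _ => rfl, fun ε => ?_⟩
      split_ifs with k
      · exact (not_not.1 fun j => hg ⟨k, ε, j⟩).trans (sub_self _).symm
      · exact (sub_self _).symm
  choose σ h0 hσ using all
  have ed : ∀ f i j, ∃ F : Finset E, ∀ F', F ⊆ F' →
      ∑ g ∈ F', (if Cov lt g e then zz u e g (vt T f i) (vt T f j) else 0) =
        wi {x | u x e} (vt T f i) - wi {x | u x e} (vt T f j) := by
    have half : ∀ f i j, u (vt T f i) e → ¬ u (vt T f j) e → ∃ F : Finset E, ∀ F', F ⊆ F' →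
        ∑ g ∈ F', (if Cov lt g e then zz u e g (vt T f i) (vt T f j) else 0) = 1 := by
      intro f i j a b
      obtain ⟨g, r, t, -⟩ := un' f j i i a a b
      refine ⟨{g}, fun F' h => ?_⟩
      rw [Finset.sum_eq_single_of_mem g (h (Finset.mem_singleton_self g)) fun g' _ n => ?_]
      · have : ¬ u (vt T f j) g := fun k => b (U.up k r.1)
        simp [r, zz, wi, a, b, t, this]
      · split_ifs with k
        · have : ¬ u (vt T f j) g' := fun l => b (U.up l k.1)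
          have : ¬ u (vt T f i) g' := fun l => n (U.cov_uniq P k r l t)
          simp [zz, wi, *]
        · rfl
    intro f i j
    by_cases h : u (vt T f i) e ↔ u (vt T f j) e
    · refine ⟨∅, fun F' _ => ?_⟩
      rw [wi_congr (S := {x | u x e}) (S' := {x | u x e}) h, sub_self]
      refine Finset.sum_eq_zero fun g _ => ?_
      split_ifs with k
      · exact not_not.1 fun l => (U.zz_ne k.1 l).1 h
      · rfl
    by_cases a : u (vt T f i) e
    · have b : ¬ u (vt T f j) e := fun b => h (iff_of_true a b)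
      rw [wi_pos (S := {x | u x e}) a, wi_neg (S := {x | u x e}) b, sub_zero]
      exact half f i j a b
    · have b : u (vt T f j) e := not_not.1 fun b => h (iff_of_false a b)
      obtain ⟨F, hF⟩ := half f j i b a
      refine ⟨F, fun F' k => ?_⟩
      rw [wi_pos (S := {x | u x e}) b, wi_neg (S := {x | u x e}) a, zero_sub, ← hF F' k,
        ← Finset.sum_neg_distrib]
      refine Finset.sum_congr rfl fun g _ => ?_
      split_ifs
      · unfold zz; ring
      · exact neg_zero.symm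
  obtain ⟨x, hx, xD⟩ : ∃ x, u x e ∧ x ∉ D := by
    by_contra n
    exact U.big e (hD.mono fun x hx => not_not.1 fun k => n ⟨x, hx, k⟩)
  obtain ⟨y, hy, yD⟩ : ∃ x, u x (st e) ∧ x ∉ D := by
    by_contra n
    exact U.big (st e) (bd_stab P e ▸ hD.mono fun x hx => not_not.1 fun k => n ⟨x, hx, k⟩)
  obtain ⟨F, hF⟩ := bd_conn hM (fun y => ∃ F : Finset E, ∀ F', F ⊆ F' →
      ∑ g ∈ F', σ g y = wi {x | u x e} y - 1) (fun ε => by
    obtain ⟨f, i, j, a, b⟩ := vt_edge hM ε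
    obtain ⟨F0, h⟩ := ed f i j
    rw [← a, ← b] at h
    simp only [hσ, Finset.sum_sub_distrib] at h
    refine ⟨fun ⟨F, k⟩ => ⟨F ∪ F0, fun F' l => ?_⟩, fun ⟨F, k⟩ => ⟨F ∪ F0, fun F' l => ?_⟩⟩ <;>
    · have k1 := k F' (Finset.subset_union_left.trans l)
      have k2 := h F' (Finset.subset_union_right.trans l)
      linarith) (x := x) ⟨∅, fun F' _ => by
    rw [wi_pos (S := {x | u x e}) hx, sub_self]
    exact Finset.sum_eq_zero fun g _ => h0 g x xD⟩ y
  have := hF F (Finset.Subset.refl _)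
  rw [Finset.sum_eq_zero fun g _ => h0 g y yD,
    wi_neg (S := {x | u x e}) fun k => U.no k hy] at this
  norm_num at this

theorem Uf.bound (U : Uf T lt st u) (hM : Mfd T) (tf : ∀ a : G, a ≠ 1 → ¬ IsOfFinOrder a)
    (P : Poc G lt st)
    (rk : ∀ e f, lt f e → IsCyclic (stabilizer G e ⊓ stabilizer G f : Subgroup G)) :
    ∃ ι : Ob G E → Ob G X2 × Fin 3 × Fin 3 × Fin 3, Function.Injective ι := by
  choose f i j k h using fun e => U.marked hM tf P e (rk e)
  refine ⟨fun o => (ob G (f o.out), i o.out, j o.out, k o.out), fun o o' q => ?_⟩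
  simp only [Prod.mk.injEq] at q
  obtain ⟨g, hg⟩ := ob_eq_iff.1 q.1
  have a := U.mk_smul P g (h o'.out)
  rw [← vt_smul, ← vt_smul, ← vt_smul, hg, ← q.2.1, ← q.2.2.1, ← q.2.2.2] at a
  rw [← ob_out o, ← ob_out o', U.mk_uniq P (h o.out) a, ob_smul]

theorem Sy.uf {m : E → Set X0} (S : Sy T lt st m) (hM : Mfd T) [Nonempty E] :
    ∃ u, Uf T lt st u := by
  have P := S.poc
  have : Finite (Ob G E) := by
    obtain ⟨K, hK, k⟩ := S.orb
    have := hK.to_subtype
    refine Finite.of_surjective (fun x : K => ob G x.1) fun o => ?_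
    obtain ⟨e, rfl⟩ := ob_surj o
    obtain ⟨x, hx, p, -, q⟩ := k e trivial
    exact ⟨⟨x, hx⟩, by rw [q, ob_smul]⟩
  have := or_fin0 hM
  obtain ⟨φ, hφ, -⟩ := exists_equiv T (Classical.arbitrary E)
  have mi : ∀ (g : G) x e, g • x ∈ m (g • e) ↔ x ∈ m e := fun g x e => by
    rw [S.eqv, smul_mem_smul_set_iff]
  have ui : ∀ (g : G) x e, g • e ∈ hs lt st (φ (g • x)) ↔ e ∈ hs lt st (φ x) := fun g x e => by
    rw [hφ, P.hs_smul]
  have ed : ∀ ε, {e | ¬ (T.d1 ε 0 ∈ m e ↔ T.d1 ε 1 ∈ m e)}.Finite :=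
    bd_loc (G := G) (R := fun ε e => ¬ (T.d1 ε 0 ∈ m e ↔ T.d1 ε 1 ∈ m e)) T.free1
      (fun g ε e h => by rwa [T.e1, T.e1, mi, mi]) S.fin
  have sp := bd_sep hM (u := fun x e => x ∈ m e) ed
  have ne : ∀ e, ∃ x, x ∈ m e := fun e => by
    by_contra n
    exact S.big e (SmP.empty.mono fun x hx => n ⟨x, hx⟩)
  have df : ∀ x, {e | ¬ (e ∈ hs lt st (φ x) ↔ x ∈ m e)}.Finite := fun x => by
    obtain ⟨y, hy⟩ := ne (φ x)
    obtain ⟨z, hz⟩ := ne (st (φ x))
    have k : ∀ e ∈ hs lt st (φ x), y ∈ m e ∨ z ∈ m e := by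
      rintro e (rfl | h | h)
      exacts [.inl hy, .inl (S.mono _ _ h hy), .inr (S.mono _ _ h hz)]
    refine ((sp x y).union (sp x z)).subset fun e he => ?_
    have a := k e
    have b := k (st e)
    have c := P.hs_or (φ x) e
    have d : y ∈ m (st e) → y ∉ m e := fun h => S.dis e h
    have d' : z ∈ m (st e) → z ∉ m e := fun h => S.dis e h
    simp only [mem_union, mem_ofPred_eq] at he ⊢
    tauto
  refine ⟨fun x e => e ∈ hs lt st (φ x), P.hs_not, fun {x e f} a b => ?_, fun x => P.hs_or _,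
    fun g x e => (ui g x e).2, fun ε => ?_, fun e h => S.big e ?_⟩
  · rcases a with rfl | a | a
    exacts [.inr (.inl b), .inr (.inl (P.tr a b)), .inr (.inr (P.tr a b))]
  · refine (((df (T.d1 ε 0)).union (df (T.d1 ε 1))).union (ed ε)).subset fun e he => ?_
    simp only [mem_union, mem_ofPred_eq] at he ⊢
    tauto
  · refine (h.union (bd_orb (G := G) (R := fun x e => ¬ (e ∈ hs lt st (φ x) ↔ x ∈ m e))
      (fun g x e h => by rwa [ui, mi]) df e)).mono fun x hx => ?_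
    simp only [mem_union, mem_ofPred_eq]
    tauto

/-- the number of orbits of a nested family is bounded -/
theorem bound (hM : Mfd T) (tf : ∀ a : G, a ≠ 1 → ¬ IsOfFinOrder a) : Bound T := by
  have := T.fin2
  refine ⟨Nat.card (Ob G X2 × Fin 3 × Fin 3 × Fin 3), fun E _ _ lt s m S => ?_⟩
  obtain ⟨u, U⟩ := S.uf hM
  obtain ⟨ι, hι⟩ := U.bound hM tf S.poc fun e f h => inf_comm (stabilizer G f) _ ▸ S.rk f e h
  have := Finite.of_injective ι hι
  refine ⟨range (Quotient.out : Ob G E → E), finite_range _, ?_, fun e => ?_⟩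
  · rw [← Nat.card_coe_set_eq, Nat.card_range_of_injective Quotient.out_injective]
    exact Nat.card_le_card_of_injective ι hι
  · obtain ⟨g, hg⟩ := ob_eq_iff.1 (ob_out (ob G e)).symm
    exact ⟨_, ⟨ob G e, rfl⟩, g, hg.symm⟩

end Pool.Agent.Work.MP_3d425c_gt.Cw
end

-- merged part: Pool.Agent.Work.MP_3d425c_gt.Fl.S1
section
/-! A vertex whose group contains the lattice of a crossed wall has a fibre. -/

namespace Pool.Agent.Work.MP_3d425c_gt.Fr
open Set MulAction Pool.Agent.Work.MP_3d425c_gt.Md Pool.Agent.Work.MP_3d425c_gt.Bg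
  Pool.Agent.Work.MP_3d425c_gt.Bq Pool.Agent.Work.MP_3d425c_gt.Jw Pool.Agent.Work.MP_3d425c_gt.Nh
  Pool.Agent.Work.MP_3d425c_gt.Cw
open scoped Pointwise

variable {G X0 X1 X2 X3 : Type} [Group G] [MulAction G X0] [MulAction G X1] [MulAction G X2]
  [MulAction G X3] {T : Tri G X0 X1 X2 X3}

/-- a wall on one side of `A` and nested with `B` lies on one side of `B` if `A` crosses `B` -/
theorem spread (C : Cf T) {D A B : Set X0} (hD : Can T D) (hA : Can T A) (hB : Can T B)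
    (d : Nst T D B) (n : ¬ Nst T A B) (k : D ⊆ A ∨ D ⊆ st T A) : D ⊆ B ∨ D ⊆ st T B := by
  have key : ∀ Y, Can T Y → Y ⊆ D → Nst T A Y := fun Y hY s => by
    rcases k with k | k
    · exact .inr (.inr (.inr (s.trans k)))
    · exact .inr (.inl (C.inv A hA ▸ C.anti _ _ hY (C.mst A hA) (s.trans k)))
  rcases d with d | d | d | d
  · exact .inl d
  · exact .inr d
  · have := key _ (C.mst B hB) (C.inv D hD ▸ C.anti _ _ (C.mst D hD) hB d)
    have := C.nst_st (C.mst B hB) hA (C.nst_symm hA (C.mst B hB) this)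
    rw [C.inv B hB] at this
    exact absurd (C.nst_symm hB hA this) n
  · exact absurd (key B hB d) n

/-- every uncrossed wall on one side of `P` lies in an uncrossed wall on one side of `P` that is
fixed by `h` -/
def Frt (T : Tri G X0 X1 X2 X3) (P : Set X0) (h : G) : Prop :=
  ∀ F, Unc T F → (F ⊆ P ∨ F ⊆ st T P) →
    ∃ D, Unc T D ∧ h • D = D ∧ F ⊆ D ∧ (D ⊆ P ∨ D ⊆ st T P)

theorem ex_nx' {E : Type} [MulAction G E] {lt : E → E → Prop} {s : E → E} (P : Poc G lt s)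
    {x e : E} (h : lt x e) : ∃ y, Nx lt x y ∧ (y = e ∨ lt y e) := by
  obtain ⟨n, hn⟩ : ∃ n, {z | lt x z ∧ lt z e}.ncard = n := ⟨_, rfl⟩
  induction n using Nat.strong_induction_on generalizing e with
  | _ n ih =>
    by_cases k : Nx lt x e
    · exact ⟨e, k, .inl rfl⟩
    obtain ⟨z, a, b⟩ : ∃ z, lt x z ∧ lt z e := by
      by_contra q
      exact k ⟨h, fun z a b => q ⟨z, a, b⟩⟩
    obtain ⟨y, p, q⟩ := ih _ (hn ▸ ncard_lt_ncard (ssubset_iff_subset_ne.2
      ⟨fun y (k : lt x y ∧ lt y z) => ⟨k.1, P.tr k.2 b⟩, fun q => P.irr z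
        (show z ∈ {y | lt x y ∧ lt y z} from q ▸ ⟨a, b⟩).2⟩) (P.fin x e)) a rfl
    exact ⟨y, p, .inr (q.elim (fun q => q ▸ b) fun q => P.tr q b)⟩

theorem z2_sq {a b : G} (z : Z2 a b) : Z2 (a * a) (b * b) := by
  refine ⟨(z.1.mul_left z.1).mul_right (z.1.mul_left z.1), fun m n e => ?_⟩
  rw [← pow_two, ← pow_two, ← zpow_natCast, ← zpow_natCast, ← zpow_mul, ← zpow_mul] at e
  have := z.2 _ _ e
  push_cast at this
  omega

section
variable {S : Std T} {V : Type} [MulAction G V] {Γ : SimpleGraph V} {hd tl : S.cf.U → V}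
  (J : Jw0 S Γ hd tl)
include J

/-- an element that fixes all walls at a vertex gives a fibre -/
theorem sei_of (e : S.cf.U) {h : G} (h1 : h ≠ 1) (hf : ∀ f, hd f = hd e → h • f.1 = f.1) :
    Sv.Sei G Γ (hd e) := by
  have P := J.sy.poc
  let K : Subgroup G :=
    { carrier := {g | ∀ f, hd f = hd e → g • f = f}
      one_mem' := fun f _ => one_smul G f
      mul_mem' := fun {x y} a b f k => by rw [mul_smul, b f k, a f k]
      inv_mem' := fun {x} a f k => by rw [inv_smul_eq_iff, a f k] }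
  obtain ⟨u, u1, u2⟩ := J.red _ _ (J.tr.adj e)
  have n : e.1 ≠ (u • e).1 := fun q => u2 (by rw [← J.tr.tle, ← Subtype.ext q])
  have hu : hd (u • e) = hd e := by rw [J.tr.hde, u1]
  have n' : e.1 ≠ st T (u • e).1 := fun q =>
    J.tr.hd_ne P (u • e) (hu.trans (congrArg hd (Subtype.ext q)))
  have c := e.2.1.rk S (u • e).2.1 n n'
  have le : K ≤ stabilizer G e.1 ⊓ stabilizer G (u • e).1 := fun g k =>
    ⟨congrArg Subtype.val (k e rfl), congrArg Subtype.val (k _ hu)⟩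
  have cK : IsCyclic K := Subgroup.isCyclic_of_le le
  obtain ⟨k, hk⟩ := (Subgroup.isCyclic_iff_exists_zpowers_eq_top K).1 cK
  have mk : k ∈ K := hk ▸ Subgroup.mem_zpowers k
  refine ⟨k, fun q => h1 ?_, ((J.tr.stab k e).2 (mk e rfl)).1, fun w a => ?_, fun g gv => ?_⟩
  · have : h ∈ Subgroup.zpowers k := hk ▸ fun f q => Subtype.ext (hf f q)
    rwa [q, Subgroup.zpowers_one_eq_bot, Subgroup.mem_bot] at this
  · obtain ⟨f, p, rfl⟩ := (J.tr.nb P e w).1 a
    exact ((J.tr.stab k f).2 (mk f p)).2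
  · rw [hk]
    intro f p
    rw [mul_smul, mul_smul, mk _ (by rw [J.tr.hde, p, inv_smul_eq_iff, gv]), smul_inv_smul]

/-- a wall at the vertex does not lie on one side of the crossed wall -/
theorem not_sub {a b : G} {P : Set X0} (z : Z2 a b) (hP : Can T P) (nu : ¬ Unc T P)
    (aP : a • P = P) (bP : b • P = P) {f : S.cf.U} (av : a • hd f = hd f) (bv : b • hd f = hd f) :
    ¬ (f.1 ⊆ P ∨ f.1 ⊆ st T P) := fun k => by
  have C := S.cf
  have hf := f.2.1
  obtain ⟨Y, hY, s, inv⟩ : ∃ Y, Can T Y ∧ Y ⊆ st T f.1 ∧ ∀ g : G, g • P = P → g • Y = Y := by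
    rcases k with k | k
    · exact ⟨_, C.mst P hP, C.anti _ _ hf hP k, fun g q => by rw [← C.ast g P hP, q]⟩
    · exact ⟨P, hP, C.inv P hP ▸ C.anti _ _ hf (C.mst P hP) k, fun _ q => q⟩
  have fx : ∀ g : G, g • P = P → g • hd f = hd f → g • f.1 = f.1 := fun g p q => by
    rcases (J.tr.stabv g f).1 q with r | r
    · exact congrArg Subtype.val r
    · obtain ⟨y, hy⟩ := C.ne hY
      have r1 : st T f.1 ⊆ g • f.1 := r.1.1
      have r2 : Y ⊆ st T (g • f.1) := by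
        rw [C.ast g _ hf, ← inv g p]
        exact smul_set_mono s
      exact absurd (r1 (s hy)) (C.dis _ (C.smul g _ hf) (r2 hy))
  rcases hf.comm S hP z (fx a aP av) (fx b bP bv) aP bP with q | q
  · exact nu (q ▸ f.2)
  · exact nu (q ▸ C.unc_st f.2)

/-- the lattice of a crossed wall does not fix a midpoint -/
theorem not_mid {a b : G} {P : Set X0} (z : Z2 a b) (hP : Can T P) (nu : ¬ Unc T P)
    (aP : a • P = P) (bP : b • P = P) {e : S.cf.U} (i : Iv G S.cf.ust e)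
    (av : a • tl e = tl e) (bv : b • tl e = tl e) : False := by
  have fx : ∀ g : G, g • tl e = tl e → (g * g) • e.1 = e.1 := fun g q => by
    refine congrArg Subtype.val (?_ : (g * g) • e = e)
    rcases (J.tr.stabm i g).1 q with r | r
    · rw [mul_smul, r, r]
    · rw [mul_smul, r, ← J.sy.poc.ast, r, J.sy.poc.inv]
  rcases e.2.1.comm S hP (z2_sq z) (fx a av) (fx b bv) (by rw [mul_smul, aP, aP])
    (by rw [mul_smul, bP, bP]) with q | q
  · exact nu (q ▸ e.2)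
  · exact nu (q ▸ S.cf.unc_st e.2)

/-- the fibre at a vertex that carries a crossed wall -/
theorem sei_of_frt {v : V} {a b h : G} {P : Set X0} (z : Z2 a b) (av : a • v = v) (bv : b • v = v)
    (hP : Can T P) (nu : ¬ Unc T P) (aP : a • P = P) (bP : b • P = P) (h1 : h ≠ 1)
    (H : Frt T P h) : Sv.Sei G Γ v := by
  have C := S.cf
  have Q := J.sy.poc
  obtain ⟨e, rfl | ⟨i, rfl⟩⟩ := J.tr.all v
  swap
  · exact (not_mid J z hP nu aP bP i av bv).elim
  refine sei_of J e h1 fun f p => ?_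
  have hf := f.2.1
  have ns : ∀ y : S.cf.U, hd y = hd e → ¬ (y.1 ⊆ P ∨ y.1 ⊆ st T P) := fun y q =>
    not_sub J z hP nu aP bP (q ▸ av) (q ▸ bv)
  have far : st T f.1 ⊆ P ∨ st T f.1 ⊆ st T P := by
    rcases f.2.2 P hP with k | k | k | k
    · exact (ns f p (.inl k)).elim
    · exact (ns f p (.inr k)).elim
    · exact .inl k
    · exact .inr (C.anti _ _ hP hf k)
  obtain ⟨D, hD, hh, s, k⟩ := H _ (C.unc_st f.2) far
  rcases s.eq_or_ssubset with q | q
  · exact C.inj (C.smul h _ hf) hf (by rw [C.ast h _ hf, q, hh])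
  · obtain ⟨y, n, r⟩ := ex_nx' Q (x := S.cf.ust f) (e := ⟨D, hD⟩) q
    have r' : y.1 ⊆ D := r.elim (fun r => (congrArg Subtype.val r).le) fun r => r.1
    exact (ns y (((J.tr.hdq f y).2 (.inr n)).symm.trans p)
      (k.imp r'.trans r'.trans)).elim

/-- the first exceptional case -/
theorem s1_sei (H : ∀ P, Can T P → ¬ Unc T P → ∃ h : G, h ≠ 1 ∧ Frt T P h) {v : V}
    (k : S1 T v) : Sv.Sei G Γ v :=
  let ⟨_, _, P, z, av, bv, hP, nu, aP, bP⟩ := k
  let ⟨_, h1, f⟩ := H P hP nu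
  sei_of_frt J z av bv hP nu aP bP h1 f

end

/-- from a chain connected family with uncrossed frontier walls -/
theorem frt_of (C : Cf T) {P : Set X0} {h : G} {L : Set (Set X0)} (hP : Can T P)
    (conn : ∀ A ∈ L, Relation.ReflTransGen
      (fun A B => Can T A ∧ Can T B ∧ (¬ Nst T A B ∨ B = st T A)) P A)
    (fr : ∀ F, Can T F → (∀ A ∈ L, F ⊆ A ∨ F ⊆ st T A) →
      ∃ B, Unc T B ∧ h • B = B ∧ F ⊆ st T B ∧ ∃ A ∈ L, A ⊆ B) : Frt T P h := by
  have step : ∀ D, Unc T D → ∀ A B, (Can T A ∧ Can T B ∧ (¬ Nst T A B ∨ B = st T A)) →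
      ((D ⊆ A ∨ D ⊆ st T A) ↔ (D ⊆ B ∨ D ⊆ st T B)) := by
    rintro D hD A B ⟨hA, hB, n | rfl⟩
    · exact ⟨spread C hD.1 hA hB (hD.2 B hB) n,
        spread C hD.1 hB hA (hD.2 A hA) fun k => n (C.nst_symm hB hA k)⟩
    · rw [C.inv A hA, or_comm]
  have all : ∀ D, Unc T D → ∀ A ∈ L, Can T A ∧
      ((D ⊆ P ∨ D ⊆ st T P) ↔ (D ⊆ A ∨ D ⊆ st T A)) := fun D hD A a => by
    have := conn A a
    clear a
    induction this with
    | refl => exact ⟨hP, Iff.rfl⟩
    | tail _ k ih => exact ⟨k.2.1, ih.2.trans (step D hD _ _ k)⟩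
  intro F hF k
  obtain ⟨B, hB, hh, s, A, a, t⟩ := fr F hF.1 fun A a => (all F hF A a).2.1 k
  have u := C.unc_st hB
  exact ⟨_, u, by rw [← C.ast h B hB.1, hh], s,
    (all _ u A a).2.2 (.inr (C.anti _ _ (all _ u A a).1 hB.1 t))⟩

end Pool.Agent.Work.MP_3d425c_gt.Fr
end

-- merged part: Pool.Agent.Work.MP_3d425c_gt.Cw.X
section
/-! Crossing walls. -/

namespace Pool.Agent.Work.MP_3d425c_gt.Cw
open Set MulAction Pool.Agent.Work.MP_3d425c_gt.Md Pool.Agent.Work.MP_3d425c_gt.Bg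
  Pool.Agent.Work.MP_3d425c_gt.Jw Pool.Agent.Work.MP_3d425c_gt.Bq
open scoped Pointwise

variable {G X0 X1 X2 X3 : Type} [Group G] [MulAction G X0] [MulAction G X1] [MulAction G X2]
  [MulAction G X3] {T : Tri G X0 X1 X2 X3} {P Q R I : Subgroup G} {A B C D : Set X0}
  {a b c d g h : G}

/-- one end modulo a cyclic group -/
theorem cx_end (hM : Mfd T) (tf : ∀ a : G, a ≠ 1 → ¬ IsOfFinOrder a) (cy : IsCyclic I)
    (i : Inv I A) (f : SmP I (cut T A)) : SmP I A ∨ SmP I Aᶜ := by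
  obtain ⟨c, rfl⟩ := (Subgroup.isCyclic_iff_exists_zpowers_eq_top I).1 cy
  obtain ⟨s, k, e⟩ := wang_tf hM tf c (z := wz T A) (wz_coc A)
    (Jw.wz_inv (i c (Subgroup.mem_zpowers c))) (smP_zpowers.1 (f.mono fun e he => wz_ne he))
  have ct := const_of hM (t := fun x => wi A x - s x) fun x => by
    have := e x
    unfold wz at this
    linarith
  by_contra n
  rw [not_or] at n
  have p : ∀ S : Set X0, ¬ SmP (Subgroup.zpowers c) S → ∃ x ∈ S, s x = 0 := fun S hS => by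
    by_contra m
    exact hS ((smP_zpowers.2 k).mono fun x hx q => m ⟨x, hx, q⟩)
  obtain ⟨x, hx, ex⟩ := p _ n.1
  obtain ⟨y, hy, ey⟩ := p _ n.2
  have := ct x y
  simp only [wi_pos hx, wi_neg hy, ex, ey] at this
  norm_num at this

/-- the ends of the edges that leave `A` -/
def cxb (T : Tri G X0 X1 X2 X3) (A : Set X0) : Set X0 :=
  (fun e => T.d1 e 0) '' cut T A ∪ (fun e => T.d1 e 1) '' cut T A

theorem cx_bd (f : SmP P (cut T A)) : SmP P (cxb T A) :=
  (f.image _ fun p _ e => T.e1 p e 0).union (f.image _ fun p _ e => T.e1 p e 1)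

/-- points of an `R`-finite set that are separated from their `g`-translate -/
theorem cx_sep (hM : Mfd T) (f : SmP P (cut T A)) (k : SmP R D) (cm : ∀ r ∈ R, Commute r g) :
    SmP (P ⊓ R) {u | u ∈ D ∧ ¬ (u ∈ A ↔ g • u ∈ A)} := by
  obtain ⟨K, hK, k⟩ := k
  choose F hF m using fun x : X0 => cn_path hM x (g • x)
  choose U hU n using fun e => cn_cos T.free1 f R e
  refine ⟨⋃ x ∈ K, ⋃ e ∈ F x, (· • x) '' U e,
    hK.biUnion fun x _ => (hF x).biUnion fun e _ => (hU e).image _, fun u hu => ?_⟩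
  obtain ⟨x, hx, q, hq, rfl⟩ := k u hu.1
  obtain ⟨e, he, c⟩ := m x (q⁻¹ • A) fun c => hu.2 (by
    rwa [mem_inv_smul_set_iff, mem_inv_smul_set_iff, ← mul_smul, (cm q hq).eq, mul_smul] at c)
  rw [cn_cut, mem_inv_smul_set_iff] at c
  obtain ⟨r, hr, p⟩ := n e q hq c
  exact ⟨r • x, mem_biUnion hx (mem_biUnion he ⟨r, hr, rfl⟩), _, p, by
    rw [mul_smul, inv_smul_smul]⟩

theorem cx_orb (Q : Subgroup G) (x : X0) : Inv Q {y | ∃ q ∈ Q, y = q • x} := fun p hp y =>
  ⟨fun ⟨q, hq, e⟩ => ⟨p⁻¹ * q, mul_mem (inv_mem hp) hq, by rw [mul_smul, ← e, inv_smul_smul]⟩,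
    fun ⟨q, hq, e⟩ => ⟨p * q, mul_mem hp hq, by rw [mul_smul, e]⟩⟩

/-- an orbit inside `B` keeps `Q`-finite sets almost inside `B` -/
theorem cx_nr (hM : Mfd T) (f : SmP R (cut T B)) (k : SmP Q D) {x : X0}
    (hx : ∀ q ∈ Q, q • x ∈ B) : SmP (R ⊓ Q) (Bᶜ ∩ D) :=
  cn_nr hM (B := {y | ∃ q ∈ Q, y = q • x}) (fun _ n ⟨q, hq, e⟩ => n (e ▸ hx q hq))
    ⟨x, 1, one_mem _, (one_smul _ _).symm⟩ (cx_orb Q x) (by rwa [cn_cut_compl]) k

theorem cx_cut (hM : Mfd T) (k : SmP I D) (h : ∀ e (i j : Fin 2), T.d1 e i ∈ C → T.d1 e j ∉ C →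
    T.d1 e i ∈ D ∨ T.d1 e j ∈ D) : SmP I (cut T C) := by
  refine (sm_end hM k).mono fun e he => ?_
  by_cases c : T.d1 e 0 ∈ C
  · exact h e 0 1 c fun n => he (iff_of_true c n)
  · exact (h e 1 0 (by_contra fun n => he (iff_of_false c n)) c).symm

theorem cx_mem (e : X1) (i j : Fin 2) (n : ¬ (T.d1 e i ∈ A ↔ T.d1 e j ∈ A)) :
    T.d1 e i ∈ cxb T A := by
  have c : e ∈ cut T A := fun k => n (by
    fin_cases i <;> fin_cases j
    exacts [Iff.rfl, k, k.symm, Iff.rfl])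
  fin_cases i
  exacts [.inl ⟨e, c, rfl⟩, .inr ⟨e, c, rfl⟩]

theorem cx_corner (hM : Mfd T) (tf : ∀ a : G, a ≠ 1 → ¬ IsOfFinOrder a) (cy : IsCyclic I)
    (iA : Inv I A) (iB : Inv I B) (big : ¬ SmP I B) (h1 : SmP I (Bᶜ ∩ cxb T A))
    (h2 : SmP I (Aᶜ ∩ cxb T B)) : SmP I (Aᶜ ∩ Bᶜ) := by
  refine (cx_end hM tf cy (fun p hp x => and_congr (not_congr (iA p hp x))
    (not_congr (iB p hp x))) (cx_cut hM (h1.union h2) fun e i j u w => .inl ?_)).resolve_right
      fun n => big (n.mono fun x hx k => k.2 hx)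
  by_cases k : T.d1 e j ∈ A
  · exact .inl ⟨u.2, cx_mem e i j fun m => u.1 (m.2 k)⟩
  · exact .inr ⟨u.1, cx_mem e i j fun m => w ⟨k, fun n => u.2 (m.2 n)⟩⟩

theorem cx_core (hM : Mfd T) (tf : ∀ a : G, a ≠ 1 → ¬ IsOfFinOrder a) (cd : Commute c d)
    (cy : IsCyclic ↥(P ⊓ pp c d)) (iA : Inv P A) (fA : SmP P (cut T A)) (iB : Inv (pp c d) B)
    (fB : SmP (pp c d) (cut T B)) (b1 : ¬ SmP (pp c d) B) (b2 : ¬ SmP (pp c d) Bᶜ)
    (h1 : SmP (P ⊓ pp c d) (Bᶜ ∩ cxb T A)) :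
    SmP (P ⊓ pp c d) (A ∩ Bᶜ) ∨ SmP (P ⊓ pp c d) (Aᶜ ∩ Bᶜ) := by
  have ab : ∀ p ∈ pp c d, ∀ q ∈ pp c d, Commute p q := fun p hp q hq => by
    obtain ⟨i, j, rfl⟩ := (mem_pp cd p).1 hp
    obtain ⟨k, l, rfl⟩ := (mem_pp cd q).1 hq
    exact (((Commute.refl c).zpow_zpow i k).mul_right (cd.zpow_zpow i l)).mul_left
      ((cd.symm.zpow_zpow j k).mul_right ((Commute.refl d).zpow_zpow j l))
  have iA' : Inv (P ⊓ pp c d) A := fun p hp => iA p hp.1
  have iB' : Inv (P ⊓ pp c d) B := fun p hp => iB p hp.2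
  have big : ¬ SmP (P ⊓ pp c d) B := fun n => b1 (n.le inf_le_right)
  have st : ∀ q ∈ pp c d, SmP (pp c d) {u | u ∉ B ∧ ¬ (u ∈ A ↔ q • u ∈ A)} := fun q hq => by
    have h2 : SmP (P ⊓ pp c d) (q⁻¹ • (Bᶜ ∩ cxb T A)) := by
      obtain ⟨K, hK, k⟩ := h1
      refine ⟨q⁻¹ • K, hK.smul_set, ?_⟩
      rintro _ ⟨x, hx, rfl⟩
      obtain ⟨y, hy, p, hp, rfl⟩ := k x hx
      exact ⟨q⁻¹ • y, smul_mem_smul_set hy, p, hp, by
        show q⁻¹ • p • y = _
        rw [← mul_smul, ← mul_smul, (ab p hp.2 _ (inv_mem hq)).eq]⟩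
    have h3 := cx_sep hM fA (cx_bd fB) fun r hr => ab r hr q hq
    refine SmP.le ((cx_end hM tf cy (fun p hp x => and_congr (not_congr (iB' p hp x))
      (not_congr ?_)) (cx_cut hM ((h1.union h2).union h3) fun e i j u w => .inl ?_)).resolve_right
        fun n => big (n.mono fun x hx k => k.1 hx)) inf_le_right
    · rw [iA' p hp, ← mul_smul, ← (ab p hp.2 q hq).eq, mul_smul, iA' p hp]
    · by_cases k : T.d1 e j ∈ B
      · exact .inr ⟨cx_mem e i j fun m => u.1 (m.2 k), u.2⟩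
      · have w' : T.d1 e j ∈ A ↔ q • T.d1 e j ∈ A := by_contra fun n => w ⟨k, n⟩
        by_cases m : T.d1 e i ∈ A ↔ T.d1 e j ∈ A
        · refine .inl (.inr (mem_inv_smul_set_iff.2 ⟨fun n => u.1 ((iB q hq _).1 n), ?_⟩))
          rw [← T.e1]
          refine cx_mem _ i j fun n => u.2 ?_
          rw [T.e1, T.e1] at n
          exact (m.trans w').trans n.symm
        · exact .inl (.inl ⟨u.1, cx_mem e i j m⟩)
  obtain ⟨K, hK, k⟩ := (st c (cn_ma c d)).union (st d (cn_mb c d))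
  obtain ⟨y, hy, n⟩ : ∃ y, y ∉ B ∧ ¬ ∃ x ∈ K, ∃ p ∈ pp c d, y = p • x := by
    by_contra n
    exact b2 ⟨K, hK, fun x hx => by_contra fun m => n ⟨x, hx, m⟩⟩
  have on : ∀ r ∈ pp c d, ∀ q, q = c ∨ q = d → (r • y ∈ A ↔ q • r • y ∈ A) := fun r hr q hq => by
    by_contra m
    have nb : r • y ∉ B := fun o => hy ((iB r hr y).1 o)
    obtain ⟨x, hx, p, hp, e⟩ := k (r • y) (hq.imp (fun e => by subst e; exact ⟨nb, m⟩)
      fun e => by subst e; exact ⟨nb, m⟩)
    exact n ⟨x, hx, r⁻¹ * p, mul_mem (inv_mem hr) hp, by rw [mul_smul, ← e, inv_smul_smul]⟩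
  have all : ∀ q ∈ pp c d, ∀ r ∈ pp c d, (r • y ∈ A ↔ q • r • y ∈ A) := fun q hq => by
    induction hq using Subgroup.closure_induction with
    | mem q hq => exact fun r hr => on r hr q hq
    | one => exact fun r _ => by rw [one_smul]
    | mul p q _ hq ip iq =>
      exact fun r hr => by rw [iq r hr, ← mul_smul, ip _ (mul_mem hq hr), mul_smul, mul_smul]
    | inv q hq iq =>
      exact fun r hr => by
        rw [← mul_smul, iq _ (mul_mem (inv_mem hq) hr), mul_smul, smul_inv_smul]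
  have al : ∀ q ∈ pp c d, (y ∈ A ↔ q • y ∈ A) := fun q hq => by
    simpa using all q hq 1 (one_mem _)
  by_cases m : y ∈ A
  · exact .inr (cx_corner hM tf cy iA' iB' big h1
      (cx_nr hM fA (cx_bd fB) fun q hq => (al q hq).1 m))
  · refine .inl ?_
    have := cx_corner (A := Aᶜ) hM tf cy (fun p hp x => not_congr (iA' p hp x)) iB' big
      (by unfold cxb at h1 ⊢; rwa [cn_cut_compl])
      (cx_nr hM (by rwa [cn_cut_compl]) (cx_bd fB) fun q hq n => m ((al q hq).2 n))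
    rwa [compl_compl] at this

theorem cx_ab (S : Std T) (k : Can T A) (h1 : a • A = A) (h2 : b • A = A) : Commute a b := by
  obtain ⟨i⟩ := k.z2 S
  exact congrArg Subtype.val (i.injective (by rw [map_mul, map_mul, mul_comm]) :
    (⟨a, h1⟩ * ⟨b, h2⟩ : stabilizer G A) = ⟨b, h2⟩ * ⟨a, h1⟩)

theorem cx_rk (S : Std T) (h : Can T A) (k : Can T B) (n : ¬ Nst T A B) :
    IsCyclic ↥(stabilizer G A ⊓ stabilizer G B) := by
  by_contra c
  obtain ⟨i⟩ := h.z2 S
  obtain ⟨a, b, ab, ind, hb⟩ := d1_basis _ _ inf_le_left i c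
  have ma := (hb a).2 ⟨1, 0, by rw [zpow_one, zpow_zero, mul_one]⟩
  have mb := (hb b).2 ⟨0, 1, by rw [zpow_one, zpow_zero, one_mul]⟩
  exact (k.comm S h ⟨ab, ind⟩ ma.2 mb.2 ma.1 mb.1).elim (fun e => n (.inl e.le))
    fun e => n (.inr (.inl e.le))

/-- an orbit of a lattice of `A` on one side of `B` -/
theorem x0 (S : Std T) (h : Can T A) (k : Can T B) (z : Z2 a b) (h1 : a • A = A) (h2 : b • A = A)
    (x : X0) (hx : (∀ q ∈ pp a b, q • x ∈ B) ∨ ∀ q ∈ pp a b, q • x ∉ B) : Nst T A B := by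
  by_contra n
  obtain ⟨c, d, z', w, l, le, -⟩ := k.idx S.mfd
  have cy : IsCyclic ↥(stabilizer G A ⊓ pp c d) :=
    have := cx_rk S h k n
    Subgroup.isCyclic_of_le (inf_le_inf_left _ le)
  have la : pp a b ≤ stabilizer G A := (Subgroup.closure_le _).2 (by
    rintro _ (rfl | rfl)
    exacts [h1, h2])
  have f := cx_bd ((sm2_iff z).1 (cn_fix S.mfd h z h1 h2).1.fin)
  have i : pp c d ⊓ pp a b ≤ stabilizer G A ⊓ pp c d :=
    le_inf (inf_le_right.trans la) inf_le_left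
  have j := inf_le_inf_left (stabilizer G A) le
  have b1 : ¬ SmP (pp c d) B := fun m => w.big ((sm2_iff z').2 m)
  have b2 : ¬ SmP (pp c d) Bᶜ := fun m => w.big' ((sm2_iff z').2 m)
  refine n (h.nst S k ?_)
  rcases hx with hx | hx
  · rcases cx_core S.mfd S.tf z'.1 cy (cn_inv_st A) h.fin l.mn.inv l.mn.fin b1 b2
      ((cx_nr S.mfd l.mn.fin f hx).le i) with m | m
    · exact .inl (m.le j)
    · exact .inr (.inr (.inl (m.le j)))
  · rcases cx_core S.mfd S.tf z'.1 cy (cn_inv_st A) h.fin l.mn.compl.inv l.mn.compl.fin b2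
      (by rwa [compl_compl]) ((cx_nr S.mfd l.mn.compl.fin f hx).le i) with m | m
    · exact .inr (.inl (by rw [compl_compl] at m; exact m.le j))
    · exact .inr (.inr (.inr (by rw [compl_compl, inter_comm] at m; exact m.le j)))

theorem cx_line {f : ℤ → Prop} (h : ∀ i, f i ↔ f (i + 1)) (i j : ℤ) : f i ↔ f j := by
  have : ∀ i, f i ↔ f 0 := fun i => by
    induction i using Int.induction_on with
    | zero => rfl
    | succ n ih => exact (h n).symm.trans ih
    | pred n ih => exact (h _).trans (by rwa [sub_add_cancel])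
  exact (this i).trans (this j).symm

/-- walls without a common element are nested -/
theorem x1 (S : Std T) (h : Can T A) (k : Can T B)
    (e : ∀ g : G, g • A = A → g • B = B → g = 1) : Nst T A B := by
  obtain ⟨a, b, z, -, -, le, -⟩ := h.idx S.mfd
  obtain ⟨x⟩ : Nonempty X0 := let ⟨_, _, _, w, _⟩ := h; (cn_ne' w.big).to_type
  have ab : ∀ g ∈ pp a b, ∀ r ∈ pp a b, Commute r g := fun g hg r hr =>
    cx_ab S h (le hr) (le hg)
  have inj : Function.Injective fun p : ℤ × ℤ => (a ^ p.1 * b ^ p.2) • x := fun p q m => by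
    have m' : (a ^ p.1 * b ^ p.2) • x = (a ^ q.1 * b ^ q.2) • x := m
    have := z.2 (p.1 - q.1) (p.2 - q.2) (T.free _ ((a ^ q.1 * b ^ q.2) • x) (by
      rw [← mul_smul, (z.1.symm.zpow_zpow _ _).mul_mul_mul_comm, ← zpow_add, ← zpow_add,
        sub_add_cancel, sub_add_cancel, m']))
    exact Prod.ext (by omega) (by omega)
  have bd : ∀ g ∈ pp a b, ∃ N : ℕ, ∀ i j : ℤ, (N : ℤ) < |i| ∨ (N : ℤ) < |j| →
      ((a ^ i * b ^ j) • x ∈ B ↔ g • (a ^ i * b ^ j) • x ∈ B) := fun g hg => by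
    obtain ⟨K, hK, m⟩ := cx_sep S.mfd k.fin (R := pp a b) (D := {y | ∃ q ∈ pp a b, y = q • x})
      ⟨{x}, finite_singleton x, fun y ⟨q, hq, e⟩ => ⟨x, rfl, q, hq, e⟩⟩ (ab g hg)
    obtain ⟨N, hN⟩ := ((hK.preimage inj.injOn).image
      fun p : ℤ × ℤ => max p.1.natAbs p.2.natAbs).bddAbove
    refine ⟨N, fun i j o => by_contra fun n => ?_⟩
    obtain ⟨y, hy, p, hp, r⟩ := m _ ⟨⟨_, (mem_pp z.1 _).2 ⟨i, j, rfl⟩, rfl⟩, n⟩
    rw [e p (le hp.2) hp.1, one_smul] at r
    have := hN ⟨(i, j), by rw [mem_preimage, r]; exact hy, rfl⟩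
    simp only [max_le_iff] at this
    rw [Int.abs_eq_natAbs, Int.abs_eq_natAbs] at o
    omega
  obtain ⟨M, hM⟩ := bd a (cn_ma a b)
  obtain ⟨N, hN⟩ := bd b (cn_mb a b)
  have row : ∀ i i' : ℤ, ((a ^ i * b ^ (M + 1 : ℤ)) • x ∈ B ↔ (a ^ i' * b ^ (M + 1 : ℤ)) • x ∈ B) :=
    cx_line fun i => by
      rw [hM i _ (.inr (lt_abs.2 (.inl (by omega)))), ← mul_smul, ← mul_assoc, add_comm i,
        zpow_one_add]
  have col : ∀ i : ℤ, (N : ℤ) < |i| → ∀ j j' : ℤ,
      ((a ^ i * b ^ j) • x ∈ B ↔ (a ^ i * b ^ j') • x ∈ B) := fun i hi => cx_line fun j => by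
    rw [hN i j (.inl hi), ← mul_smul, ← mul_assoc, (z.1.symm.zpow_right i).eq, mul_assoc,
      add_comm j, zpow_one_add]
  have z' : Z2 (a ^ (2 * N + 2 : ℤ)) b := ⟨z.1.zpow_left _, fun m n o => by
    rw [← zpow_mul] at o
    obtain ⟨u, v⟩ := z.2 _ _ o
    exact ⟨(mul_eq_zero.1 u).resolve_left (by omega), v⟩⟩
  have key : ∀ q ∈ pp (a ^ (2 * N + 2 : ℤ)) b, (q • a ^ (N + 1 : ℤ) • x ∈ B ↔
      (a ^ (0 : ℤ) * b ^ (M + 1 : ℤ)) • x ∈ B) := fun q hq => by
    obtain ⟨i, j, rfl⟩ := (mem_pp z'.1 q).1 hq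
    rw [← mul_smul, mul_assoc, (z.1.symm.zpow_zpow _ _).eq, ← mul_assoc, ← zpow_mul, ← zpow_add]
    refine (col _ ?_ _ _).trans (row _ _)
    rcases le_or_gt 0 i with o | o
    · exact lt_abs.2 (.inl (by nlinarith))
    · exact lt_abs.2 (.inr (by nlinarith))
  refine x0 S h k z' (le (zpow_mem (cn_ma a b) _)) (le (cn_mb a b)) (a ^ (N + 1 : ℤ) • x) ?_
  by_cases o : (a ^ (0 : ℤ) * b ^ (M + 1 : ℤ)) • x ∈ B
  · exact .inl fun q hq => (key q hq).2 o
  · exact .inr fun q hq m => o ((key q hq).1 m)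

/-- crossing walls have a common element -/
theorem x1' (S : Std T) (h : Can T A) (k : Can T B) (n : ¬ Nst T A B) :
    ∃ g : G, g ≠ 1 ∧ g • A = A ∧ g • B = B := by
  by_contra m
  exact n (x1 S h k fun g u v => by_contra fun o => m ⟨g, o, u, v⟩)

theorem comm_sq (S : Std T) (k : Can T A) (z : Z2 a b) (h1 : a • A = A) (h2 : b • A = A)
    (ga : Commute g a) (gb : Commute g b) : (g * g) • A = A := by
  have f : ∀ {c : G}, c • A = A → Commute g c → c • g • A = g • A := fun e m => by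
    rw [← mul_smul, ← m.eq, mul_smul, e]
  rcases k.comm S (k.smul g) z h1 h2 (f h1 ga) (f h2 gb) with e | e
  · rw [mul_smul, e, e]
  · rw [mul_smul, e, ← k.st_smul S, e, k.st_st S]

theorem nst_symm (S : Std T) (h : Can T A) (k : Can T B) (n : Nst T A B) : Nst T B A := by
  rcases n with n | n | n | n
  · exact .inr (.inr (.inr n))
  · refine .inr (.inl ?_)
    simpa only [k.st_st S] using h.st_anti S (k.star S) n
  · refine .inr (.inr (.inl ?_))
    simpa only [h.st_st S] using (h.star S).st_anti S k n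
  · exact .inl n

theorem nst_st (S : Std T) (h : Can T A) (k : Can T B) : Nst T A (st T B) ↔ Nst T A B := by
  have f : ∀ {B : Set X0}, Can T B → Nst T A B → Nst T A (st T B) := fun k n => by
    rcases n with n | n | n | n
    · exact .inr (.inl (by rwa [k.st_st S]))
    · exact .inl n
    · refine .inr (.inr (.inr ?_))
      simpa only [h.st_st S] using (h.star S).st_anti S k n
    · exact .inr (.inr (.inl (k.st_anti S h n)))
  exact ⟨fun n => by simpa only [k.st_st S] using f (k.star S) n, f k⟩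

theorem nst_st' (S : Std T) (h : Can T A) (k : Can T B) : Nst T (st T A) B ↔ Nst T A B :=
  ⟨fun n => nst_symm S k h ((nst_st S k h).1 (nst_symm S (h.star S) k n)),
    fun n => nst_symm S k (h.star S) ((nst_st S k h).2 (nst_symm S h k n))⟩

theorem cx_fst (S : Std T) (k : Can T A) (e : g • A = A) : g • st T A = st T A := cn_st_le S k e

/-- nested walls have comparable sides -/
theorem nst_sub (S : Std T) (h : Can T A) (k : Can T B) (n : Nst T A B) :
    ∃ A' B', (A' = A ∨ A' = st T A) ∧ (B' = B ∨ B' = st T B) ∧ A' ⊆ B' := by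
  rcases n with n | n | n | n
  · exact ⟨_, _, .inl rfl, .inl rfl, n⟩
  · exact ⟨_, _, .inl rfl, .inr rfl, n⟩
  · exact ⟨_, _, .inr rfl, .inl rfl, n⟩
  · exact ⟨_, _, .inr rfl, .inr rfl, k.st_anti S h n⟩

theorem cx_side (S : Std T) (k : Can T B) (e : C = B ∨ C = st T B) :
    Can T C ∧ (∀ g : G, g • B = B → g • C = C) ∧
      ∀ A, Can T A → (Nst T A C ↔ Nst T A B) := by
  rcases e with rfl | rfl
  · exact ⟨k, fun _ e => e, fun _ _ => Iff.rfl⟩
  · exact ⟨k.star S, fun _ e => cx_fst S k e, fun _ h => nst_st S h k⟩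

theorem cx_fz (e : g • A = A) (n : ℤ) (x : X0) : g ^ n • x ∈ A ↔ x ∈ A :=
  cn_inv_st A _ (zpow_mem (mem_stabilizer_iff.2 e) n) x

theorem cx_pow (tf : ∀ a : G, a ≠ 1 → ¬ IsOfFinOrder a) (h : a ≠ 1) {n : ℤ} (e : a ^ n = 1) :
    n = 0 := (ori_pow tf e).resolve_right h

/-- two nontrivial elements of a cyclic group have a common power -/
theorem cx_dep (cy : IsCyclic I) (ha : a ∈ I) (hb : b ∈ I) (a1 : a ≠ 1) (b1 : b ≠ 1) :
    ∃ m n : ℤ, m ≠ 0 ∧ n ≠ 0 ∧ a ^ m = b ^ n := by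
  obtain ⟨c, rfl⟩ := (Subgroup.isCyclic_iff_exists_zpowers_eq_top I).1 cy
  obtain ⟨i, rfl⟩ := ha
  obtain ⟨j, rfl⟩ := hb
  exact ⟨j, i, fun e => b1 (by simp [e]), fun e => a1 (by simp [e]), by
    rw [← zpow_mul, ← zpow_mul, mul_comm]⟩

theorem cx_z2 (tf : ∀ a : G, a ≠ 1 → ¬ IsOfFinOrder a) (ab : Commute a b) (a1 : a ≠ 1)
    (b1 : b ≠ 1) (n : ¬ ∃ m n : ℤ, m ≠ 0 ∧ n ≠ 0 ∧ a ^ m = b ^ n) : Z2 a b := by
  refine ⟨ab, fun i j e => ?_⟩
  have e' : a ^ i = b ^ (-j) := by rw [zpow_neg, eq_inv_iff_mul_eq_one, e]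
  by_cases i0 : i = 0
  · exact ⟨i0, cx_pow tf b1 (by rwa [i0, zpow_zero, one_mul] at e)⟩
  · refine (n ⟨i, -j, i0, fun j0 => i0 (cx_pow tf a1 ?_), e'⟩).elim
    rw [e', j0, zpow_zero]

/-- the walls that cross a wall share one direction -/
theorem x2 (S : Std T) (h : Can T A) (k : Can T B) (k' : Can T C) (n : ¬ Nst T A B)
    (n' : ¬ Nst T A C) (c1 : c ≠ 1) (d1 : d ≠ 1) (cA : c • A = A) (cB : c • B = B)
    (dA : d • A = A) (dC : d • C = C) : ∃ m n : ℤ, m ≠ 0 ∧ n ≠ 0 ∧ c ^ m = d ^ n := by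
  by_contra nd
  have z := cx_z2 S.tf (cx_ab S h cA dA) c1 d1 nd
  obtain ⟨B', C', eB, eC, sub⟩ := nst_sub S k k' (x1 S k k' fun g gB gC => by_contra fun g1 => by
    have gA := comm_sq S h z cA dA (cx_ab S k gB cB) (cx_ab S k' gC dC)
    have g2 : g * g ≠ 1 := fun e => two_ne_zero (cx_pow S.tf g1 (n := 2) (by rw [zpow_two, e]))
    obtain ⟨i, j, i0, j0, e⟩ := cx_dep (cx_rk S h k n) ⟨cA, cB⟩
      ⟨gA, mul_mem (mem_stabilizer_iff.2 gB) gB⟩ c1 g2
    obtain ⟨i', j', i0', j0', e'⟩ := cx_dep (cx_rk S h k' n') ⟨dA, dC⟩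
      ⟨gA, mul_mem (mem_stabilizer_iff.2 gC) gC⟩ d1 g2
    exact nd ⟨i * j', i' * j, mul_ne_zero i0 j0', mul_ne_zero i0' j0, by
      rw [zpow_mul, zpow_mul, e, e', ← zpow_mul, ← zpow_mul, mul_comm j]⟩)
  obtain ⟨kB, fB, nB⟩ := cx_side S k eB
  obtain ⟨kC, fC, nC⟩ := cx_side S k' eC
  obtain ⟨x⟩ : Nonempty X0 := let ⟨_, _, _, w, _⟩ := h; (cn_ne' w.big).to_type
  obtain ⟨p, hp, m⟩ : ∃ q ∈ pp c d, q • x ∈ B' := by
    by_contra o
    exact n ((nB A h).1 (x0 S h kB z cA dA x (.inr fun q hq m => o ⟨q, hq, m⟩)))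
  obtain ⟨q, hq, m'⟩ : ∃ q ∈ pp c d, q • x ∉ C' := by
    by_contra o
    exact n' ((nC A h).1 (x0 S h kC z cA dA x (.inl fun q hq => by_contra fun m => o ⟨q, hq, m⟩)))
  obtain ⟨i, j, rfl⟩ := (mem_pp z.1 p).1 hp
  obtain ⟨i', j', rfl⟩ := (mem_pp z.1 q).1 hq
  rw [mul_smul, cx_fz (fB c cB)] at m
  rw [(z.1.zpow_zpow _ _).eq, mul_smul, cx_fz (fC d dC)] at m'
  have := sub ((cx_fz (fB c cB) i' _).2 m)
  rw [← mul_smul, (z.1.zpow_zpow _ _).eq, mul_smul, cx_fz (fC d dC)] at this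
  exact m' this

/-- a wall that crosses a vertical wall is kept by a power of the fibre -/
theorem xv (S : Std T) {B0 B1 : Set X0} (k0 : Can T B0) (k1 : Can T B1) (n0 : ¬ Nst T B0 B1)
    (h1 : h ≠ 1) (f0 : h • B0 = B0) (f1 : h • B1 = B1) (kD : Can T D) (fD : h • D = D)
    (k : Can T B) (n : ¬ Nst T D B) : ∃ m : ℤ, m ≠ 0 ∧ h ^ m • B = B := by
  by_contra nv
  have f : ∀ {c : G}, c • B = B → ¬ ∃ m n : ℤ, m ≠ 0 ∧ n ≠ 0 ∧ h ^ m = c ^ n :=
    fun e ⟨i, j, i0, _, o⟩ => nv ⟨i, i0, o ▸ zpow_mem (mem_stabilizer_iff.2 e) j⟩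
  obtain ⟨d, d1, dD, dB⟩ := x1' S kD k n
  have z := cx_z2 S.tf (cx_ab S kD fD dD) h1 d1 (f dB)
  have nb : Nst T B B0 := nst_symm S k0 k (by_contra fun o => by
    obtain ⟨c, c1, c0, cB⟩ := x1' S k0 k o
    exact f cB (x2 S k0 k1 k n0 o h1 c1 f0 f1 c0 cB))
  obtain ⟨B', C', eB, eC, sub⟩ := nst_sub S k k0 nb
  obtain ⟨kB, fB, nB⟩ := cx_side S k eB
  obtain ⟨kC, fC, -⟩ := cx_side S k0 eC
  obtain ⟨y, hy⟩ : C'ᶜ.Nonempty := let ⟨_, _, _, w, _⟩ := kC; cn_ne' w.big'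
  refine n ((nB D kD).1 (x0 S kD kB z fD dD y (.inr fun q hq m => hy ?_)))
  obtain ⟨i, j, rfl⟩ := (mem_pp z.1 q).1 hq
  rw [(z.1.zpow_zpow _ _).eq, mul_smul, cx_fz (fB d dB)] at m
  exact (cx_fz (fC h f0) i y).1 (sub m)

end Pool.Agent.Work.MP_3d425c_gt.Cw
end
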