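import Pool.Agent.Work.MP_3d425c_gt.Nh.Rhm
import Pool.Agent.Work.MP_3d425c_gt.Sv.Line
import Pool.Agent.Work.MP_3d425c_gt.Cw.X

-- merged part: Pool.Agent.Work.MP_3d425c_gt.Jw.Cross
section
/-! Crossing and nesting of walls. -/

namespace Pool.Agent.Work.MP_3d425c_gt.Jw
open Set Filter Pool.Agent.Work.MP_3d425c_gt.Md Pool.Agent.Work.MP_3d425c_gt.Cy
  Pool.Agent.Work.MP_3d425c_gt.Bg Pool.Agent.Work.MP_3d425c_gt.Bq
open scoped Pointwise

variable {G X0 X1 X2 X3 : Type} [Group G] [MulAction G X0] [MulAction G X1] [MulAction G X2]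
  [MulAction G X3] {T : Tri G X0 X1 X2 X3} {P Q R C : Subgroup G} {A B D : Set X0} {q c : G}

/-- a free abelian subgroup of rank two -/
def Z2 (P : Subgroup G) : Prop := Nonempty (P ≃* Multiplicative (ℤ × ℤ))

/-- every element of `P` has a power in `Q` -/
def Cm (P Q : Subgroup G) : Prop := ∀ p ∈ P, ∃ n : ℕ, 0 < n ∧ p ^ n ∈ Q

/-- an invariant set of vertices whose coboundary is finite modulo `P` -/
structure Cut (T : Tri G X0 X1 X2 X3) (P : Subgroup G) (A : Set X0) : Prop where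
  inv : ∀ p ∈ P, ∀ x, p • x ∈ A ↔ x ∈ A
  fin : SmP P (cut T A)

/-- a side of a wall -/
structure Wall (T : Tri G X0 X1 X2 X3) (P : Subgroup G) (A : Set X0) : Prop extends Cut T P A where
  z2 : Z2 P
  big : ¬ SmP P A
  big' : ¬ SmP P Aᶜ

/-- contained in finitely many orbits of cyclic groups -/
def Thin (G : Type) [Group G] {X : Type} [MulAction G X] (S : Set X) : Prop :=
  ∃ F : Set G, F.Finite ∧ ∃ K : Set X, K.Finite ∧ ∀ x ∈ S, ∃ c ∈ F, ∃ k ∈ K, ∃ n : ℤ, x = c ^ n • k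

/-- every forward orbit of `q` ends in `B` -/
def Fw (q : G) (B : Set X0) : Prop := ∀ x, ∀ᶠ n : ℕ in atTop, q ^ n • x ∈ B

/-- an element of `P` goes from one side to the other -/
def Cross (P : Subgroup G) (B : Set X0) : Prop := ∃ q ∈ P, Fw q B ∧ Fw q⁻¹ Bᶜ

/-- `P` lies on the side `B` -/
def Ins (P : Subgroup G) (B : Set X0) : Prop := ∃ q ∈ P, Fw q B ∧ Fw q⁻¹ B

/-- strictly nested -/
def Lt (P : Subgroup G) (A : Set X0) (Q : Subgroup G) (B : Set X0) : Prop :=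
  ¬ Cm P Q ∧ Thin G (A \ B)

/-- parallel -/
def Par (P : Subgroup G) (A : Set X0) (Q : Subgroup G) (B : Set X0) : Prop :=
  Cm P Q ∧ SmP P {x | ¬ (x ∈ A ↔ x ∈ B)}

section
variable {X : Type} [MulAction G X] {S S' : Set X}

theorem smp_inter (fr : ∀ (g : G) (x : X), g • x = x → g = 1) (h : SmP P S) (h' : SmP Q S') :
    SmP (P ⊓ Q) (S ∩ S') := by
  obtain ⟨K, hK, a⟩ := h
  obtain ⟨K', hK', a'⟩ := h'
  have ex : ∀ k k' : X, ∃ y : X, ∀ x, (∃ p ∈ P, x = p • k) → (∃ p ∈ Q, x = p • k') →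
      ∃ p ∈ P ⊓ Q, x = p • y := fun k k' => by
    by_cases e : ∃ y, (∃ p ∈ P, y = p • k) ∧ ∃ p ∈ Q, y = p • k'
    · obtain ⟨y, ⟨p0, hp0, e0⟩, q0, hq0, e1⟩ := e
      refine ⟨y, ?_⟩
      rintro x ⟨p, hp, f0⟩ ⟨r, hr, f1⟩
      have g0 : x = (p * p0⁻¹) • y := by rw [e0, mul_smul, inv_smul_smul, f0]
      have g1 : x = (r * q0⁻¹) • y := by rw [e1, mul_smul, inv_smul_smul, f1]
      have : (r * q0⁻¹)⁻¹ * (p * p0⁻¹) = 1 := fr _ y (by rw [mul_smul, ← g0, inv_smul_eq_iff, ← g1])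
      exact ⟨p * p0⁻¹, ⟨P.mul_mem hp (P.inv_mem hp0),
        inv_mul_eq_one.1 this ▸ Q.mul_mem hr (Q.inv_mem hq0)⟩, g0⟩
    · exact ⟨k, fun x u v => (e ⟨x, u, v⟩).elim⟩
  choose y hy using ex
  refine ⟨_, hK.image2 y hK', fun x hx => ?_⟩
  obtain ⟨k, hk, u⟩ := a x hx.1
  obtain ⟨k', hk', v⟩ := a' x hx.2
  exact ⟨_, mem_image2_of_mem hk hk', hy k k' x u v⟩

theorem smp_pre (hq : ∀ c ∈ C, q⁻¹ * c * q ∈ C) (h : SmP C S) : SmP C {x | q • x ∈ S} := by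
  obtain ⟨K, hK, a⟩ := h
  refine ⟨_, hK.image (q⁻¹ • ·), fun x hx => ?_⟩
  obtain ⟨k, hk, p, hp, e⟩ := a _ hx
  exact ⟨_, ⟨k, hk, rfl⟩, _, hq p hp, by rw [mul_smul, smul_inv_smul, mul_smul, ← e, inv_smul_smul]⟩

theorem smp_biUnion {ι : Type} {I : Set ι} (hI : I.Finite) {S : ι → Set X}
    (hs : ∀ i ∈ I, SmP P (S i)) : SmP P (⋃ i ∈ I, S i) := by
  choose! K hK k using hs
  refine ⟨⋃ i ∈ I, K i, hI.biUnion hK, fun x hx => ?_⟩
  obtain ⟨i, hi, hx⟩ := mem_iUnion₂.1 hx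
  obtain ⟨c, hc, e⟩ := k i hi x hx
  exact ⟨c, mem_biUnion hi hc, e⟩

theorem smp_fin (h : S.Finite) : SmP P S := ⟨S, h, fun x hx => ⟨x, hx, 1, P.one_mem, (one_smul _ _).symm⟩⟩

theorem smp_pow (fr : ∀ (g : G) (x : X), g • x = x → g = 1) (h : SmP C S) {x : X}
    (hx : {n : ℕ | q ^ n • x ∈ S}.Infinite) : ∃ n : ℕ, 0 < n ∧ q ^ n ∈ C := by
  obtain ⟨K, hK, a⟩ := h
  have : Nonempty X := ⟨x⟩
  choose! k hk p hp e using fun n : ℕ => a (q ^ n • x)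
  obtain ⟨m, hm, n, hn, lt, e1⟩ := hx.exists_lt_map_eq_of_mapsTo (f := k) hk hK
  refine ⟨n - m, Nat.sub_pos_of_lt lt, ?_⟩
  have : (p n * (p m)⁻¹)⁻¹ * q ^ (n - m) = 1 := fr _ (q ^ m • x) (by
    rw [mul_smul, ← mul_smul (q ^ (n - m)), ← pow_add, Nat.sub_add_cancel lt.le, inv_smul_eq_iff,
      mul_smul, e m hm, inv_smul_smul, e1, ← e n hn])
  exact inv_mul_eq_one.1 this ▸ C.mul_mem (hp n hn) (C.inv_mem (hp m hm))

theorem smp_basis {a b : G} (h : ∀ p, p ∈ P ↔ ∃ m n : ℤ, p = a ^ m * b ^ n) :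
    SmP P S ↔ Sm2 a b S :=
  ⟨fun ⟨K, u, v⟩ => ⟨K, u, fun x hx => let ⟨k, hk, p, hp, e⟩ := v x hx
      let ⟨m, n, e'⟩ := (h p).1 hp; ⟨k, hk, m, n, e' ▸ e⟩⟩,
    fun ⟨K, u, v⟩ => ⟨K, u, fun x hx => let ⟨k, hk, m, n, e⟩ := v x hx
      ⟨k, hk, _, (h _).2 ⟨m, n, rfl⟩, e⟩⟩⟩

theorem smp_smul (g : G) (h : SmP P S) : SmP (MulAut.conj g • P) (g • S) := by
  obtain ⟨K, hK, a⟩ := h
  refine ⟨g • K, hK.smul_set, ?_⟩
  rintro _ ⟨x, hx, rfl⟩
  obtain ⟨k, hk, p, hp, rfl⟩ := a x hx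
  exact ⟨g • k, ⟨k, hk, rfl⟩, _, Subgroup.smul_mem_pointwise_smul _ _ _ hp, by
    simp [mul_smul]⟩

theorem Thin.mono (h : Thin G S) (k : S' ⊆ S) : Thin G S' :=
  let ⟨F, a, K, b, c⟩ := h; ⟨F, a, K, b, fun x hx => c x (k hx)⟩

theorem Thin.union (h : Thin G S) (k : Thin G S') : Thin G (S ∪ S') := by
  obtain ⟨F, a, K, b, c⟩ := h
  obtain ⟨F', a', K', b', c'⟩ := k
  refine ⟨_, a.union a', _, b.union b', ?_⟩
  rintro x (hx | hx)
  · obtain ⟨d, hd, k, hk, e⟩ := c x hx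
    exact ⟨d, .inl hd, k, .inl hk, e⟩
  · obtain ⟨d, hd, k, hk, e⟩ := c' x hx
    exact ⟨d, .inr hd, k, .inr hk, e⟩

theorem Thin.smul (h : Thin G S) (g : G) : Thin G (g • S) := by
  obtain ⟨F, a, K, b, c⟩ := h
  refine ⟨_, a.image fun d => g * d * g⁻¹, g • K, b.smul_set, ?_⟩
  rintro _ ⟨x, hx, rfl⟩
  obtain ⟨d, hd, k, hk, n, rfl⟩ := c x hx
  exact ⟨_, ⟨d, hd, rfl⟩, g • k, ⟨k, hk, rfl⟩, n, by simp [mul_smul]⟩

theorem thin_of (h : SmP (Subgroup.zpowers c) S) : Thin G S :=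
  let ⟨K, a, b⟩ := smP_zpowers.1 h
  ⟨{c}, finite_singleton c, K, a, fun x hx => ⟨c, rfl, b x hx⟩⟩

/-- a thin set that is invariant under an element of infinite order is finite modulo it -/
theorem Thin.inv (fr : ∀ (g : G) (x : X), g • x = x → g = 1) (hc : ∀ n : ℤ, c ^ n = 1 → n = 0)
    (h : Thin G S) (hi : ∀ x ∈ S, ∀ n : ℤ, c ^ n • x ∈ S) : SmP (Subgroup.zpowers c) S := by
  obtain ⟨F, hF, K, hK, a⟩ := h
  have ex : ∀ d : G, ∃ u : ℤ, (∃ v : ℤ, v ≠ 0 ∧ d ^ v ∈ Subgroup.zpowers c) →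
      u ≠ 0 ∧ d ^ u ∈ Subgroup.zpowers c := fun d => by
    by_cases e : ∃ v : ℤ, v ≠ 0 ∧ d ^ v ∈ Subgroup.zpowers c
    · exact e.imp fun _ k _ => k
    · exact ⟨0, fun k => (e k).elim⟩
  choose u hu using ex
  refine ⟨⋃ d ∈ F, image2 (fun (r : ℤ) k => d ^ r • k) (Icc 0 |u d|) K,
    hF.biUnion fun d _ => (finite_Icc _ _).image2 _ hK, fun x hx => ?_⟩
  choose d hd k hk s e using fun n : ℤ => a _ (hi x hx n)
  obtain ⟨m, -, n, -, ne, e1⟩ := infinite_univ.exists_ne_map_eq_of_mapsTo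
    (f := fun n => (d n, k n)) (fun n _ => mk_mem_prod (hd n) (hk n)) (hF.prod hK)
  obtain ⟨e2, e3⟩ := Prod.mk.inj e1
  have q1 : (d n ^ (s m - s n))⁻¹ * c ^ (m - n) = 1 := fr _ (c ^ n • x) (by
    rw [mul_smul, ← mul_smul (c ^ (m - n)), ← zpow_add, sub_add_cancel, inv_smul_eq_iff, e m, e n,
      ← mul_smul, ← zpow_add, sub_add_cancel, e2, e3])
  have q2 := inv_mul_eq_one.1 q1
  obtain ⟨u0, um⟩ := hu (d n) ⟨s m - s n, fun z => ne (sub_eq_zero.1 (hc _ (by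
    rw [← q2, z, zpow_zero]))), q2 ▸ ⟨_, rfl⟩⟩
  refine ⟨_, mem_biUnion (hd n) (mem_image2_of_mem
    ⟨Int.emod_nonneg (s n) u0, (Int.emod_lt_abs (s n) u0).le⟩ (hk n)),
    (c ^ n)⁻¹ * (d n ^ u (d n)) ^ (s n / u (d n)),
    Subgroup.mul_mem _ (Subgroup.inv_mem _ ⟨n, rfl⟩) (Subgroup.zpow_mem _ um _), ?_⟩
  rw [mul_smul, ← mul_smul _ (d n ^ _), ← zpow_mul, ← zpow_add, Int.mul_ediv_add_emod, ← e n,
    inv_smul_smul]

end

theorem Z2.comm (h : Z2 P) {p r : G} (hp : p ∈ P) (hr : r ∈ P) : Commute p r := by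
  obtain ⟨i⟩ := h
  exact congrArg Subtype.val (i.injective (by rw [map_mul, map_mul, mul_comm]) :
    (⟨p, hp⟩ * ⟨r, hr⟩ : P) = ⟨r, hr⟩ * ⟨p, hp⟩)

theorem Z2.cj (h : Z2 P) {p r : G} (hp : p ∈ P) (hr : r ∈ P) : p⁻¹ * r * p = r := by
  rw [mul_assoc, (h.comm hr hp).eq, inv_mul_cancel_left]

theorem Z2.ncyc (h : Z2 P) : ¬ IsCyclic P := fun k => by
  obtain ⟨i⟩ := h
  obtain ⟨g, hg⟩ := (isCyclic_of_surjective i i.surjective).exists_zpow_surjective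
  obtain ⟨m, hm⟩ := hg (Multiplicative.ofAdd (1, 0))
  obtain ⟨n, hn⟩ := hg (Multiplicative.ofAdd (0, 1))
  have a := congrArg Multiplicative.toAdd hm
  have b := congrArg Multiplicative.toAdd hn
  simp only [toAdd_zpow, toAdd_ofAdd, Prod.ext_iff, Prod.smul_fst, Prod.smul_snd, smul_eq_mul] at a b
  have : (1 : ℤ) = 0 := by linear_combination (-(n * g.toAdd.2)) * a.1 - b.2 + (n * g.toAdd.1) * a.2
  exact one_ne_zero this

theorem Z2.basis (h : Z2 P) : ∃ a b : G, Commute a b ∧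
    (∀ m n : ℤ, a ^ m * b ^ n = 1 → m = 0 ∧ n = 0) ∧ ∀ p, p ∈ P ↔ ∃ m n : ℤ, p = a ^ m * b ^ n :=
  let ⟨i⟩ := h; d1_basis P P le_rfl i (Z2.ncyc ⟨i⟩)

theorem Z2.smul (h : Z2 P) (g : G) : Z2 (MulAut.conj g • P) :=
  let ⟨i⟩ := h; ⟨(Subgroup.equivSMul (MulAut.conj g) P).symm.trans i⟩

theorem z2_of_basis {a b : G} (h : Commute a b)
    (ind : ∀ m n : ℤ, a ^ m * b ^ n = 1 → m = 0 ∧ n = 0)
    (hb : ∀ p, p ∈ P ↔ ∃ m n : ℤ, p = a ^ m * b ^ n) : Z2 P := by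
  let f : Multiplicative (ℤ × ℤ) →* P :=
    { toFun := fun x => ⟨a ^ x.toAdd.1 * b ^ x.toAdd.2, (hb _).2 ⟨_, _, rfl⟩⟩
      map_one' := Subtype.ext (by simp)
      map_mul' := fun x y => Subtype.ext (by
        simp only [toAdd_mul, Prod.fst_add, Prod.snd_add, zpow_add, Subgroup.coe_mul]
        rw [mul_assoc, mul_assoc, ← mul_assoc (a ^ y.toAdd.1), (h.zpow_zpow _ _).eq, mul_assoc]) }
  refine ⟨(MulEquiv.ofBijective f ⟨(injective_iff_map_eq_one f).2 fun x e => ?_, fun p => ?_⟩).symm⟩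
  · have := ind _ _ (congrArg Subtype.val e)
    exact Multiplicative.toAdd.injective (Prod.ext this.1 this.2)
  · obtain ⟨m, n, e⟩ := (hb p).1 p.2
    exact ⟨Multiplicative.ofAdd (m, n), Subtype.ext e.symm⟩

theorem Z2.not_cm (h : Z2 P) : ¬ Cm P (Subgroup.zpowers c) := fun k => by
  obtain ⟨a, b, -, ind, hb⟩ := h.basis
  obtain ⟨m, hm, i, e⟩ := k a ((hb a).2 ⟨1, 0, by simp⟩)
  obtain ⟨n, hn, j, e'⟩ := k b ((hb b).2 ⟨0, 1, by simp⟩)
  have e1 : c ^ i = a ^ (m : ℤ) := by rw [zpow_natCast]; exact e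
  have e2 : c ^ j = b ^ (n : ℤ) := by rw [zpow_natCast]; exact e'
  have := ind (m * j) (n * -i) (by
    rw [zpow_mul, zpow_mul, ← e1, ← e2, ← zpow_mul, ← zpow_mul, ← zpow_add]
    simp [mul_comm])
  have i0 : i = 0 := neg_eq_zero.1 ((mul_eq_zero.1 this.2).resolve_left (by omega))
  have := (ind m 0 (by rw [← e1, i0]; simp)).1
  omega

theorem cyc_eq (h : IsCyclic C) : ∃ c, C = Subgroup.zpowers c := by
  obtain ⟨c, hc⟩ := (Subgroup.isCyclic_iff_exists_zpowers_eq_top C).1 h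
  exact ⟨c, hc.symm⟩

theorem Cm.refl (P : Subgroup G) : Cm P P := fun p hp => ⟨1, one_pos, by rwa [pow_one]⟩

theorem Cm.trans (h : Cm P Q) (k : Cm Q R) : Cm P R := fun p hp =>
  let ⟨m, a, b⟩ := h p hp
  let ⟨n, c, d⟩ := k _ b
  ⟨m * n, Nat.mul_pos a c, by rwa [pow_mul]⟩

theorem Cm.inf (h : Cm P Q) : Cm P (P ⊓ Q) := fun p hp =>
  let ⟨m, a, b⟩ := h p hp; ⟨m, a, P.pow_mem hp m, b⟩

theorem Cm.ncyc (h : Cm P Q) (hP : Z2 P) : ¬ IsCyclic (P ⊓ Q : Subgroup G) := fun k =>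
  let ⟨_, e⟩ := cyc_eq k; hP.not_cm (e ▸ h.inf)

theorem cm_of_fi (h : (C.subgroupOf P).FiniteIndex) : Cm P C := fun p hp => by
  obtain ⟨n, a, -, b⟩ := Subgroup.exists_pow_mem_of_index_ne_zero h.1 (⟨p, hp⟩ : P)
  exact ⟨n, a, b⟩

theorem Cm.fi (h : Cm P Q) (hP : Z2 P) : ((P ⊓ Q).subgroupOf P).FiniteIndex :=
  let ⟨i⟩ := hP; wl_rank inf_le_left i (h.ncyc ⟨i⟩)

theorem Cm.symm (h : Cm P Q) (hP : Z2 P) (hQ : Z2 Q) : Cm Q P := fun p hp =>
  let ⟨i⟩ := hQ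
  let ⟨n, a, b⟩ := cm_of_fi (wl_rank inf_le_right i (h.ncyc hP)) p hp
  ⟨n, a, b.1⟩

theorem Cm.z2 (h : Cm P Q) (hP : Z2 P) : Z2 (P ⊓ Q) :=
  let ⟨i⟩ := hP
  let ⟨_, _, u, v, w⟩ := d1_basis P _ inf_le_left i (h.ncyc ⟨i⟩)
  z2_of_basis u v w

theorem Cm.sm {X : Type} [MulAction G X] {S : Set X} (h : Cm P Q) (hP : Z2 P) (k : SmP P S) :
    SmP (P ⊓ Q) S := wl_fi k (h.fi hP)

theorem cm_smul (g : G) : Cm (MulAut.conj g • P) (MulAut.conj g • Q) ↔ Cm P Q := by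
  constructor
  · intro h p hp
    obtain ⟨n, a, b⟩ := h _ (Subgroup.smul_mem_pointwise_smul _ (MulAut.conj g) _ hp)
    rw [← smul_pow', Subgroup.smul_mem_pointwise_smul_iff] at b
    exact ⟨n, a, b⟩
  · intro h p hp
    obtain ⟨n, a, b⟩ := h _ (Subgroup.mem_pointwise_smul_iff_inv_smul_mem.1 hp)
    exact ⟨n, a, Subgroup.mem_pointwise_smul_iff_inv_smul_mem.2 (by rwa [smul_pow'])⟩

theorem Z2.cyc (hP : Z2 P) (h : ¬ Cm P Q) : ∃ c, P ⊓ Q = Subgroup.zpowers c := by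
  obtain ⟨i⟩ := hP
  refine cyc_eq (by_contra fun k => h fun p hp => ?_)
  obtain ⟨n, a, b⟩ := cm_of_fi (wl_rank inf_le_left i k) p hp
  exact ⟨n, a, b.2⟩

/-- an invariant set of a rank two lattice is not thin -/
theorem Z2.not_thin {X : Type} [MulAction G X] (fr : ∀ (g : G) (x : X), g • x = x → g = 1)
    (h : Z2 P) {S : Set X} {x : X} (hx : ∀ p ∈ P, p • x ∈ S) : ¬ Thin G S := fun k => by
  obtain ⟨a, b, -, ind, hb⟩ := h.basis
  have ha : a ∈ P := (hb a).2 ⟨1, 0, by simp⟩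
  have s := (k.mono (S' := {y | ∃ p ∈ P, y = p • x}) fun _ ⟨p, hp, e⟩ => e ▸ hx p hp).inv fr
    (c := a) (fun n e => (ind n 0 (by simpa using e)).1) fun _ ⟨p, hp, e⟩ n =>
      ⟨_, P.mul_mem (P.zpow_mem ha n) hp, by rw [e, mul_smul]⟩
  exact h.not_cm fun p hp => smp_pow fr s (x := x)
    (infinite_univ.mono fun n _ => ⟨_, P.pow_mem hp n, rfl⟩)

theorem cut_compl (A : Set X0) : cut T Aᶜ = cut T A := by
  ext e
  simp only [cut, mem_ofPred_eq, mem_compl_iff, not_iff_not]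

theorem cut_smul (g : G) (A : Set X0) : cut T (g • A) = g • cut T A := by
  ext e
  simp only [cut, mem_ofPred_eq, mem_smul_set_iff_inv_smul_mem, T.e1]

theorem Cut.compl (h : Cut T P A) : Cut T P Aᶜ :=
  ⟨fun p hp x => not_congr (h.inv p hp x), by rw [cut_compl]; exact h.fin⟩

theorem Wall.compl (h : Wall T P A) : Wall T P Aᶜ :=
  ⟨h.toCut.compl, h.z2, h.big', by rw [compl_compl]; exact h.big⟩

theorem Cut.smul (h : Cut T P A) (g : G) : Cut T (MulAut.conj g • P) (g • A) := by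
  refine ⟨fun p hp x => ?_, by rw [cut_smul]; exact smp_smul g h.fin⟩
  have := h.inv _ (Subgroup.mem_pointwise_smul_iff_inv_smul_mem.1 hp) (g⁻¹ • x)
  simpa [mem_smul_set_iff_inv_smul_mem, mul_smul] using this

theorem smp_smul_iff {X : Type} [MulAction G X] {S : Set X} (g : G) :
    SmP (MulAut.conj g • P) (g • S) ↔ SmP P S :=
  ⟨fun h => by simpa [smul_smul] using smp_smul g⁻¹ h, smp_smul g⟩

theorem Wall.smul (h : Wall T P A) (g : G) : Wall T (MulAut.conj g • P) (g • A) :=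
  ⟨h.toCut.smul g, h.z2.smul g, fun k => h.big ((smp_smul_iff g).1 k),
    fun k => h.big' ((smp_smul_iff g).1 (by rwa [smul_set_compl]))⟩

theorem Wall.ne (h : Wall T P A) : A.Nonempty :=
  nonempty_iff_ne_empty.2 fun e => h.big (e ▸ SmP.empty)

theorem Wall.le (h : Wall T P A) (k : Cm P Q) : Wall T (P ⊓ Q) A :=
  ⟨⟨fun p hp => h.inv p hp.1, k.sm h.z2 h.fin⟩, k.z2 h.z2, fun s => h.big (s.le inf_le_left),
    fun s => h.big' (s.le inf_le_left)⟩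

theorem wi_inj {x y : X0} (h : wi A x = wi B y) : x ∈ A ↔ y ∈ B := by
  by_cases u : x ∈ A <;> by_cases v : y ∈ B <;> simp [wi, u, v] at h ⊢

theorem wall_iff {a b : G} (h : Commute a b) (ind : ∀ m n : ℤ, a ^ m * b ^ n = 1 → m = 0 ∧ n = 0)
    (hb : ∀ p, p ∈ P ↔ ∃ m n : ℤ, p = a ^ m * b ^ n) : Wall T P A ↔ IsWall T a b A := by
  refine ⟨fun w => ⟨w.inv a ((hb a).2 ⟨1, 0, by simp⟩), w.inv b ((hb b).2 ⟨0, 1, by simp⟩),
    (smp_basis hb).1 w.fin, fun k => w.big ((smp_basis hb).2 k),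
    fun k => w.big' ((smp_basis hb).2 k)⟩, fun w => ⟨⟨fun p hp x => ?_, (smp_basis hb).2 w.fin⟩,
    z2_of_basis h ind hb, fun k => w.big ((smp_basis hb).1 k), fun k => w.big' ((smp_basis hb).1 k)⟩⟩
  obtain ⟨m, n, rfl⟩ := (hb p).1 hp
  have u := zb_inv (z := wi A) (fun x => wi_congr (w.ia x)) m (b ^ n • x)
  have v := zb_inv (z := wi A) (fun x => wi_congr (w.ib x)) n x
  rw [mul_smul]
  exact wi_inj (u.trans v)

theorem Z2.wall (hM : Mfd T) (h0 : NoHom G) (h : Z2 P) : ∃ A, Wall T P A :=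
  let ⟨_, _, u, v, w⟩ := h.basis
  (exists_wall hM h0 u v).imp fun _ k => (wall_iff u v w).2 k

/-- walls of commensurable lattices are parallel -/
theorem Wall.par (hM : Mfd T) (hA : Wall T P A) (hB : Wall T Q B) (h : Cm P Q) :
    Par P A Q B ∨ Par P A Q Bᶜ := by
  have a := hA.le h
  have b := hB.le (h.symm hA.z2 hB.z2)
  rw [inf_comm] at b
  obtain ⟨_, _, u, v, w⟩ := a.z2.basis
  exact (wall_uniq hM u v ((wall_iff u v w).1 a) ((wall_iff u v w).1 b)).imp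
    (fun k => ⟨h, ((smp_basis w).2 k).le inf_le_left⟩)
    fun k => ⟨h, ((smp_basis w).2 k).le inf_le_left⟩

/-- a wall side is not small -/
theorem Wall.not_sub (hA : Wall T P A) {S S' : Set X0} (h : SmP P S) (h' : Thin G S') :
    ¬ A ⊆ S ∪ S' := fun k => by
  obtain ⟨K, hK, a⟩ := h
  refine hA.big ⟨K, hK, fun x hx => by_contra fun n => hA.z2.not_thin T.free (x := x)
    (fun p hp => (k ((hA.inv p hp x).2 hx)).resolve_left fun s => n ?_) h'⟩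
  obtain ⟨y, hy, r, hr, e⟩ := a _ s
  exact ⟨y, hy, _, P.mul_mem (P.inv_mem hp) hr, by rw [mul_smul, ← e, inv_smul_smul]⟩

theorem smp_pull (hM : Mfd T) {S : Set X0} (h : SmP P S) (i : Fin 2) :
    SmP P {e | T.d1 e i ∈ S} := by
  obtain ⟨K, hK, a⟩ := h
  refine ⟨_, hK.biUnion fun v _ => hM.edges_finite v i, fun e he => ?_⟩
  obtain ⟨k, hk, p, hp, s⟩ := a _ he
  exact ⟨p⁻¹ • e, mem_biUnion hk (show T.d1 _ _ = k by rw [T.e1, s, inv_smul_smul]), p, hp,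
    (smul_inv_smul _ _).symm⟩

theorem smp_push {E : Set X1} (h : SmP P E) (i : Fin 2) : SmP P ((fun e => T.d1 e i) '' E) :=
  h.image _ fun p _ e => T.e1 p e i

/-- one end modulo a cyclic group -/
theorem Cut.one_end (hM : Mfd T) (tf : ∀ a : G, a ≠ 1 → ¬ IsOfFinOrder a)
    (hC : ∃ c, C = Subgroup.zpowers c) (h : Cut T C A) : SmP C A ∨ SmP C Aᶜ := by
  obtain ⟨c, rfl⟩ := hC
  obtain ⟨s, hs, e⟩ := wang_tf hM tf c (z := wz T A) (wz_coc A)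
    (wz_inv (h.inv c (Subgroup.mem_zpowers c))) (smP_zpowers.1 (h.fin.mono fun e k => wz_ne k))
  have ct := const_of hM (t := fun x => wi A x - s x) fun x => by
    have := e x
    unfold wz at this
    linarith
  by_contra n
  rw [not_or] at n
  have p : ∀ S : Set X0, ¬ SmP (Subgroup.zpowers c) S → ∃ x ∈ S, s x = 0 := fun S hS => by
    by_contra m
    exact hS ((smP_zpowers.2 hs).mono fun x hx q => m ⟨x, hx, q⟩)
  obtain ⟨x, hx, ex⟩ := p _ n.1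
  obtain ⟨y, hy, ey⟩ := p _ n.2
  have := ct x y
  simp only [wi_pos hx, wi_neg hy, ex, ey] at this
  norm_num at this

/-- the translates of a pair of points that are separated -/
theorem Cut.near (hM : Mfd T) (h : Cut T Q B) (k k' : X0) :
    SmP Q {g : G | ¬ (g • k ∈ B ↔ g • k' ∈ B)} := by
  have ed : ∀ e, SmP Q {g : G | ¬ (g • T.d1 e 0 ∈ B ↔ g • T.d1 e 1 ∈ B)} := fun e => by
    obtain ⟨K, hK, a⟩ := h.fin
    refine ⟨{g | g • e ∈ K}, hK.preimage (f := fun g : G => g • e) fun g _ g' _ u =>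
      (inv_mul_eq_one.1 (T.free1 _ e (by rw [mul_smul, inv_smul_eq_iff]; exact u))).symm,
      fun g hg => ?_⟩
    obtain ⟨y, hy, p, hp, u⟩ := a (g • e) (show ¬ _ by rwa [T.e1, T.e1])
    exact ⟨p⁻¹ * g, show _ ∈ K by rwa [mul_smul, u, inv_smul_smul], p, hp, by simp⟩
  have := const_of hM (t := wi {y | SmP Q {g : G | ¬ (g • k ∈ B ↔ g • y ∈ B)}})
    (fun e => wi_congr ⟨fun u => (SmP.union u (ed e)).mono fun g hg => ?_,
      fun u => (SmP.union u (ed e)).mono fun g hg => ?_⟩) k k'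
  · exact (wi_inj this).1 (SmP.empty.mono fun g hg => hg Iff.rfl)
  all_goals
    simp only [mem_union, mem_ofPred_eq] at hg ⊢
    tauto

theorem fr_self (g x : G) (h : g • x = x) : g = 1 := mul_eq_right.1 h

theorem Cut.near_orb (hM : Mfd T) (h : Cut T Q B) {t : G} (ht : ∀ p ∈ P, Commute p t)
    {S : Set X0} (hS : SmP P S) : SmP (P ⊓ Q) {y ∈ S | ¬ (y ∈ B ↔ t • y ∈ B)} := by
  obtain ⟨K, hK, a⟩ := hS
  have u : SmP P (P : Set G) := ⟨{1}, finite_singleton 1, fun p hp => ⟨1, rfl, p, hp, by simp⟩⟩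
  refine (smp_biUnion hK fun k _ => (smp_inter fr_self u (h.near hM k (t • k))).image
    (· • k) fun p _ g => mul_smul p g k).mono fun y hy => ?_
  obtain ⟨k, hk, p, hp, rfl⟩ := a y hy.1
  refine mem_biUnion hk ⟨p, ⟨hp, ?_⟩, rfl⟩
  have := hy.2
  rwa [← mul_smul, ← (ht p hp).eq, mul_smul] at this

theorem Cut.ev_iff (hM : Mfd T) (h : Cut T Q B) (hq : ∀ n : ℕ, 0 < n → q ^ n ∉ Q) (k k' : X0) :
    ∀ᶠ n : ℕ in atTop, (q ^ n • k ∈ B ↔ q ^ n • k' ∈ B) := by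
  by_contra n
  obtain ⟨m, a, b⟩ := smp_pow fr_self (h.near hM k k') (q := q) (x := 1) (by
    simpa only [smul_eq_mul, mul_one, mem_ofPred_eq] using
      Nat.frequently_atTop_iff_infinite.1 (not_eventually.1 n))
  exact hq m a b

/-- an element with no power in `Q` has its forward end on one side -/
theorem Cut.fw_or (hM : Mfd T) (h : Cut T Q B) (hq : ∀ n : ℕ, 0 < n → q ^ n ∉ Q) :
    Fw q B ∨ Fw q Bᶜ := by
  obtain ⟨x₃⟩ := T.ne
  have x := v3 T x₃ 0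
  obtain ⟨N, hN⟩ := eventually_atTop.1 (h.ev_iff hM hq x (q • x))
  have c : ∀ n, N ≤ n → (q ^ n • x ∈ B ↔ q ^ N • x ∈ B) := fun n hn => by
    induction n, hn using Nat.le_induction with
    | base => rfl
    | succ n hn ih => rw [pow_succ, mul_smul, ← hN n hn, ih]
  by_cases u : q ^ N • x ∈ B
  · exact .inl fun y => ((h.ev_iff hM hq x y).and (eventually_ge_atTop N)).mono fun n k =>
      k.1.1 ((c n k.2).2 u)
  · exact .inr fun y => ((h.ev_iff hM hq x y).and (eventually_ge_atTop N)).mono fun n k v =>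
      u ((c n k.2).1 (k.1.2 v))

theorem Fw.not_pow (f : Fw q B) (ne : Bᶜ.Nonempty) (inv : ∀ p ∈ Q, ∀ x, p • x ∈ B ↔ x ∈ B)
    (n : ℕ) (hn : 0 < n) : q ^ n ∉ Q := fun k => by
  obtain ⟨x, hx⟩ := ne
  obtain ⟨N, hN⟩ := eventually_atTop.1 (f x)
  exact hx ((inv _ (Q.pow_mem k N) x).1 (by
    rw [← pow_mul]; exact hN _ (Nat.le_mul_of_pos_left N hn)))

theorem Fw.smul (f : Fw q B) (g : G) : Fw (g * q * g⁻¹) (g • B) := fun x =>
  (f (g⁻¹ • x)).mono fun n k => by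
    rw [conj_pow, mem_smul_set_iff_inv_smul_mem, mul_smul, mul_smul, inv_smul_smul]
    exact k

theorem Fw.exit (f : Fw q B) {z : X0} (hz : z ∉ B) :
    ∃ n : ℕ, q ^ n • z ∉ B ∧ q • q ^ n • z ∈ B := by
  classical
  have ex := (f z).exists
  obtain ⟨n, e⟩ := Nat.exists_eq_succ_of_ne_zero (n := Nat.find ex) fun e => hz (by
    simpa [e] using Nat.find_spec ex)
  refine ⟨n, Nat.find_min ex (by omega), ?_⟩
  have := Nat.find_spec ex
  rwa [e, pow_succ', mul_smul] at this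

theorem cj_pow (hq : ∀ c ∈ C, q⁻¹ * c * q ∈ C) (n : ℕ) : ∀ c ∈ C, (q ^ n)⁻¹ * c * q ^ n ∈ C := by
  induction n with
  | zero => simp
  | succ n ih =>
    intro c hc
    have := hq _ (ih c hc)
    rwa [pow_succ, mul_inv_rev, mul_assoc q⁻¹, mul_assoc q⁻¹, ← mul_assoc _ _ q, ← mul_assoc q⁻¹]

/-- both ends on one side -/
theorem pass (hq : ∀ c ∈ C, q⁻¹ * c * q ∈ C) (inv : ∀ p ∈ C, ∀ x, p • x ∈ B ↔ x ∈ B)
    {S : Set X0} (hS : ∀ y ∈ S, q • y ∈ S) (hE : SmP C {y ∈ S | y ∉ B ∧ q • y ∈ B})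
    (f : Fw q B) (b : Fw q⁻¹ B) : SmP C (S \ B) := by
  obtain ⟨K, hK, a⟩ := hE
  refine ⟨⋃ k ∈ K, (fun n : ℕ => q⁻¹ ^ n • k) '' {n | q⁻¹ ^ n • k ∉ B}, hK.biUnion fun k _ =>
    Finite.image _ (by simpa [← Nat.cofinite_eq_atTop] using b k), fun z hz => ?_⟩
  obtain ⟨n, u⟩ := f.exit hz.2
  have s : ∀ n : ℕ, q ^ n • z ∈ S := fun n => by
    induction n with
    | zero => simpa using hz.1
    | succ n ih => rw [pow_succ', mul_smul]; exact hS _ ih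
  obtain ⟨k, hk, p, hp, e⟩ := a _ ⟨s n, u⟩
  have e' : z = ((q ^ n)⁻¹ * p * q ^ n) • q⁻¹ ^ n • k := by
    rw [inv_pow, mul_smul, smul_inv_smul, mul_smul, ← e, inv_smul_smul]
  exact ⟨_, mem_biUnion hk ⟨n, fun v => hz.2 (e' ▸ (inv _ (cj_pow hq n p hp) _).2 v), rfl⟩, _,
    cj_pow hq n p hp, e'⟩

theorem Ins.sm (hM : Mfd T) (hP : Z2 P) (hB : Cut T Q B) (h : Ins P B) {S : Set X0}
    (hS : SmP P S) : SmP (P ⊓ Q) (S \ B) := by
  obtain ⟨q, hq, f, b⟩ := h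
  obtain ⟨K, hK, a⟩ := hS
  have u : SmP P {y | ∃ k ∈ K, ∃ p ∈ P, y = p • k} := ⟨K, hK, fun _ h => h⟩
  refine (pass (C := P ⊓ Q) (fun c hc => (hP.cj hq hc.1).symm ▸ hc) (fun p hp => hB.inv p hp.2) ?_
    ((hB.near_orb hM (fun p hp => hP.comm hp hq) u).mono fun y hy =>
      ⟨hy.1, fun k => hy.2.1 (k.2 hy.2.2)⟩) f b).mono fun y hy => ⟨a y hy.1, hy.2⟩
  rintro _ ⟨k, hk, p, hp, rfl⟩
  exact ⟨k, hk, _, P.mul_mem hq hp, (mul_smul _ _ _).symm⟩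

theorem Ins.edge (hM : Mfd T) (hP : Z2 P) (hB : Cut T Q B) (h : Ins P B) {E : Set X1}
    (hE : SmP P E) : SmP (P ⊓ Q) {e ∈ E | T.d1 e 0 ∉ B ∨ T.d1 e 1 ∉ B} :=
  ((smp_pull hM (h.sm hM hP hB (smp_push (T := T) hE 0)) 0).union
    (smp_pull hM (h.sm hM hP hB (smp_push (T := T) hE 1)) 1)).mono fun e he =>
      he.2.imp (fun k => ⟨⟨e, he.1, rfl⟩, k⟩) fun k => ⟨⟨e, he.1, rfl⟩, k⟩

theorem not_pow_inv (hq : ∀ n : ℕ, 0 < n → q ^ n ∉ Q) (n : ℕ) (hn : 0 < n) : q⁻¹ ^ n ∉ Q :=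
  fun k => hq n hn (by rwa [inv_pow, inv_mem_iff] at k)

theorem Cut.four (hM : Mfd T) (h : Cut T Q B) (hq : ∀ n : ℕ, 0 < n → q ^ n ∉ Q) :
    (Fw q B ∧ Fw q⁻¹ Bᶜ ∨ Fw q⁻¹ B ∧ Fw q Bᶜ) ∨ Fw q B ∧ Fw q⁻¹ B ∨ Fw q Bᶜ ∧ Fw q⁻¹ Bᶜ := by
  have := h.fw_or hM hq
  have := h.fw_or hM (not_pow_inv hq)
  tauto

theorem cross_of (hq : q ∈ P) (h : Fw q B ∧ Fw q⁻¹ Bᶜ ∨ Fw q⁻¹ B ∧ Fw q Bᶜ) : Cross P B :=
  h.elim (fun k => ⟨q, hq, k⟩) fun k => ⟨q⁻¹, P.inv_mem hq, k.1, by rw [inv_inv]; exact k.2⟩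

/-- a group not commensurable into `Q` crosses or lies on one side -/
theorem Cut.tri (hM : Mfd T) (h : Cut T Q B) (n : ¬ Cm P Q) :
    Cross P B ∨ Ins P B ∨ Ins P Bᶜ := by
  unfold Cm at n
  push Not at n
  obtain ⟨q, hq, k⟩ := n
  exact (h.four hM k).imp (cross_of hq) (Or.imp (fun k => ⟨q, hq, k⟩) fun k => ⟨q, hq, k⟩)

theorem Cross.compl (h : Cross P B) : Cross P Bᶜ :=
  let ⟨_, hq, f, b⟩ := h; cross_of hq (.inr ⟨b, by rw [compl_compl]; exact f⟩)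

theorem Cross.smul (h : Cross P B) (g : G) : Cross (MulAut.conj g • P) (g • B) := by
  obtain ⟨q, hq, f, b⟩ := h
  refine ⟨_, Subgroup.smul_mem_pointwise_smul _ _ _ hq, f.smul g, ?_⟩
  simpa [smul_set_compl, mul_assoc] using b.smul g

theorem Ins.smul (h : Ins P B) (g : G) : Ins (MulAut.conj g • P) (g • B) := by
  obtain ⟨q, hq, f, b⟩ := h
  refine ⟨_, Subgroup.smul_mem_pointwise_smul _ _ _ hq, f.smul g, ?_⟩
  simpa [mul_assoc] using b.smul g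

theorem Cross.not_cm (hB : Wall T Q B) (h : Cross P B) : ¬ Cm P Q := fun k =>
  let ⟨q, hq, f, _⟩ := h
  let ⟨n, a, b⟩ := k q hq
  f.not_pow hB.compl.ne hB.inv n a b

theorem Ins.not_cm (hB : Wall T Q B) (h : Ins P B) : ¬ Cm P Q := fun k =>
  let ⟨q, hq, f, _⟩ := h
  let ⟨n, a, b⟩ := k q hq
  f.not_pow hB.compl.ne hB.inv n a b

/-- if `P` lies in `B`, no element of `P` ends outside -/
theorem Ins.not_fw (hM : Mfd T) (hP : Z2 P) (hB : Wall T Q B) (h : Ins P B) (hq : q ∈ P) :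
    ¬ Fw q Bᶜ := fun f => by
  obtain ⟨x, -⟩ := hB.ne
  obtain ⟨n, a, b⟩ := smp_pow T.free (h.sm hM hP hB.toCut (S := {y | ∃ p ∈ P, y = p • x})
    ⟨{x}, finite_singleton x, fun y hy => ⟨x, rfl, hy⟩⟩) (q := q) (x := x)
    (Nat.frequently_atTop_iff_infinite.1 ((f x).mono fun n k =>
      ⟨⟨_, P.pow_mem hq n, rfl⟩, k⟩).frequently)
  exact f.not_pow (by rw [compl_compl]; exact hB.ne) hB.compl.inv n a b.2

theorem Ins.not_cross (hM : Mfd T) (hP : Z2 P) (hB : Wall T Q B) (h : Ins P B) : ¬ Cross P B :=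
  fun ⟨_, hq, _, b⟩ => h.not_fw hM hP hB (P.inv_mem hq) b

theorem Ins.not_ins (hM : Mfd T) (hP : Z2 P) (hB : Wall T Q B) (h : Ins P B) : ¬ Ins P Bᶜ :=
  fun ⟨_, hq, f, _⟩ => h.not_fw hM hP hB hq f

/-- in a crossing lattice every element with no power in `Q` crosses -/
theorem Cross.all (hM : Mfd T) (hP : Z2 P) (hB : Wall T Q B) (h : Cross P B) (hq : q ∈ P)
    (k : ∀ n : ℕ, 0 < n → q ^ n ∉ Q) : Fw q B ∧ Fw q⁻¹ Bᶜ ∨ Fw q⁻¹ B ∧ Fw q Bᶜ := by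
  rcases hB.four hM k with u | u | u
  · exact u
  · exact (Ins.not_cross hM hP hB ⟨q, hq, u⟩ h).elim
  · exact (Ins.not_cross hM hP hB.compl ⟨q, hq, u⟩ h.compl).elim

theorem symm_aux (hM : Mfd T) (tf : ∀ a : G, a ≠ 1 → ¬ IsOfFinOrder a) (hA : Wall T P A)
    (hB : Wall T Q B) (h : Ins P B) : ¬ Cross Q A := fun ⟨q, hq, f, b⟩ => by
  have cq : ∀ c ∈ P ⊓ Q, q⁻¹ * c * q ∈ P ⊓ Q := fun c hc => (hB.z2.cj hq hc.2).symm ▸ hc
  have e1 := h.edge hM hA.z2 hB.toCut hA.fin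
  have e2 := fun i => smp_pull hM (hA.near_orb hM (fun p hp => hB.z2.comm hp hq)
    (smp_push (T := T) hB.fin i)) i
  rw [inf_comm] at e2
  have U : Cut T (P ⊓ Q) {x | x ∉ B ∧ ¬ (x ∈ A ↔ q • x ∈ A)} := by
    refine ⟨fun p hp x => ?_, (((e1.union (smp_pre cq e1)).union (e2 0)).union (e2 1)).mono
      fun e he => ?_⟩
    · simp only [mem_ofPred_eq]
      rw [← mul_smul, (hB.z2.comm hq hp.2).eq, mul_smul, hB.inv p hp.2, hA.inv p hp.1,
        hA.inv p hp.1]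
    · have he' : ¬ ((T.d1 e 0 ∉ B ∧ ¬ (T.d1 e 0 ∈ A ↔ q • T.d1 e 0 ∈ A)) ↔
        (T.d1 e 1 ∉ B ∧ ¬ (T.d1 e 1 ∈ A ↔ q • T.d1 e 1 ∈ A))) := he
      by_cases m : T.d1 e 0 ∈ B ↔ T.d1 e 1 ∈ B
      · have b0 : T.d1 e 0 ∉ B := fun k => he' (iff_of_false (fun u => u.1 k) fun u => u.1 (m.1 k))
        by_cases a0 : T.d1 e 0 ∈ A ↔ T.d1 e 1 ∈ A
        · refine .inl (.inl (.inr ⟨fun u => he' ?_, .inl ?_⟩))
          · rw [T.e1, T.e1] at u
            rw [m, a0, u]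
          · rwa [T.e1, hB.inv q hq]
        · exact .inl (.inl (.inl ⟨a0, .inl b0⟩))
      · by_cases a0 : T.d1 e 0 ∈ A ↔ q • T.d1 e 0 ∈ A
        · exact .inr ⟨⟨e, m, rfl⟩, fun u => he' (iff_of_false (fun v => v.2 a0) fun v => v.2 u)⟩
        · exact .inl (.inr ⟨⟨e, m, rfl⟩, a0⟩)
  rcases U.one_end hM tf (hA.z2.cyc (h.not_cm hB)) with u | u
  · obtain ⟨K, hK, a⟩ := u
    refine hB.big' ⟨K, hK, fun x hx => ?_⟩
    obtain ⟨m, hm⟩ := (b x).exists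
    obtain ⟨n, v⟩ := f.exit hm
    have g : q ^ n * q⁻¹ ^ m ∈ Q := Q.mul_mem (Q.pow_mem hq n) (Q.pow_mem (Q.inv_mem hq) m)
    rw [← mul_smul (q ^ n)] at v
    obtain ⟨k, hk, p, hp, e⟩ := a _ ⟨fun w => hx ((hB.inv _ g x).1 w), fun w => v.1 (w.2 v.2)⟩
    exact ⟨k, hk, _, Q.mul_mem (Q.inv_mem g) hp.2, by rw [mul_smul, ← e, inv_smul_smul]⟩
  · exact hB.big ((u.le inf_le_right).mono fun x hx k => k.1 hx)

/-- crossing is symmetric -/
theorem Cross.symm (hM : Mfd T) (tf : ∀ a : G, a ≠ 1 → ¬ IsOfFinOrder a) (hA : Wall T P A)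
    (hB : Wall T Q B) (h : Cross Q A) : Cross P B := by
  rcases hB.tri hM (P := P) (fun k => h.not_cm hA (k.symm hA.z2 hB.z2)) with u | u | u
  · exact u
  · exact (symm_aux hM tf hA hB u h).elim
  · exact (symm_aux hM tf hA hB.compl u h).elim

/-- the small corner -/
theorem corner (hM : Mfd T) (tf : ∀ a : G, a ≠ 1 → ¬ IsOfFinOrder a) (hA : Wall T P A)
    (hB : Wall T Q B) (h : Ins P B) (k : Ins Q Aᶜ) : SmP (P ⊓ Q) (A \ B) := by
  have e1 := h.edge hM hA.z2 hB.toCut hA.fin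
  have e2 := k.edge hM hB.z2 hA.compl.toCut hB.fin
  rw [inf_comm] at e2
  have U : Cut T (P ⊓ Q) (A \ B) := by
    refine ⟨fun p hp x => ?_, (e1.union e2).mono fun e he => ?_⟩
    · rw [Set.mem_sdiff, Set.mem_sdiff, hB.inv p hp.2, hA.inv p hp.1]
    · simp only [cut, mem_union, mem_ofPred_eq, Set.mem_sdiff, mem_compl_iff] at he ⊢
      tauto
  exact (U.one_end hM tf (hA.z2.cyc (h.not_cm hB))).resolve_right fun u =>
    hB.big ((u.le inf_le_right).mono fun x hx k => k.2 hx)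

/-- crossing lattices meet -/
theorem Cross.meet (hM : Mfd T) (hP : Z2 P) (hB : Cut T Q B) (h : Cross P B) :
    ∃ c ∈ P ⊓ Q, c ≠ 1 := by
  obtain ⟨q, hq, f, b⟩ := h
  by_contra n
  push Not at n
  obtain ⟨x₃⟩ := T.ne
  have x := v3 T x₃ 0
  obtain ⟨K, hK, a⟩ := hB.near_orb hM (fun p hp => hP.comm hp hq) (S := {y | ∃ p ∈ P, y = p • x})
    ⟨{x}, finite_singleton x, fun y hy => ⟨x, rfl, hy⟩⟩
  refine hP.not_thin T.free (x := x) (S := {y | ∃ p ∈ P, y = p • x}) (fun p hp => ⟨p, hp, rfl⟩)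
    ⟨{q}, finite_singleton q, K, hK, ?_⟩
  rintro _ ⟨p, hp, rfl⟩
  obtain ⟨m, hm⟩ := (b (p • x)).exists
  obtain ⟨j, v⟩ := f.exit hm
  obtain ⟨k, hk, r, hr, e⟩ := a _ ⟨⟨_, P.mul_mem (P.pow_mem hq j) (P.mul_mem
    (P.pow_mem (P.inv_mem hq) m) hp), by rw [mul_smul, mul_smul]⟩, fun w => v.1 (w.2 v.2)⟩
  rw [n r hr, one_smul] at e
  refine ⟨q, rfl, k, hk, m - j, ?_⟩
  rw [← e, zpow_sub, zpow_natCast, zpow_natCast, mul_smul, inv_smul_smul, inv_pow, smul_inv_smul]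

theorem tf_int (tf : ∀ a : G, a ≠ 1 → ¬ IsOfFinOrder a) (hc : c ≠ 1) (n : ℤ) (e : c ^ n = 1) :
    n = 0 := by_contra fun k => tf c hc (isOfFinOrder_iff_zpow_eq_one.2 ⟨n, k, e⟩)

theorem thin_ins (hM : Mfd T) (tf : ∀ a : G, a ≠ 1 → ¬ IsOfFinOrder a) (hA : Wall T P A)
    (hB : Wall T Q B) (n : ¬ Cm P Q) (h : Thin G (A \ B)) : Ins P B := by
  obtain ⟨x, hx⟩ := hA.ne
  rcases hB.tri hM n with u | u | u
  · obtain ⟨c, hc, c1⟩ := u.meet hM hA.z2 hB.toCut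
    obtain ⟨q, hq, f, b⟩ := u
    have s := h.inv T.free (tf_int tf c1) fun y hy m =>
      ⟨(hA.inv _ (P.zpow_mem hc.1 m) y).2 hy.1, fun k => hy.2 ((hB.inv _ (Q.zpow_mem hc.2 m) y).1 k)⟩
    obtain ⟨m, a, v⟩ := smp_pow T.free s (q := q⁻¹) (x := x)
      (Nat.frequently_atTop_iff_infinite.1 ((b x).mono fun n k =>
        ⟨(hA.inv _ (P.pow_mem (P.inv_mem hq) n) x).2 hx, k⟩).frequently)
    exact (b.not_pow (by rw [compl_compl]; exact hB.ne) hB.compl.inv m a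
      ((Subgroup.zpowers_le.2 hc.2) v)).elim
  · exact u
  · obtain ⟨c, e⟩ := hA.z2.cyc n
    have s := u.sm hM hA.z2 hB.compl.toCut (S := {y | ∃ p ∈ P, y = p • x})
      ⟨{x}, finite_singleton x, fun y hy => ⟨x, rfl, hy⟩⟩
    rw [e] at s
    refine (hA.z2.not_thin T.free (x := x) (fun p hp => ?_) (h.union (thin_of s))).elim
    by_cases k : p • x ∈ B
    · exact .inr ⟨⟨p, hp, rfl⟩, fun w => w k⟩
    · exact .inl ⟨(hA.inv p hp x).2 hx, k⟩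

theorem Lt.compl (hP : Z2 P) (hQ : Z2 Q) (h : Lt P A Q B) : Lt Q Bᶜ P Aᶜ :=
  ⟨fun k => h.1 (k.symm hQ hP), h.2.mono fun _ k => ⟨not_not.1 k.2, k.1⟩⟩

theorem Lt.smul (h : Lt P A Q B) (g : G) :
    Lt (MulAut.conj g • P) (g • A) (MulAut.conj g • Q) (g • B) :=
  ⟨fun k => h.1 ((cm_smul g).1 k), by rw [← smul_set_sdiff]; exact h.2.smul g⟩

theorem lt_iff (hM : Mfd T) (tf : ∀ a : G, a ≠ 1 → ¬ IsOfFinOrder a) (hA : Wall T P A)
    (hB : Wall T Q B) : Lt P A Q B ↔ Ins P B ∧ Ins Q Aᶜ := by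
  refine ⟨fun h => ⟨thin_ins hM tf hA hB h.1 h.2, thin_ins hM tf hB.compl hA.compl
    (h.compl hA.z2 hB.z2).1 (h.compl hA.z2 hB.z2).2⟩, fun h => ⟨h.1.not_cm hB, ?_⟩⟩
  obtain ⟨c, e⟩ := hA.z2.cyc (h.1.not_cm hB)
  exact thin_of (e ▸ corner hM tf hA hB h.1 h.2)

theorem Lt.sm (hM : Mfd T) (tf : ∀ a : G, a ≠ 1 → ¬ IsOfFinOrder a) (hA : Wall T P A)
    (hB : Wall T Q B) (h : Lt P A Q B) : SmP (P ⊓ Q) (A \ B) :=
  let k := (lt_iff hM tf hA hB).1 h; corner hM tf hA hB k.1 k.2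

/-- walls that do not cross are parallel or nested -/
theorem nest (hM : Mfd T) (tf : ∀ a : G, a ≠ 1 → ¬ IsOfFinOrder a) (hA : Wall T P A)
    (hB : Wall T Q B) (h : ¬ Cross P B) : (Par P A Q B ∨ Par P A Q Bᶜ) ∨
      Lt P A Q B ∨ Lt P A Q Bᶜ ∨ Lt P Aᶜ Q B ∨ Lt P Aᶜ Q Bᶜ := by
  by_cases n : Cm P Q
  · exact .inl (hA.par hM hB n)
  rw [lt_iff hM tf hA hB, lt_iff hM tf hA hB.compl, lt_iff hM tf hA.compl hB,
    lt_iff hM tf hA.compl hB.compl, compl_compl]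
  have u := (hB.tri hM n).resolve_left h
  have v := (hA.tri hM fun k => n (k.symm hB.z2 hA.z2)).resolve_left
    fun k => h (k.symm hM tf hA hB)
  tauto

theorem Lt.not_cross (hM : Mfd T) (tf : ∀ a : G, a ≠ 1 → ¬ IsOfFinOrder a) (hA : Wall T P A)
    (hB : Wall T Q B) (h : Lt P A Q B) : ¬ Cross P B :=
  ((lt_iff hM tf hA hB).1 h).1.not_cross hM hA.z2 hB

/-- only one corner is small -/
theorem Lt.not_right (hA : Wall T P A) (h : Lt P A Q B) : ¬ Lt P A Q Bᶜ := fun k =>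
  hA.not_sub SmP.empty (h.2.union k.2) fun x hx => .inr (by
    by_cases u : x ∈ B
    · exact .inr ⟨hx, fun w => w u⟩
    · exact .inl ⟨hx, u⟩)

theorem Lt.not_left (hA : Wall T P A) (hB : Wall T Q B) (h : Lt P A Q B) : ¬ Lt P Aᶜ Q B :=
  fun k => (h.compl hA.z2 hB.z2).not_right hB.compl (k.compl hA.z2 hB.z2)

theorem Lt.not_both (hM : Mfd T) (tf : ∀ a : G, a ≠ 1 → ¬ IsOfFinOrder a) (hA : Wall T P A)
    (hB : Wall T Q B) (h : Lt P A Q B) : ¬ Lt P Aᶜ Q Bᶜ := fun k =>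
  ((lt_iff hM tf hA hB).1 h).1.not_ins hM hA.z2 hB ((lt_iff hM tf hA.compl hB.compl).1 k).1

theorem Lt.asymm (hM : Mfd T) (tf : ∀ a : G, a ≠ 1 → ¬ IsOfFinOrder a) (hA : Wall T P A)
    (hB : Wall T Q B) (h : Lt P A Q B) : ¬ Lt Q B P A := fun k =>
  h.not_both hM tf hA hB (k.compl hB.z2 hA.z2)

theorem Par.refl (P : Subgroup G) (A : Set X0) : Par P A P A :=
  ⟨.refl P, SmP.empty.mono fun _ k => k Iff.rfl⟩

theorem Par.symm (hP : Z2 P) (hQ : Z2 Q) (h : Par P A Q B) : Par Q B P A :=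
  ⟨h.1.symm hP hQ, ((h.1.sm hP h.2).le inf_le_right).mono fun _ k u => k u.symm⟩

theorem Par.trans (hP : Z2 P) (hQ : Z2 Q) (h : Par P A Q B) (k : Par Q B R D) : Par P A R D :=
  ⟨h.1.trans k.1, (h.2.union (((h.1.symm hP hQ).sm hQ k.2).le inf_le_right)).mono fun x hx => by
    simp only [mem_union, mem_ofPred_eq] at hx ⊢
    tauto⟩

theorem Par.compl (h : Par P A Q B) : Par P Aᶜ Q Bᶜ :=
  ⟨h.1, h.2.mono fun _ k u => k (not_congr u)⟩

theorem Par.smul (h : Par P A Q B) (g : G) :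
    Par (MulAut.conj g • P) (g • A) (MulAut.conj g • Q) (g • B) :=
  ⟨(cm_smul g).2 h.1, (smp_smul g h.2).mono fun x hx => by
    simpa only [mem_smul_set_iff_inv_smul_mem, mem_ofPred_eq] using hx⟩

theorem Par.not_compl (hA : Wall T P A) (h : Par P A Q B) : ¬ Par P A Q Bᶜ := fun k =>
  hA.big ((h.2.union k.2).mono fun x _ => by
    simp only [mem_union, mem_ofPred_eq, mem_compl_iff]
    tauto)

theorem Fw.pow (f : Fw q B) {n : ℕ} (hn : 0 < n) : Fw (q ^ n) B := fun x => by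
  obtain ⟨N, hN⟩ := eventually_atTop.1 (f x)
  exact eventually_atTop.2 ⟨N, fun m hm => by
    rw [← pow_mul]; exact hN _ (hm.trans (Nat.le_mul_of_pos_left m hn))⟩

theorem Ins.cm (h : Ins P B) (k : Cm P R) : Ins R B :=
  let ⟨q, hq, f, b⟩ := h
  let ⟨n, a, v⟩ := k q hq
  ⟨q ^ n, v, f.pow a, inv_pow q n ▸ b.pow a⟩

theorem Cross.cm (h : Cross P B) (k : Cm P R) : Cross R B :=
  let ⟨q, hq, f, b⟩ := h
  let ⟨n, a, v⟩ := k q hq
  ⟨q ^ n, v, f.pow a, inv_pow q n ▸ b.pow a⟩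

theorem Fw.par (hB : Wall T Q B) (f : Fw q B) (h : Par Q B R D) : Fw q D := fun x => by
  by_contra n
  obtain ⟨m, a, b⟩ := smp_pow T.free h.2 (q := q) (x := x) (Nat.frequently_atTop_iff_infinite.1
    (((not_eventually.1 n).and_eventually (f x)).mono fun n k u => k.1 (u.1 k.2)))
  exact f.not_pow hB.compl.ne hB.inv m a b

theorem Ins.par (hB : Wall T Q B) (h : Ins P B) (k : Par Q B R D) : Ins P D :=
  let ⟨q, hq, f, b⟩ := h; ⟨q, hq, f.par hB k, b.par hB k⟩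

theorem Cross.par (hB : Wall T Q B) (h : Cross P B) (k : Par Q B R D) : Cross P D :=
  let ⟨q, hq, f, b⟩ := h; ⟨q, hq, f.par hB k, b.par hB.compl k.compl⟩

theorem Lt.par_right (hM : Mfd T) (tf : ∀ a : G, a ≠ 1 → ¬ IsOfFinOrder a) (hA : Wall T P A)
    (hB : Wall T Q B) (hD : Wall T R D) (h : Lt P A Q B) (k : Par Q B R D) : Lt P A R D :=
  let u := (lt_iff hM tf hA hB).1 h
  (lt_iff hM tf hA hD).2 ⟨u.1.par hB k, u.2.cm k.1⟩

theorem Lt.par_left (hM : Mfd T) (tf : ∀ a : G, a ≠ 1 → ¬ IsOfFinOrder a) (hA : Wall T P A)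
    (hB : Wall T Q B) (hD : Wall T R D) (h : Lt P A Q B) (k : Par P A R D) : Lt R D Q B :=
  let u := (lt_iff hM tf hA hB).1 h
  (lt_iff hM tf hD hB).2 ⟨u.1.cm k.1, u.2.par hA.compl k.compl⟩

theorem Lt.trans (hM : Mfd T) (tf : ∀ a : G, a ≠ 1 → ¬ IsOfFinOrder a) (hA : Wall T P A)
    (hB : Wall T Q B) (hD : Wall T R D) (h : Lt P A Q B) (k : Lt Q B R D) : Lt P A R D := by
  have t : Thin G (A \ D) := (h.2.union k.2).mono fun x hx => by
    by_cases u : x ∈ B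
    · exact .inr ⟨u, hx.2⟩
    · exact .inl ⟨hx.1, u⟩
  refine ⟨fun n => ?_, t⟩
  rcases hA.par hM hD n with u | u
  · exact (h.par_left hM tf hA hB hD u).asymm hM tf hD hB k
  · refine hA.not_sub u.2 t fun x hx => ?_
    by_cases v : x ∈ D
    · exact .inl fun w => w.1 hx v
    · exact .inr ⟨hx, v⟩

/-- an element that moves a side into itself crosses it -/
theorem hyp (hM : Mfd T) (hD : Wall T P D) (hC : C ≤ P) (h1 : ∀ c ∈ C, q⁻¹ * c * q ∈ C)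
    (h2 : ∀ c ∈ C, q * c * q⁻¹ ∈ C) (hq : ∀ n : ℕ, 0 < n → q ^ n ∉ P) (h : SmP C (q • D \ D)) :
    Fw q D ∧ Fw q⁻¹ Dᶜ ∨ Fw q⁻¹ D ∧ Fw q Dᶜ := by
  rcases hD.four hM hq with u | u | u
  · exact u
  · refine (hD.big' (((pass (q := q⁻¹) (S := univ) (by simpa using h2)
      (fun p hp => hD.inv p (hC hp)) (fun _ _ => trivial) (h.mono fun y hy =>
        ⟨mem_smul_set_iff_inv_smul_mem.2 hy.2.2, hy.2.1⟩) u.2
      (by rw [inv_inv]; exact u.1)).le hC).mono fun x hx => ⟨trivial, hx⟩)).elim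
  · refine (hD.big (((pass (S := univ) h1 (fun p hp => hD.compl.inv p (hC hp))
      (fun _ _ => trivial) ((smp_pre h1 h).mono fun y hy =>
        ⟨smul_mem_smul_set (not_not.1 hy.2.1), hy.2.2⟩) u.1 u.2).le hC).mono
      fun x hx => ⟨trivial, fun w => w hx⟩)).elim

/-- a lattice containing an element that moves a wall into itself, and an element of the wall,
crosses it -/
theorem Lt.hyp (hM : Mfd T) (tf : ∀ a : G, a ≠ 1 → ¬ IsOfFinOrder a) (hD : Wall T P D)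
    (hc : c ∈ P) (c1 : c ≠ 1) (cq : Commute c q) (h : Lt (MulAut.conj q • P) (q • D) P D) :
    Fw q D ∧ Fw q⁻¹ Dᶜ ∨ Fw q⁻¹ D ∧ Fw q Dᶜ := by
  have pw : ∀ n : ℕ, Lt (MulAut.conj (q ^ (n + 1)) • P) (q ^ (n + 1) • D) P D := fun n => by
    induction n with
    | zero => simpa using h
    | succ n ih =>
      have := ih.smul q
      rw [smul_smul, ← map_mul, smul_smul, ← pow_succ'] at this
      exact this.trans hM tf (hD.smul _) (hD.smul q) hD h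
  have cz : ∀ {g : G}, Commute c g → ∀ d ∈ Subgroup.zpowers c, g * d * g⁻¹ ∈ Subgroup.zpowers c := by
    rintro g hg _ ⟨n, rfl⟩
    exact ⟨n, by rw [← (hg.zpow_left n).eq, mul_inv_cancel_right]⟩
  refine Jw.hyp hM hD (Subgroup.zpowers_le.2 hc) (by simpa using cz cq.inv_right) (cz cq)
    (fun n hn k => ?_) (h.2.inv T.free (tf_int tf c1) fun y hy m => ⟨?_, fun k => hy.2
      ((hD.inv _ (P.zpow_mem hc m) y).1 k)⟩)
  · obtain ⟨m, rfl⟩ := Nat.exists_eq_succ_of_ne_zero hn.ne'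
    refine (pw m).1 fun p hp => ⟨1, one_pos, ?_⟩
    obtain ⟨r, hr, rfl⟩ := hp
    rw [pow_one]
    exact P.mul_mem (P.mul_mem k hr) (P.inv_mem k)
  · have := hy.1
    rw [mem_smul_set_iff_inv_smul_mem] at this ⊢
    rw [← mul_smul, ← (cq.inv_right.zpow_left m).eq, mul_smul]
    exact (hD.inv _ (P.zpow_mem hc m) _).2 this

/-- two crossings in different directions give three commuting independent elements -/
theorem Cross.three (hM : Mfd T) (tf : ∀ a : G, a ≠ 1 → ¬ IsOfFinOrder a) (hP : Z2 P)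
    (hB : Wall T Q B) (hD : Wall T R D) (h : Cross P B) (k : Cross P D)
    (n : ∀ c ∈ P ⊓ Q ⊓ R, c = 1) : ∃ a b c : G, Commute a b ∧ Commute a c ∧ Commute b c ∧
      ∀ i j l : ℤ, a ^ i * b ^ j * c ^ l = 1 → i = 0 ∧ j = 0 ∧ l = 0 := by
  obtain ⟨a, ha, a1⟩ := h.meet hM hP hB.toCut
  obtain ⟨b, hb, b1⟩ := k.meet hM hP hD.toCut
  have nb : ∀ j : ℤ, b ^ j ∈ Q → j = 0 := fun j u =>
    tf_int tf b1 j (n _ ⟨⟨P.zpow_mem hb.1 j, u⟩, R.zpow_mem hb.2 j⟩)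
  obtain ⟨c, hc, c1⟩ := (cross_of hb.2 (h.all hM hP hB hb.1 fun m hm u => by
    have := nb m (by rwa [zpow_natCast])
    omega)).meet hM hD.z2 hB.toCut
  refine ⟨a, b, c, hP.comm ha.1 hb.1, hB.z2.comm ha.2 hc.2, hD.z2.comm hb.2 hc.1, fun i j l e => ?_⟩
  have l0 : l = 0 := tf_int tf c1 l (n _ ⟨⟨by
    rw [eq_inv_of_mul_eq_one_right e]
    exact P.inv_mem (P.mul_mem (P.zpow_mem ha.1 i) (P.zpow_mem hb.1 j)), Q.zpow_mem hc.2 l⟩,
    R.zpow_mem hc.1 l⟩)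
  rw [l0, zpow_zero, mul_one] at e
  have j0 : j = 0 := nb j (by
    rw [eq_inv_of_mul_eq_one_right e]
    exact Q.inv_mem (Q.zpow_mem ha.2 i))
  rw [j0, zpow_zero, mul_one] at e
  exact ⟨tf_int tf a1 i e, j0, l0⟩

end Pool.Agent.Work.MP_3d425c_gt.Jw
end

-- merged part: Pool.Agent.Work.MP_3d425c_gt.Cw.Crs
section
/-! Canonical walls are nested exactly when they do not cross. -/

namespace Pool.Agent.Work.MP_3d425c_gt.Cw
open Set MulAction Pool.Agent.Work.MP_3d425c_gt.Md Pool.Agent.Work.MP_3d425c_gt.Bg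
  Pool.Agent.Work.MP_3d425c_gt.Jw Pool.Agent.Work.MP_3d425c_gt.Bq
open scoped Pointwise

variable {G X0 X1 X2 X3 : Type} [Group G] [MulAction G X0] [MulAction G X1] [MulAction G X2]
  [MulAction G X3] {T : Tri G X0 X1 X2 X3} {P : Subgroup G} {A B D : Set X0} {a b c q t : G}

theorem cr_inv (h : q • A = A) (x : X0) : q • x ∈ A ↔ x ∈ A := by
  conv_lhs => rw [← h]
  exact smul_mem_smul_set_iff

theorem Can.wall (S : Std T) (h : Can T A) : Wall T (stabilizer G A) A :=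
  ⟨⟨fun _ hp => cr_inv hp, h.fin⟩, h.z2 S, h.big S.mfd, h.big' S.mfd⟩

theorem cr_st (S : Std T) (h : Can T A) (e : q • A = A) : q • st T A = st T A := by
  rw [← h.st_smul S, e]

theorem cr_not_fw {Y Z : Set X0} (ne : Y.Nonempty) (e : q • Y = Y) (s : Y ⊆ Zᶜ) : ¬ Fw q Z :=
  fun f => by
  obtain ⟨x, hx⟩ := ne
  obtain ⟨n, hn⟩ := (f x).exists
  exact s ((cr_inv ((stabilizer G Y).pow_mem e n) x).2 hx) hn

/-- nested means not crossing -/
theorem nst_iff (S : Std T) (hA : Can T A) (hB : Can T B) :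
    Nst T A B ↔ ¬ Cross (stabilizer G A) B := by
  have wA := hA.wall S
  have wB := hB.wall S
  constructor
  · rintro h ⟨q, hq, f, b⟩
    have hi := (stabilizer G A).inv_mem hq
    rcases h with h | h | h | h
    · exact cr_not_fw wA.ne hi (by rwa [compl_compl]) b
    · exact cr_not_fw wA.ne hq (h.trans (hB.st_sub S)) f
    · exact cr_not_fw ((hA.star S).wall S).ne (cr_st S hA hi) (by rwa [compl_compl]) b
    · exact cr_not_fw wA.compl.ne (by rw [smul_set_compl, hq]) (compl_subset_compl.2 h) f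
  · intro h
    refine hA.nst S hB ?_
    rcases nest S.mfd S.tf wA wB h with (u | u) | u | u | u | u
    · exact .inl ((u.1.sm wA.z2 u.2).mono fun x hx k => hx.2 (k.1 hx.1))
    · exact .inr (.inl ((u.1.sm wA.z2 u.2).mono fun x hx k => k.1 hx.1 hx.2))
    · exact .inl (u.sm S.mfd S.tf wA wB)
    · exact .inr (.inl ((u.sm S.mfd S.tf wA wB.compl).mono fun x hx => ⟨hx.1, fun k => k hx.2⟩))
    · exact .inr (.inr (.inl ((u.sm S.mfd S.tf wA.compl wB).mono fun x hx => hx)))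
    · exact .inr (.inr (.inr ((u.sm S.mfd S.tf wA.compl wB.compl).mono
        fun x hx => ⟨hx.2, fun k => k hx.1⟩)))

theorem cross_of_not (S : Std T) (hA : Can T A) (hB : Can T B) (h : ¬ Nst T A B) :
    Cross (stabilizer G A) B := by_contra fun k => h ((nst_iff S hA hB).2 k)

theorem Nst.symm' (S : Std T) (hA : Can T A) (hB : Can T B) (h : Nst T A B) : Nst T B A :=
  (nst_iff S hB hA).2 fun k => (nst_iff S hA hB).1 h (k.symm S.mfd S.tf (hA.wall S) (hB.wall S))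

/-- an element of a lattice that fixes `A` and crosses `B` -/
theorem not_nst_of (S : Std T) (hA : Can T A) (hB : Can T B) (e : q • A = A) (f : Fw q B)
    (b : Fw q⁻¹ Bᶜ) : ¬ Nst T A B := fun h => (nst_iff S hA hB).1 h ⟨q, e, f, b⟩

/-- crossing walls have a common infinite cyclic stabiliser -/
theorem cross_gen (S : Std T) (hA : Can T A) (hB : Can T B) (h : ¬ Nst T A B) :
    ∃ c : G, c ≠ 1 ∧ stabilizer G A ⊓ stabilizer G B = Subgroup.zpowers c := by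
  have k := cross_of_not S hA hB h
  obtain ⟨c, e⟩ := (hA.wall S).z2.cyc (k.not_cm (hB.wall S))
  obtain ⟨d, hd, d1⟩ := k.meet S.mfd (hA.wall S).z2 (hB.wall S).toCut
  refine ⟨c, fun u => d1 ?_, e⟩
  rwa [e, u, Subgroup.zpowers_one_eq_bot, Subgroup.mem_bot] at hd

/-- every element that fixes `A` and has no power fixing `B` crosses `B` -/
theorem cross_ray (S : Std T) (hA : Can T A) (hB : Can T B) (h : ¬ Nst T A B) (e : t • A = A)
    (k : ∀ n : ℕ, 0 < n → t ^ n • B ≠ B) : Fw t B ∧ Fw t⁻¹ Bᶜ ∨ Fw t⁻¹ B ∧ Fw t Bᶜ :=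
  (cross_of_not S hA hB h).all S.mfd (hA.wall S).z2 (hB.wall S) e k

/-- the ray form: `c` fixes both walls and `t` is independent of `c` -/
theorem cross_z2 (S : Std T) (hA : Can T A) (hB : Can T B) (h : ¬ Nst T A B) (ca : c • A = A)
    (cb : c • B = B) (z : Z2 c t) (e : t • A = A) :
    Fw t B ∧ Fw t⁻¹ Bᶜ ∨ Fw t⁻¹ B ∧ Fw t Bᶜ := by
  refine cross_ray S hA hB h e fun n hn k => ?_
  obtain ⟨d, -, u⟩ := cross_gen S hA hB h
  obtain ⟨i, hi⟩ : c ∈ Subgroup.zpowers d := u ▸ ⟨ca, cb⟩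
  obtain ⟨j, hj⟩ : t ^ n ∈ Subgroup.zpowers d := u ▸ ⟨(stabilizer G A).pow_mem e n, k⟩
  have e1 : d ^ i = c := hi
  have e2 : d ^ j = t ^ (n : ℤ) := by rw [zpow_natCast]; exact hj
  have := z.2 j (n * -i) (by
    rw [zpow_mul, ← e1, ← e2, ← zpow_mul, ← zpow_mul, ← zpow_add]
    simp [mul_comm])
  have i0 : i = 0 := neg_eq_zero.1 ((mul_eq_zero.1 this.2).resolve_left (by omega))
  exact one_ne_zero (z.2 1 0 (by rw [← e1, i0]; simp)).1

/-- no corner of two crossing walls is thin -/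
theorem cross_thin (S : Std T) (hA : Can T A) (hB : Can T B) (h : ¬ Nst T A B) :
    ¬ Thin G (A ∩ B) ∧ ¬ Thin G (A \ B) ∧ ¬ Thin G (B \ A) ∧ ¬ Thin G (Aᶜ ∩ Bᶜ) := by
  have wA := hA.wall S
  have wB := hB.wall S
  have k := cross_of_not S hA hB h
  have n := k.not_cm wB
  refine ⟨fun u => ?_, fun u => ?_, fun u => ?_, fun u => ?_⟩
  · exact Lt.not_cross S.mfd S.tf wA wB.compl ⟨n, u.mono fun x hx => ⟨hx.1, not_not.1 hx.2⟩⟩ k.compl
  · exact Lt.not_cross S.mfd S.tf wA wB ⟨n, u⟩ k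
  · exact Lt.not_cross S.mfd S.tf wA.compl wB.compl
      ⟨n, u.mono fun x hx => ⟨not_not.1 hx.2, hx.1⟩⟩ k.compl
  · exact Lt.not_cross S.mfd S.tf wA.compl wB ⟨n, u⟩ k

theorem cross_corner (S : Std T) (hA : Can T A) (hB : Can T B) (h : ¬ Nst T A B) (c : G) :
    ¬ SmP (Subgroup.zpowers c) (A ∩ B) := fun k => (cross_thin S hA hB h).1 (thin_of k)

/-- an orbit on one side -/
theorem nst_of_orbit (S : Std T) (hA : Can T A) (hB : Can T B) (hP : Cm (stabilizer G A) P) (x : X0)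
    (h : (∀ p ∈ P, p • x ∈ B) ∨ ∀ p ∈ P, p • x ∉ B) : Nst T A B := by
  refine (nst_iff S hA hB).2 fun k => ?_
  obtain ⟨q, hq, f, b⟩ := k.cm hP
  rcases h with h | h
  · obtain ⟨n, hn⟩ := (b x).exists
    exact hn (h _ (P.pow_mem (P.inv_mem hq) n))
  · obtain ⟨n, hn⟩ := (f x).exists
    exact h _ (P.pow_mem hq n) hn

/-- two walls that cross a third one have a common direction -/
theorem one_dir (S : Std T) (h3 : ∀ a b c : G, Commute a b → Commute a c → Commute b c →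
      ¬ ∀ i j l : ℤ, a ^ i * b ^ j * c ^ l = 1 → i = 0 ∧ j = 0 ∧ l = 0)
    (hA : Can T A) (hB : Can T B) (hD : Can T D) (h : ¬ Nst T A B) (k : ¬ Nst T A D) :
    ∃ c : G, c ≠ 1 ∧ c • A = A ∧ c • B = B ∧ c • D = D := by
  by_contra n
  obtain ⟨a, b, c, u, v, w, i⟩ := Cross.three S.mfd S.tf (hA.wall S).z2 (hB.wall S) (hD.wall S)
    (cross_of_not S hA hB h) (cross_of_not S hA hD k) fun c hc => by_contra fun e =>
      n ⟨c, e, hc.1.1, hc.1.2, hc.2⟩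
  exact h3 a b c u v w i

end Pool.Agent.Work.MP_3d425c_gt.Cw
end
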